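import Mathlib
import Pool.Agent.H96.ExclusionDefs

/-!
# Exclusion on a segment in a ballistic environment: working definitions
-/

set_option autoImplicit false

namespace Pool.Agent.EBX

/-! ### Abstract finite continuous-time chains given by random maps -/

section Abstract

variable {S I : Type*} [Fintype S] [DecidableEq S]

/-- Rate matrix of the chain which applies the map `T i` at rate `c i`, for `i` in `J`. -/
noncomputable def gen (J : Finset I) (c : I → ℝ) (T : I → S → S) : Matrix S S ℝ :=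
  Matrix.of fun η ζ => ∑ i ∈ J, c i * ((if T i η = ζ then 1 else 0) - if η = ζ then 1 else 0)

/-- The semigroup `exp (t Q)` acting on functions. -/
noncomputable def sg (Q : Matrix S S ℝ) (t : ℝ) (f : S → ℝ) : S → ℝ :=
  (NormedSpace.exp (t • Q)).mulVec f

/-- Increasing functions for a relation `r`. -/
def Incr (r : S → S → Prop) (f : S → ℝ) : Prop := ∀ i j, r i j → f i ≤ f j

/-- The pairing `∑ π f g`. -/
def pair (π f g : S → ℝ) : ℝ := ∑ i, π i * (f i * g i)

/-- Detailed balance. -/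
def Rev (π : S → ℝ) (Q : Matrix S S ℝ) : Prop := ∀ i j, π i * Q i j = π j * Q j i

/-- Indicator of a set of states. -/
noncomputable def ind (E : Set S) : S → ℝ := E.indicator (fun _ => (1 : ℝ))

/-- Composition of the semigroups of a schedule, first entry applied first (outermost):
`run Qs [(A₁,t₁),(A₂,t₂)] f = sg (Qs A₁) t₁ (sg (Qs A₂) t₂ f)`. -/
noncomputable def run {K : Type*} (Qs : K → Matrix S S ℝ) : List (K × ℝ) → (S → ℝ) → (S → ℝ)
  | [], f => f
  | (A, t) :: l, f => sg (Qs A) t (run Qs l f)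

/-- Total duration of a schedule. -/
def dur {K : Type*} (l : List (K × ℝ)) : ℝ := (l.map Prod.snd).sum

end Abstract

/-! ### Configurations -/

/-- Configurations of `k` particles on the sites `0, …, N-1`. -/
abbrev St (N k : ℕ) : Type := {η : Finset ℕ // η ∈ (Finset.range N).powersetCard k}

/-- Move a particle from `x` to `x+1` if possible. -/
def up (x : ℕ) (η : Finset ℕ) : Finset ℕ :=
  if x ∈ η ∧ x + 1 ∉ η then insert (x + 1) (η.erase x) else η

/-- Move a particle from `x+1` to `x` if possible. -/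
def dn (x : ℕ) (η : Finset ℕ) : Finset ℕ :=
  if x + 1 ∈ η ∧ x ∉ η then insert x (η.erase (x + 1)) else η

theorem up_mem {N k x : ℕ} (hx : x + 1 < N) {η : Finset ℕ}
    (hη : η ∈ (Finset.range N).powersetCard k) : up x η ∈ (Finset.range N).powersetCard k := by
  unfold up
  split_ifs with h
  · rw [Finset.mem_powersetCard] at hη ⊢
    refine ⟨?_, ?_⟩
    · intro y hy
      rw [Finset.mem_insert, Finset.mem_erase] at hy
      rcases hy with rfl | hy
      · exact Finset.mem_range.2 hx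
      · exact hη.1 hy.2
    · rw [Finset.card_insert_of_notMem (fun hc => h.2 (Finset.mem_of_mem_erase hc)),
        Finset.card_erase_of_mem h.1]
      have : 0 < η.card := Finset.card_pos.2 ⟨x, h.1⟩
      omega
  · exact hη

theorem dn_mem {N k x : ℕ} (hx : x + 1 < N) {η : Finset ℕ}
    (hη : η ∈ (Finset.range N).powersetCard k) : dn x η ∈ (Finset.range N).powersetCard k := by
  unfold dn
  split_ifs with h
  · rw [Finset.mem_powersetCard] at hη ⊢
    refine ⟨?_, ?_⟩
    · intro y hy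
      rw [Finset.mem_insert, Finset.mem_erase] at hy
      rcases hy with rfl | hy
      · exact Finset.mem_range.2 (by omega)
      · exact hη.1 hy.2
    · rw [Finset.card_insert_of_notMem (fun hc => h.2 (Finset.mem_of_mem_erase hc)),
        Finset.card_erase_of_mem h.1]
      have : 0 < η.card := Finset.card_pos.2 ⟨x + 1, h.1⟩
      omega
  · exact hη

/-- `up` on `St N k` (identity if the bond is not inside the segment). -/
def Up (N k x : ℕ) (η : St N k) : St N k :=
  if h : x + 1 < N then ⟨up x η.1, up_mem h η.2⟩ else η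

/-- `dn` on `St N k` (identity if the bond is not inside the segment). -/
def Dn (N k x : ℕ) (η : St N k) : St N k :=
  if h : x + 1 < N then ⟨dn x η.1, dn_mem h η.2⟩ else η

/-- The map attached to `(x, b)`: up if `b = true`, down if `b = false`. -/
def mv (N k : ℕ) (i : ℕ × Bool) : St N k → St N k := if i.2 then Up N k i.1 else Dn N k i.1

/-- The rate attached to `(x, b)`. -/
def rt (p q : ℕ → ℝ) (i : ℕ × Bool) : ℝ := if i.2 then p i.1 else q i.1

/-- Generator of the exclusion process with active bonds `A` (bond `x` = the pair of sites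
`x, x+1`): a particle crosses bond `x` to the right at rate `p x` and to the left at rate `q x`. -/
noncomputable def QA (N k : ℕ) (p q : ℕ → ℝ) (A : Finset ℕ) : Matrix (St N k) (St N k) ℝ :=
  gen (A ×ˢ (Finset.univ : Finset Bool)) (rt p q) (mv N k)

/-- Height: the number of particles at sites `≥ y`. -/
def ht (η : Finset ℕ) (y : ℕ) : ℕ := (η.filter (fun x => y ≤ x)).card

/-- The height order. -/
def hle {N k : ℕ} (η ζ : St N k) : Prop := ∀ y, ht η.1 y ≤ ht ζ.1 y

/-- Reversible weight. -/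
noncomputable def wt (V : ℕ → ℝ) (η : Finset ℕ) : ℝ := Real.exp (-∑ x ∈ η, V x)

/-- Left packed configuration. -/
def botSt (N k : ℕ) (h : k ≤ N) : St N k :=
  ⟨Finset.range k, Finset.mem_powersetCard.2
    ⟨Finset.range_subset_range.2 h, Finset.card_range k⟩⟩

/-- Right packed configuration. -/
def topSt (N k : ℕ) (h : k ≤ N) : St N k :=
  ⟨Finset.Ico (N - k) N, Finset.mem_powersetCard.2
    ⟨fun _ hx => Finset.mem_range.2 (Finset.mem_Ico.1 hx).2, by rw [Nat.card_Ico]; omega⟩⟩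

/-- `w`-sorted inside `[a, b)`: no particle has a hole at distance `≥ w` on its right. -/
def Sorted (w a b : ℕ) (η : Finset ℕ) : Prop :=
  ∀ x y, a ≤ x → y < b → x + w ≤ y → x ∈ η → y ∈ η

/-- Rates and potential in detailed balance, with ellipticity constant `κ`. -/
structure Good (κ : ℝ) (p q V : ℕ → ℝ) : Prop where
  kpos : 0 < κ
  p_ge : ∀ x, κ ≤ p x
  q_ge : ∀ x, κ ≤ q x
  p_le : ∀ x, p x ≤ 1
  q_le : ∀ x, q x ≤ 1
  bal : ∀ x, p x * Real.exp (-V x) = q x * Real.exp (-V (x + 1))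

/-- `R` bounds the exponential of two disjoint rises of `V` inside `[a, b)`. -/
def Rise2 (V : ℕ → ℝ) (a b : ℕ) (R : ℝ) : Prop :=
  ∀ z j z' y, a ≤ z → z ≤ j → j ≤ z' → z' ≤ y → y < b →
    Real.exp ((V j - V z) + (V y - V z')) ≤ R

/-! ### Boxes -/

/-- Equilibrium of the closed box `[a, b)` given the configuration `η₀` outside: the law on the
configurations which agree with `η₀` outside the box, with weights `wt V`. -/
noncomputable def pic {N k : ℕ} (V : ℕ → ℝ) (a b : ℕ) (η₀ ζ : St N k) : ℝ :=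
  if ζ.1 \ Finset.Ico a b = η₀.1 \ Finset.Ico a b then
    wt V ζ.1 / ∑ ξ : St N k, if ξ.1 \ Finset.Ico a b = η₀.1 \ Finset.Ico a b then wt V ξ.1 else 0
  else 0

/-- The closed box `[a, b)`, run for time `t`, is `w`-sorted with probability `≥ 1 - δ`, whatever
the active bonds outside the box and the initial configuration. -/
def BoxOK (N k : ℕ) (p q : ℕ → ℝ) (w a b : ℕ) (t δ : ℝ) : Prop :=
  ∀ A : Finset ℕ, (∀ x ∈ A, x + 1 ≠ a) → b - 1 ∉ A → Finset.Ico a (b - 1) ⊆ A →
    ∀ η : St N k, sg (QA N k p q A) t (ind {ζ : St N k | ¬ Sorted w a b ζ.1}) η ≤ δ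

/-- Cut points. -/
structure Cuts (N w M : ℕ) (y : ℕ → ℕ) : Prop where
  y0 : y 0 = 0
  yM : y M = N
  lo : ∀ j < M, y j + 4 * w ≤ y (j + 1)
  hi : ∀ j < M, y (j + 1) ≤ y j + 12 * w

/-! ### Environment -/

/-- Extension of an environment on `Fin N` to `ℕ` (the values outside do not matter). -/
noncomputable def ext {N : ℕ} (ω : Fin N → ℝ) (x : ℕ) : ℝ := if h : x < N then ω ⟨x, h⟩ else 1 / 2

/-- Right rate of bond `x`. -/
noncomputable def pw {N : ℕ} (ω : Fin N → ℝ) (x : ℕ) : ℝ := ext ω x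

/-- Left rate of bond `x`. -/
noncomputable def qw {N : ℕ} (ω : Fin N → ℝ) (x : ℕ) : ℝ := 1 - ext ω (x + 1)

/-- Potential. -/
noncomputable def Vw {N : ℕ} (ω : Fin N → ℝ) (x : ℕ) : ℝ :=
  ∑ i ∈ Finset.range x, Real.log (qw ω i / pw ω i)

/-- Sum of the exponentials of two disjoint rises in the window `[x, x + 24 w) ∩ [0, N)`. -/
noncomputable def Z2 (N w : ℕ) (V : ℕ → ℝ) (x : ℕ) : ℝ :=
  ∑ a₁ ∈ Finset.Ico x (min N (x + 24 * w)), ∑ b₁ ∈ Finset.Ico a₁ (min N (x + 24 * w)),
    ∑ a₂ ∈ Finset.Ico b₁ (min N (x + 24 * w)), ∑ b₂ ∈ Finset.Ico a₂ (min N (x + 24 * w)),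
      Real.exp ((V b₁ - V a₁) + (V b₂ - V a₂))

/-- Two disjoint rises in `[a, b)` have total at most `h`. -/
def Ok2 (V : ℕ → ℝ) (a b : ℕ) (h : ℝ) : Prop :=
  ∀ a₁ b₁ a₂ b₂, a ≤ a₁ → a₁ ≤ b₁ → b₁ ≤ a₂ → a₂ ≤ b₂ → b₂ < b →
    (V b₁ - V a₁) + (V b₂ - V a₂) ≤ h

/-- The good environments. -/
structure EnvOK (N k w : ℕ) (V : ℕ → ℝ) (h e₁ Sl S : ℝ) : Prop where
  drop : ∀ x y, x + w ≤ y → y < N → Real.exp (V y - V x) ≤ e₁
  four : ∀ a₁ b₁ a₂ b₂ a₃ b₃ a₄ b₄, a₁ ≤ b₁ → b₁ ≤ a₂ → a₂ ≤ b₂ → b₂ ≤ a₃ → a₃ ≤ b₃ →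
    b₃ ≤ a₄ → a₄ ≤ b₄ → b₄ < N → b₄ ≤ a₁ + 50 * w →
    ((V b₁ - V a₁) + (V b₂ - V a₂)) + ((V b₃ - V a₃) + (V b₄ - V a₄)) ≤ h
  first : Ok2 V 0 (min N (4 * w)) (h / 2)
  last : Ok2 V (N - 12 * w) N (h / 2)
  slow : ∑ x ∈ Finset.range N, Z2 N w V x ≤ Sl
  fin : (∑ x ∈ Finset.range (N - k), Real.exp (V (N - k) - V x))
    + ∑ x ∈ Finset.Ico (N - k) N, Real.exp (V x - V (N - k)) ≤ S

end Pool.Agent.EBX
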