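import Mathlib

/-!
# The exchange inequality on a fibre
-/

set_option autoImplicit false

namespace Pool.Agent.EBX

variable {α : Type*} [DecidableEq α]

/-- Exchange `x` for `y`. -/
def exch (A : Finset α) (x y : α) : Finset α := insert y (A.erase x)

/-- Exchange energy of `g` on the `m`-subsets of `D`. -/
def exE (D : Finset α) (m : ℕ) (g : Finset α → ℝ) : ℝ :=
  ∑ A ∈ D.powersetCard m, ∑ x ∈ A, ∑ y ∈ D \ A, (g A - g (exch A x y)) ^ 2

/-- Antipodal energy of `g` on the `m`-subsets of `D`. -/
def anE (D : Finset α) (m : ℕ) (g : Finset α → ℝ) : ℝ :=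
  ∑ A ∈ D.powersetCard m, (g A - g (D \ A)) ^ 2

theorem exE_nonneg (D : Finset α) (m : ℕ) (g : Finset α → ℝ) : 0 ≤ exE D m g :=
  Finset.sum_nonneg fun _ _ => Finset.sum_nonneg fun _ _ => Finset.sum_nonneg fun _ _ =>
    sq_nonneg _

/-- Sum over `A`, `x ∈ A`, `y ∉ A` as a sum over ordered pairs `(x, y)` and the rest. -/
theorem sum_pairs (D : Finset α) (m : ℕ) (F : Finset α → α → α → ℝ) :
    ∑ A ∈ D.powersetCard (m + 1), ∑ x ∈ A, ∑ y ∈ D \ A, F A x y
      = ∑ x ∈ D, ∑ y ∈ D.erase x, ∑ B ∈ ((D.erase x).erase y).powersetCard m,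
          F (insert x B) x y := by
  rw [Finset.sum_congr rfl (fun A _ => Finset.sum_sigma' A (fun _ => D \ A) (fun x y => F A x y)),
    Finset.sum_sigma']
  rw [Finset.sum_congr rfl (fun x _ => Finset.sum_sigma' (D.erase x)
    (fun y => ((D.erase x).erase y).powersetCard m) (fun y B => F (insert x B) x y)),
    Finset.sum_sigma']
  refine Finset.sum_bij' (fun s _ => ⟨s.2.1, s.2.2, s.1.erase s.2.1⟩)
    (fun s _ => ⟨insert s.1 s.2.2, s.1, s.2.1⟩) ?_ ?_ ?_ ?_ ?_
  · rintro ⟨A, x, y⟩ h
    simp only [Finset.mem_sigma, Finset.mem_powersetCard, Finset.mem_sdiff] at h ⊢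
    obtain ⟨⟨hA, hc⟩, hx, hy, hyA⟩ := h
    refine ⟨hA hx, Finset.mem_erase.2 ⟨fun hyx => hyA (hyx ▸ hx), hy⟩, ?_, ?_⟩
    · intro z hz
      rw [Finset.mem_erase] at hz
      refine Finset.mem_erase.2 ⟨fun hzy => hyA (hzy ▸ hz.2), Finset.mem_erase.2 ⟨hz.1, hA hz.2⟩⟩
    · rw [Finset.card_erase_of_mem hx, hc]; rfl
  · rintro ⟨x, y, B⟩ h
    simp only [Finset.mem_sigma, Finset.mem_powersetCard, Finset.mem_sdiff, Finset.mem_erase] at h ⊢
    obtain ⟨hx, ⟨hyx, hy⟩, hB, hc⟩ := h
    have hxB : x ∉ B := fun hxB => by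
      have := hB hxB
      simp at this
    have hyB : y ∉ B := fun hyB => by
      have := hB hyB
      simp at this
    refine ⟨⟨?_, ?_⟩, Finset.mem_insert_self x B, hy, ?_⟩
    · intro z hz
      rcases Finset.mem_insert.1 hz with rfl | hz
      · exact hx
      · have := hB hz
        simp only [Finset.mem_erase] at this
        exact this.2.2
    · rw [Finset.card_insert_of_notMem hxB, hc]
    · intro hz
      rcases Finset.mem_insert.1 hz with h1 | h1
      · exact hyx h1
      · exact hyB h1
  · rintro ⟨A, x, y⟩ h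
    simp only [Finset.mem_sigma, Finset.mem_powersetCard, Finset.mem_sdiff] at h
    simp only [Finset.insert_erase h.2.1]
  · rintro ⟨x, y, B⟩ h
    simp only [Finset.mem_sigma, Finset.mem_powersetCard, Finset.mem_erase] at h
    obtain ⟨hx, ⟨hyx, hy⟩, hB, hc⟩ := h
    have hxB : x ∉ B := fun hxB => by
      have := hB hxB
      simp at this
    simp only [Finset.erase_insert hxB]
  · rintro ⟨A, x, y⟩ h
    simp only [Finset.mem_sigma, Finset.mem_powersetCard, Finset.mem_sdiff] at h
    simp only [Finset.insert_erase h.2.1]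

theorem sum_sum_erase (A : Finset α) (h : α → ℝ) :
    ∑ y ∈ A, ∑ u ∈ A.erase y, h u = ((A.card : ℝ) - 1) * ∑ u ∈ A, h u := by
  have h1 : ∀ y ∈ A, ∑ u ∈ A.erase y, h u = ∑ u ∈ A, h u - h y := fun y hy =>
    Finset.sum_erase_eq_sub hy
  rw [Finset.sum_congr rfl h1, Finset.sum_sub_distrib, Finset.sum_const, nsmul_eq_mul]
  ring

theorem exE_rec (D : Finset α) (m : ℕ) (hD : D.card = 2 * (m + 1)) (g : Finset α → ℝ) :
    ∑ x ∈ D, ∑ y ∈ D.erase x, exE ((D.erase x).erase y) m (fun B => g (insert y B))
      = (m : ℝ) ^ 2 * exE D (m + 1) g := by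
  have h1 : ∑ x ∈ D, ∑ y ∈ D.erase x, exE ((D.erase x).erase y) m (fun B => g (insert y B))
      = ∑ y ∈ D, ∑ x ∈ D.erase y, exE ((D.erase y).erase x) m (fun B => g (insert y B)) := by
    rw [Finset.sum_comm' (s := D) (t := fun x => D.erase x) (t' := D) (s' := fun y => D.erase y)]
    · refine Finset.sum_congr rfl fun y _ => Finset.sum_congr rfl fun x _ => ?_
      rw [Finset.erase_right_comm]
    · intro x y
      simp only [Finset.mem_erase]
      tauto
  rw [h1]
  have h2 := sum_pairs D m (fun A y x => ∑ u ∈ A.erase y, ∑ v ∈ (D \ A).erase x,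
    (g A - g (exch A u v)) ^ 2)
  have h3 : ∀ y ∈ D, ∀ x ∈ D.erase y, exE ((D.erase y).erase x) m (fun B => g (insert y B))
      = ∑ B ∈ ((D.erase y).erase x).powersetCard m,
        ∑ u ∈ (insert y B).erase y, ∑ v ∈ (D \ (insert y B)).erase x,
          (g (insert y B) - g (exch (insert y B) u v)) ^ 2 := by
    intro y hy x hx
    unfold exE
    refine Finset.sum_congr rfl fun B hB => ?_
    rw [Finset.mem_powersetCard] at hB
    have hyB : y ∉ B := fun hyB => by
      have := hB.1 hyB
      simp at this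
    have hxB : x ∉ B := fun hyB => by
      have := hB.1 hyB
      simp at this
    rw [Finset.erase_insert hyB]
    have h4 : (D \ (insert y B)).erase x = ((D.erase y).erase x) \ B := by
      ext z
      simp only [Finset.mem_erase, Finset.mem_sdiff, Finset.mem_insert]
      tauto
    rw [h4]
    refine Finset.sum_congr rfl fun u hu => Finset.sum_congr rfl fun v hv => ?_
    have hyu : y ≠ u := fun h => hyB (h ▸ hu)
    have h5 : exch (insert y B) u v = insert y (exch B u v) := by
      unfold exch
      rw [Finset.erase_insert_of_ne hyu, Finset.insert_comm]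
    rw [h5]
  rw [Finset.sum_congr rfl (fun y hy => Finset.sum_congr rfl (fun x hx => h3 y hy x hx)), ← h2]
  unfold exE
  rw [Finset.mul_sum]
  refine Finset.sum_congr rfl fun A hA => ?_
  rw [Finset.mem_powersetCard] at hA
  have hc : (D \ A).card = m + 1 := by
    rw [Finset.card_sdiff_of_subset hA.1, hD, hA.2]; omega
  have h6 : ∀ y ∈ A, ∑ x ∈ D \ A, ∑ u ∈ A.erase y, ∑ v ∈ (D \ A).erase x,
      (g A - g (exch A u v)) ^ 2
      = (m : ℝ) * ∑ u ∈ A.erase y, ∑ v ∈ D \ A, (g A - g (exch A u v)) ^ 2 := by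
    intro y _
    rw [Finset.sum_comm, Finset.mul_sum]
    refine Finset.sum_congr rfl fun u _ => ?_
    rw [sum_sum_erase, hc]
    push_cast
    ring
  rw [Finset.sum_congr rfl h6, ← Finset.mul_sum, sum_sum_erase, hA.2]
  push_cast
  ring

theorem fibre_ineq (m : ℕ) : ∀ (D : Finset α), D.card = 2 * m → ∀ g : Finset α → ℝ,
    anE D m g ≤ exE D m g := by
  induction m with
  | zero =>
    intro D hD g
    have hD0 : D = ∅ := Finset.card_eq_zero.1 (by simpa using hD)
    subst hD0
    have : anE (∅ : Finset α) 0 g = 0 := by simp [anE]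
    rw [this]
    exact exE_nonneg _ _ _
  | succ m ih =>
    intro D hD g
    -- left-hand side
    have hL : ∑ A ∈ D.powersetCard (m + 1), ∑ x ∈ A, ∑ y ∈ D \ A, (g A - g (D \ A)) ^ 2
        = ((m : ℝ) + 1) ^ 2 * anE D (m + 1) g := by
      unfold anE
      rw [Finset.mul_sum]
      refine Finset.sum_congr rfl fun A hA => ?_
      rw [Finset.mem_powersetCard] at hA
      have hc : (D \ A).card = m + 1 := by
        rw [Finset.card_sdiff_of_subset hA.1, hD, hA.2]; omega
      rw [Finset.sum_const, Finset.sum_const, hc, hA.2]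
      simp only [nsmul_eq_mul]
      push_cast
      ring
    have hE : exE D (m + 1) g = ∑ x ∈ D, ∑ y ∈ D.erase x,
        ∑ B ∈ ((D.erase x).erase y).powersetCard m, (g (insert x B) - g (insert y B)) ^ 2 := by
      unfold exE
      rw [sum_pairs D m (fun A x y => (g A - g (exch A x y)) ^ 2)]
      refine Finset.sum_congr rfl fun x _ => Finset.sum_congr rfl fun y _ =>
        Finset.sum_congr rfl fun B hB => ?_
      rw [Finset.mem_powersetCard] at hB
      have hxB : x ∉ B := fun hyB => by
        have := hB.1 hyB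
        simp at this
      unfold exch
      rw [Finset.erase_insert hxB]
    have hL2 : ((m : ℝ) + 1) ^ 2 * anE D (m + 1) g = ∑ x ∈ D, ∑ y ∈ D.erase x,
        ∑ B ∈ ((D.erase x).erase y).powersetCard m,
          (g (insert x B) - g (insert y (((D.erase x).erase y) \ B))) ^ 2 := by
      rw [← hL, sum_pairs D m (fun A _ _ => (g A - g (D \ A)) ^ 2)]
      refine Finset.sum_congr rfl fun x hx => Finset.sum_congr rfl fun y hy =>
        Finset.sum_congr rfl fun B hB => ?_
      rw [Finset.mem_powersetCard] at hB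
      have hyB : y ∉ B := fun hyB => by
        have := hB.1 hyB
        simp at this
      rw [Finset.mem_erase] at hy
      have h4 : D \ (insert x B) = insert y (((D.erase x).erase y) \ B) := by
        ext z
        simp only [Finset.mem_erase, Finset.mem_sdiff, Finset.mem_insert]
        constructor
        · rintro ⟨hz, hn⟩
          push Not at hn
          by_cases hzy : z = y
          · exact Or.inl hzy
          · exact Or.inr ⟨⟨hzy, hn.1, hz⟩, hn.2⟩
        · rintro (rfl | ⟨⟨hzy, hzx, hz⟩, hzB⟩)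
          · exact ⟨hy.2, by push Not; exact ⟨hy.1, hyB⟩⟩
          · exact ⟨hz, by push Not; exact ⟨hzx, hzB⟩⟩
      rw [h4]
    have hR2 : ∑ x ∈ D, ∑ y ∈ D.erase x,
        ∑ B ∈ ((D.erase x).erase y).powersetCard m,
          (g (insert y B) - g (insert y (((D.erase x).erase y) \ B))) ^ 2
        ≤ (m : ℝ) ^ 2 * exE D (m + 1) g := by
      rw [← exE_rec D m hD g]
      refine Finset.sum_le_sum fun x hx => Finset.sum_le_sum fun y hy => ?_
      refine ih ((D.erase x).erase y) ?_ (fun B => g (insert y B))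
      rw [Finset.card_erase_of_mem hy, Finset.card_erase_of_mem hx, hD]
      omega
    rcases Nat.eq_zero_or_pos m with hm | hm
    · subst hm
      rw [hE]
      have : ((0 : ℕ) : ℝ) + 1 = 1 := by norm_num
      rw [this, one_pow, one_mul] at hL2
      rw [hL2]
      refine le_of_eq (Finset.sum_congr rfl fun x hx => Finset.sum_congr rfl fun y hy =>
        Finset.sum_congr rfl fun B hB => ?_)
      rw [Finset.mem_powersetCard] at hB
      have hB0 : B = ∅ := Finset.card_eq_zero.1 hB.2
      have hDc : ((D.erase x).erase y).card = 0 := by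
        rw [Finset.card_erase_of_mem hy, Finset.card_erase_of_mem hx, hD]
      have hD2 : ((D.erase x).erase y) \ B = B := by
        rw [Finset.card_eq_zero.1 hDc, hB0]
        rfl
      rw [hD2]
    · have hmpos : (0 : ℝ) < m := by exact_mod_cast hm
      have hkey : ((m : ℝ) + 1) ^ 2 * anE D (m + 1) g
          ≤ ((m : ℝ) + 1) * exE D (m + 1) g + (((m : ℝ) + 1) / m) * ((m : ℝ) ^ 2 *
            exE D (m + 1) g) := by
        rw [hL2]
        refine le_trans ?_ (add_le_add le_rfl (mul_le_mul_of_nonneg_left hR2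
          (by positivity : (0 : ℝ) ≤ ((m : ℝ) + 1) / m)))
        rw [hE]
        simp only [Finset.mul_sum]
        simp only [← Finset.sum_add_distrib]
        refine Finset.sum_le_sum fun x _ => Finset.sum_le_sum fun y _ =>
          Finset.sum_le_sum fun B _ => ?_
        set a := g (insert x B) with ha
        set b := g (insert y B) with hb
        set c := g (insert y (((D.erase x).erase y) \ B)) with hc
        have h1 : ((m : ℝ) + 1) * (a - b) ^ 2 + ((m : ℝ) + 1) / m * (b - c) ^ 2 - (a - c) ^ 2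
            = (m * (a - b) - (b - c)) ^ 2 / m := by
          field_simp
          ring
        have h2 : 0 ≤ (m * (a - b) - (b - c)) ^ 2 / m := by positivity
        linarith
      have hsimp : ((m : ℝ) + 1) * exE D (m + 1) g + (((m : ℝ) + 1) / m) * ((m : ℝ) ^ 2 *
            exE D (m + 1) g) = ((m : ℝ) + 1) ^ 2 * exE D (m + 1) g := by
        field_simp
        ring
      rw [hsimp] at hkey
      exact le_of_mul_le_mul_left hkey (by positivity)

end Pool.Agent.EBX
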