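import Mathlib
import Pool.Agent.EBX.Fibre

/-!
# The exchange inequality for weighted subsets of fixed size
-/

set_option autoImplicit false

namespace Pool.Agent.EBX

section General

variable {α : Type*} [DecidableEq α]

theorem exch_union (C A : Finset α) (x y : α) (hx : x ∉ C) :
    exch (C ∪ A) x y = C ∪ exch A x y := by
  unfold exch
  ext z
  simp only [Finset.mem_insert, Finset.mem_erase, Finset.mem_union]
  constructor
  · rintro (h | ⟨h1, h2 | h2⟩)
    · exact Or.inr (Or.inl h)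
    · exact Or.inl h2
    · exact Or.inr (Or.inr ⟨h1, h2⟩)
  · rintro (h | h | ⟨h1, h2⟩)
    · exact Or.inr ⟨fun hzx => hx (hzx ▸ h), Or.inl h⟩
    · exact Or.inl h
    · exact Or.inr ⟨h1, Or.inr h2⟩

theorem exchange_pairs (n : ℕ) (W : Finset α) (z : α → ℝ) (hz : ∀ x ∈ W, 0 ≤ z x)
    (f : Finset α → ℝ) :
    ∑ A ∈ W.powersetCard n, ∑ B ∈ W.powersetCard n,
        (∏ x ∈ A, z x) * (∏ x ∈ B, z x) * (f A - f B) ^ 2
      ≤ ∑ A ∈ W.powersetCard n, ∑ B ∈ W.powersetCard n,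
        (∏ x ∈ A, z x) * (∏ x ∈ B, z x) *
          ∑ x ∈ A \ B, ∑ y ∈ B \ A, (f A - f (exch A x y)) ^ 2 := by
  rw [← Finset.sum_product', ← Finset.sum_product']
  have hmaps : ∀ s ∈ W.powersetCard n ×ˢ W.powersetCard n,
      (s.1 ∩ s.2, s.1 ∪ s.2) ∈ W.powerset ×ˢ W.powerset := by
    rintro ⟨A, B⟩ h
    simp only [Finset.mem_product, Finset.mem_powersetCard, Finset.mem_powerset] at h ⊢
    exact ⟨Finset.inter_subset_left.trans h.1.1, Finset.union_subset h.1.1 h.2.1⟩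
  rw [← Finset.sum_fiberwise_of_maps_to hmaps, ← Finset.sum_fiberwise_of_maps_to hmaps]
  refine Finset.sum_le_sum fun CU hCU => ?_
  obtain ⟨C, U⟩ := CU
  simp only [Finset.mem_product, Finset.mem_powerset] at hCU
  set F := (W.powersetCard n ×ˢ W.powersetCard n).filter
    (fun s => (s.1 ∩ s.2, s.1 ∪ s.2) = (C, U)) with hF
  rcases F.eq_empty_or_nonempty with hFe | ⟨⟨A₀, B₀⟩, h₀⟩
  · rw [hFe]; simp
  have hmem : ∀ A B : Finset α, (A, B) ∈ F ↔
      (A ⊆ W ∧ A.card = n) ∧ (B ⊆ W ∧ B.card = n) ∧ A ∩ B = C ∧ A ∪ B = U := by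
    intro A B
    simp only [hF, Finset.mem_filter, Finset.mem_product, Finset.mem_powersetCard,
      Prod.mk.injEq]
    tauto
  obtain ⟨⟨hA₀, hcA₀⟩, ⟨hB₀, hcB₀⟩, hI, hU⟩ := (hmem A₀ B₀).1 h₀
  have hCn : C.card ≤ n := by
    rw [← hI, ← hcA₀]; exact Finset.card_le_card Finset.inter_subset_left
  have hCU2 : C ⊆ U := by
    rw [← hI, ← hU]; exact Finset.inter_subset_left.trans Finset.subset_union_left
  have hcard : U.card + C.card = 2 * n := by
    have := Finset.card_union_add_card_inter A₀ B₀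
    rw [hU, hI, hcA₀, hcB₀] at this
    omega
  set m := n - C.card with hm
  set D := U \ C with hDdef
  have hD : D.card = 2 * m := by
    rw [hDdef, Finset.card_sdiff_of_subset hCU2]; omega
  have hCD : Disjoint C D := Finset.disjoint_sdiff
  have hUW : U ⊆ W := hCU.2
  -- transfer of sums
  have hsum : ∀ G : Finset α → Finset α → ℝ, ∑ s ∈ F, G s.1 s.2
      = ∑ A ∈ D.powersetCard m, G (C ∪ A) (C ∪ (D \ A)) := by
    intro G
    refine Finset.sum_bij' (fun s _ => s.1 \ C) (fun A _ => (C ∪ A, C ∪ (D \ A))) ?_ ?_ ?_ ?_ ?_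
    · rintro ⟨A, B⟩ h
      obtain ⟨⟨hA, hcA⟩, ⟨hB, hcB⟩, h1, h2⟩ := (hmem A B).1 h
      have hCA : C ⊆ A := by rw [← h1]; exact Finset.inter_subset_left
      have hAU : A ⊆ U := by rw [← h2]; exact Finset.subset_union_left
      rw [Finset.mem_powersetCard]
      exact ⟨Finset.sdiff_subset_sdiff hAU (Finset.Subset.refl C),
        by rw [Finset.card_sdiff_of_subset hCA, hcA]⟩
    · intro A hA
      rw [Finset.mem_powersetCard] at hA
      have hAC : Disjoint C A := hCD.mono_right hA.1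
      have hAC' : Disjoint C (D \ A) := hCD.mono_right Finset.sdiff_subset
      have hAU : C ∪ A ⊆ U := Finset.union_subset hCU2 (hA.1.trans Finset.sdiff_subset)
      have hAU' : C ∪ (D \ A) ⊆ U := Finset.union_subset hCU2
        (Finset.sdiff_subset.trans Finset.sdiff_subset)
      refine (hmem _ _).2 ⟨⟨hAU.trans hUW, ?_⟩, ⟨hAU'.trans hUW, ?_⟩, ?_, ?_⟩
      · rw [Finset.card_union_of_disjoint hAC, hA.2]; omega
      · rw [Finset.card_union_of_disjoint hAC', Finset.card_sdiff_of_subset hA.1, hD, hA.2]; omega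
      · rw [← Finset.union_inter_distrib_left, Finset.inter_sdiff_self, Finset.union_empty]
      · rw [← Finset.union_union_distrib_left, Finset.union_sdiff_of_subset hA.1,
          Finset.union_sdiff_of_subset hCU2]
    · rintro ⟨A, B⟩ h
      obtain ⟨⟨hA, hcA⟩, ⟨hB, hcB⟩, h1, h2⟩ := (hmem A B).1 h
      have hCA : C ⊆ A := by rw [← h1]; exact Finset.inter_subset_left
      have hCB : C ⊆ B := by rw [← h1]; exact Finset.inter_subset_right
      have e1 : C ∪ (A \ C) = A := Finset.union_sdiff_of_subset hCA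
      have e2 : C ∪ (D \ (A \ C)) = B := by
        ext x
        have h1x : x ∈ C ↔ x ∈ A ∧ x ∈ B := by rw [← h1]; exact Finset.mem_inter
        have h2x : x ∈ U ↔ x ∈ A ∨ x ∈ B := by rw [← h2]; exact Finset.mem_union
        simp only [hDdef, Finset.mem_union, Finset.mem_sdiff]
        tauto
      simp only [e1, e2]
    · intro A hA
      rw [Finset.mem_powersetCard] at hA
      have hAC : Disjoint C A := hCD.mono_right hA.1
      exact Finset.union_sdiff_cancel_left hAC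
    · rintro ⟨A, B⟩ h
      obtain ⟨⟨hA, hcA⟩, ⟨hB, hcB⟩, h1, h2⟩ := (hmem A B).1 h
      have hCA : C ⊆ A := by rw [← h1]; exact Finset.inter_subset_left
      have e1 : C ∪ (A \ C) = A := Finset.union_sdiff_of_subset hCA
      have e2 : C ∪ (D \ (A \ C)) = B := by
        ext x
        have h1x : x ∈ C ↔ x ∈ A ∧ x ∈ B := by rw [← h1]; exact Finset.mem_inter
        have h2x : x ∈ U ↔ x ∈ A ∨ x ∈ B := by rw [← h2]; exact Finset.mem_union
        simp only [hDdef, Finset.mem_union, Finset.mem_sdiff]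
        tauto
      simp only [e1, e2]
  have hprod : ∀ A ∈ D.powersetCard m, (∏ x ∈ C ∪ A, z x) * (∏ x ∈ C ∪ (D \ A), z x)
      = (∏ x ∈ U, z x) * (∏ x ∈ C, z x) := by
    intro A hA
    rw [Finset.mem_powersetCard] at hA
    rw [← Finset.prod_union_inter]
    congr 2
    · rw [← Finset.union_union_distrib_left, Finset.union_sdiff_of_subset hA.1,
          Finset.union_sdiff_of_subset hCU2]
    · rw [← Finset.union_inter_distrib_left, Finset.inter_sdiff_self, Finset.union_empty]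
  have hnn : 0 ≤ (∏ x ∈ U, z x) * (∏ x ∈ C, z x) :=
    mul_nonneg (Finset.prod_nonneg fun x hx => hz x (hUW hx))
      (Finset.prod_nonneg fun x hx => hz x (hUW (hCU2 hx)))
  rw [hsum (fun A B => (∏ x ∈ A, z x) * (∏ x ∈ B, z x) * (f A - f B) ^ 2),
    hsum (fun A B => (∏ x ∈ A, z x) * (∏ x ∈ B, z x) *
          ∑ x ∈ A \ B, ∑ y ∈ B \ A, (f A - f (exch A x y)) ^ 2)]
  have hL : ∑ A ∈ D.powersetCard m, (∏ x ∈ C ∪ A, z x) * (∏ x ∈ C ∪ (D \ A), z x)
      * (f (C ∪ A) - f (C ∪ (D \ A))) ^ 2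
      = ((∏ x ∈ U, z x) * (∏ x ∈ C, z x)) * anE D m (fun A => f (C ∪ A)) := by
    unfold anE
    rw [Finset.mul_sum]
    exact Finset.sum_congr rfl fun A hA => by rw [hprod A hA]
  have hR : ∑ A ∈ D.powersetCard m, (∏ x ∈ C ∪ A, z x) * (∏ x ∈ C ∪ (D \ A), z x)
      * ∑ x ∈ (C ∪ A) \ (C ∪ (D \ A)), ∑ y ∈ (C ∪ (D \ A)) \ (C ∪ A),
        (f (C ∪ A) - f (exch (C ∪ A) x y)) ^ 2
      = ((∏ x ∈ U, z x) * (∏ x ∈ C, z x)) * exE D m (fun A => f (C ∪ A)) := by
    unfold exE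
    rw [Finset.mul_sum]
    refine Finset.sum_congr rfl fun A hA => ?_
    rw [hprod A hA]
    rw [Finset.mem_powersetCard] at hA
    have e1 : (C ∪ A) \ (C ∪ (D \ A)) = A := by
      ext x
      have h1 : x ∈ A → x ∉ C := fun hx hxC =>
        Finset.disjoint_left.1 hCD hxC (hA.1 hx)
      simp only [Finset.mem_union, Finset.mem_sdiff]
      tauto
    have e2 : (C ∪ (D \ A)) \ (C ∪ A) = D \ A := by
      ext x
      have h1 : x ∈ D → x ∉ C := fun hx hxC =>
        Finset.disjoint_left.1 hCD hxC hx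
      simp only [Finset.mem_union, Finset.mem_sdiff]
      tauto
    rw [e1, e2]
    congr 1
    refine Finset.sum_congr rfl fun x hx => Finset.sum_congr rfl fun y _ => ?_
    rw [exch_union C A x y (fun hxC => Finset.disjoint_left.1 hCD hxC (hA.1 hx))]
  rw [hL, hR]
  exact mul_le_mul_of_nonneg_left (fibre_ineq m D hD _) hnn

end General

/-- The exchange inequality: variance of `f` under the weighted measure on `n`-subsets of `W`,
bounded by the energy of exchanges to the right. -/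
theorem exchange_var (n : ℕ) (W : Finset ℕ) (z : ℕ → ℝ) (hz : ∀ x ∈ W, 0 ≤ z x)
    (f : Finset ℕ → ℝ) :
    ∑ A ∈ W.powersetCard n, ∑ B ∈ W.powersetCard n,
        (∏ x ∈ A, z x) * (∏ x ∈ B, z x) * (f A - f B) ^ 2
      ≤ 2 * (∑ B ∈ W.powersetCard n, ∏ x ∈ B, z x) *
        ∑ A ∈ W.powersetCard n, (∏ x ∈ A, z x) *
          ∑ x ∈ A, ∑ y ∈ (W \ A).filter (fun y => x < y), (f A - f (exch A x y)) ^ 2 := by
  refine (exchange_pairs n W z hz f).trans ?_
  have hsplit : ∑ A ∈ W.powersetCard n, ∑ B ∈ W.powersetCard n,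
        (∏ x ∈ A, z x) * (∏ x ∈ B, z x) *
          ∑ x ∈ A \ B, ∑ y ∈ B \ A, (f A - f (exch A x y)) ^ 2
      = (∑ A ∈ W.powersetCard n, ∑ B ∈ W.powersetCard n, ∑ x ∈ A \ B,
          ∑ y ∈ (B \ A).filter (fun y => x < y),
            (∏ x ∈ A, z x) * (∏ x ∈ B, z x) * (f A - f (exch A x y)) ^ 2)
        + ∑ A ∈ W.powersetCard n, ∑ B ∈ W.powersetCard n, ∑ x ∈ A \ B,
          ∑ y ∈ (B \ A).filter (fun y => ¬ x < y),
            (∏ x ∈ A, z x) * (∏ x ∈ B, z x) * (f A - f (exch A x y)) ^ 2 := by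
    simp only [← Finset.sum_add_distrib, Finset.mul_sum]
    refine Finset.sum_congr rfl fun A _ => Finset.sum_congr rfl fun B _ =>
      Finset.sum_congr rfl fun x _ => ?_
    rw [Finset.sum_filter_add_sum_filter_not]
  have hswap : (∑ A ∈ W.powersetCard n, ∑ B ∈ W.powersetCard n, ∑ x ∈ A \ B,
          ∑ y ∈ (B \ A).filter (fun y => ¬ x < y),
            (∏ x ∈ A, z x) * (∏ x ∈ B, z x) * (f A - f (exch A x y)) ^ 2)
      = ∑ A ∈ W.powersetCard n, ∑ B ∈ W.powersetCard n, ∑ x ∈ A \ B,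
          ∑ y ∈ (B \ A).filter (fun y => x < y),
            (∏ x ∈ A, z x) * (∏ x ∈ B, z x) * (f A - f (exch A x y)) ^ 2 := by
    simp only [Finset.sum_sigma']
    have key : ∀ (A B : Finset ℕ) (x y : ℕ), A ∈ W.powersetCard n → B ∈ W.powersetCard n →
        x ∈ A → x ∉ B → y ∈ B → y ∉ A →
        exch A x y ∈ W.powersetCard n ∧ exch B y x ∈ W.powersetCard n ∧
        y ∈ exch A x y ∧ y ∉ exch B y x ∧ x ∈ exch B y x ∧ x ∉ exch A x y ∧
        exch (exch A x y) y x = A ∧ exch (exch B y x) x y = B ∧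
        (∏ u ∈ exch A x y, z u) * (∏ u ∈ exch B y x, z u)
          = (∏ u ∈ A, z u) * (∏ u ∈ B, z u) := by
      intro A B x y hA hB hxA hxB hyB hyA
      rw [Finset.mem_powersetCard] at hA hB
      have hxy : x ≠ y := fun h => hyA (h ▸ hxA)
      have gen : ∀ (A : Finset ℕ) (x y : ℕ), A ⊆ W → A.card = n → x ∈ A → y ∈ W → y ∉ A →
          exch A x y ∈ W.powersetCard n ∧ exch (exch A x y) y x = A ∧
          (∏ u ∈ exch A x y, z u) * z x = (∏ u ∈ A, z u) * z y := by
        intro A x y hA hc hx hyW hy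
        have hxy : x ≠ y := fun h => hy (h ▸ hx)
        have hyE : y ∉ A.erase x := fun h => hy (Finset.mem_of_mem_erase h)
        refine ⟨?_, ?_, ?_⟩
        · rw [Finset.mem_powersetCard]
          refine ⟨?_, ?_⟩
          · intro u hu
            rcases Finset.mem_insert.1 hu with rfl | hu
            · exact hyW
            · exact hA (Finset.mem_of_mem_erase hu)
          · unfold exch
            rw [Finset.card_insert_of_notMem hyE, Finset.card_erase_of_mem hx, hc]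
            have : 0 < A.card := Finset.card_pos.2 ⟨x, hx⟩
            omega
        · unfold exch
          rw [Finset.erase_insert hyE, Finset.insert_erase hx]
        · unfold exch
          rw [Finset.prod_insert hyE, ← Finset.mul_prod_erase A z hx]
          ring
      obtain ⟨a1, a2, a3⟩ := gen A x y hA.1 hA.2 hxA (hB.1 hyB) hyA
      obtain ⟨b1, b2, b3⟩ := gen B y x hB.1 hB.2 hyB (hA.1 hxA) hxB
      refine ⟨a1, b1, Finset.mem_insert_self _ _, ?_, Finset.mem_insert_self _ _, ?_, a2, b2, ?_⟩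
      · intro h
        rcases Finset.mem_insert.1 h with h | h
        · exact hxy h.symm
        · exact absurd rfl (Finset.mem_erase.1 h).1
      · intro h
        rcases Finset.mem_insert.1 h with h | h
        · exact hxy h
        · exact absurd rfl (Finset.mem_erase.1 h).1
      · unfold exch
        have hyE : y ∉ A.erase x := fun h => hyA (Finset.mem_of_mem_erase h)
        have hxE : x ∉ B.erase y := fun h => hxB (Finset.mem_of_mem_erase h)
        rw [Finset.prod_insert hyE, Finset.prod_insert hxE, ← Finset.mul_prod_erase A z hxA,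
          ← Finset.mul_prod_erase B z hyB]
        ring
    refine Finset.sum_bij' (fun s _ => ⟨exch s.1 s.2.2.1 s.2.2.2, exch s.2.1 s.2.2.2 s.2.2.1,
        s.2.2.2, s.2.2.1⟩)
      (fun s _ => ⟨exch s.1 s.2.2.1 s.2.2.2, exch s.2.1 s.2.2.2 s.2.2.1, s.2.2.2, s.2.2.1⟩)
      ?_ ?_ ?_ ?_ ?_
    · rintro ⟨A, B, x, y⟩ h
      simp only [Finset.mem_sigma, Finset.mem_sdiff, Finset.mem_filter] at h ⊢
      obtain ⟨hA, hB, ⟨hxA, hxB⟩, ⟨hyB, hyA⟩, hlt⟩ := h
      obtain ⟨k1, k2, k3, k4, k5, k6, k7, k8, k9⟩ := key A B x y hA hB hxA hxB hyB hyA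
      have hxy : x ≠ y := fun h => hyA (h ▸ hxA)
      exact ⟨k1, k2, ⟨k3, k4⟩, ⟨k5, k6⟩, by omega⟩
    · rintro ⟨A, B, x, y⟩ h
      simp only [Finset.mem_sigma, Finset.mem_sdiff, Finset.mem_filter] at h ⊢
      obtain ⟨hA, hB, ⟨hxA, hxB⟩, ⟨hyB, hyA⟩, hlt⟩ := h
      obtain ⟨k1, k2, k3, k4, k5, k6, k7, k8, k9⟩ := key A B x y hA hB hxA hxB hyB hyA
      exact ⟨k1, k2, ⟨k3, k4⟩, ⟨k5, k6⟩, by omega⟩
    · rintro ⟨A, B, x, y⟩ h
      simp only [Finset.mem_sigma, Finset.mem_sdiff, Finset.mem_filter] at h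
      obtain ⟨hA, hB, ⟨hxA, hxB⟩, ⟨hyB, hyA⟩, hlt⟩ := h
      obtain ⟨k1, k2, k3, k4, k5, k6, k7, k8, k9⟩ := key A B x y hA hB hxA hxB hyB hyA
      simp only [k7, k8]
    · rintro ⟨A, B, x, y⟩ h
      simp only [Finset.mem_sigma, Finset.mem_sdiff, Finset.mem_filter] at h
      obtain ⟨hA, hB, ⟨hxA, hxB⟩, ⟨hyB, hyA⟩, hlt⟩ := h
      obtain ⟨k1, k2, k3, k4, k5, k6, k7, k8, k9⟩ := key A B x y hA hB hxA hxB hyB hyA
      simp only [k7, k8]
    · rintro ⟨A, B, x, y⟩ h
      simp only [Finset.mem_sigma, Finset.mem_sdiff, Finset.mem_filter] at h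
      obtain ⟨hA, hB, ⟨hxA, hxB⟩, ⟨hyB, hyA⟩, hlt⟩ := h
      obtain ⟨k1, k2, k3, k4, k5, k6, k7, k8, k9⟩ := key A B x y hA hB hxA hxB hyB hyA
      simp only [k7, k9]
      ring
  rw [hsplit, hswap, ← two_mul, mul_assoc]
  refine mul_le_mul_of_nonneg_left ?_ (by norm_num)
  rw [Finset.sum_mul, Finset.sum_comm]
  refine Finset.sum_le_sum fun B hB => ?_
  rw [Finset.mul_sum]
  refine Finset.sum_le_sum fun A hA => ?_
  rw [Finset.mem_powersetCard] at hA hB
  have hzA : 0 ≤ ∏ x ∈ A, z x := Finset.prod_nonneg fun x hx => hz x (hA.1 hx)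
  have hzB : 0 ≤ ∏ x ∈ B, z x := Finset.prod_nonneg fun x hx => hz x (hB.1 hx)
  have h1 : ∑ x ∈ A \ B, ∑ y ∈ (B \ A).filter (fun y => x < y),
      (∏ x ∈ A, z x) * (∏ x ∈ B, z x) * (f A - f (exch A x y)) ^ 2
      = ((∏ x ∈ A, z x) * (∏ x ∈ B, z x)) * ∑ x ∈ A \ B,
        ∑ y ∈ (B \ A).filter (fun y => x < y), (f A - f (exch A x y)) ^ 2 := by
    simp only [Finset.mul_sum]
  have h2 : ∑ x ∈ A \ B, ∑ y ∈ (B \ A).filter (fun y => x < y), (f A - f (exch A x y)) ^ 2
      ≤ ∑ x ∈ A, ∑ y ∈ (W \ A).filter (fun y => x < y), (f A - f (exch A x y)) ^ 2 := by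
    refine (Finset.sum_le_sum fun x _ => Finset.sum_le_sum_of_subset_of_nonneg ?_
      fun _ _ _ => sq_nonneg _).trans (Finset.sum_le_sum_of_subset_of_nonneg
        Finset.sdiff_subset fun _ _ _ => Finset.sum_nonneg fun _ _ => sq_nonneg _)
    exact Finset.filter_subset_filter _ (Finset.sdiff_subset_sdiff hB.1 (Finset.Subset.refl A))
  rw [h1]
  calc ((∏ x ∈ A, z x) * (∏ x ∈ B, z x)) * ∑ x ∈ A \ B,
        ∑ y ∈ (B \ A).filter (fun y => x < y), (f A - f (exch A x y)) ^ 2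
      ≤ ((∏ x ∈ A, z x) * (∏ x ∈ B, z x)) *
        ∑ x ∈ A, ∑ y ∈ (W \ A).filter (fun y => x < y), (f A - f (exch A x y)) ^ 2 :=
        mul_le_mul_of_nonneg_left h2 (mul_nonneg hzA hzB)
    _ = _ := by ring

end Pool.Agent.EBX
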