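import Mathlib
import Pool.Agent.EBX.Defs
import Pool.Agent.EBX.Exchange

/-!
# EBX: telescoping path
-/

set_option autoImplicit false

namespace Pool.Agent.EBX

/-- Largest element of `Y` which is `≤ j` (junk value `0` if there is none). -/
def zl (Y : Finset ℕ) (j : ℕ) : ℕ := (Y.filter (fun z => z ≤ j)).sup id

/-- Smallest element of `Y` which is `> j` (junk value `0` if there is none). -/
noncomputable def zr (Y : Finset ℕ) (j : ℕ) : ℕ := sInf {z | z ∈ Y ∧ j < z}

/-- The common part of the two configurations of step `j`. -/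
noncomputable def kk (Y : Finset ℕ) (j : ℕ) : Finset ℕ := (Y.erase (zl Y j)).erase (zr Y j)

theorem zl_spec {Y : Finset ℕ} {x j : ℕ} (hx : x ∈ Y) (hxj : x ≤ j) :
    zl Y j ∈ Y ∧ x ≤ zl Y j ∧ zl Y j ≤ j ∧ ∀ z ∈ Y, z ≤ j → z ≤ zl Y j := by
  have hne : (Y.filter (fun z => z ≤ j)).Nonempty := ⟨x, by simp [hx, hxj]⟩
  have h1 : zl Y j ∈ Y.filter (fun z => z ≤ j) := by
    unfold zl
    obtain ⟨m, hm, hme⟩ := Finset.exists_mem_eq_sup _ hne (id : ℕ → ℕ)
    rw [hme]; exact hm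
  have h2 : ∀ z ∈ Y, z ≤ j → z ≤ zl Y j := by
    intro z hz hzj
    unfold zl
    exact Finset.le_sup (f := (id : ℕ → ℕ)) (Finset.mem_filter.2 ⟨hz, hzj⟩)
  rw [Finset.mem_filter] at h1
  exact ⟨h1.1, h2 x hx hxj, h1.2, h2⟩

theorem zr_spec {Y : Finset ℕ} {y j : ℕ} (hy : y ∈ Y) (hyj : j < y) :
    zr Y j ∈ Y ∧ zr Y j ≤ y ∧ j < zr Y j ∧ ∀ z ∈ Y, j < z → zr Y j ≤ z := by
  have hne : {z | z ∈ Y ∧ j < z}.Nonempty := ⟨y, hy, hyj⟩
  have h1 := Nat.sInf_mem hne
  have h2 : ∀ z ∈ Y, j < z → zr Y j ≤ z := fun z hz hzj => Nat.sInf_le ⟨hz, hzj⟩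
  exact ⟨h1.1, h2 y hy hyj, h1.2, h2⟩

theorem zl_eq {Y : Finset ℕ} {z j : ℕ} (hz : z ∈ Y) (hzj : z ≤ j)
    (h : ∀ u ∈ Y, u ≤ j → u ≤ z) : zl Y j = z := by
  obtain ⟨h1, h2, h3, h4⟩ := zl_spec hz hzj
  exact le_antisymm (h _ h1 h3) h2

theorem zr_eq {Y : Finset ℕ} {z j : ℕ} (hz : z ∈ Y) (hzj : j < z)
    (h : ∀ u ∈ Y, j < u → z ≤ u) : zr Y j = z := by
  obtain ⟨h1, h2, h3, h4⟩ := zr_spec hz hzj
  exact le_antisymm h2 (h _ h1 h3)

theorem sum_Ico_tele (g : ℕ → ℝ) {m n : ℕ} (h : m ≤ n) :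
    ∑ j ∈ Finset.Ico m n, (g (j + 1) - g j) = g n - g m := by
  induction n, h using Nat.le_induction with
  | base => simp
  | succ n hn ih => rw [Finset.sum_Ico_succ_top hn, ih]; ring

theorem tele (f : Finset ℕ → ℝ) (Y : Finset ℕ) (x : ℕ) (hx : x ∈ Y) :
    ∀ y, y ∈ Y → x ≤ y → f (Y.erase x) - f (Y.erase y)
      = ∑ j ∈ Finset.Ico x y, (f (insert (j + 1) (kk Y j)) - f (insert j (kk Y j))) := by
  intro y
  induction y using Nat.strong_induction_on with
  | _ y ih =>
    intro hy hxy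
    rcases Nat.eq_or_lt_of_le hxy with rfl | hlt
    · simp
    · -- z is the element of Y just below y
      have hx' : x ≤ y - 1 := by omega
      obtain ⟨h1, h2, h3, h4⟩ := zl_spec (j := y - 1) hx hx'
      set z := zl Y (y - 1) with hz
      have hzy : z < y := by omega
      have hIH := ih z hzy h1 h2
      have hsplit : ∑ j ∈ Finset.Ico x y, (f (insert (j + 1) (kk Y j)) - f (insert j (kk Y j)))
          = ∑ j ∈ Finset.Ico x z, (f (insert (j + 1) (kk Y j)) - f (insert j (kk Y j)))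
          + ∑ j ∈ Finset.Ico z y, (f (insert (j + 1) (kk Y j)) - f (insert j (kk Y j))) :=
        (Finset.sum_Ico_consecutive _ h2 hzy.le).symm
      have hk : ∀ j ∈ Finset.Ico z y, kk Y j = (Y.erase z).erase y := by
        intro j hj
        rw [Finset.mem_Ico] at hj
        have e1 : zl Y j = z := zl_eq h1 hj.1 fun u hu huj => h4 u hu (by omega)
        have e2 : zr Y j = y := zr_eq hy hj.2 fun u hu huj => by
          by_contra hc
          have := h4 u hu (by omega)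
          omega
        unfold kk
        rw [e1, e2]
      have hlast : ∑ j ∈ Finset.Ico z y, (f (insert (j + 1) (kk Y j)) - f (insert j (kk Y j)))
          = f (Y.erase z) - f (Y.erase y) := by
        have h5 : ∑ j ∈ Finset.Ico z y, (f (insert (j + 1) (kk Y j)) - f (insert j (kk Y j)))
            = ∑ j ∈ Finset.Ico z y, (f (insert (j + 1) ((Y.erase z).erase y))
              - f (insert j ((Y.erase z).erase y))) :=
          Finset.sum_congr rfl fun j hj => by rw [hk j hj]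
        rw [h5, sum_Ico_tele (fun j => f (insert j ((Y.erase z).erase y))) hzy.le]
        have e3 : insert y ((Y.erase z).erase y) = Y.erase z :=
          Finset.insert_erase (Finset.mem_erase.2 ⟨by omega, hy⟩)
        have e4 : insert z ((Y.erase z).erase y) = Y.erase y := by
          rw [Finset.erase_right_comm]
          exact Finset.insert_erase (Finset.mem_erase.2 ⟨by omega, h1⟩)
        simp only [e3, e4]
      rw [hsplit, hlast, ← hIH]
      ring

/-- The configuration before step `j`. -/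
noncomputable def zz (Y : Finset ℕ) (j : ℕ) : Finset ℕ := insert j (kk Y j)

theorem kk_facts {Y : Finset ℕ} {x y j : ℕ} (hx : x ∈ Y) (hy : y ∈ Y) (hxj : x ≤ j)
    (hjy : j < y) :
    j ∉ kk Y j ∧ j + 1 ∉ kk Y j ∧ (kk Y j).card + 2 = Y.card ∧
      insert (zl Y j) (insert (zr Y j) (kk Y j)) = Y := by
  obtain ⟨l1, l2, l3, l4⟩ := zl_spec hx hxj
  obtain ⟨r1, r2, r3, r4⟩ := zr_spec hy hjy
  have hne : zl Y j ≠ zr Y j := by omega
  have hmem : zr Y j ∈ Y.erase (zl Y j) := Finset.mem_erase.2 ⟨hne.symm, r1⟩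
  refine ⟨?_, ?_, ?_, ?_⟩
  · intro h
    unfold kk at h
    rw [Finset.mem_erase, Finset.mem_erase] at h
    have := l4 j h.2.2 le_rfl
    omega
  · intro h
    unfold kk at h
    rw [Finset.mem_erase, Finset.mem_erase] at h
    have := r4 (j + 1) h.2.2 (by omega)
    omega
  · unfold kk
    rw [Finset.card_erase_of_mem hmem, Finset.card_erase_of_mem l1]
    have : 2 ≤ Y.card := by
      have h2 : ({zl Y j, zr Y j} : Finset ℕ) ⊆ Y := by
        intro u hu
        rcases Finset.mem_insert.1 hu with rfl | hu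
        · exact l1
        · rw [Finset.mem_singleton.1 hu]; exact r1
      have h3 := Finset.card_le_card h2
      rwa [Finset.card_pair hne] at h3
    omega
  · unfold kk
    rw [Finset.insert_erase hmem, Finset.insert_erase l1]

theorem exch_zz {Y : Finset ℕ} {x y j : ℕ} (hx : x ∈ Y) (hy : y ∈ Y) (hxj : x ≤ j)
    (hjy : j < y) : exch (zz Y j) j (j + 1) = insert (j + 1) (kk Y j) := by
  obtain ⟨h1, h2, h3, h4⟩ := kk_facts hx hy hxj hjy
  unfold exch zz
  rw [Finset.erase_insert h1]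

theorem path_energy (a b n : ℕ) (V : ℕ → ℝ) (R : ℝ) (hR : Rise2 V a b R) (f : Finset ℕ → ℝ) :
    ∑ A ∈ (Finset.Ico a b).powersetCard n, wt V A *
        ∑ x ∈ A, ∑ y ∈ (Finset.Ico a b \ A).filter (fun y => x < y), (f A - f (exch A x y)) ^ 2
      ≤ ((b - a : ℕ) : ℝ) ^ 5 * R * ∑ A ∈ (Finset.Ico a b).powersetCard n,
        wt V A * ∑ j ∈ Finset.Ico a (b - 1),
          if j ∈ A ∧ j + 1 ∉ A then (f (exch A j (j + 1)) - f A) ^ 2 else 0 := by
  classical
  rcases Nat.lt_or_ge a b with hab | hab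
  swap
  · -- empty box
    have h0 : Finset.Ico a b = ∅ := Finset.Ico_eq_empty (by omega)
    have h1 : b - a = 0 := by omega
    rw [h1, h0]
    have h2 : ∑ A ∈ (∅ : Finset ℕ).powersetCard n, wt V A *
        ∑ x ∈ A, ∑ y ∈ ((∅ : Finset ℕ) \ A).filter (fun y => x < y), (f A - f (exch A x y)) ^ 2
        = 0 := by
      refine Finset.sum_eq_zero fun A hA => ?_
      simp
    rw [h2]
    simp
  have hR1 : 1 ≤ R := by
    have := hR a a a a le_rfl le_rfl le_rfl le_rfl hab
    simpa using this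
  have hR0 : 0 ≤ R := by linarith
  set P := (Finset.Ico a b).powersetCard n with hP
  -- the energy of a single step
  set D : Finset ℕ → ℕ → ℝ := fun Y j =>
    (f (exch (zz Y j) j (j + 1)) - f (zz Y j)) ^ 2 with hD
  -- pointwise bound
  have hpt : ∀ A ∈ P, ∀ x ∈ A, ∀ y ∈ (Finset.Ico a b \ A).filter (fun y => x < y),
      wt V A * (f A - f (exch A x y)) ^ 2
        ≤ ((b - a : ℕ) : ℝ) * R * ∑ j ∈ Finset.Ico x y,
          wt V (zz (insert y A) j) * D (insert y A) j := by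
    intro A hA x hxA y hy
    rw [hP, Finset.mem_powersetCard] at hA
    rw [Finset.mem_filter, Finset.mem_sdiff, Finset.mem_Ico] at hy
    obtain ⟨⟨hyI, hyA⟩, hxy⟩ := hy
    have hxI := Finset.mem_Ico.1 (hA.1 hxA)
    set Y := insert y A with hY
    have hyY : y ∈ Y := Finset.mem_insert_self y A
    have hxY : x ∈ Y := Finset.mem_insert_of_mem hxA
    have e1 : Y.erase y = A := Finset.erase_insert hyA
    have e2 : Y.erase x = exch A x y := by
      rw [hY, Finset.erase_insert_of_ne (by omega)]; rfl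
    have ht := tele f Y x hxY y hyY hxy.le
    rw [e1, e2] at ht
    have ht2 : f A - f (exch A x y)
        = - ∑ j ∈ Finset.Ico x y, (f (exch (zz Y j) j (j + 1)) - f (zz Y j)) := by
      have : ∑ j ∈ Finset.Ico x y, (f (exch (zz Y j) j (j + 1)) - f (zz Y j))
          = ∑ j ∈ Finset.Ico x y, (f (insert (j + 1) (kk Y j)) - f (insert j (kk Y j))) := by
        refine Finset.sum_congr rfl fun j hj => ?_
        rw [Finset.mem_Ico] at hj
        rw [exch_zz hxY hyY hj.1 hj.2]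
        rfl
      rw [this, ← ht]
      ring
    have hcs : (f A - f (exch A x y)) ^ 2
        ≤ ((b - a : ℕ) : ℝ) * ∑ j ∈ Finset.Ico x y, D Y j := by
      rw [ht2, neg_sq]
      refine (sq_sum_le_card_mul_sum_sq).trans ?_
      refine mul_le_mul_of_nonneg_right ?_ (Finset.sum_nonneg fun _ _ => sq_nonneg _)
      rw [Nat.card_Ico]
      exact_mod_cast (by omega : y - x ≤ b - a)
    have hwt : ∀ j ∈ Finset.Ico x y, wt V A ≤ R * wt V (zz Y j) := by
      intro j hj
      rw [Finset.mem_Ico] at hj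
      obtain ⟨l1, l2, l3, l4⟩ := zl_spec hxY hj.1
      obtain ⟨r1, r2, r3, r4⟩ := zr_spec hyY hj.2
      obtain ⟨k1, k2, k3, k4⟩ := kk_facts hxY hyY hj.1 hj.2
      have hne : zl Y j ≠ zr Y j := by omega
      have hmem : zr Y j ∈ Y.erase (zl Y j) := Finset.mem_erase.2 ⟨hne.symm, r1⟩
      have s1 : ∑ u ∈ Y, V u = V (zl Y j) + (V (zr Y j) + ∑ u ∈ kk Y j, V u) := by
        rw [← Finset.add_sum_erase Y V l1, ← Finset.add_sum_erase _ V hmem]
        rfl
      have s2 : ∑ u ∈ Y, V u = V y + ∑ u ∈ A, V u := by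
        rw [hY, Finset.sum_insert hyA]
      have s3 : ∑ u ∈ zz Y j, V u = V j + ∑ u ∈ kk Y j, V u := by
        unfold zz
        rw [Finset.sum_insert k1]
      have s4 : wt V A = Real.exp ((V j - V (zl Y j)) + (V y - V (zr Y j))) * wt V (zz Y j) := by
        unfold wt
        rw [← Real.exp_add]
        congr 1
        linarith
      rw [s4]
      refine mul_le_mul_of_nonneg_right ?_ (Real.exp_pos _).le
      exact hR _ _ _ _ (by omega) l3 (by omega) r2 hyI.2
    calc wt V A * (f A - f (exch A x y)) ^ 2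
        ≤ wt V A * (((b - a : ℕ) : ℝ) * ∑ j ∈ Finset.Ico x y, D Y j) :=
          mul_le_mul_of_nonneg_left hcs (Real.exp_pos _).le
      _ = ((b - a : ℕ) : ℝ) * ∑ j ∈ Finset.Ico x y, wt V A * D Y j := by
          rw [Finset.mul_sum, Finset.mul_sum, Finset.mul_sum]
          refine Finset.sum_congr rfl fun j _ => by ring
      _ ≤ ((b - a : ℕ) : ℝ) * ∑ j ∈ Finset.Ico x y, R * wt V (zz Y j) * D Y j := by
          refine mul_le_mul_of_nonneg_left (Finset.sum_le_sum fun j hj => ?_) (Nat.cast_nonneg _)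
          exact mul_le_mul_of_nonneg_right (hwt j hj) (sq_nonneg _)
      _ = _ := by
          rw [mul_assoc ((b - a : ℕ) : ℝ) R]
          congr 1
          rw [Finset.mul_sum]
          refine Finset.sum_congr rfl fun j _ => by ring
  -- sum the pointwise bounds
  have hsum1 : ∑ A ∈ P, wt V A *
        ∑ x ∈ A, ∑ y ∈ (Finset.Ico a b \ A).filter (fun y => x < y), (f A - f (exch A x y)) ^ 2
      ≤ ((b - a : ℕ) : ℝ) * R * ∑ A ∈ P, ∑ x ∈ A,
        ∑ y ∈ (Finset.Ico a b \ A).filter (fun y => x < y), ∑ j ∈ Finset.Ico x y,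
          wt V (zz (insert y A) j) * D (insert y A) j := by
    simp only [Finset.mul_sum]
    refine Finset.sum_le_sum fun A hA => Finset.sum_le_sum fun x hx =>
      Finset.sum_le_sum fun y hy => ?_
    have := hpt A hA x hx y hy
    rwa [Finset.mul_sum] at this
  -- the counting
  set t : Finset (Finset ℕ × ℕ) := (P ×ˢ Finset.Ico a (b - 1)).filter
    (fun s => s.2 ∈ s.1 ∧ s.2 + 1 ∉ s.1) with ht
  set F : Finset ℕ × ℕ → ℝ := fun s => wt V s.1 * (f (exch s.1 s.2 (s.2 + 1)) - f s.1) ^ 2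
    with hF
  have hF0 : ∀ s, 0 ≤ F s := fun s => mul_nonneg (Real.exp_pos _).le (sq_nonneg _)
  have hcount : ∑ A ∈ P, ∑ x ∈ A,
        ∑ y ∈ (Finset.Ico a b \ A).filter (fun y => x < y), ∑ j ∈ Finset.Ico x y,
          wt V (zz (insert y A) j) * D (insert y A) j
      ≤ ((b - a : ℕ) : ℝ) ^ 4 * ∑ s ∈ t, F s := by
    simp only [Finset.sum_sigma']
    set C : Finset (ℕ × ℕ × ℕ × ℕ) := Finset.Ico a b ×ˢ Finset.Ico a b ×ˢ Finset.Ico a b ×ˢ
      Finset.Ico a b with hC
    have hCc : (C.card : ℝ) = ((b - a : ℕ) : ℝ) ^ 4 := by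
      rw [hC]
      simp only [Finset.card_product, Nat.card_Ico]
      push_cast
      ring
    have hR4 : ((b - a : ℕ) : ℝ) ^ 4 * ∑ s ∈ t, F s = ∑ u ∈ t ×ˢ C, F u.1 := by
      rw [Finset.sum_product, ← hCc]
      simp only [Finset.sum_const, nsmul_eq_mul]
      rw [Finset.mul_sum]
    rw [hR4]
    set S := P.sigma fun A => A.sigma fun x =>
      ((Finset.Ico a b \ A).filter (fun y => x < y)).sigma fun y => Finset.Ico x y with hS
    set g : (Σ _ : Finset ℕ, Σ _ : ℕ, Σ _ : ℕ, ℕ) → (Finset ℕ × ℕ) × (ℕ × ℕ × ℕ × ℕ) :=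
      fun s => ((zz (insert s.2.2.1 s.1) s.2.2.2, s.2.2.2),
        (s.2.1, s.2.2.1, zl (insert s.2.2.1 s.1) s.2.2.2, zr (insert s.2.2.1 s.1) s.2.2.2))
      with hg
    have hmem : ∀ s ∈ S, s.1 ⊆ Finset.Ico a b ∧ s.1.card = n ∧ s.2.1 ∈ s.1 ∧
        s.2.2.1 ∈ Finset.Ico a b ∧ s.2.2.1 ∉ s.1 ∧ s.2.1 < s.2.2.1 ∧
        s.2.1 ≤ s.2.2.2 ∧ s.2.2.2 < s.2.2.1 := by
      rintro ⟨A, x, y, j⟩ h
      simp only [hS, hP, Finset.mem_sigma, Finset.mem_filter, Finset.mem_sdiff,
        Finset.mem_powersetCard] at h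
      obtain ⟨h1, h2, ⟨⟨h3, h4⟩, h5⟩, h6⟩ := h
      rw [Finset.mem_Ico] at h6
      exact ⟨h1.1, h1.2, h2, h3, h4, h5, h6.1, h6.2⟩
    have hinj : Set.InjOn g (S : Set (Σ _ : Finset ℕ, Σ _ : ℕ, Σ _ : ℕ, ℕ)) := by
      rintro ⟨A, x, y, j⟩ hs ⟨A', x', y', j'⟩ hs' heq
      obtain ⟨-, -, a3, -, a5, a6, a7, a8⟩ := hmem _ (Finset.mem_coe.1 hs)
      obtain ⟨-, -, b3, -, b5, b6, b7, b8⟩ := hmem _ (Finset.mem_coe.1 hs')
      simp only [hg, Prod.mk.injEq] at heq a3 a5 a6 a7 a8 b3 b5 b6 b7 b8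
      obtain ⟨⟨e1, e2⟩, e3, e4, e5, e6⟩ := heq
      subst e2; subst e3; subst e4
      have k := kk_facts (Finset.mem_insert_of_mem a3) (Finset.mem_insert_self y A) a7 a8
      have k' := kk_facts (Finset.mem_insert_of_mem b3) (Finset.mem_insert_self y A') b7 b8
      have hK : kk (insert y A) j = kk (insert y A') j := by
        have h' : (zz (insert y A) j).erase j = (zz (insert y A') j).erase j := by rw [e1]
        unfold zz at h'
        rwa [Finset.erase_insert k.1, Finset.erase_insert k'.1] at h'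
      have hYY : insert y A = insert y A' := by
        rw [← k.2.2.2, ← k'.2.2.2, e5, e6, hK]
      have hAA : A = A' := by
        have h' : (insert y A).erase y = (insert y A').erase y := by rw [hYY]
        rwa [Finset.erase_insert a5, Finset.erase_insert b5] at h'
      subst hAA
      rfl
    have hL : ∑ s ∈ S, wt V (zz (insert s.2.2.1 s.1) s.2.2.2) * D (insert s.2.2.1 s.1) s.2.2.2
        = ∑ s ∈ S, (fun u : (Finset ℕ × ℕ) × (ℕ × ℕ × ℕ × ℕ) => F u.1) (g s) := rfl
    rw [hL, ← Finset.sum_image (f := fun u : (Finset ℕ × ℕ) × (ℕ × ℕ × ℕ × ℕ) => F u.1) hinj]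
    refine Finset.sum_le_sum_of_subset_of_nonneg ?_ (fun u _ _ => hF0 u.1)
    intro u hu
    obtain ⟨s, hs, rfl⟩ := Finset.mem_image.1 hu
    obtain ⟨A, x, y, j⟩ := s
    obtain ⟨a1, a2, a3, a4, a5, a6, a7, a8⟩ := hmem _ hs
    simp only at a1 a2 a3 a4 a5 a6 a7 a8
    have hxY : x ∈ insert y A := Finset.mem_insert_of_mem a3
    have hyY : y ∈ insert y A := Finset.mem_insert_self y A
    obtain ⟨l1, l2, l3, l4⟩ := zl_spec hxY a7
    obtain ⟨r1, r2, r3, r4⟩ := zr_spec hyY a8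
    obtain ⟨k1, k2, k3, k4⟩ := kk_facts hxY hyY a7 a8
    have hxI := Finset.mem_Ico.1 (a1 a3)
    have hyI := Finset.mem_Ico.1 a4
    have hYI : insert y A ⊆ Finset.Ico a b := Finset.insert_subset a4 a1
    have hcY : (insert y A).card = n + 1 := by rw [Finset.card_insert_of_notMem a5, a2]
    simp only [hg, ht, hC, hP, Finset.mem_product, Finset.mem_filter, Finset.mem_powersetCard]
    refine ⟨⟨⟨⟨?_, ?_⟩, ?_⟩, ?_, ?_⟩, ?_, ?_, ?_, ?_⟩
    · unfold zz
      refine Finset.insert_subset (Finset.mem_Ico.2 ⟨by omega, by omega⟩) ?_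
      unfold kk
      exact (Finset.erase_subset _ _).trans ((Finset.erase_subset _ _).trans hYI)
    · unfold zz
      rw [Finset.card_insert_of_notMem k1]
      omega
    · exact Finset.mem_Ico.2 ⟨by omega, by omega⟩
    · exact Finset.mem_insert_self _ _
    · unfold zz
      intro h
      rcases Finset.mem_insert.1 h with h | h
      · omega
      · exact k2 h
    · exact a1 a3
    · exact a4
    · exact hYI l1
    · exact hYI r1
  have hfin : ∑ s ∈ t, F s = ∑ A ∈ P, wt V A * ∑ j ∈ Finset.Ico a (b - 1),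
          if j ∈ A ∧ j + 1 ∉ A then (f (exch A j (j + 1)) - f A) ^ 2 else 0 := by
    rw [ht, Finset.sum_filter, Finset.sum_product]
    refine Finset.sum_congr rfl fun A _ => ?_
    rw [Finset.mul_sum]
    refine Finset.sum_congr rfl fun j _ => ?_
    simp only [hF]
    split_ifs <;> simp
  calc _ ≤ ((b - a : ℕ) : ℝ) * R * ∑ A ∈ P, ∑ x ∈ A,
        ∑ y ∈ (Finset.Ico a b \ A).filter (fun y => x < y), ∑ j ∈ Finset.Ico x y,
          wt V (zz (insert y A) j) * D (insert y A) j := hsum1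
    _ ≤ ((b - a : ℕ) : ℝ) * R * (((b - a : ℕ) : ℝ) ^ 4 * ∑ s ∈ t, F s) :=
        mul_le_mul_of_nonneg_left hcount (mul_nonneg (Nat.cast_nonneg _) hR0)
    _ = _ := by rw [hfin]; ring

end Pool.Agent.EBX
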