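import Mathlib
import Pool.Agent.H96.FiniteMarkov
import Pool.Agent.EBX.Defs

/-!
# Abstract semigroup facts
-/

set_option autoImplicit false

open scoped Matrix

namespace Pool.Agent.EBX

variable {S I : Type*} [Fintype S] [DecidableEq S]

theorem gen_mulVec (J : Finset I) (c : I → ℝ) (T : I → S → S) (f : S → ℝ) (η : S) :
    (gen J c T *ᵥ f) η = ∑ i ∈ J, c i * (f (T i η) - f η) := by
  simp only [Matrix.mulVec, dotProduct, gen, Matrix.of_apply]
  simp_rw [Finset.sum_mul]
  rw [Finset.sum_comm]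
  refine Finset.sum_congr rfl fun i _ => ?_
  simp_rw [mul_assoc]
  rw [← Finset.mul_sum]
  congr 1
  simp only [sub_mul, ite_mul, one_mul, zero_mul, Finset.sum_sub_distrib, Finset.sum_ite_eq,
    Finset.mem_univ, if_true]

theorem gen_row (J : Finset I) (c : I → ℝ) (T : I → S → S) (η : S) :
    ∑ ζ, gen J c T η ζ = 0 := by
  have h := gen_mulVec J c T (fun _ => (1 : ℝ)) η
  simp only [sub_self, mul_zero, Finset.sum_const_zero] at h
  simpa [Matrix.mulVec, dotProduct] using h

theorem gen_off (J : Finset I) (c : I → ℝ) (T : I → S → S) (hc : ∀ i ∈ J, 0 ≤ c i) (η ζ : S)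
    (h : η ≠ ζ) : 0 ≤ gen J c T η ζ := by
  simp only [gen, Matrix.of_apply, if_neg h, sub_zero]
  refine Finset.sum_nonneg fun i hi => mul_nonneg (hc i hi) ?_
  split_ifs <;> norm_num

theorem sg_zero (Q : Matrix S S ℝ) (f : S → ℝ) : sg Q 0 f = f :=
  H96.exp_zero_mulVec Q f

theorem sg_add (Q : Matrix S S ℝ) (s t : ℝ) (f : S → ℝ) :
    sg Q (s + t) f = sg Q s (sg Q t f) := by
  unfold sg
  rw [add_smul, Matrix.exp_add_of_commute _ _
    (((Commute.refl Q).smul_left s).smul_right t), Matrix.mulVec_mulVec]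

theorem sg_fadd (Q : Matrix S S ℝ) (t : ℝ) (f g : S → ℝ) :
    sg Q t (f + g) = sg Q t f + sg Q t g := Matrix.mulVec_add _ _ _

theorem sg_fsub (Q : Matrix S S ℝ) (t : ℝ) (f g : S → ℝ) :
    sg Q t (f - g) = sg Q t f - sg Q t g := Matrix.mulVec_sub _ _ _

theorem sg_fneg (Q : Matrix S S ℝ) (t : ℝ) (f : S → ℝ) :
    sg Q t (-f) = - sg Q t f := Matrix.mulVec_neg _ _

theorem sg_fsmul (Q : Matrix S S ℝ) (t : ℝ) (a : ℝ) (f : S → ℝ) :
    sg Q t (a • f) = a • sg Q t f := Matrix.mulVec_smul _ _ _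

theorem sg_hasDerivAt (Q : Matrix S S ℝ) (f : S → ℝ) (i : S) (t : ℝ) :
    HasDerivAt (fun u : ℝ => sg Q u f i) (sg Q t (Q *ᵥ f) i) t :=
  H96.hasDerivAt_semigroup Q f i t

theorem exp_smul_commute (Q : Matrix S S ℝ) (t : ℝ) : Commute (NormedSpace.exp (t • Q)) Q := by
  let _ : NormedRing (Matrix S S ℝ) := Matrix.linftyOpNormedRing
  let _ : NormedAlgebra ℝ (Matrix S S ℝ) := Matrix.linftyOpNormedAlgebra
  exact ((Commute.refl Q).smul_left t).exp_left

theorem sg_mulVec (Q : Matrix S S ℝ) (t : ℝ) (f : S → ℝ) :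
    sg Q t (Q *ᵥ f) = Q *ᵥ sg Q t f := by
  unfold sg
  rw [Matrix.mulVec_mulVec, Matrix.mulVec_mulVec, (exp_smul_commute Q t).eq]

theorem sg_hasDerivAt' (Q : Matrix S S ℝ) (f : S → ℝ) (i : S) (t : ℝ) :
    HasDerivAt (fun u : ℝ => sg Q u f i) ((Q *ᵥ sg Q t f) i) t := by
  rw [← sg_mulVec]
  exact sg_hasDerivAt Q f i t

theorem sg_eq_self (Q : Matrix S S ℝ) (t : ℝ) (f : S → ℝ) (h : Q *ᵥ f = 0) : sg Q t f = f := by
  funext i
  have hder : ∀ s : ℝ, HasDerivAt (fun u : ℝ => sg Q u f i) 0 s := by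
    intro s
    have := sg_hasDerivAt Q f i s
    rw [h] at this
    have h0 : sg Q s (0 : S → ℝ) = 0 := Matrix.mulVec_zero _
    rw [h0] at this
    exact this
  have hconst := is_const_of_deriv_eq_zero (fun s => (hder s).differentiableAt)
    (fun s => (hder s).deriv) t 0
  beta_reduce at hconst
  rw [hconst, sg_zero]

theorem sg_add_of_commute (Q R : Matrix S S ℝ) (h : Commute Q R) (t : ℝ) (f : S → ℝ) :
    sg (Q + R) t f = sg Q t (sg R t f) := by
  unfold sg
  rw [smul_add, Matrix.exp_add_of_commute _ _ ((h.smul_left t).smul_right t),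
    Matrix.mulVec_mulVec]

/-! ### Positivity -/

theorem exp_gen_nonneg (J : Finset I) (c : I → ℝ) (T : I → S → S) (hc : ∀ i ∈ J, 0 ≤ c i)
    {t : ℝ} (ht : 0 ≤ t) (i j : S) : 0 ≤ NormedSpace.exp (t • gen J c T) i j := by
  refine H96.exp_entry_nonneg _ (fun a b hab => ?_) i j
  simp only [Matrix.smul_apply, smul_eq_mul]
  exact mul_nonneg ht (gen_off J c T hc a b hab)

theorem sg_nonneg (J : Finset I) (c : I → ℝ) (T : I → S → S) (hc : ∀ i ∈ J, 0 ≤ c i)
    {t : ℝ} (ht : 0 ≤ t) (f : S → ℝ) (hf : ∀ i, 0 ≤ f i) (i : S) :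
    0 ≤ sg (gen J c T) t f i :=
  Finset.sum_nonneg fun j _ => mul_nonneg (exp_gen_nonneg J c T hc ht i j) (hf j)

theorem sg_mono (J : Finset I) (c : I → ℝ) (T : I → S → S) (hc : ∀ i ∈ J, 0 ≤ c i)
    {t : ℝ} (ht : 0 ≤ t) (f g : S → ℝ) (hfg : ∀ i, f i ≤ g i) (i : S) :
    sg (gen J c T) t f i ≤ sg (gen J c T) t g i :=
  Finset.sum_le_sum fun j _ => mul_le_mul_of_nonneg_left (hfg j)
    (exp_gen_nonneg J c T hc ht i j)

theorem sg_one (J : Finset I) (c : I → ℝ) (T : I → S → S) (t : ℝ) :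
    sg (gen J c T) t (fun _ => (1 : ℝ)) = fun _ => 1 := by
  funext i
  exact H96.exp_mulVec_one _ (gen_row J c T) t i

theorem sg_const (J : Finset I) (c : I → ℝ) (T : I → S → S) (t a : ℝ) :
    sg (gen J c T) t (fun _ => a) = fun _ => a := by
  have h : (fun _ : S => a) = a • (fun _ : S => (1 : ℝ)) := by
    funext i; simp
  rw [h, sg_fsmul, sg_one]

/-! ### Closed cones -/

/-- A closed cone of functions which is preserved by all the maps `T i` is preserved by the
semigroup. -/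
theorem sg_cone (J : Finset I) (c : I → ℝ) (T : I → S → S) (hc : ∀ i ∈ J, 0 ≤ c i)
    (K : Set (S → ℝ)) (hK : IsClosed K) (h0 : (0 : S → ℝ) ∈ K)
    (hadd : ∀ f g, f ∈ K → g ∈ K → f + g ∈ K) (hsmul : ∀ (a : ℝ) f, 0 ≤ a → f ∈ K → a • f ∈ K)
    (hT : ∀ i ∈ J, ∀ f, f ∈ K → (fun η => f (T i η)) ∈ K)
    {t : ℝ} (ht : 0 ≤ t) (f : S → ℝ) (hf : f ∈ K) : sg (gen J c T) t f ∈ K := by
  classical
  set C : ℝ := ∑ i ∈ J, c i with hC
  set B : Matrix S S ℝ := gen J c T + C • (1 : Matrix S S ℝ) with hB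
  have hBf : ∀ g, g ∈ K → B *ᵥ g ∈ K := by
    intro g hg
    have h1 : B *ᵥ g = ∑ i ∈ J, c i • (fun η => g (T i η)) := by
      funext η
      rw [hB, Matrix.add_mulVec, Pi.add_apply, gen_mulVec, Matrix.smul_mulVec, Matrix.one_mulVec,
        Finset.sum_apply]
      simp only [Pi.smul_apply, smul_eq_mul, hC, Finset.sum_mul, mul_sub, Finset.sum_sub_distrib]
      ring
    rw [h1]
    have h2 : ∀ J' : Finset I, J' ⊆ J → ∑ i ∈ J', c i • (fun η => g (T i η)) ∈ K := by
      intro J'
      induction J' using Finset.induction_on with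
      | empty => intro _; simpa using h0
      | insert a s ha ih =>
        intro hs
        rw [Finset.sum_insert ha]
        refine hadd _ _ (hsmul _ _ (hc a (hs (Finset.mem_insert_self a s)))
          (hT a (hs (Finset.mem_insert_self a s)) g hg)) (ih fun x hx => hs ?_)
        exact Finset.mem_insert_of_mem hx
    exact h2 J (Finset.Subset.refl J)
  have hpow : ∀ n : ℕ, ∀ g, g ∈ K → (B ^ n) *ᵥ g ∈ K := by
    intro n
    induction n with
    | zero => intro g hg; rw [pow_zero, Matrix.one_mulVec]; exact hg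
    | succ n ih =>
      intro g hg
      rw [pow_succ, ← Matrix.mulVec_mulVec]
      exact ih _ (hBf g hg)
  have hexp : NormedSpace.exp (t • B) *ᵥ f ∈ K := by
    have hs : HasSum (fun n : ℕ => ((n.factorial : ℝ)⁻¹ • (t • B) ^ n) *ᵥ f)
        (NormedSpace.exp (t • B) *ᵥ f) := by
      rw [Pi.hasSum]
      intro i
      simp only [Matrix.mulVec, dotProduct]
      refine hasSum_sum fun j _ => ?_
      exact (H96.hasSum_exp_entry (t • B) i j).mul_right (f j)
    refine hK.mem_of_tendsto hs (Filter.Eventually.of_forall fun s => ?_)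
    induction s using Finset.induction_on with
    | empty => simpa using h0
    | insert a s ha ih =>
      rw [Finset.sum_insert ha]
      refine hadd _ _ ?_ ih
      rw [smul_pow, smul_smul, Matrix.smul_mulVec]
      exact hsmul _ _ (by positivity) (hpow a f hf)
  have hdec : t • gen J c T = t • B + (-(t * C)) • (1 : Matrix S S ℝ) := by
    rw [hB, smul_add, smul_smul, neg_smul]
    abel
  have hcomm : Commute (t • B) ((-(t * C)) • (1 : Matrix S S ℝ)) :=
    (Commute.one_right _).smul_right _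
  unfold sg
  rw [hdec, Matrix.exp_add_of_commute _ _ hcomm, ← Matrix.mulVec_mulVec]
  have h3 : NormedSpace.exp ((-(t * C)) • (1 : Matrix S S ℝ)) *ᵥ f
      = Real.exp (-(t * C)) • f := by
    have h4 : (-(t * C)) • (1 : Matrix S S ℝ) = Matrix.diagonal (fun _ : S => -(t * C)) := by
      ext a b
      by_cases hab : a = b
      · subst hab; simp
      · simp [hab, Matrix.one_apply]
    rw [h4, Matrix.exp_diagonal]
    funext i
    rw [Matrix.mulVec_diagonal, Pi.coe_exp, ← Real.exp_eq_exp_ℝ]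
    rfl
  rw [h3, Matrix.mulVec_smul]
  exact hsmul _ _ (Real.exp_pos _).le hexp

theorem sg_incr (r : S → S → Prop) (J : Finset I) (c : I → ℝ) (T : I → S → S)
    (hc : ∀ i ∈ J, 0 ≤ c i) (hT : ∀ i ∈ J, ∀ η ζ, r η ζ → r (T i η) (T i ζ))
    {t : ℝ} (ht : 0 ≤ t) (f : S → ℝ) (hf : Incr r f) : Incr r (sg (gen J c T) t f) := by
  refine sg_cone J c T hc {f | Incr r f} ?_ (fun _ _ _ => le_rfl) ?_ ?_ ?_ ht f hf
  · have : {f : S → ℝ | Incr r f} = ⋂ i, ⋂ j, ⋂ (_ : r i j), {f : S → ℝ | f i ≤ f j} := by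
      ext f
      simp [Incr]
    rw [this]
    refine isClosed_iInter fun i => isClosed_iInter fun j => isClosed_iInter fun _ => ?_
    exact isClosed_le (continuous_apply i) (continuous_apply j)
  · intro f g hf hg i j hij
    exact add_le_add (hf i j hij) (hg i j hij)
  · intro a f ha hf i j hij
    exact mul_le_mul_of_nonneg_left (hf i j hij) ha
  · intro i hi f hf η ζ h
    exact hf _ _ (hT i hi η ζ h)

/-- A property of functions which is invariant under all the maps is kept. -/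
theorem sg_invariant (r : S → S → Prop) (J : Finset I) (c : I → ℝ) (T : I → S → S)
    (hc : ∀ i ∈ J, 0 ≤ c i) (hT : ∀ i ∈ J, ∀ η ζ, r η ζ → r (T i η) (T i ζ))
    {t : ℝ} (ht : 0 ≤ t) (f : S → ℝ) (hf : ∀ η ζ, r η ζ → f η = f ζ) :
    ∀ η ζ, r η ζ → sg (gen J c T) t f η = sg (gen J c T) t f ζ := by
  intro η ζ h
  refine le_antisymm (sg_incr r J c T hc hT ht f (fun η ζ h => (hf η ζ h).le) η ζ h) ?_
  have h1 := sg_incr r J c T hc hT ht (-f) (fun η ζ h => by simp [hf η ζ h]) η ζ h
  rw [sg_fneg] at h1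
  simpa using h1

theorem gen_union [DecidableEq I] (J J' : Finset I) (h : Disjoint J J') (c : I → ℝ)
    (T : I → S → S) : gen (J ∪ J') c T = gen J c T + gen J' c T := by
  ext η ζ
  simp only [gen, Matrix.of_apply, Matrix.add_apply]
  exact Finset.sum_union h

theorem gen_commute (J J' : Finset I) (c : I → ℝ) (T : I → S → S)
    (h : ∀ i ∈ J, ∀ j ∈ J', ∀ η, T i (T j η) = T j (T i η)) :
    Commute (gen J c T) (gen J' c T) := by
  have key : ∀ f : S → ℝ, (gen J c T * gen J' c T) *ᵥ f = (gen J' c T * gen J c T) *ᵥ f := by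
    intro f
    funext η
    rw [← Matrix.mulVec_mulVec, ← Matrix.mulVec_mulVec, gen_mulVec, gen_mulVec]
    simp_rw [gen_mulVec]
    have h1 : ∀ i ∈ J, c i * (∑ j ∈ J', c j * (f (T j (T i η)) - f (T i η))
        - ∑ j ∈ J', c j * (f (T j η) - f η))
        = ∑ j ∈ J', c i * c j * (f (T i (T j η)) - f (T i η) - f (T j η) + f η) := by
      intro i hi
      rw [← Finset.sum_sub_distrib, Finset.mul_sum]
      refine Finset.sum_congr rfl fun j hj => ?_
      rw [h i hi j hj η]
      ring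
    have h2 : ∀ j ∈ J', c j * (∑ i ∈ J, c i * (f (T i (T j η)) - f (T j η))
        - ∑ i ∈ J, c i * (f (T i η) - f η))
        = ∑ i ∈ J, c i * c j * (f (T i (T j η)) - f (T i η) - f (T j η) + f η) := by
      intro j _
      rw [← Finset.sum_sub_distrib, Finset.mul_sum]
      refine Finset.sum_congr rfl fun i _ => ?_
      ring
    rw [Finset.sum_congr rfl h1, Finset.sum_congr rfl h2, Finset.sum_comm]
  unfold Commute SemiconjBy
  ext η ζ
  have := congrFun (key (Pi.single ζ 1)) η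
  simpa using this

/-! ### Reversibility -/

theorem rev_pow (π : S → ℝ) (Q : Matrix S S ℝ) (h : Rev π Q) (n : ℕ) : Rev π (Q ^ n) := by
  induction n with
  | zero =>
    intro i j
    rw [pow_zero, Matrix.one_apply, Matrix.one_apply]
    by_cases hij : i = j
    · subst hij; rfl
    · rw [if_neg hij, if_neg (Ne.symm hij)]
      simp
  | succ n ih =>
    intro i j
    rw [pow_succ, Matrix.mul_apply]
    rw [show Q ^ n * Q = Q * Q ^ n from ((Commute.refl Q).pow_left n).eq, Matrix.mul_apply,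
      Finset.mul_sum, Finset.mul_sum]
    refine Finset.sum_congr rfl fun k _ => ?_
    have h1 := ih i k
    have h2 := h k j
    calc π i * ((Q ^ n) i k * Q k j) = (π i * (Q ^ n) i k) * Q k j := by ring
      _ = (π k * (Q ^ n) k i) * Q k j := by rw [h1]
      _ = (π k * Q k j) * (Q ^ n) k i := by ring
      _ = (π j * Q j k) * (Q ^ n) k i := by rw [h2]
      _ = π j * (Q j k * (Q ^ n) k i) := by ring

theorem rev_smul (π : S → ℝ) (Q : Matrix S S ℝ) (h : Rev π Q) (t : ℝ) : Rev π (t • Q) := by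
  intro i j
  simp only [Matrix.smul_apply, smul_eq_mul]
  have := h i j
  linear_combination t * this

theorem rev_exp (π : S → ℝ) (Q : Matrix S S ℝ) (h : Rev π Q) (t : ℝ) :
    Rev π (NormedSpace.exp (t • Q)) := by
  intro i j
  have h1 := (H96.hasSum_exp_entry (t • Q) i j).mul_left (π i)
  have h2 := (H96.hasSum_exp_entry (t • Q) j i).mul_left (π j)
  refine h1.unique ?_
  convert h2 using 2 with n
  have h3 := rev_pow π _ (rev_smul π Q h t) n i j
  simp only [Matrix.smul_apply, smul_eq_mul]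
  linear_combination ((n.factorial : ℝ)⁻¹) * h3

theorem pair_mulVec_of_rev (π : S → ℝ) (P : Matrix S S ℝ) (h : Rev π P) (f g : S → ℝ) :
    pair π f (P *ᵥ g) = pair π (P *ᵥ f) g := by
  unfold pair
  simp only [Matrix.mulVec, dotProduct, Finset.mul_sum, Finset.sum_mul]
  rw [Finset.sum_comm]
  refine Finset.sum_congr rfl fun i _ => Finset.sum_congr rfl fun j _ => ?_
  have := h j i
  linear_combination (f j * g i) * this

theorem pair_sg (π : S → ℝ) (Q : Matrix S S ℝ) (h : Rev π Q) (t : ℝ) (f g : S → ℝ) :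
    pair π f (sg Q t g) = pair π (sg Q t f) g :=
  pair_mulVec_of_rev π _ (rev_exp π Q h t) f g

/-! ### Comparison -/

/-- If `Q' g ≤ Q g` for all increasing `g`, then the semigroups compare on increasing functions. -/
theorem sg_compare (r : S → S → Prop) (J J' : Finset I) (c c' : I → ℝ) (T T' : I → S → S)
    (hc : ∀ i ∈ J, 0 ≤ c i) (hc' : ∀ i ∈ J', 0 ≤ c' i)
    (hT : ∀ i ∈ J, ∀ η ζ, r η ζ → r (T i η) (T i ζ))
    (hle : ∀ g, Incr r g → ∀ η, (gen J' c' T' *ᵥ g) η ≤ (gen J c T *ᵥ g) η)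
    {t : ℝ} (ht : 0 ≤ t) (g : S → ℝ) (hg : Incr r g) (i : S) :
    sg (gen J' c' T') t g i ≤ sg (gen J c T) t g i := by
  set Q := gen J c T with hQ
  set Q' := gen J' c' T' with hQ'
  set φ : ℝ → ℝ := fun s => sg Q' s (sg Q (t - s) g) i with hφ
  have hder : ∀ s : ℝ, HasDerivAt φ
      (sg Q' s (Q' *ᵥ (sg Q (t - s) g)) i - sg Q' s (Q *ᵥ (sg Q (t - s) g)) i) s := by
    intro s
    have e1 : ∀ j, HasDerivAt (fun u : ℝ => NormedSpace.exp (u • Q') i j)
        ((NormedSpace.exp (s • Q') * Q') i j) s := by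
      intro j
      have h0 := sg_hasDerivAt Q' (Pi.single j 1) i s
      have h1 : (fun u : ℝ => sg Q' u (Pi.single j 1) i)
          = fun u : ℝ => NormedSpace.exp (u • Q') i j := by
        funext u; simp [sg]
      have h2 : sg Q' s (Q' *ᵥ Pi.single j 1) i = (NormedSpace.exp (s • Q') * Q') i j := by
        unfold sg
        rw [Matrix.mulVec_mulVec]
        simp
      rw [h1, h2] at h0
      exact h0
    have e2 : ∀ j, HasDerivAt (fun u : ℝ => sg Q (t - u) g j)
        (-(Q *ᵥ sg Q (t - s) g) j) s := by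
      intro j
      have h1 := sg_hasDerivAt' Q g j (t - s)
      have h2 : HasDerivAt (fun u : ℝ => t - u) (-1) s := by
        simpa using (hasDerivAt_id s).const_sub t
      have h3 := h1.comp s h2
      rw [mul_neg_one] at h3
      exact h3
    have e3 : HasDerivAt φ (∑ j, ((NormedSpace.exp (s • Q') * Q') i j * sg Q (t - s) g j
        + NormedSpace.exp (s • Q') i j * (-(Q *ᵥ sg Q (t - s) g) j))) s := by
      have : φ = fun u : ℝ => ∑ j, NormedSpace.exp (u • Q') i j * sg Q (t - u) g j := by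
        funext u; rfl
      rw [this]
      exact HasDerivAt.fun_sum fun j _ => (e1 j).mul (e2 j)
    convert e3 using 1
    rw [Finset.sum_add_distrib]
    simp only [mul_neg, Finset.sum_neg_distrib, ← sub_eq_add_neg]
    congr 1
    unfold sg
    rw [Matrix.mulVec_mulVec]
    rfl
  have hneg : ∀ s : ℝ, 0 < s → s < t →
      sg Q' s (Q' *ᵥ (sg Q (t - s) g)) i - sg Q' s (Q *ᵥ (sg Q (t - s) g)) i ≤ 0 := by
    intro s hs hst
    rw [sub_nonpos]
    refine sg_mono J' c' T' hc' hs.le _ _ (fun j => ?_) i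
    exact hle _ (sg_incr r J c T hc hT (by linarith) g hg) j
  have hanti : AntitoneOn φ (Set.Icc 0 t) := by
    refine antitoneOn_of_deriv_nonpos (convex_Icc 0 t)
      (fun s _ => (hder s).continuousAt.continuousWithinAt)
      (fun s _ => (hder s).differentiableAt.differentiableWithinAt) ?_
    intro s hs
    rw [interior_Icc] at hs
    rw [(hder s).deriv]
    exact hneg s hs.1 hs.2
  have h := hanti (Set.left_mem_Icc.2 ht) (Set.right_mem_Icc.2 ht) ht
  simp only [hφ, sub_self, sub_zero] at h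
  rw [sg_zero, sg_zero] at h
  exact h

end Pool.Agent.EBX
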