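import Mathlib
import Pool.Agent.EBX.Defs
import Pool.Agent.EBX.Semi

/-!
# EBX: heights, order, detailed balance. Sketch: ht_succ by filter_insert; ht_up: the two sites x, x+1 carry
s = ht x - ht (x+2) particles; everything else from heights. pair_bond: pair up η and Up η (for Up η ≠ η one has
Dn (Up η) = η, and wt (Up η) q = wt η p by hG.bal); terms with Up η = η vanish. QA_rev: Rev for each bond map pair.
-/

set_option autoImplicit false

open scoped Matrix ENNReal NNReal
open MeasureTheory Filter Topology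

namespace Pool.Agent.EBX

theorem QA_mulVec {N k : ℕ} (p q : ℕ → ℝ) (A : Finset ℕ) (f : St N k → ℝ) (η : St N k) :
    (QA N k p q A *ᵥ f) η
      = ∑ x ∈ A, (p x * (f (Up N k x η) - f η) + q x * (f (Dn N k x η) - f η)) := by
  unfold QA
  rw [gen_mulVec, Finset.sum_product]
  refine Finset.sum_congr rfl fun x _ => ?_
  simp [rt, mv]

theorem ht_succ (η : Finset ℕ) (y : ℕ) : ht η y = ht η (y + 1) + if y ∈ η then 1 else 0 := by
  unfold ht
  split_ifs with h
  · have : η.filter (fun x => y ≤ x) = insert y (η.filter (fun x => y + 1 ≤ x)) := by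
      ext z
      simp only [Finset.mem_filter, Finset.mem_insert]
      constructor
      · rintro ⟨hz, hyz⟩
        by_cases hzy : z = y
        · exact Or.inl hzy
        · exact Or.inr ⟨hz, by omega⟩
      · rintro (rfl | ⟨hz, hyz⟩)
        · exact ⟨h, le_rfl⟩
        · exact ⟨hz, by omega⟩
    rw [this, Finset.card_insert_of_notMem (by simp)]
  · rw [add_zero]
    congr 1
    ext z
    simp only [Finset.mem_filter]
    constructor
    · rintro ⟨hz, hyz⟩
      refine ⟨hz, ?_⟩
      rcases eq_or_lt_of_le hyz with rfl | h'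
      · exact absurd hz h
      · omega
    · rintro ⟨hz, hyz⟩
      exact ⟨hz, by omega⟩

theorem ht_anti (η : Finset ℕ) {y y' : ℕ} (h : y ≤ y') : ht η y' ≤ ht η y :=
  Finset.card_le_card (Finset.monotone_filter_right _ (fun _ _ hz => h.trans hz))

theorem ht_le_add (η : Finset ℕ) {a b : ℕ} (h : a ≤ b) : ht η a ≤ ht η b + (b - a) := by
  obtain ⟨d, rfl⟩ := Nat.exists_eq_add_of_le h
  clear h
  induction d with
  | zero => simp
  | succ d ih =>
    have h1 := ht_succ η (a + d)
    have h2 : (if a + d ∈ η then 1 else 0) ≤ 1 := by split_ifs <;> omega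
    have h3 : a + (d + 1) = a + d + 1 := rfl
    rw [h3]
    omega

theorem ht_zero {N k : ℕ} (η : St N k) : ht η.1 0 = k := by
  unfold ht
  simp only [Nat.zero_le, Finset.filter_true]
  exact (Finset.mem_powersetCard.1 η.2).2

theorem ht_top {N k : ℕ} (η : St N k) {y : ℕ} (hy : N ≤ y) : ht η.1 y = 0 := by
  unfold ht
  rw [Finset.card_eq_zero, Finset.filter_eq_empty_iff]
  intro x hx hyx
  have := Finset.mem_range.1 ((Finset.mem_powersetCard.1 η.2).1 hx)
  omega

theorem ht_le_k {N k : ℕ} (η : St N k) (y : ℕ) : ht η.1 y ≤ k :=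
  (ht_anti η.1 (Nat.zero_le y)).trans (ht_zero η).le

theorem ht_le_sub {N k : ℕ} (η : St N k) (y : ℕ) : ht η.1 y ≤ N - y := by
  rcases le_or_gt N y with h | h
  · rw [ht_top η h]; omega
  · have := ht_le_add η.1 h.le
    rw [ht_top η le_rfl] at this
    omega

theorem ht_up_of_ne (η : Finset ℕ) {x y : ℕ} (h : y ≠ x + 1) : ht (up x η) y = ht η y := by
  unfold up
  split_ifs with hc
  · unfold ht
    rcases le_or_gt y x with hy | hy
    · rw [Finset.filter_insert, if_pos (by omega), Finset.filter_erase,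
        Finset.card_insert_of_notMem
          (fun hm => hc.2 (Finset.mem_filter.1 (Finset.mem_of_mem_erase hm)).1),
        Finset.card_erase_of_mem (Finset.mem_filter.2 ⟨hc.1, hy⟩)]
      have : 0 < (η.filter (fun z => y ≤ z)).card :=
        Finset.card_pos.2 ⟨x, Finset.mem_filter.2 ⟨hc.1, hy⟩⟩
      exact Nat.sub_add_cancel this
    · rw [Finset.filter_insert, if_neg (by omega), Finset.filter_erase,
        Finset.erase_eq_of_notMem (fun hm => by
          have := (Finset.mem_filter.1 hm).2
          omega)]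
  · rfl

theorem ht_dn_of_ne (η : Finset ℕ) {x y : ℕ} (h : y ≠ x + 1) : ht (dn x η) y = ht η y := by
  unfold dn
  split_ifs with hc
  · unfold ht
    rcases le_or_gt y x with hy | hy
    · rw [Finset.filter_insert, if_pos (by omega), Finset.filter_erase,
        Finset.card_insert_of_notMem
          (fun hm => hc.2 (Finset.mem_filter.1 (Finset.mem_of_mem_erase hm)).1),
        Finset.card_erase_of_mem (Finset.mem_filter.2 ⟨hc.1, by omega⟩)]
      have : 0 < (η.filter (fun z => y ≤ z)).card :=
        Finset.card_pos.2 ⟨x + 1, Finset.mem_filter.2 ⟨hc.1, by omega⟩⟩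
      exact Nat.sub_add_cancel this
    · rw [Finset.filter_insert, if_neg (by omega), Finset.filter_erase,
        Finset.erase_eq_of_notMem (fun hm => by
          have := (Finset.mem_filter.1 hm).2
          omega)]
  · rfl

theorem mem_up_succ (η : Finset ℕ) (x : ℕ) : x + 1 ∈ up x η ↔ x ∈ η ∨ x + 1 ∈ η := by
  unfold up
  split_ifs with hc
  · simp [hc.1]
  · constructor
    · exact fun h => Or.inr h
    · rintro (h | h)
      · by_contra h'
        exact hc ⟨h, h'⟩
      · exact h

theorem mem_dn_succ (η : Finset ℕ) (x : ℕ) : x + 1 ∈ dn x η ↔ x ∈ η ∧ x + 1 ∈ η := by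
  unfold dn
  split_ifs with hc
  · constructor
    · intro h
      rw [Finset.mem_insert] at h
      rcases h with h | h
      · omega
      · exact absurd rfl (Finset.ne_of_mem_erase h)
    · rintro ⟨h, _⟩
      exact absurd h hc.2
  · constructor
    · intro h
      refine ⟨?_, h⟩
      by_contra h'
      exact hc ⟨h, h'⟩
    · exact fun h => h.2

theorem ht_up (η : Finset ℕ) (x : ℕ) :
    ht (up x η) (x + 1) = min (ht η x) (ht η (x + 2) + 1) := by
  have h1 := ht_succ (up x η) (x + 1)
  have h2 := ht_up_of_ne η (x := x) (y := x + 1 + 1) (by omega)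
  have h3 := ht_succ η x
  have h4 := ht_succ η (x + 1)
  have e : x + 2 = x + 1 + 1 := rfl
  rw [e]
  rw [h2] at h1
  have h5 := mem_up_succ η x
  by_cases a : x ∈ η <;> by_cases b : x + 1 ∈ η <;> simp only [a, b, if_true, if_false] at h3 h4 h5 <;>
    simp only [h5, true_or, or_true, or_self, if_true, if_false] at h1 <;> omega

theorem ht_dn (η : Finset ℕ) (x : ℕ) :
    ht (dn x η) (x + 1) = max (ht η x - 1) (ht η (x + 2)) := by
  have h1 := ht_succ (dn x η) (x + 1)
  have h2 := ht_dn_of_ne η (x := x) (y := x + 1 + 1) (by omega)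
  have h3 := ht_succ η x
  have h4 := ht_succ η (x + 1)
  have e : x + 2 = x + 1 + 1 := rfl
  rw [e]
  rw [h2] at h1
  have h5 := mem_dn_succ η x
  by_cases a : x ∈ η <;> by_cases b : x + 1 ∈ η <;> simp only [a, b, if_true, if_false] at h3 h4 h5 <;>
    simp only [h5, and_true, and_false, and_self, if_true, if_false] at h1 <;> omega

theorem eq_of_ht {η ζ : Finset ℕ} (h : ∀ y, ht η y = ht ζ y) : η = ζ := by
  ext y
  have h1 := ht_succ η y
  have h2 := ht_succ ζ y
  have h3 := h y
  have h4 := h (y + 1)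
  by_cases a : y ∈ η <;> by_cases b : y ∈ ζ <;> simp only [a, b, if_true, if_false] at h1 h2 ⊢ <;>
    omega

theorem hle_antisymm {N k : ℕ} {η ζ : St N k} (h : hle η ζ) (h' : hle ζ η) : η = ζ :=
  Subtype.ext (eq_of_ht fun y => le_antisymm (h y) (h' y))

/-- heights at closed cuts are conserved -/
theorem ht_mv {N k : ℕ} (i : ℕ × Bool) {y : ℕ} (h : y ≠ i.1 + 1) (η : St N k) :
    ht (mv N k i η).1 y = ht η.1 y := by
  obtain ⟨x, b⟩ := i
  have h' : y ≠ x + 1 := h
  cases b
  · simp only [mv, Bool.false_eq_true, if_false]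
    unfold Dn
    split_ifs
    · exact ht_dn_of_ne η.1 h'
    · rfl
  · simp only [mv, if_true]
    unfold Up
    split_ifs
    · exact ht_up_of_ne η.1 h'
    · rfl

theorem ht_mv_succ {N k : ℕ} (x : ℕ) (b : Bool) (η : St N k) :
    ht (mv N k (x, b) η).1 (x + 1) = if x + 1 < N then
      (if b then min (ht η.1 x) (ht η.1 (x + 2) + 1) else max (ht η.1 x - 1) (ht η.1 (x + 2)))
      else ht η.1 (x + 1) := by
  cases b
  · simp only [mv, Bool.false_eq_true, if_false]
    unfold Dn
    split_ifs
    · exact ht_dn η.1 x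
    · rfl
  · simp only [mv, if_true]
    unfold Up
    split_ifs
    · exact ht_up η.1 x
    · rfl

theorem mv_mono {N k : ℕ} (i : ℕ × Bool) (η ζ : St N k) (h : hle η ζ) :
    hle (mv N k i η) (mv N k i ζ) := by
  obtain ⟨x, b⟩ := i
  intro y
  by_cases hy : y = x + 1
  · subst hy
    rw [ht_mv_succ, ht_mv_succ]
    have h1 := h x
    have h2 := h (x + 2)
    have h3 := h (x + 1)
    split_ifs
    · exact min_le_min h1 (by omega)
    · exact max_le_max (by omega) h2
    · exact h3
  · rw [ht_mv (x, b) hy, ht_mv (x, b) hy]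
    exact h y

theorem bot_hle {N k : ℕ} (hk : k ≤ N) (η : St N k) : hle (botSt N k hk) η := by
  intro y
  have h1 : ht (botSt N k hk).1 y ≤ k - y := by
    unfold ht botSt
    calc ((Finset.range k).filter (fun x => y ≤ x)).card ≤ (Finset.Ico y k).card := by
          refine Finset.card_le_card fun z hz => ?_
          rw [Finset.mem_filter, Finset.mem_range] at hz
          exact Finset.mem_Ico.2 ⟨hz.2, hz.1⟩
      _ = k - y := Nat.card_Ico _ _
  have h2 := ht_le_add η.1 (Nat.zero_le y)
  rw [ht_zero] at h2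
  omega

theorem hle_top {N k : ℕ} (hk : k ≤ N) (η : St N k) : hle η (topSt N k hk) := by
  intro y
  have h1 : min k (N - y) ≤ ht (topSt N k hk).1 y := by
    unfold ht topSt
    calc min k (N - y) = (Finset.Ico (max (N - k) y) N).card := by
          rw [Nat.card_Ico]
          omega
      _ ≤ ((Finset.Ico (N - k) N).filter (fun x => y ≤ x)).card := by
          refine Finset.card_le_card fun z hz => ?_
          rw [Finset.mem_Ico] at hz
          rw [Finset.mem_filter, Finset.mem_Ico]
          have := le_max_left (N - k) y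
          have := le_max_right (N - k) y
          refine ⟨⟨by omega, hz.2⟩, by omega⟩
  have h2 := ht_le_sub η y
  have h3 := ht_le_k η y
  exact (le_min h3 h2).trans h1

theorem le_Up {N k : ℕ} (x : ℕ) (η : St N k) : hle η (Up N k x η) := by
  intro y
  have e : Up N k x η = mv N k (x, true) η := by simp [mv]
  rw [e]
  by_cases hy : y = x + 1
  · subst hy
    rw [ht_mv_succ]
    have h3 := ht_succ η.1 x
    have h4 := ht_succ η.1 (x + 1)
    have e2 : x + 2 = x + 1 + 1 := rfl
    rw [e2]
    have h5 : (if x + 1 ∈ η.1 then 1 else 0) ≤ 1 := by split_ifs <;> omega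
    simp only [↓reduceIte]
    split_ifs
    · exact le_min (by omega) (by omega)
    · exact le_rfl
  · rw [ht_mv (x, true) hy]

theorem Dn_le {N k : ℕ} (x : ℕ) (η : St N k) : hle (Dn N k x η) η := by
  intro y
  have e : Dn N k x η = mv N k (x, false) η := by simp [mv]
  rw [e]
  by_cases hy : y = x + 1
  · subst hy
    rw [ht_mv_succ]
    have h3 := ht_succ η.1 x
    have h4 := ht_succ η.1 (x + 1)
    have e2 : x + 2 = x + 1 + 1 := rfl
    rw [e2]
    have h5 : (if x ∈ η.1 then 1 else 0) ≤ 1 := by split_ifs <;> omega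
    simp only [Bool.false_eq_true, if_false]
    split_ifs
    · exact max_le (by omega) (by omega)
    · exact le_rfl
  · rw [ht_mv (x, false) hy]

theorem mv_comm_aux {N k : ℕ} (i j : ℕ × Bool) (h : i.1 + 1 < j.1 ∨ j.1 + 1 < i.1) (η : St N k)
    (y : ℕ) (hy : y = i.1 + 1) :
    ht (mv N k i (mv N k j η)).1 y = ht (mv N k j (mv N k i η)).1 y := by
  obtain ⟨x, b⟩ := i
  obtain ⟨x', b'⟩ := j
  simp only at h hy
  subst hy
  rw [ht_mv (x', b') (show x + 1 ≠ x' + 1 by omega), ht_mv_succ, ht_mv_succ,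
    ht_mv (x', b') (show x ≠ x' + 1 by omega), ht_mv (x', b') (show x + 2 ≠ x' + 1 by omega),
    ht_mv (x', b') (show x + 1 ≠ x' + 1 by omega)]

theorem mv_comm {N k : ℕ} (i j : ℕ × Bool) (h : i.1 + 1 < j.1 ∨ j.1 + 1 < i.1) (η : St N k) :
    mv N k i (mv N k j η) = mv N k j (mv N k i η) := by
  refine Subtype.ext (eq_of_ht fun y => ?_)
  by_cases h1 : y = i.1 + 1
  · exact mv_comm_aux i j h η y h1
  by_cases h2 : y = j.1 + 1
  · exact (mv_comm_aux j i h.symm η y h2).symm
  · rw [ht_mv i h1, ht_mv j h2, ht_mv j h2, ht_mv i h1]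

theorem mem_mv {N k : ℕ} (i : ℕ × Bool) {y : ℕ} (h : y ≠ i.1) (h' : y ≠ i.1 + 1) (η : St N k) :
    y ∈ (mv N k i η).1 ↔ y ∈ η.1 := by
  have h1 := ht_succ (mv N k i η).1 y
  have h2 := ht_succ η.1 y
  rw [ht_mv i h', ht_mv i (show y + 1 ≠ i.1 + 1 by omega)] at h1
  by_cases a : y ∈ η.1 <;> by_cases b : y ∈ (mv N k i η).1 <;>
    simp only [a, b, if_true, if_false] at h1 h2 ⊢ <;> omega

/-- a move at bond `x` with `x, x+1` outside `[a,b)` does not change the box -/
theorem mv_inter {N k : ℕ} (i : ℕ × Bool) {a b : ℕ} (h : i.1 + 1 < a ∨ b ≤ i.1) (η : St N k) :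
    (mv N k i η).1 ∩ Finset.Ico a b = η.1 ∩ Finset.Ico a b := by
  ext y
  rw [Finset.mem_inter, Finset.mem_inter, Finset.mem_Ico]
  constructor
  · rintro ⟨h1, h2⟩
    exact ⟨(mem_mv i (by omega) (by omega) η).1 h1, h2⟩
  · rintro ⟨h1, h2⟩
    exact ⟨(mem_mv i (by omega) (by omega) η).2 h1, h2⟩

/-- a move at a bond inside `[a,b)` does not change the outside -/
theorem mv_sdiff {N k : ℕ} (i : ℕ × Bool) {a b : ℕ} (h : a ≤ i.1 ∧ i.1 + 1 < b) (η : St N k) :
    (mv N k i η).1 \ Finset.Ico a b = η.1 \ Finset.Ico a b := by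
  ext y
  rw [Finset.mem_sdiff, Finset.mem_sdiff, Finset.mem_Ico]
  constructor
  · rintro ⟨h1, h2⟩
    exact ⟨(mem_mv i (by omega) (by omega) η).1 h1, h2⟩
  · rintro ⟨h1, h2⟩
    exact ⟨(mem_mv i (by omega) (by omega) η).2 h1, h2⟩

theorem dn_up {η : Finset ℕ} {x : ℕ} (h : up x η ≠ η) : dn x (up x η) = η := by
  unfold up at h ⊢
  split_ifs at h ⊢ with hc
  · unfold dn
    rw [if_pos]
    · rw [Finset.erase_insert (fun hm => hc.2 (Finset.mem_of_mem_erase hm)),
        Finset.insert_erase hc.1]
    · refine ⟨Finset.mem_insert_self _ _, fun hm => ?_⟩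
      rw [Finset.mem_insert] at hm
      rcases hm with hm | hm
      · omega
      · exact absurd rfl (Finset.ne_of_mem_erase hm)
  · exact absurd rfl h

theorem up_dn {η : Finset ℕ} {x : ℕ} (h : dn x η ≠ η) : up x (dn x η) = η := by
  unfold dn at h ⊢
  split_ifs at h ⊢ with hc
  · unfold up
    rw [if_pos]
    · rw [Finset.erase_insert (fun hm => hc.2 (Finset.mem_of_mem_erase hm)),
        Finset.insert_erase hc.1]
    · refine ⟨Finset.mem_insert_self _ _, fun hm => ?_⟩
      rw [Finset.mem_insert] at hm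
      rcases hm with hm | hm
      · omega
      · exact absurd rfl (Finset.ne_of_mem_erase hm)
  · exact absurd rfl h

theorem Dn_Up {N k x : ℕ} {η : St N k} (h : Up N k x η ≠ η) : Dn N k x (Up N k x η) = η := by
  unfold Up at h ⊢
  split_ifs at h ⊢ with hc
  · unfold Dn
    rw [dif_pos hc]
    exact Subtype.ext (dn_up (fun he => h (Subtype.ext he)))
  · exact absurd rfl h

theorem Up_Dn {N k x : ℕ} {η : St N k} (h : Dn N k x η ≠ η) : Up N k x (Dn N k x η) = η := by
  unfold Dn at h ⊢
  split_ifs at h ⊢ with hc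
  · unfold Up
    rw [dif_pos hc]
    exact Subtype.ext (up_dn (fun he => h (Subtype.ext he)))
  · exact absurd rfl h

theorem wt_up {κ : ℝ} {p q V : ℕ → ℝ} (hG : Good κ p q V) {x : ℕ} {η : Finset ℕ}
    (h : up x η ≠ η) : wt V (up x η) * q x = wt V η * p x := by
  unfold up at h ⊢
  split_ifs at h ⊢ with hc
  · unfold wt
    rw [Finset.sum_insert (fun hm => hc.2 (Finset.mem_of_mem_erase hm))]
    have h1 : ∑ z ∈ η, V z = V x + ∑ z ∈ η.erase x, V z := (Finset.add_sum_erase η V hc.1).symm
    rw [h1, neg_add, neg_add, Real.exp_add, Real.exp_add]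
    have h2 := hG.bal x
    linear_combination (-Real.exp (-∑ z ∈ η.erase x, V z)) * h2
  · exact absurd rfl h

theorem wt_Up {N k : ℕ} {κ : ℝ} {p q V : ℕ → ℝ} (hG : Good κ p q V) {x : ℕ} {η : St N k}
    (h : Up N k x η ≠ η) : wt V (Up N k x η).1 * q x = wt V η.1 * p x := by
  unfold Up at h ⊢
  split_ifs at h ⊢ with hc
  · exact wt_up hG (fun he => h (Subtype.ext he))
  · exact absurd rfl h

theorem rev_entry {N k : ℕ} {κ : ℝ} {p q V : ℕ → ℝ} (hG : Good κ p q V) (x : ℕ) (η ζ : St N k)
    (hne : η ≠ ζ) :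
    wt V η.1 * (p x * (if Up N k x η = ζ then 1 else 0))
      = wt V ζ.1 * (q x * (if Dn N k x ζ = η then 1 else 0)) := by
  by_cases h : Up N k x η = ζ
  · have hn : Up N k x η ≠ η := fun he => hne (he.symm.trans h)
    have h1 : Dn N k x ζ = η := by rw [← h]; exact Dn_Up hn
    have h2 := wt_Up hG hn
    rw [h] at h2
    rw [if_pos h, if_pos h1]
    linarith
  · have h1 : Dn N k x ζ ≠ η := by
      intro h1
      apply h
      rw [← h1]
      refine Up_Dn ?_
      rw [h1]
      exact hne
    rw [if_neg h, if_neg h1]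
    ring

/-- detailed balance, bond by bond -/
theorem QA_rev {N k : ℕ} {κ : ℝ} {p q V : ℕ → ℝ} (hG : Good κ p q V) (A : Finset ℕ) :
    Rev (fun η : St N k => wt V η.1) (QA N k p q A) := by
  intro η ζ
  by_cases hne : η = ζ
  · rw [hne]
  · have hne' : ζ ≠ η := fun h => hne h.symm
    simp only [QA, gen, Matrix.of_apply]
    rw [Finset.sum_product, Finset.sum_product, Finset.mul_sum, Finset.mul_sum]
    refine Finset.sum_congr rfl fun x _ => ?_
    have h1 := rev_entry hG x η ζ hne
    have h2 := rev_entry hG x ζ η hne'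
    simp only [Fintype.sum_bool, rt, mv, if_true, Bool.false_eq_true, if_false, if_neg hne,
      if_neg hne', sub_zero]
    linarith

/-- Dirichlet form of one bond -/
theorem pair_bond {N k : ℕ} {κ : ℝ} {p q V : ℕ → ℝ} (hG : Good κ p q V) (x : ℕ)
    (f g : St N k → ℝ) :
    pair (fun η : St N k => wt V η.1) f (QA N k p q {x} *ᵥ g)
      = - ∑ η : St N k, wt V η.1 * (p x * ((f (Up N k x η) - f η) * (g (Up N k x η) - g η))) := by
  have key : ∑ η : St N k, wt V η.1 * (q x * (f η * (g (Dn N k x η) - g η)))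
      = ∑ η : St N k, wt V η.1 * (p x * (f (Up N k x η) * (g η - g (Up N k x η)))) := by
    have e1 : ∀ η : St N k, wt V η.1 * (q x * (f η * (g (Dn N k x η) - g η)))
        = ∑ ζ : St N k, (if η ≠ ζ then
            wt V η.1 * (q x * (if Dn N k x η = ζ then 1 else 0)) * (f η * (g ζ - g η)) else 0) := by
      intro η
      rw [Finset.sum_eq_single (Dn N k x η)]
      · by_cases h : η = Dn N k x η
        · rw [if_neg (not_not.2 h), ← h]; ring
        · rw [if_pos h, if_pos rfl]; ring
      · intro ζ _ hζ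
        split_ifs with h1 h2
        · exact absurd h2.symm hζ
        · ring
        · rfl
      · intro h
        exact absurd (Finset.mem_univ _) h
    have e2 : ∀ ζ : St N k, wt V ζ.1 * (p x * (f (Up N k x ζ) * (g ζ - g (Up N k x ζ))))
        = ∑ η : St N k, (if η ≠ ζ then
            wt V ζ.1 * (p x * (if Up N k x ζ = η then 1 else 0)) * (f η * (g ζ - g η)) else 0) := by
      intro ζ
      rw [Finset.sum_eq_single (Up N k x ζ)]
      · by_cases h : Up N k x ζ = ζ
        · rw [if_neg (not_not.2 h), h]; ring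
        · rw [if_pos h, if_pos rfl]; ring
      · intro η _ hη
        split_ifs with h1 h2
        · exact absurd h2.symm hη
        · ring
        · rfl
      · intro h
        exact absurd (Finset.mem_univ _) h
    rw [Finset.sum_congr rfl (fun η _ => e1 η), Finset.sum_congr rfl (fun ζ _ => e2 ζ),
      Finset.sum_comm]
    refine Finset.sum_congr rfl fun ζ _ => Finset.sum_congr rfl fun η _ => ?_
    by_cases h : η = ζ
    · rw [if_neg (not_not.2 h), if_neg (not_not.2 h)]
    · rw [if_pos h, if_pos h, rev_entry hG x ζ η (fun h' => h h'.symm)]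
  unfold pair
  have e0 : ∀ η : St N k, wt V η.1 * (f η * (QA N k p q {x} *ᵥ g) η)
      = wt V η.1 * (p x * (f η * (g (Up N k x η) - g η)))
        + wt V η.1 * (q x * (f η * (g (Dn N k x η) - g η))) := by
    intro η
    rw [QA_mulVec, Finset.sum_singleton]
    ring
  rw [Finset.sum_congr rfl (fun η _ => e0 η), Finset.sum_add_distrib, key,
    ← Finset.sum_add_distrib, ← Finset.sum_neg_distrib]
  refine Finset.sum_congr rfl fun η _ => ?_
  ring

end Pool.Agent.EBX
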