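import Mathlib
import Pool.Agent.EBX.States
import Pool.Agent.EBX.Path

/-!
# EBX: Poincare inequality of a closed box inside `St N k`
-/

set_option autoImplicit false

open scoped Matrix

namespace Pool.Agent.EBX

section Cls

variable {N k : ℕ}

/-- Normalising constant of the class. -/
noncomputable def zc (V : ℕ → ℝ) (a b : ℕ) (η₀ : St N k) : ℝ :=
  ∑ ξ : St N k, if ξ.1 \ Finset.Ico a b = η₀.1 \ Finset.Ico a b then wt V ξ.1 else 0

theorem wt_pos (V : ℕ → ℝ) (η : Finset ℕ) : 0 < wt V η := Real.exp_pos _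

theorem zc_pos (V : ℕ → ℝ) (a b : ℕ) (η₀ : St N k) : 0 < zc V a b η₀ := by
  unfold zc
  refine Finset.sum_pos' (fun ξ _ => ?_) ⟨η₀, Finset.mem_univ _, ?_⟩
  · split_ifs
    · exact (wt_pos V _).le
    · exact le_rfl
  · rw [if_pos rfl]; exact wt_pos V _

theorem pic_eq (V : ℕ → ℝ) (a b : ℕ) (η₀ ζ : St N k) :
    pic V a b η₀ ζ = (if ζ.1 \ Finset.Ico a b = η₀.1 \ Finset.Ico a b then wt V ζ.1 else 0)
      / zc V a b η₀ := by
  unfold pic zc
  split_ifs <;> simp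

theorem pic_nonneg (V : ℕ → ℝ) (a b : ℕ) (η₀ ζ : St N k) : 0 ≤ pic V a b η₀ ζ := by
  rw [pic_eq]
  refine div_nonneg ?_ (zc_pos V a b η₀).le
  split_ifs
  · exact (wt_pos V _).le
  · exact le_rfl

theorem pic_sum (V : ℕ → ℝ) (a b : ℕ) (η₀ : St N k) : ∑ ζ, pic V a b η₀ ζ = 1 := by
  simp_rw [pic_eq]
  rw [← Finset.sum_div]
  exact div_self (zc_pos V a b η₀).ne'

theorem mv_sdiff_iff (i : ℕ × Bool) {a b : ℕ} (h : a ≤ i.1 ∧ i.1 + 1 < b) (η₀ η : St N k) :
    (mv N k i η).1 \ Finset.Ico a b = η₀.1 \ Finset.Ico a b ↔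
      η.1 \ Finset.Ico a b = η₀.1 \ Finset.Ico a b := by
  rw [mv_sdiff i h η]

theorem pic_rev {κ : ℝ} {p q V : ℕ → ℝ} (hG : Good κ p q V) (a b : ℕ) (η₀ : St N k)
    (A : Finset ℕ) (hA : ∀ x ∈ A, a ≤ x ∧ x + 1 < b) :
    Rev (pic V a b η₀) (QA N k p q A) := by
  intro i j
  have hrev := QA_rev (N := N) (k := k) hG A i j
  rw [pic_eq, pic_eq]
  by_cases hij : i.1 \ Finset.Ico a b = j.1 \ Finset.Ico a b
  · rw [hij]
    split_ifs with h
    · have : wt V i.1 * QA N k p q A i j = wt V j.1 * QA N k p q A j i := hrev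
      calc wt V i.1 / zc V a b η₀ * QA N k p q A i j
          = (wt V i.1 * QA N k p q A i j) / zc V a b η₀ := by ring
        _ = (wt V j.1 * QA N k p q A j i) / zc V a b η₀ := by rw [this]
        _ = _ := by ring
    · simp
  · -- no transition between different classes
    have hz : ∀ i j : St N k, i.1 \ Finset.Ico a b ≠ j.1 \ Finset.Ico a b →
        QA N k p q A i j = 0 := by
      intro i j hne
      unfold QA gen
      rw [Matrix.of_apply]
      refine Finset.sum_eq_zero fun e he => ?_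
      rw [Finset.mem_product] at he
      have h1 : mv N k e i ≠ j := by
        intro h
        apply hne
        rw [← h, mv_sdiff e (hA e.1 he.1) i]
      have h2 : i ≠ j := fun h => hne (by rw [h])
      rw [if_neg h1, if_neg h2]
      ring
    rw [hz i j hij, hz j i (Ne.symm hij)]
    ring

/-- Lift of a function on `St N k` to the sets `ξ`, with the outside of `η₀` glued. -/
noncomputable def lft (a b : ℕ) (η₀ : St N k) (G : St N k → ℝ) (ξ : Finset ℕ) : ℝ :=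
  if h : ξ ∪ (η₀.1 \ Finset.Ico a b) ∈ (Finset.range N).powersetCard k then
    G ⟨ξ ∪ (η₀.1 \ Finset.Ico a b), h⟩ else 0

theorem glue_mem (a b : ℕ) (hb : b ≤ N) (η₀ : St N k) (ξ : Finset ℕ)
    (hξ : ξ ∈ (Finset.Ico a b).powersetCard (η₀.1 ∩ Finset.Ico a b).card) :
    ξ ∪ (η₀.1 \ Finset.Ico a b) ∈ (Finset.range N).powersetCard k := by
  have hη := Finset.mem_powersetCard.1 η₀.2
  rw [Finset.mem_powersetCard] at hξ ⊢
  refine ⟨?_, ?_⟩
  · intro x hx
    rcases Finset.mem_union.1 hx with hx | hx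
    · have := Finset.mem_Ico.1 (hξ.1 hx)
      exact Finset.mem_range.2 (by omega)
    · exact hη.1 (Finset.mem_sdiff.1 hx).1
  · have hd : Disjoint ξ (η₀.1 \ Finset.Ico a b) := by
      rw [Finset.disjoint_left]
      intro x hx hx'
      exact (Finset.mem_sdiff.1 hx').2 (hξ.1 hx)
    rw [Finset.card_union_of_disjoint hd, hξ.2]
    have := Finset.card_inter_add_card_sdiff η₀.1 (Finset.Ico a b)
    rw [this, hη.2]

theorem lft_eq (a b : ℕ) (hb : b ≤ N) (η₀ : St N k) (G : St N k → ℝ) (ξ : Finset ℕ)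
    (hξ : ξ ∈ (Finset.Ico a b).powersetCard (η₀.1 ∩ Finset.Ico a b).card) :
    lft a b η₀ G ξ = G ⟨ξ ∪ (η₀.1 \ Finset.Ico a b), glue_mem a b hb η₀ ξ hξ⟩ := by
  unfold lft
  rw [dif_pos (glue_mem a b hb η₀ ξ hξ)]

theorem glue_sdiff (a b : ℕ) (η₀ : St N k) (ξ : Finset ℕ) (hξ : ξ ⊆ Finset.Ico a b) :
    (ξ ∪ (η₀.1 \ Finset.Ico a b)) \ Finset.Ico a b = η₀.1 \ Finset.Ico a b := by
  ext x
  have : x ∈ ξ → x ∈ Finset.Ico a b := fun h => hξ h
  simp only [Finset.mem_sdiff, Finset.mem_union]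
  tauto

theorem glue_inter (a b : ℕ) (η₀ : St N k) (ξ : Finset ℕ) (hξ : ξ ⊆ Finset.Ico a b) :
    (ξ ∪ (η₀.1 \ Finset.Ico a b)) ∩ Finset.Ico a b = ξ := by
  ext x
  have : x ∈ ξ → x ∈ Finset.Ico a b := fun h => hξ h
  simp only [Finset.mem_sdiff, Finset.mem_union, Finset.mem_inter]
  tauto

theorem sum_class (a b : ℕ) (hb : b ≤ N) (η₀ : St N k) (G : St N k → ℝ) :
    ∑ ζ : St N k, (if ζ.1 \ Finset.Ico a b = η₀.1 \ Finset.Ico a b then G ζ else 0)
      = ∑ ξ ∈ (Finset.Ico a b).powersetCard (η₀.1 ∩ Finset.Ico a b).card, lft a b η₀ G ξ := by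
  rw [← Finset.sum_filter]
  refine Finset.sum_bij' (fun ζ _ => ζ.1 ∩ Finset.Ico a b)
    (fun ξ hξ => ⟨ξ ∪ (η₀.1 \ Finset.Ico a b), glue_mem a b hb η₀ ξ hξ⟩) ?_ ?_ ?_ ?_ ?_
  · intro ζ hζ
    rw [Finset.mem_filter] at hζ
    rw [Finset.mem_powersetCard]
    refine ⟨Finset.inter_subset_right, ?_⟩
    have h1 := Finset.card_inter_add_card_sdiff ζ.1 (Finset.Ico a b)
    have h2 := Finset.card_inter_add_card_sdiff η₀.1 (Finset.Ico a b)
    rw [hζ.2] at h1
    have h3 := (Finset.mem_powersetCard.1 ζ.2).2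
    have h4 := (Finset.mem_powersetCard.1 η₀.2).2
    omega
  · intro ξ hξ
    rw [Finset.mem_filter]
    refine ⟨Finset.mem_univ _, ?_⟩
    exact glue_sdiff a b η₀ ξ (Finset.mem_powersetCard.1 hξ).1
  · intro ζ hζ
    rw [Finset.mem_filter] at hζ
    apply Subtype.ext
    show ζ.1 ∩ Finset.Ico a b ∪ η₀.1 \ Finset.Ico a b = ζ.1
    rw [← hζ.2, Finset.union_comm]
    exact Finset.sdiff_union_inter ζ.1 (Finset.Ico a b)
  · intro ξ hξ
    exact glue_inter a b η₀ ξ (Finset.mem_powersetCard.1 hξ).1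
  · intro ζ hζ
    rw [Finset.mem_filter] at hζ
    have h1 : ζ.1 ∩ Finset.Ico a b ∪ η₀.1 \ Finset.Ico a b = ζ.1 := by
      rw [← hζ.2, Finset.union_comm]
      exact Finset.sdiff_union_inter ζ.1 (Finset.Ico a b)
    unfold lft
    have h2 : ζ.1 ∩ Finset.Ico a b ∪ η₀.1 \ Finset.Ico a b ∈ (Finset.range N).powersetCard k := by
      rw [h1]; exact ζ.2
    rw [dif_pos h2]
    congr 1
    exact Subtype.ext h1.symm

theorem wt_glue (V : ℕ → ℝ) (a b : ℕ) (η₀ : St N k) (ξ : Finset ℕ) (hξ : ξ ⊆ Finset.Ico a b) :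
    wt V (ξ ∪ (η₀.1 \ Finset.Ico a b)) = wt V ξ * wt V (η₀.1 \ Finset.Ico a b) := by
  unfold wt
  have hd : Disjoint ξ (η₀.1 \ Finset.Ico a b) := by
    rw [Finset.disjoint_left]
    intro x hx hx'
    exact (Finset.mem_sdiff.1 hx').2 (hξ hx)
  rw [Finset.sum_union hd, ← Real.exp_add]
  congr 1
  ring

theorem prod_exp_eq_wt (V : ℕ → ℝ) (A : Finset ℕ) : ∏ x ∈ A, Real.exp (-V x) = wt V A := by
  unfold wt
  rw [← Real.exp_sum, Finset.sum_neg_distrib]

end Cls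

/-- Dirichlet form of the box. -/
theorem pair_pic {N k : ℕ} {κ : ℝ} {p q V : ℕ → ℝ} (hG : Good κ p q V) (a b : ℕ)
    (η₀ : St N k) (f : St N k → ℝ) :
    - pair (pic V a b η₀) f (QA N k p q (Finset.Ico a (b - 1)) *ᵥ f)
      = ∑ j ∈ Finset.Ico a (b - 1), ∑ ζ : St N k,
        pic V a b η₀ ζ * (p j * (f (Up N k j ζ) - f ζ) ^ 2) := by
  have h1 : pair (pic V a b η₀) f (QA N k p q (Finset.Ico a (b - 1)) *ᵥ f)
      = ∑ j ∈ Finset.Ico a (b - 1), pair (pic V a b η₀) f (QA N k p q {j} *ᵥ f) := by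
    unfold pair
    rw [Finset.sum_comm]
    refine Finset.sum_congr rfl fun ζ _ => ?_
    rw [QA_mulVec]
    simp_rw [QA_mulVec]
    rw [Finset.mul_sum, Finset.mul_sum]
    refine Finset.sum_congr rfl fun j _ => ?_
    rw [Finset.sum_singleton]
  rw [h1, ← Finset.sum_neg_distrib]
  refine Finset.sum_congr rfl fun j hj => ?_
  rw [Finset.mem_Ico] at hj
  have hjb : a ≤ j ∧ j + 1 < b := ⟨hj.1, by omega⟩
  -- class indicator
  set c : St N k → ℝ := fun ζ =>
    if ζ.1 \ Finset.Ico a b = η₀.1 \ Finset.Ico a b then 1 else 0 with hc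
  have hcUp : ∀ ζ, c (Up N k j ζ) = c ζ := by
    intro ζ
    have := mv_sdiff (N := N) (k := k) (j, true) (a := a) (b := b) hjb ζ
    have h2 : mv N k (j, true) ζ = Up N k j ζ := by simp [mv]
    rw [h2] at this
    simp only [hc, this]
  have hpic : ∀ ζ, pic V a b η₀ ζ = wt V ζ.1 * c ζ / zc V a b η₀ := by
    intro ζ
    rw [pic_eq]
    simp only [hc]
    split_ifs <;> simp
  have h3 : pair (pic V a b η₀) f (QA N k p q {j} *ᵥ f)
      = pair (fun η : St N k => wt V η.1) (fun ζ => c ζ * f ζ) (QA N k p q {j} *ᵥ f)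
        / zc V a b η₀ := by
    unfold pair
    rw [Finset.sum_div]
    refine Finset.sum_congr rfl fun ζ _ => ?_
    rw [hpic]
    ring
  rw [h3, pair_bond hG j, neg_div, neg_neg, Finset.sum_div]
  refine Finset.sum_congr rfl fun ζ _ => ?_
  rw [hpic, hcUp]
  ring

theorem box_gap {N k : ℕ} {κ : ℝ} {p q V : ℕ → ℝ} (hG : Good κ p q V) (a b : ℕ) (hab : a < b)
    (hb : b ≤ N) (R : ℝ) (hR : Rise2 V a b R) (η₀ : St N k) (f : St N k → ℝ)
    (hf : ∑ ζ, pic V a b η₀ ζ * f ζ = 0) :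
    (κ / (((b - a : ℕ) : ℝ) ^ 5 * R)) * ∑ ζ, pic V a b η₀ ζ * f ζ ^ 2
      ≤ - pair (pic V a b η₀) f (QA N k p q (Finset.Ico a (b - 1)) *ᵥ f) := by
  set I := Finset.Ico a b with hI
  set n := (η₀.1 ∩ I).card with hn
  set P := I.powersetCard n with hP
  set O := η₀.1 \ I with hO
  set F := lft a b η₀ f with hF
  have hR1 : 1 ≤ R := by
    have := hR a a a a le_rfl le_rfl le_rfl le_rfl hab
    simpa using this
  have hR0 : 0 < R := by linarith
  have hL : (0 : ℝ) < ((b - a : ℕ) : ℝ) := by exact_mod_cast (by omega : 0 < b - a)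
  have hκ := hG.kpos
  set Z₀ : ℝ := ∑ ξ ∈ P, wt V ξ with hZ₀
  have hP₀ : η₀.1 ∩ I ∈ P := by
    rw [hP, Finset.mem_powersetCard]
    exact ⟨Finset.inter_subset_right, rfl⟩
  have hZ₀pos : 0 < Z₀ := Finset.sum_pos (fun ξ _ => wt_pos V ξ) ⟨_, hP₀⟩
  have hsub : ∀ ξ ∈ P, ξ ⊆ I := fun ξ hξ => (Finset.mem_powersetCard.1 hξ).1
  have hOpos : 0 < wt V O := wt_pos V O
  have hzc : zc V a b η₀ = wt V O * Z₀ := by
    unfold zc
    rw [sum_class a b hb η₀ (fun ξ => wt V ξ.1), hZ₀, Finset.mul_sum]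
    refine Finset.sum_congr rfl fun ξ hξ => ?_
    rw [lft_eq a b hb η₀ _ ξ hξ]
    show wt V (ξ ∪ (η₀.1 \ Finset.Ico a b)) = _
    rw [wt_glue V a b η₀ ξ (hsub ξ hξ), mul_comm]
  -- transfer of sums against pic
  have htr : ∀ G : St N k → ℝ, ∑ ζ, pic V a b η₀ ζ * G ζ
      = (∑ ξ ∈ P, wt V ξ * lft a b η₀ G ξ) / Z₀ := by
    intro G
    have h1 : ∀ ζ : St N k, pic V a b η₀ ζ * G ζ
        = (if ζ.1 \ Finset.Ico a b = η₀.1 \ Finset.Ico a b then wt V ζ.1 * G ζ else 0)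
          / zc V a b η₀ := by
      intro ζ
      rw [pic_eq]
      split_ifs
      · ring
      · simp
    simp_rw [h1]
    rw [← Finset.sum_div, sum_class a b hb η₀ (fun ζ => wt V ζ.1 * G ζ), hzc]
    have h2 : ∑ ξ ∈ P, lft a b η₀ (fun ζ => wt V ζ.1 * G ζ) ξ
        = wt V O * ∑ ξ ∈ P, wt V ξ * lft a b η₀ G ξ := by
      rw [Finset.mul_sum]
      refine Finset.sum_congr rfl fun ξ hξ => ?_
      rw [lft_eq a b hb η₀ _ ξ hξ, lft_eq a b hb η₀ _ ξ hξ]
      show wt V (ξ ∪ (η₀.1 \ Finset.Ico a b)) * _ = _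
      rw [wt_glue V a b η₀ ξ (hsub ξ hξ)]
      ring
    rw [h2]
    field_simp
  have hcent : ∑ ξ ∈ P, wt V ξ * F ξ = 0 := by
    have := htr f
    rw [hf] at this
    rw [eq_comm, div_eq_zero_iff] at this
    rcases this with h | h
    · exact h
    · exact absurd h hZ₀pos.ne'
  have hsq : ∑ ζ, pic V a b η₀ ζ * f ζ ^ 2 = (∑ ξ ∈ P, wt V ξ * F ξ ^ 2) / Z₀ := by
    rw [htr (fun ζ => f ζ ^ 2)]
    congr 1
    refine Finset.sum_congr rfl fun ξ hξ => ?_
    rw [hF, lft_eq a b hb η₀ _ ξ hξ, lft_eq a b hb η₀ _ ξ hξ]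
  -- variance
  have hvar : ∑ A ∈ P, ∑ B ∈ P, wt V A * wt V B * (F A - F B) ^ 2
      = 2 * Z₀ * ∑ ξ ∈ P, wt V ξ * F ξ ^ 2 := by
    have h1 : ∀ A ∈ P, ∑ B ∈ P, wt V A * wt V B * (F A - F B) ^ 2
        = wt V A * F A ^ 2 * Z₀ + wt V A * ∑ ξ ∈ P, wt V ξ * F ξ ^ 2 := by
      intro A _
      have h2 : ∀ B ∈ P, wt V A * wt V B * (F A - F B) ^ 2
          = wt V A * F A ^ 2 * wt V B + wt V A * (wt V B * F B ^ 2)
            - 2 * wt V A * F A * (wt V B * F B) := by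
        intro B _; ring
      rw [Finset.sum_congr rfl h2, Finset.sum_sub_distrib, Finset.sum_add_distrib,
        ← Finset.mul_sum, ← Finset.mul_sum, ← Finset.mul_sum, hcent]
      ring
    rw [Finset.sum_congr rfl h1, Finset.sum_add_distrib, ← Finset.sum_mul, ← Finset.sum_mul]
    ring
  have hex := exchange_var n I (fun x => Real.exp (-V x)) (fun x _ => (Real.exp_pos _).le) F
  simp only [prod_exp_eq_wt] at hex
  rw [← hP, hvar] at hex
  have hpe := path_energy a b n V R hR F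
  rw [← hI, ← hP] at hpe
  have hmain : ∑ ξ ∈ P, wt V ξ * F ξ ^ 2 ≤ ((b - a : ℕ) : ℝ) ^ 5 * R * ∑ A ∈ P,
        wt V A * ∑ j ∈ Finset.Ico a (b - 1),
          if j ∈ A ∧ j + 1 ∉ A then (F (exch A j (j + 1)) - F A) ^ 2 else 0 := by
    refine le_trans ?_ hpe
    have h2 : 0 < 2 * Z₀ := by positivity
    exact le_of_mul_le_mul_left hex h2
  -- Dirichlet form
  have hdir : κ * ∑ A ∈ P, wt V A * ∑ j ∈ Finset.Ico a (b - 1),
          (if j ∈ A ∧ j + 1 ∉ A then (F (exch A j (j + 1)) - F A) ^ 2 else 0)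
      ≤ Z₀ * - pair (pic V a b η₀) f (QA N k p q (Finset.Ico a (b - 1)) *ᵥ f) := by
    rw [pair_pic hG]
    have h1 : ∀ j ∈ Finset.Ico a (b - 1), ∑ ζ : St N k,
        pic V a b η₀ ζ * (p j * (f (Up N k j ζ) - f ζ) ^ 2)
        = (∑ A ∈ P, wt V A * (p j *
          if j ∈ A ∧ j + 1 ∉ A then (F (exch A j (j + 1)) - F A) ^ 2 else 0)) / Z₀ := by
      intro j hj
      rw [htr (fun ζ => p j * (f (Up N k j ζ) - f ζ) ^ 2)]
      congr 1
      refine Finset.sum_congr rfl fun A hA => ?_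
      rw [lft_eq a b hb η₀ _ A hA]
      rw [Finset.mem_Ico] at hj
      have hjI : j ∈ I := Finset.mem_Ico.2 ⟨hj.1, by omega⟩
      have hj1I : j + 1 ∈ I := Finset.mem_Ico.2 ⟨by omega, by omega⟩
      have hmj : j ∈ A ∪ (η₀.1 \ Finset.Ico a b) ↔ j ∈ A := by
        rw [Finset.mem_union, Finset.mem_sdiff]
        tauto
      have hmj1 : j + 1 ∈ A ∪ (η₀.1 \ Finset.Ico a b) ↔ j + 1 ∈ A := by
        rw [Finset.mem_union, Finset.mem_sdiff]
        tauto
      have hjN : j + 1 < N := by omega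
      congr 2
      by_cases hcond : j ∈ A ∧ j + 1 ∉ A
      · rw [if_pos hcond]
        have hE : exch A j (j + 1) ∈ P := by
          rw [hP, Finset.mem_powersetCard] at hA ⊢
          have hne : j + 1 ∉ A.erase j := fun h => hcond.2 (Finset.mem_of_mem_erase h)
          refine ⟨?_, ?_⟩
          · exact Finset.insert_subset hj1I ((Finset.erase_subset _ _).trans hA.1)
          · unfold exch
            rw [Finset.card_insert_of_notMem hne, Finset.card_erase_of_mem hcond.1, hA.2]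
            have : 0 < A.card := Finset.card_pos.2 ⟨j, hcond.1⟩
            omega
        have e1 : F (exch A j (j + 1)) = f (Up N k j ⟨A ∪ (η₀.1 \ Finset.Ico a b),
            glue_mem a b hb η₀ A hA⟩) := by
          rw [hF, lft_eq a b hb η₀ _ _ hE]
          congr 1
          apply Subtype.ext
          unfold Up
          rw [dif_pos hjN]
          show exch A j (j + 1) ∪ (η₀.1 \ Finset.Ico a b) = up j (A ∪ (η₀.1 \ Finset.Ico a b))
          unfold up
          rw [if_pos ⟨hmj.2 hcond.1, fun h => hcond.2 (hmj1.1 h)⟩]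
          unfold exch
          ext u
          simp only [Finset.mem_insert, Finset.mem_erase, Finset.mem_union, Finset.mem_sdiff]
          constructor
          · rintro ((h | ⟨h1, h2⟩) | h)
            · exact Or.inl h
            · exact Or.inr ⟨h1, Or.inl h2⟩
            · refine Or.inr ⟨?_, Or.inr h⟩
              rintro rfl
              exact h.2 hjI
          · rintro (h | ⟨h1, h2 | h2⟩)
            · exact Or.inl (Or.inl h)
            · exact Or.inl (Or.inr ⟨h1, h2⟩)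
            · exact Or.inr h2
        rw [e1, hF, lft_eq a b hb η₀ _ A hA]
      · rw [if_neg hcond]
        have e1 : Up N k j ⟨A ∪ (η₀.1 \ Finset.Ico a b), glue_mem a b hb η₀ A hA⟩
            = ⟨A ∪ (η₀.1 \ Finset.Ico a b), glue_mem a b hb η₀ A hA⟩ := by
          apply Subtype.ext
          unfold Up
          rw [dif_pos hjN]
          show up j (A ∪ (η₀.1 \ Finset.Ico a b)) = _
          unfold up
          rw [if_neg]
          rw [hmj, hmj1]
          exact hcond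
        rw [e1]
        simp
    rw [Finset.sum_congr rfl h1, ← Finset.sum_div, mul_div_cancel₀ _ hZ₀pos.ne', Finset.mul_sum,
      Finset.sum_comm]
    refine Finset.sum_le_sum fun A _ => ?_
    rw [← mul_assoc, mul_comm κ, mul_assoc, ← Finset.mul_sum]
    refine mul_le_mul_of_nonneg_left ?_ (wt_pos V A).le
    rw [Finset.mul_sum]
    refine Finset.sum_le_sum fun j _ => ?_
    refine mul_le_mul_of_nonneg_right (hG.p_ge j) ?_
    split_ifs
    · exact sq_nonneg _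
    · exact le_rfl
  rw [hsq]
  have hLR : 0 < ((b - a : ℕ) : ℝ) ^ 5 * R := by positivity
  rw [div_mul_eq_mul_div, div_le_iff₀ hLR]
  have h5 : κ * ∑ ξ ∈ P, wt V ξ * F ξ ^ 2 ≤ (((b - a : ℕ) : ℝ) ^ 5 * R) *
      (Z₀ * - pair (pic V a b η₀) f (QA N k p q (Finset.Ico a (b - 1)) *ᵥ f)) := by
    calc κ * ∑ ξ ∈ P, wt V ξ * F ξ ^ 2
        ≤ κ * (((b - a : ℕ) : ℝ) ^ 5 * R * ∑ A ∈ P,
          wt V A * ∑ j ∈ Finset.Ico a (b - 1),
          if j ∈ A ∧ j + 1 ∉ A then (F (exch A j (j + 1)) - F A) ^ 2 else 0) :=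
          mul_le_mul_of_nonneg_left hmain hκ.le
      _ = (((b - a : ℕ) : ℝ) ^ 5 * R) * (κ * ∑ A ∈ P,
          wt V A * ∑ j ∈ Finset.Ico a (b - 1),
          if j ∈ A ∧ j + 1 ∉ A then (F (exch A j (j + 1)) - F A) ^ 2 else 0) := by ring
      _ ≤ _ := mul_le_mul_of_nonneg_left hdir hLR.le
  rw [← mul_div_assoc, div_le_iff₀ hZ₀pos]
  calc κ * ∑ ξ ∈ P, wt V ξ * F ξ ^ 2 ≤ _ := h5
    _ = _ := by ring

end Pool.Agent.EBX
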