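import Mathlib
import Pool.Agent.EBX.Semi

/-!
# Exponential decay from a Poincare inequality
-/

set_option autoImplicit false

open scoped Matrix

namespace Pool.Agent.EBX

variable {S I : Type*} [Fintype S] [DecidableEq S]

theorem pair_one_sg (π : S → ℝ) (J : Finset I) (c : I → ℝ) (T : I → S → S)
    (hrev : Rev π (gen J c T)) (t : ℝ) (g : S → ℝ) :
    ∑ i, π i * sg (gen J c T) t g i = ∑ i, π i * g i := by
  have h := pair_sg π (gen J c T) hrev t (fun _ => (1 : ℝ)) g
  rw [sg_one] at h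
  simpa [pair] using h

theorem decay (π : S → ℝ) (hπ : ∀ i, 0 ≤ π i) (hsum : ∑ i, π i = 1) (J : Finset I) (c : I → ℝ)
    (T : I → S → S) (hrev : Rev π (gen J c T)) (γ : ℝ)
    (hP : ∀ f : S → ℝ, ∑ i, π i * f i = 0 →
      γ * ∑ i, π i * (f i) ^ 2 ≤ - pair π f (gen J c T *ᵥ f))
    {t : ℝ} (ht : 0 ≤ t) (f : S → ℝ) (hf0 : ∀ i, 0 ≤ f i) (hf1 : ∀ i, f i ≤ 1) (i : S)
    (hi : 0 < π i) :
    |sg (gen J c T) t f i - ∑ j, π j * f j| ≤ Real.exp (-(γ * t)) / Real.sqrt (π i) := by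
  set Q := gen J c T with hQ
  set m : ℝ := ∑ j, π j * f j with hm
  set g : S → ℝ := f - fun _ => m with hg
  have hg0 : ∑ j, π j * g j = 0 := by
    simp only [hg, Pi.sub_apply, mul_sub, Finset.sum_sub_distrib, ← Finset.sum_mul, hsum, one_mul]
    rw [← hm]; ring
  set φ : ℝ → ℝ := fun s => ∑ j, π j * (sg Q s g j) ^ 2 with hφ
  have hder : ∀ s : ℝ, HasDerivAt φ (2 * pair π (sg Q s g) (Q *ᵥ sg Q s g)) s := by
    intro s
    have h1 : ∀ j, HasDerivAt (fun u : ℝ => π j * (sg Q u g j) ^ 2)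
        (π j * (2 * (sg Q s g j * (Q *ᵥ sg Q s g) j))) s := by
      intro j
      have h2 := ((sg_hasDerivAt' Q g j s).mul (sg_hasDerivAt' Q g j s)).const_mul (π j)
      have e1 : (fun u : ℝ => π j * (sg Q u g j) ^ 2)
          = fun u : ℝ => π j * (sg Q u g j * sg Q u g j) := by
        funext u; ring
      have e2 : π j * (2 * (sg Q s g j * (Q *ᵥ sg Q s g) j))
          = π j * ((Q *ᵥ sg Q s g) j * sg Q s g j + sg Q s g j * (Q *ᵥ sg Q s g) j) := by ring
      rw [e1, e2]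
      exact h2
    have h4 := HasDerivAt.fun_sum (u := Finset.univ) fun j _ => h1 j
    have h5 : ∑ j, π j * (2 * (sg Q s g j * (Q *ᵥ sg Q s g) j))
        = 2 * pair π (sg Q s g) (Q *ᵥ sg Q s g) := by
      unfold pair
      rw [Finset.mul_sum]
      refine Finset.sum_congr rfl fun j _ => by ring
    rw [h5] at h4
    exact h4
  have hcent : ∀ s : ℝ, ∑ j, π j * sg Q s g j = 0 := by
    intro s
    rw [hQ, pair_one_sg π J c T hrev s g, hg0]
  set ψ : ℝ → ℝ := fun s => φ s * Real.exp (2 * γ * s) with hψ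
  have hderψ : ∀ s : ℝ, HasDerivAt ψ (2 * pair π (sg Q s g) (Q *ᵥ sg Q s g)
      * Real.exp (2 * γ * s) + φ s * (Real.exp (2 * γ * s) * (2 * γ))) s := by
    intro s
    have h1 : HasDerivAt (fun u : ℝ => Real.exp (2 * γ * u))
        (Real.exp (2 * γ * s) * (2 * γ)) s := by
      have h2 : HasDerivAt (fun u : ℝ => 2 * γ * u) (2 * γ) s := by
        simpa using (hasDerivAt_id s).const_mul (2 * γ)
      exact h2.exp
    exact (hder s).mul h1
  have hanti : AntitoneOn ψ (Set.Ici 0) := by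
    refine antitoneOn_of_deriv_nonpos (convex_Ici 0)
      (fun s _ => (hderψ s).continuousAt.continuousWithinAt)
      (fun s _ => (hderψ s).differentiableAt.differentiableWithinAt) ?_
    intro s _
    rw [(hderψ s).deriv]
    have h1 := hP (sg Q s g) (hcent s)
    have h2 : 0 < Real.exp (2 * γ * s) := Real.exp_pos _
    have h3 : (pair π (sg Q s g) (Q *ᵥ sg Q s g) + γ * φ s) ≤ 0 := by
      simp only [hφ]
      linarith
    nlinarith
  have h := hanti (Set.mem_Ici.2 le_rfl) (Set.mem_Ici.2 ht) ht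
  have hφ0 : φ 0 ≤ 1 := by
    simp only [hφ]
    rw [sg_zero]
    have h1 : ∑ j, π j * g j ^ 2 = ∑ j, π j * (f j) ^ 2 - m ^ 2 := by
      have : ∀ j, π j * g j ^ 2 = π j * (f j) ^ 2 - 2 * m * (π j * f j) + m ^ 2 * π j := by
        intro j
        simp only [hg, Pi.sub_apply]
        ring
      simp_rw [this]
      rw [Finset.sum_add_distrib, Finset.sum_sub_distrib, ← Finset.mul_sum, ← Finset.mul_sum,
        hsum, ← hm]
      ring
    have h2 : ∑ j, π j * (f j) ^ 2 ≤ ∑ j, π j := by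
      refine Finset.sum_le_sum fun j _ => ?_
      have := hf0 j
      have := hf1 j
      have : f j ^ 2 ≤ 1 := by nlinarith
      have := hπ j
      nlinarith
    rw [h1]
    rw [hsum] at h2
    nlinarith [sq_nonneg m]
  simp only [hψ, mul_zero, Real.exp_zero, mul_one] at h
  have hφt : φ t ≤ Real.exp (-(2 * γ * t)) := by
    have h1 : φ t * Real.exp (2 * γ * t) ≤ 1 := h.trans hφ0
    have h2 : Real.exp (2 * γ * t) * Real.exp (-(2 * γ * t)) = 1 := by
      rw [← Real.exp_add]; simp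
    have h3 : 0 < Real.exp (-(2 * γ * t)) := Real.exp_pos _
    calc φ t = φ t * (Real.exp (2 * γ * t) * Real.exp (-(2 * γ * t))) := by rw [h2, mul_one]
      _ = (φ t * Real.exp (2 * γ * t)) * Real.exp (-(2 * γ * t)) := by ring
      _ ≤ 1 * Real.exp (-(2 * γ * t)) := mul_le_mul_of_nonneg_right h1 h3.le
      _ = _ := one_mul _
  have hterm : π i * (sg Q t g i) ^ 2 ≤ φ t :=
    Finset.single_le_sum (f := fun j => π j * (sg Q t g j) ^ 2)
      (fun j _ => mul_nonneg (hπ j) (sq_nonneg _)) (Finset.mem_univ i)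
  have hsplit : sg Q t f i - m = sg Q t g i := by
    have h1 : sg Q t g = sg Q t f - fun _ => m := by
      rw [hg, sg_fsub, hQ, sg_const]
    rw [h1]; rfl
  rw [hsplit, le_div_iff₀ (Real.sqrt_pos.2 hi)]
  have h5 : (|sg Q t g i| * Real.sqrt (π i)) ^ 2 ≤ (Real.exp (-(γ * t))) ^ 2 := by
    rw [mul_pow, sq_abs, Real.sq_sqrt hi.le, ← Real.exp_nat_mul]
    have : ((2 : ℕ) : ℝ) * (-(γ * t)) = -(2 * γ * t) := by push_cast; ring
    rw [this]
    linarith
  exact (abs_le_of_sq_le_sq' h5 (Real.exp_pos _).le).2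

end Pool.Agent.EBX
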