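import Mathlib
import Pool.Agent.EBX.States

/-!
# EBX: equilibrium is sorted, and sorted boxes satisfy the two height inequalities. pic_unsorted: union over pairs
x, y of the box with x + w ≤ y, x ∈ ζ, y ∉ ζ; exchange x for y is injective from {x ∈ ζ, y ∉ ζ} in the class, and multiplies the
weight by exp(V x - V y). pic_self_ge: the ratio wt ξ / wt η₀ ≤ exp(L Bd) (same number n ≤ L of particles in the box, compare both
sums of V with n times a fixed value V a), and the class has at most 2^L elements. ls1: if some particle x < z (x ≥ a), all sites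
of [x+w, b) are occupied. ls2: if some hole y ≥ z (y < b), no particle at x with a ≤ x, x + w ≤ y.
-/

set_option autoImplicit false

open scoped Matrix ENNReal NNReal
open MeasureTheory Filter Topology

namespace Pool.Agent.EBX

private theorem sq_wt_pos (V : ℕ → ℝ) (η : Finset ℕ) : 0 < wt V η := Real.exp_pos _

/-- the configurations which agree with `η₀` outside the box -/
private noncomputable def sqC {N k : ℕ} (a b : ℕ) (η₀ : St N k) : Finset (St N k) :=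
  Finset.univ.filter (fun ξ : St N k => ξ.1 \ Finset.Ico a b = η₀.1 \ Finset.Ico a b)

private noncomputable def sqZ {N k : ℕ} (V : ℕ → ℝ) (a b : ℕ) (η₀ : St N k) : ℝ :=
  ∑ ξ ∈ sqC a b η₀, wt V ξ.1

private theorem sq_pic {N k : ℕ} (V : ℕ → ℝ) (a b : ℕ) (η₀ ζ : St N k) :
    pic V a b η₀ ζ = if ζ ∈ sqC a b η₀ then wt V ζ.1 / sqZ V a b η₀ else 0 := by
  unfold pic sqZ sqC
  rw [Finset.sum_filter]
  simp only [Finset.mem_filter, Finset.mem_univ, true_and]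

private theorem sq_self {N k : ℕ} (a b : ℕ) (η₀ : St N k) : η₀ ∈ sqC a b η₀ := by
  simp [sqC]

private theorem sq_Zpos {N k : ℕ} (V : ℕ → ℝ) (a b : ℕ) (η₀ : St N k) : 0 < sqZ V a b η₀ :=
  Finset.sum_pos (fun ξ _ => sq_wt_pos V ξ.1) ⟨η₀, sq_self a b η₀⟩

/-- exchange of the particle at `x` for the hole at `y` -/
private theorem sq_ex_mem {N k x y : ℕ} {ζ : Finset ℕ}
    (hζ : ζ ∈ (Finset.range N).powersetCard k) (hy : y < N) (hx : x ∈ ζ) (hyn : y ∉ ζ) :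
    insert y (ζ.erase x) ∈ (Finset.range N).powersetCard k := by
  rw [Finset.mem_powersetCard] at hζ ⊢
  refine ⟨?_, ?_⟩
  · intro z hz
    rw [Finset.mem_insert, Finset.mem_erase] at hz
    rcases hz with rfl | hz
    · exact Finset.mem_range.2 hy
    · exact hζ.1 hz.2
  · rw [Finset.card_insert_of_notMem (fun hc => hyn (Finset.mem_of_mem_erase hc)),
      Finset.card_erase_of_mem hx]
    have : 0 < ζ.card := Finset.card_pos.2 ⟨x, hx⟩
    omega

private def sqE {N k : ℕ} (x y : ℕ) (ζ : St N k) : St N k :=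
  if h : y < N ∧ x ∈ ζ.1 ∧ y ∉ ζ.1 then ⟨insert y (ζ.1.erase x), sq_ex_mem ζ.2 h.1 h.2.1 h.2.2⟩
  else ζ

private theorem sq_E_val {N k : ℕ} {x y : ℕ} {ζ : St N k} (hy : y < N) (hx : x ∈ ζ.1)
    (hyn : y ∉ ζ.1) : (sqE x y ζ).1 = insert y (ζ.1.erase x) := by
  unfold sqE
  rw [dif_pos ⟨hy, hx, hyn⟩]

private theorem sq_E_wt {N k : ℕ} (V : ℕ → ℝ) {x y : ℕ} {ζ : St N k} (hy : y < N) (hx : x ∈ ζ.1)
    (hyn : y ∉ ζ.1) : wt V ζ.1 = wt V (sqE x y ζ).1 * Real.exp (V y - V x) := by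
  rw [sq_E_val hy hx hyn]
  unfold wt
  rw [← Real.exp_add, Finset.sum_insert (fun hc => hyn (Finset.mem_of_mem_erase hc))]
  congr 1
  have h := Finset.sum_erase_add ζ.1 V hx
  linarith

private theorem sq_E_inj {N k : ℕ} {x y : ℕ} {ζ ζ' : St N k} (hy : y < N) (hx : x ∈ ζ.1)
    (hyn : y ∉ ζ.1) (hx' : x ∈ ζ'.1) (hyn' : y ∉ ζ'.1) (h : sqE x y ζ = sqE x y ζ') : ζ = ζ' := by
  have h1 := congrArg Subtype.val h
  rw [sq_E_val hy hx hyn, sq_E_val hy hx' hyn'] at h1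
  have h2 : (insert y (ζ.1.erase x)).erase y = (insert y (ζ'.1.erase x)).erase y := by rw [h1]
  rw [Finset.erase_insert (fun hc => hyn (Finset.mem_of_mem_erase hc)),
    Finset.erase_insert (fun hc => hyn' (Finset.mem_of_mem_erase hc))] at h2
  apply Subtype.ext
  rw [← Finset.insert_erase hx, ← Finset.insert_erase hx', h2]

private theorem sq_E_mem {N k : ℕ} {a b x y : ℕ} {η₀ ζ : St N k} (hy : y < N) (hx : x ∈ ζ.1)
    (hyn : y ∉ ζ.1) (hxa : x ∈ Finset.Ico a b) (hya : y ∈ Finset.Ico a b)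
    (hζ : ζ ∈ sqC a b η₀) : sqE x y ζ ∈ sqC a b η₀ := by
  unfold sqC at hζ ⊢
  rw [Finset.mem_filter] at hζ ⊢
  refine ⟨Finset.mem_univ _, ?_⟩
  rw [← hζ.2, sq_E_val hy hx hyn]
  ext z
  simp only [Finset.mem_sdiff, Finset.mem_insert, Finset.mem_erase]
  constructor
  · rintro ⟨rfl | ⟨h1, h2⟩, h3⟩
    · exact absurd hya h3
    · exact ⟨h2, h3⟩
  · rintro ⟨h1, h2⟩
    refine ⟨Or.inr ⟨?_, h1⟩, h2⟩
    rintro rfl
    exact h2 hxa

private theorem sq_pair {N k : ℕ} (V : ℕ → ℝ) (a b x y : ℕ) (e₁ : ℝ) (he : 0 ≤ e₁)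
    (hV : Real.exp (V y - V x) ≤ e₁) (hb : b ≤ N) (hxa : x ∈ Finset.Ico a b)
    (hya : y ∈ Finset.Ico a b) (η₀ : St N k) :
    ∑ ζ ∈ (sqC a b η₀).filter (fun ζ : St N k => x ∈ ζ.1 ∧ y ∉ ζ.1), wt V ζ.1
      ≤ e₁ * sqZ V a b η₀ := by
  classical
  have hy : y < N := lt_of_lt_of_le (Finset.mem_Ico.1 hya).2 hb
  have h1 : ∑ ζ ∈ (sqC a b η₀).filter (fun ζ : St N k => x ∈ ζ.1 ∧ y ∉ ζ.1), wt V ζ.1
      ≤ ∑ ζ ∈ (sqC a b η₀).filter (fun ζ : St N k => x ∈ ζ.1 ∧ y ∉ ζ.1),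
        e₁ * wt V (sqE x y ζ).1 := by
    apply Finset.sum_le_sum
    intro ζ hζ
    rw [Finset.mem_filter] at hζ
    rw [sq_E_wt V hy hζ.2.1 hζ.2.2, mul_comm e₁]
    exact mul_le_mul_of_nonneg_left hV (sq_wt_pos V _).le
  refine h1.trans ?_
  rw [← Finset.mul_sum]
  apply mul_le_mul_of_nonneg_left _ he
  have h2 : ∑ ζ ∈ (sqC a b η₀).filter (fun ζ : St N k => x ∈ ζ.1 ∧ y ∉ ζ.1),
      wt V (sqE x y ζ).1 = ∑ ξ ∈ ((sqC a b η₀).filter
        (fun ζ : St N k => x ∈ ζ.1 ∧ y ∉ ζ.1)).image (sqE x y), wt V ξ.1 := by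
    rw [Finset.sum_image]
    intro ζ hζ ζ' hζ' h
    have hζ1 := (Finset.mem_filter.1 hζ).2
    have hζ2 := (Finset.mem_filter.1 hζ').2
    exact sq_E_inj hy hζ1.1 hζ1.2 hζ2.1 hζ2.2 h
  rw [h2]
  apply Finset.sum_le_sum_of_subset_of_nonneg
  · intro ξ hξ
    rw [Finset.mem_image] at hξ
    obtain ⟨ζ, hζ, rfl⟩ := hξ
    rw [Finset.mem_filter] at hζ
    exact sq_E_mem hy hζ.2.1 hζ.2.2 hxa hya hζ.1
  · intro ξ _ _
    exact (sq_wt_pos V _).le

theorem pic_unsorted {N k : ℕ} (V : ℕ → ℝ) (w a b : ℕ) (hw : 1 ≤ w) (e₁ : ℝ) (he : 0 ≤ e₁)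
    (hV : ∀ x y, a ≤ x → x + w ≤ y → y < b → Real.exp (V y - V x) ≤ e₁) (hb : b ≤ N)
    (η₀ : St N k) :
    ∑ ζ, pic V a b η₀ ζ * ind {ζ : St N k | ¬ Sorted w a b ζ.1} ζ
      ≤ ((b - a : ℕ) : ℝ) ^ 2 * e₁ := by
  classical
  have hZ := sq_Zpos V a b η₀
  -- pointwise bound
  have hpt : ∀ ζ : St N k, pic V a b η₀ ζ * ind {ζ : St N k | ¬ Sorted w a b ζ.1} ζ ≤
      ∑ x ∈ Finset.Ico a b, ∑ y ∈ Finset.Ico a b,
        if x + w ≤ y ∧ ζ ∈ sqC a b η₀ ∧ x ∈ ζ.1 ∧ y ∉ ζ.1 then wt V ζ.1 / sqZ V a b η₀ else 0 := by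
    intro ζ
    have hnn : ∀ x y : ℕ, (0 : ℝ) ≤ if x + w ≤ y ∧ ζ ∈ sqC a b η₀ ∧ x ∈ ζ.1 ∧ y ∉ ζ.1 then
        wt V ζ.1 / sqZ V a b η₀ else 0 := by
      intro x y
      split_ifs
      · exact div_nonneg (sq_wt_pos V _).le hZ.le
      · exact le_rfl
    rw [sq_pic]
    by_cases h1 : ζ ∈ sqC a b η₀
    · by_cases h2 : Sorted w a b ζ.1
      · have : ind {ζ : St N k | ¬ Sorted w a b ζ.1} ζ = 0 := by
          unfold ind
          rw [Set.indicator_of_notMem]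
          exact fun h => h h2
        rw [this, mul_zero]
        exact Finset.sum_nonneg fun x _ => Finset.sum_nonneg fun y _ => hnn x y
      · have h3 : ind {ζ : St N k | ¬ Sorted w a b ζ.1} ζ = 1 := by
          unfold ind
          rw [Set.indicator_of_mem]
          exact h2
        rw [h3, mul_one, if_pos h1]
        unfold Sorted at h2
        push Not at h2
        obtain ⟨x, y, hax, hyb, hxy, hx, hy⟩ := h2
        have hxm : x ∈ Finset.Ico a b := Finset.mem_Ico.2 ⟨hax, by omega⟩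
        have hym : y ∈ Finset.Ico a b := Finset.mem_Ico.2 ⟨by omega, hyb⟩
        refine le_trans ?_ (Finset.single_le_sum
          (f := fun x => ∑ y ∈ Finset.Ico a b,
            if x + w ≤ y ∧ ζ ∈ sqC a b η₀ ∧ x ∈ ζ.1 ∧ y ∉ ζ.1 then
              wt V ζ.1 / sqZ V a b η₀ else 0)
          (fun x _ => Finset.sum_nonneg fun y _ => hnn x y) hxm)
        refine le_trans ?_ (Finset.single_le_sum
          (f := fun y => if x + w ≤ y ∧ ζ ∈ sqC a b η₀ ∧ x ∈ ζ.1 ∧ y ∉ ζ.1 then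
              wt V ζ.1 / sqZ V a b η₀ else 0)
          (fun y _ => hnn x y) hym)
        rw [if_pos ⟨hxy, h1, hx, hy⟩]
    · rw [if_neg h1, zero_mul]
      exact Finset.sum_nonneg fun x _ => Finset.sum_nonneg fun y _ => hnn x y
  refine (Finset.sum_le_sum fun ζ _ => hpt ζ).trans ?_
  rw [Finset.sum_comm]
  have hin : ∀ x ∈ Finset.Ico a b, ∀ y ∈ Finset.Ico a b,
      (∑ ζ : St N k, if x + w ≤ y ∧ ζ ∈ sqC a b η₀ ∧ x ∈ ζ.1 ∧ y ∉ ζ.1 then
        wt V ζ.1 / sqZ V a b η₀ else 0) ≤ e₁ := by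
    intro x hx y hy
    by_cases hxy : x + w ≤ y
    · have h1 := sq_pair V a b x y e₁ he
        (hV x y (Finset.mem_Ico.1 hx).1 hxy (Finset.mem_Ico.1 hy).2) hb hx hy η₀
      have h2 : (∑ ζ : St N k, if x + w ≤ y ∧ ζ ∈ sqC a b η₀ ∧ x ∈ ζ.1 ∧ y ∉ ζ.1 then
          wt V ζ.1 / sqZ V a b η₀ else 0) =
          (∑ ζ ∈ (sqC a b η₀).filter (fun ζ : St N k => x ∈ ζ.1 ∧ y ∉ ζ.1), wt V ζ.1) /
            sqZ V a b η₀ := by
        rw [Finset.sum_div, ← Finset.sum_filter]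
        apply Finset.sum_congr _ (fun _ _ => rfl)
        ext ζ
        simp only [Finset.mem_filter, Finset.mem_univ, true_and]
        exact ⟨fun h => h.2, fun h => ⟨hxy, h⟩⟩
      rw [h2, div_le_iff₀ hZ]
      exact h1
    · have h2 : (∑ ζ : St N k, if x + w ≤ y ∧ ζ ∈ sqC a b η₀ ∧ x ∈ ζ.1 ∧ y ∉ ζ.1 then
          wt V ζ.1 / sqZ V a b η₀ else 0) = 0 := by
        apply Finset.sum_eq_zero
        intro ζ _
        rw [if_neg (fun h => hxy h.1)]
      rw [h2]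
      exact he
  calc ∑ x ∈ Finset.Ico a b, ∑ ζ : St N k, ∑ y ∈ Finset.Ico a b,
        (if x + w ≤ y ∧ ζ ∈ sqC a b η₀ ∧ x ∈ ζ.1 ∧ y ∉ ζ.1 then
          wt V ζ.1 / sqZ V a b η₀ else 0)
      ≤ ∑ x ∈ Finset.Ico a b, ∑ y ∈ Finset.Ico a b, e₁ := by
        apply Finset.sum_le_sum
        intro x hx
        rw [Finset.sum_comm]
        exact Finset.sum_le_sum fun y hy => hin x hx y hy
    _ = ((b - a : ℕ) : ℝ) ^ 2 * e₁ := by
        rw [Finset.sum_const, Finset.sum_const, Nat.card_Ico, nsmul_eq_mul, nsmul_eq_mul]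
        ring

private theorem sq_card {N k : ℕ} (a b : ℕ) (η₀ : St N k) :
    (sqC a b η₀).card ≤ 2 ^ (b - a) := by
  classical
  have h1 : (sqC a b η₀).card ≤ ((Finset.Ico a b).powerset).card := by
    apply Finset.card_le_card_of_injOn (fun ξ : St N k => ξ.1 ∩ Finset.Ico a b)
    · intro ξ _
      exact Finset.mem_coe.2 (Finset.mem_powerset.2 Finset.inter_subset_right)
    · intro ξ hξ ξ' hξ' h
      have e1 := (Finset.mem_filter.1 (Finset.mem_coe.1 hξ)).2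
      have e2 := (Finset.mem_filter.1 (Finset.mem_coe.1 hξ')).2
      apply Subtype.ext
      rw [← Finset.sdiff_union_inter ξ.1 (Finset.Ico a b),
        ← Finset.sdiff_union_inter ξ'.1 (Finset.Ico a b), e1, e2]
      change _ ∪ (fun ξ : St N k => ξ.1 ∩ Finset.Ico a b) ξ = _
      rw [h]
  rw [Finset.card_powerset, Nat.card_Ico] at h1
  exact h1

private theorem sq_wt_le {N k : ℕ} (V : ℕ → ℝ) (a b : ℕ) (Bd : ℝ)
    (hV : ∀ x y, a ≤ x → x < b → a ≤ y → y < b → V x - V y ≤ Bd)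
    (η₀ ξ : St N k) (hξ : ξ ∈ sqC a b η₀) :
    wt V ξ.1 ≤ wt V η₀.1 * Real.exp (((b - a : ℕ) : ℝ) * Bd) := by
  classical
  have e := (Finset.mem_filter.1 hξ).2
  have c1 := Finset.card_sdiff_add_card_inter ξ.1 (Finset.Ico a b)
  have c2 := Finset.card_sdiff_add_card_inter η₀.1 (Finset.Ico a b)
  have k1 := (Finset.mem_powersetCard.1 ξ.2).2
  have k2 := (Finset.mem_powersetCard.1 η₀.2).2
  have hcard : (ξ.1 ∩ Finset.Ico a b).card = (η₀.1 ∩ Finset.Ico a b).card := by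
    rw [e] at c1
    omega
  have s1 : ∑ x ∈ ξ.1, V x = ∑ x ∈ ξ.1 \ Finset.Ico a b, V x + ∑ x ∈ ξ.1 ∩ Finset.Ico a b, V x := by
    rw [← Finset.sum_union (Finset.disjoint_sdiff_inter _ _), Finset.sdiff_union_inter]
  have s2 : ∑ x ∈ η₀.1, V x =
      ∑ x ∈ η₀.1 \ Finset.Ico a b, V x + ∑ x ∈ η₀.1 ∩ Finset.Ico a b, V x := by
    rw [← Finset.sum_union (Finset.disjoint_sdiff_inter _ _), Finset.sdiff_union_inter]
  -- the comparison of the two sums
  have hmain : ∑ x ∈ η₀.1 ∩ Finset.Ico a b, V x - ∑ x ∈ ξ.1 ∩ Finset.Ico a b, V x ≤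
      ((b - a : ℕ) : ℝ) * Bd := by
    obtain ⟨n, hn⟩ : ∃ n, (η₀.1 ∩ Finset.Ico a b).card = n := ⟨_, rfl⟩
    rw [hn] at hcard
    have hnL : n ≤ b - a := by
      rw [← hn, ← Nat.card_Ico]
      exact Finset.card_le_card Finset.inter_subset_right
    rcases Nat.eq_zero_or_pos n with h0 | h0
    · rw [h0] at hn hcard
      rw [Finset.card_eq_zero] at hn hcard
      rw [hn, hcard, Finset.sum_empty, sub_zero]
      rcases Nat.lt_or_ge a b with hab | hab
      · have h3 := hV a a le_rfl hab le_rfl hab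
        rw [sub_self] at h3
        exact mul_nonneg (Nat.cast_nonneg _) h3
      · rw [Nat.sub_eq_zero_of_le hab, Nat.cast_zero, zero_mul]
    · have hdouble : ∑ x ∈ η₀.1 ∩ Finset.Ico a b, ∑ y ∈ ξ.1 ∩ Finset.Ico a b, (V x - V y) ≤
          ∑ x ∈ η₀.1 ∩ Finset.Ico a b, ∑ y ∈ ξ.1 ∩ Finset.Ico a b, Bd := by
        apply Finset.sum_le_sum
        intro x hx
        apply Finset.sum_le_sum
        intro y hy
        have hx' := Finset.mem_Ico.1 (Finset.mem_inter.1 hx).2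
        have hy' := Finset.mem_Ico.1 (Finset.mem_inter.1 hy).2
        exact hV x y hx'.1 hx'.2 hy'.1 hy'.2
      have hl : ∑ x ∈ η₀.1 ∩ Finset.Ico a b, ∑ y ∈ ξ.1 ∩ Finset.Ico a b, (V x - V y) =
          (n : ℝ) * (∑ x ∈ η₀.1 ∩ Finset.Ico a b, V x - ∑ x ∈ ξ.1 ∩ Finset.Ico a b, V x) := by
        simp only [Finset.sum_sub_distrib, Finset.sum_const, nsmul_eq_mul, hn, hcard]
        rw [← Finset.mul_sum]
        ring
      rw [hl, Finset.sum_const, Finset.sum_const, hn, hcard, nsmul_eq_mul, nsmul_eq_mul] at hdouble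
      have hn' : (0 : ℝ) < n := Nat.cast_pos.2 h0
      have h4 := le_of_mul_le_mul_left hdouble hn'
      have hB : 0 ≤ Bd := by
        obtain ⟨x, hx⟩ := Finset.card_pos.1 (hn ▸ h0)
        have hx' := Finset.mem_Ico.1 (Finset.mem_inter.1 hx).2
        have h3 := hV x x hx'.1 hx'.2 hx'.1 hx'.2
        rw [sub_self] at h3
        exact h3
      refine h4.trans ?_
      exact mul_le_mul_of_nonneg_right (Nat.cast_le.2 hnL) hB
  unfold wt
  rw [← Real.exp_add]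
  apply Real.exp_le_exp.2
  rw [s1, s2, e]
  linarith

theorem pic_self_ge {N k : ℕ} (V : ℕ → ℝ) (a b : ℕ) (Bd : ℝ)
    (hV : ∀ x y, a ≤ x → x < b → a ≤ y → y < b → V x - V y ≤ Bd) (hb : b ≤ N)
    (η₀ : St N k) :
    Real.exp (-(2 * ((b - a : ℕ) : ℝ) * (Bd + 1))) ≤ pic V a b η₀ η₀ := by
  classical
  have hZ := sq_Zpos V a b η₀
  have hw := sq_wt_pos V η₀.1
  rw [sq_pic, if_pos (sq_self a b η₀), le_div_iff₀ hZ]
  have h1 : sqZ V a b η₀ ≤ (2 : ℝ) ^ (b - a) * (wt V η₀.1 * Real.exp (((b - a : ℕ) : ℝ) * Bd)) := by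
    unfold sqZ
    refine (Finset.sum_le_sum fun ξ hξ => sq_wt_le V a b Bd hV η₀ ξ hξ).trans ?_
    rw [Finset.sum_const, nsmul_eq_mul]
    apply mul_le_mul_of_nonneg_right _ (mul_nonneg hw.le (Real.exp_pos _).le)
    exact_mod_cast sq_card a b η₀
  have hLB : 0 ≤ ((b - a : ℕ) : ℝ) * Bd := by
    rcases Nat.lt_or_ge a b with hab | hab
    · have h3 := hV a a le_rfl hab le_rfl hab
      rw [sub_self] at h3
      exact mul_nonneg (Nat.cast_nonneg _) h3
    · rw [Nat.sub_eq_zero_of_le hab, Nat.cast_zero, zero_mul]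
  have h2 : (2 : ℝ) ^ (b - a) ≤ Real.exp ((b - a : ℕ) : ℝ) := by
    rw [← mul_one ((b - a : ℕ) : ℝ), Real.exp_nat_mul]
    apply pow_le_pow_left₀ (by norm_num)
    have := Real.add_one_le_exp (1 : ℝ)
    linarith
  calc Real.exp (-(2 * ((b - a : ℕ) : ℝ) * (Bd + 1))) * sqZ V a b η₀
      ≤ Real.exp (-(2 * ((b - a : ℕ) : ℝ) * (Bd + 1))) *
        (Real.exp ((b - a : ℕ) : ℝ) * (wt V η₀.1 * Real.exp (((b - a : ℕ) : ℝ) * Bd))) := by
        apply mul_le_mul_of_nonneg_left _ (Real.exp_pos _).le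
        refine h1.trans ?_
        exact mul_le_mul_of_nonneg_right h2 (mul_nonneg hw.le (Real.exp_pos _).le)
    _ = wt V η₀.1 * Real.exp (-(((b - a : ℕ) : ℝ) * Bd) - ((b - a : ℕ) : ℝ)) := by
        rw [show -(((b - a : ℕ) : ℝ) * Bd) - ((b - a : ℕ) : ℝ) =
          -(2 * ((b - a : ℕ) : ℝ) * (Bd + 1)) + ((b - a : ℕ) : ℝ) + ((b - a : ℕ) : ℝ) * Bd by ring,
          Real.exp_add, Real.exp_add]
        ring
    _ ≤ wt V η₀.1 * 1 := by
        apply mul_le_mul_of_nonneg_left _ hw.le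
        rw [Real.exp_le_one_iff]
        have : (0 : ℝ) ≤ ((b - a : ℕ) : ℝ) := Nat.cast_nonneg _
        linarith
    _ = wt V η₀.1 := mul_one _

private theorem sq_ht_split (η : Finset ℕ) {a z : ℕ} (h : a ≤ z) :
    ht η a = (η.filter (fun x => a ≤ x ∧ x < z)).card + ht η z := by
  unfold ht
  rw [← Finset.card_union_of_disjoint]
  · congr 1
    ext x
    simp only [Finset.mem_filter, Finset.mem_union]
    constructor
    · rintro ⟨h1, h2⟩
      rcases Nat.lt_or_ge x z with h3 | h3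
      · exact Or.inl ⟨h1, h2, h3⟩
      · exact Or.inr ⟨h1, h3⟩
    · rintro (⟨h1, h2, h3⟩ | ⟨h1, h2⟩)
      · exact ⟨h1, h2⟩
      · exact ⟨h1, h.trans h2⟩
  · rw [Finset.disjoint_left]
    intro x hx hx'
    have h1 := (Finset.mem_filter.1 hx).2
    have h2 := (Finset.mem_filter.1 hx').2
    omega

theorem ls1 (w a b z : ℕ) (hw : 1 ≤ w) (ha : a ≤ z) (hb : z ≤ b) (η : Finset ℕ)
    (hS : Sorted w a b η) :
    min (ht η a : ℤ) ((ht η b : ℤ) + ((b : ℤ) - z) - w) ≤ ht η z := by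
  have e1 := sq_ht_split η ha
  have e2 := sq_ht_split η hb
  by_cases hx : ∃ x ∈ η, a ≤ x ∧ x < z
  · obtain ⟨x, hxη, hax, hxz⟩ := hx
    have hsub : Finset.Ico (z + w) b ⊆ η.filter (fun x => z ≤ x ∧ x < b) := by
      intro y hy
      rw [Finset.mem_Ico] at hy
      rw [Finset.mem_filter]
      exact ⟨hS x y hax hy.2 (by omega) hxη, by omega, hy.2⟩
    have hc := Finset.card_le_card hsub
    rw [Nat.card_Ico] at hc
    apply min_le_of_right_le
    omega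
  · have h0 : (η.filter (fun x => a ≤ x ∧ x < z)).card = 0 := by
      rw [Finset.card_eq_zero, Finset.filter_eq_empty_iff]
      intro x hxη h
      exact hx ⟨x, hxη, h⟩
    apply min_le_of_left_le
    omega

theorem ls2 (w a b z : ℕ) (hw : 1 ≤ w) (ha : a ≤ z) (hb : z ≤ b) (η : Finset ℕ)
    (hS : Sorted w a b η) :
    min ((ht η b : ℤ) + ((b : ℤ) - z)) ((ht η a : ℤ) - w) ≤ ht η z := by
  have e1 := sq_ht_split η ha
  have e2 := sq_ht_split η hb
  by_cases hy : ∃ y, z ≤ y ∧ y < b ∧ y ∉ η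
  · obtain ⟨y, hzy, hyb, hyη⟩ := hy
    have hsub : η.filter (fun x => a ≤ x ∧ x < z) ⊆ Finset.Ico (z - w) z := by
      intro x hx
      rw [Finset.mem_filter] at hx
      rw [Finset.mem_Ico]
      refine ⟨?_, hx.2.2⟩
      by_contra hcon
      exact hyη (hS x y hx.2.1 hyb (by omega) hx.1)
    have hc := Finset.card_le_card hsub
    rw [Nat.card_Ico] at hc
    apply min_le_of_right_le
    omega
  · have hsub : Finset.Ico z b ⊆ η.filter (fun x => z ≤ x ∧ x < b) := by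
      intro y hy'
      rw [Finset.mem_Ico] at hy'
      rw [Finset.mem_filter]
      refine ⟨?_, hy'⟩
      by_contra hcon
      exact hy ⟨y, hy'.1, hy'.2, hcon⟩
    have hc := Finset.card_le_card hsub
    rw [Nat.card_Ico] at hc
    apply min_le_of_left_le
    omega

end Pool.Agent.EBX
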