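import Mathlib
import Pool.Agent.EBX.Decay
import Pool.Agent.EBX.BoxGap
import Pool.Agent.EBX.SortedEq

/-!
# EBX: mixing of closed boxes
-/

set_option autoImplicit false

open scoped Matrix

namespace Pool.Agent.EBX

theorem box_decay {N k : ℕ} {κ : ℝ} {p q V : ℕ → ℝ} (hG : Good κ p q V) (a b : ℕ) (hab : a < b)
    (hb : b ≤ N) (R : ℝ) (hR : Rise2 V a b R) (Bd : ℝ)
    (hV : ∀ x y, a ≤ x → x < b → a ≤ y → y < b → V x - V y ≤ Bd)
    (Λ t : ℝ) (hΛ : 0 ≤ Λ)
    (ht : ((b - a : ℕ) : ℝ) ^ 5 * R / κ * (((b - a : ℕ) : ℝ) * (Bd + 1) + Λ) ≤ t)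
    (E : Set (St N k)) (η : St N k) :
    |sg (QA N k p q (Finset.Ico a (b - 1))) t (ind E) η - ∑ ζ, pic V a b η ζ * ind E ζ|
      ≤ Real.exp (-Λ) := by
  have hR1 : 1 ≤ R := by
    have := hR a a a a le_rfl le_rfl le_rfl le_rfl hab
    simpa using this
  have hR0 : 0 < R := by linarith
  have hL : (0 : ℝ) < ((b - a : ℕ) : ℝ) := by exact_mod_cast (by omega : 0 < b - a)
  have hκ := hG.kpos
  have hBd : 0 ≤ Bd := by
    have := hV a a le_rfl hab le_rfl hab
    linarith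
  set L : ℝ := ((b - a : ℕ) : ℝ) with hLdef
  have hLR : 0 < L ^ 5 * R := by positivity
  set γ : ℝ := κ / (L ^ 5 * R) with hγ
  have hγ0 : 0 < γ := div_pos hκ hLR
  have hX : 0 ≤ L * (Bd + 1) + Λ := by positivity
  have ht0 : 0 ≤ t := le_trans (by positivity) ht
  have hγt : L * (Bd + 1) + Λ ≤ γ * t := by
    have h1 : γ * (L ^ 5 * R / κ * (L * (Bd + 1) + Λ)) = L * (Bd + 1) + Λ := by
      rw [hγ]; field_simp
    rw [← h1]
    exact mul_le_mul_of_nonneg_left ht hγ0.le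
  have hself := pic_self_ge V a b Bd hV hb η
  rw [← hLdef] at hself
  have hpos : 0 < pic V a b η η := lt_of_lt_of_le (Real.exp_pos _) hself
  have hrev : Rev (pic V a b η) (QA N k p q (Finset.Ico a (b - 1))) :=
    pic_rev hG a b η _ fun x hx => by
      rw [Finset.mem_Ico] at hx
      exact ⟨hx.1, by omega⟩
  have hdec := decay (pic V a b η) (pic_nonneg V a b η) (pic_sum V a b η)
    (Finset.Ico a (b - 1) ×ˢ (Finset.univ : Finset Bool)) (rt p q) (mv N k) hrev γ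
    (fun f hf => box_gap hG a b hab hb R hR η f hf) ht0 (ind E)
    (fun i => Set.indicator_nonneg (fun _ _ => zero_le_one) i)
    (fun i => Set.indicator_le_self' (fun _ _ => zero_le_one) i |>.trans le_rfl) η hpos
  refine hdec.trans ?_
  rw [div_le_iff₀ (Real.sqrt_pos.2 hpos)]
  have hsqrt : Real.exp (-(L * (Bd + 1))) ≤ Real.sqrt (pic V a b η η) := by
    apply Real.le_sqrt_of_sq_le
    rw [← Real.exp_nat_mul]
    refine le_trans (le_of_eq ?_) hself
    congr 1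
    push_cast
    ring
  calc Real.exp (-(γ * t)) ≤ Real.exp (-(L * (Bd + 1) + Λ)) := by
        apply Real.exp_le_exp.2; linarith
    _ = Real.exp (-Λ) * Real.exp (-(L * (Bd + 1))) := by
        rw [← Real.exp_add]; congr 1; ring
    _ ≤ _ := mul_le_mul_of_nonneg_left hsqrt (Real.exp_pos _).le

theorem sorted_congr {w a b : ℕ} {η ζ : Finset ℕ} (h : η ∩ Finset.Ico a b = ζ ∩ Finset.Ico a b) :
    Sorted w a b η ↔ Sorted w a b ζ := by
  have hmem : ∀ x, a ≤ x → x < b → (x ∈ η ↔ x ∈ ζ) := by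
    intro x h1 h2
    have h3 : x ∈ Finset.Ico a b := Finset.mem_Ico.2 ⟨h1, h2⟩
    have h4 : x ∈ η ∩ Finset.Ico a b ↔ x ∈ ζ ∩ Finset.Ico a b := by rw [h]
    simpa [Finset.mem_inter, h3] using h4
  unfold Sorted
  constructor
  · intro hs x y hx hy hxy hxz
    have hx' := (hmem x hx (by omega)).2 hxz
    exact (hmem y (by omega) hy).1 (hs x y hx hy hxy hx')
  · intro hs x y hx hy hxy hxz
    have hx' := (hmem x hx (by omega)).1 hxz
    exact (hmem y (by omega) hy).2 (hs x y hx hy hxy hx')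

/-- Only the bonds of the box matter for functions of the box. -/
theorem sg_box {N k : ℕ} (p q : ℕ → ℝ) (a b : ℕ) (A : Finset ℕ) (hA1 : ∀ x ∈ A, x + 1 ≠ a)
    (hA2 : b - 1 ∉ A) (hA3 : Finset.Ico a (b - 1) ⊆ A) (hab : a < b) (f : St N k → ℝ)
    (hf : ∀ η ζ : St N k, η.1 ∩ Finset.Ico a b = ζ.1 ∩ Finset.Ico a b → f η = f ζ) (t : ℝ) :
    sg (QA N k p q A) t f = sg (QA N k p q (Finset.Ico a (b - 1))) t f := by
  classical
  have hrest : ∀ x ∈ A \ Finset.Ico a (b - 1), x + 1 < a ∨ b ≤ x := by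
    intro x hx
    rw [Finset.mem_sdiff, Finset.mem_Ico] at hx
    have h1 := hA1 x hx.1
    have h2 : x ≠ b - 1 := fun h => hA2 (h ▸ hx.1)
    omega
  have hdec : QA N k p q A
      = QA N k p q (Finset.Ico a (b - 1)) + QA N k p q (A \ Finset.Ico a (b - 1)) := by
    unfold QA
    rw [← gen_union]
    · congr 1
      rw [← Finset.union_product, Finset.union_sdiff_of_subset hA3]
    · rw [Finset.disjoint_left]
      rintro ⟨x, c⟩ h1 h2
      rw [Finset.mem_product] at h1 h2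
      exact (Finset.mem_sdiff.1 h2.1).2 h1.1
  have hcomm : Commute (QA N k p q (Finset.Ico a (b - 1)))
      (QA N k p q (A \ Finset.Ico a (b - 1))) := by
    unfold QA
    refine gen_commute _ _ _ _ fun i hi j hj η => ?_
    rw [Finset.mem_product] at hi hj
    have h1 := hrest j.1 hj.1
    have h2 := Finset.mem_Ico.1 hi.1
    exact mv_comm i j (by omega) η
  have hkill : QA N k p q (A \ Finset.Ico a (b - 1)) *ᵥ f = 0 := by
    funext η
    unfold QA
    rw [gen_mulVec]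
    refine Finset.sum_eq_zero fun i hi => ?_
    rw [Finset.mem_product] at hi
    have h1 := hf (mv N k i η) η (mv_inter i (hrest i.1 hi.1) η)
    rw [h1]
    ring
  rw [hdec, sg_add_of_commute _ _ hcomm, sg_eq_self _ _ _ hkill]

theorem box_ok {N k : ℕ} {κ : ℝ} {p q V : ℕ → ℝ} (hG : Good κ p q V) (w a b : ℕ) (hw : 1 ≤ w)
    (hab : a < b) (hb : b ≤ N) (R : ℝ) (hR : Rise2 V a b R) (Bd : ℝ)
    (hV : ∀ x y, a ≤ x → x < b → a ≤ y → y < b → V x - V y ≤ Bd) (e₁ : ℝ)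
    (he : ∀ x y, a ≤ x → x + w ≤ y → y < b → Real.exp (V y - V x) ≤ e₁) (he0 : 0 ≤ e₁)
    (Λ t : ℝ) (hΛ : 0 ≤ Λ)
    (ht : ((b - a : ℕ) : ℝ) ^ 5 * R / κ * (((b - a : ℕ) : ℝ) * (Bd + 1) + Λ) ≤ t) :
    BoxOK N k p q w a b t (((b - a : ℕ) : ℝ) ^ 2 * e₁ + Real.exp (-Λ)) := by
  intro A hA1 hA2 hA3 η
  rw [sg_box p q a b A hA1 hA2 hA3 hab (ind {ζ : St N k | ¬ Sorted w a b ζ.1}) ?_ t]
  · have h1 := box_decay hG a b hab hb R hR Bd hV Λ t hΛ ht {ζ : St N k | ¬ Sorted w a b ζ.1} η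
    have h2 := pic_unsorted V w a b hw e₁ he0 he hb η
    have h3 := (abs_le.1 h1).2
    linarith
  · intro η ζ h
    have h1 := sorted_congr (w := w) h
    unfold ind
    by_cases hs : Sorted w a b η.1
    · rw [Set.indicator_of_notMem, Set.indicator_of_notMem]
      · exact fun h2 => h2 (h1.1 hs)
      · exact fun h2 => h2 hs
    · rw [Set.indicator_of_mem, Set.indicator_of_mem]
      · exact fun h2 => hs (h1.2 h2)
      · exact hs

end Pool.Agent.EBX
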