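import Mathlib
import Pool.Agent.EBX.States

/-!
# EBX: censoring inequality. (1) for r decreasing, g increasing: 0 ≤ pair wt r (QA {x} *ᵥ g) by pair_bond (product of
opposite signs, le_Up). (2) one step: for A ⊆ B: pair wt r (sg (QA A) t g) ≤ pair wt r (sg (QA B) t g): derivative of
s ↦ pair wt (sg (QA A) s r) (sg (QA B) (t-s) g) (see sg_compare in Semi for the pattern), monotone preservation by
sg_incr + mv_mono, QA B = QA A + QA (B \ A) (gen_union). (3) induction on l with r general (pair_sg, sg_add), then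
r = indicator of bot / wt bot: r is decreasing because hle η bot implies η = bot.
-/

set_option autoImplicit false

open scoped Matrix ENNReal NNReal
open MeasureTheory Filter Topology

namespace Pool.Agent.EBX

theorem rt_nonneg {κ : ℝ} {p q V : ℕ → ℝ} (hG : Good κ p q V) (i : ℕ × Bool) :
    0 ≤ rt p q i := by
  unfold rt
  split_ifs
  · exact hG.kpos.le.trans (hG.p_ge _)
  · exact hG.kpos.le.trans (hG.q_ge _)

theorem sgQ_incr {N k : ℕ} {κ : ℝ} {p q V : ℕ → ℝ} (hG : Good κ p q V) (A : Finset ℕ)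
    {t : ℝ} (ht : 0 ≤ t) (g : St N k → ℝ) (hg : Incr hle g) :
    Incr hle (sg (QA N k p q A) t g) :=
  sg_incr hle _ _ _ (fun i _ => rt_nonneg hG i) (fun i _ η ζ h => mv_mono i η ζ h) ht g hg

theorem sgQ_decr {N k : ℕ} {κ : ℝ} {p q V : ℕ → ℝ} (hG : Good κ p q V) (A : Finset ℕ)
    {t : ℝ} (ht : 0 ≤ t) (r : St N k → ℝ) (hr : Incr hle (-r)) :
    Incr hle (-(sg (QA N k p q A) t r)) := by
  rw [← sg_fneg]
  exact sgQ_incr hG A ht (-r) hr

theorem QA_sum {N k : ℕ} (p q : ℕ → ℝ) (A : Finset ℕ) (g : St N k → ℝ) (η : St N k) :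
    (QA N k p q A *ᵥ g) η = ∑ x ∈ A, (QA N k p q {x} *ᵥ g) η := by
  rw [QA_mulVec]
  refine Finset.sum_congr rfl fun x _ => ?_
  rw [QA_mulVec, Finset.sum_singleton]

theorem pair_QA_nonneg {N k : ℕ} {κ : ℝ} {p q V : ℕ → ℝ} (hG : Good κ p q V) (A : Finset ℕ)
    (r g : St N k → ℝ) (hr : Incr hle (-r)) (hg : Incr hle g) :
    0 ≤ pair (fun η : St N k => wt V η.1) r (QA N k p q A *ᵥ g) := by
  have h1 : pair (fun η : St N k => wt V η.1) r (QA N k p q A *ᵥ g)
      = ∑ x ∈ A, pair (fun η : St N k => wt V η.1) r (QA N k p q {x} *ᵥ g) := by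
    unfold pair
    rw [Finset.sum_comm]
    refine Finset.sum_congr rfl fun η _ => ?_
    rw [QA_sum, Finset.mul_sum, Finset.mul_sum]
  rw [h1]
  refine Finset.sum_nonneg fun x _ => ?_
  rw [pair_bond hG, neg_nonneg]
  refine Finset.sum_nonpos fun η _ => ?_
  have hw : 0 < wt V η.1 := Real.exp_pos _
  have hp : 0 ≤ p x := hG.kpos.le.trans (hG.p_ge x)
  have h2 := hr η (Up N k x η) (le_Up x η)
  have h3 := hg η (Up N k x η) (le_Up x η)
  simp only [Pi.neg_apply] at h2
  have h4 : (r (Up N k x η) - r η) * (g (Up N k x η) - g η) ≤ 0 :=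
    mul_nonpos_of_nonpos_of_nonneg (by linarith) (by linarith)
  exact mul_nonpos_of_nonneg_of_nonpos hw.le (mul_nonpos_of_nonneg_of_nonpos hp h4)

theorem QA_split {N k : ℕ} (p q : ℕ → ℝ) {A B : Finset ℕ} (hAB : A ⊆ B) (g : St N k → ℝ) :
    QA N k p q B *ᵥ g = QA N k p q A *ᵥ g + QA N k p q (B \ A) *ᵥ g := by
  funext η
  rw [Pi.add_apply, QA_mulVec, QA_mulVec, QA_mulVec, add_comm, Finset.sum_sdiff hAB]

theorem pair_sg_hasDerivAt {S : Type*} [Fintype S] [DecidableEq S] (π : S → ℝ)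
    (Q R : Matrix S S ℝ) (t : ℝ) (r g : S → ℝ) (s : ℝ) :
    HasDerivAt (fun u : ℝ => pair π (sg Q u r) (sg R (t - u) g))
      (pair π (Q *ᵥ sg Q s r) (sg R (t - s) g) - pair π (sg Q s r) (R *ᵥ sg R (t - s) g)) s := by
  have e2 : ∀ j, HasDerivAt (fun u : ℝ => sg R (t - u) g j) (-(R *ᵥ sg R (t - s) g) j) s := by
    intro j
    have h1 := sg_hasDerivAt' R g j (t - s)
    have h2 : HasDerivAt (fun u : ℝ => t - u) (-1) s := by
      simpa using (hasDerivAt_id s).const_sub t
    have h3 := h1.comp s h2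
    rw [mul_neg_one] at h3
    exact h3
  have e3 : HasDerivAt (fun u : ℝ => ∑ j, π j * (sg Q u r j * sg R (t - u) g j))
      (∑ j, π j * ((Q *ᵥ sg Q s r) j * sg R (t - s) g j
        + sg Q s r j * (-(R *ᵥ sg R (t - s) g) j))) s :=
    HasDerivAt.fun_sum fun j _ => ((sg_hasDerivAt' Q r j s).mul (e2 j)).const_mul (π j)
  unfold pair
  convert e3 using 1
  rw [← Finset.sum_sub_distrib]
  refine Finset.sum_congr rfl fun j _ => ?_
  ring

theorem censor_step {N k : ℕ} {κ : ℝ} {p q V : ℕ → ℝ} (hG : Good κ p q V)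
    {A B : Finset ℕ} (hAB : A ⊆ B) {t : ℝ} (ht : 0 ≤ t)
    (r g : St N k → ℝ) (hr : Incr hle (-r)) (hg : Incr hle g) :
    pair (fun η : St N k => wt V η.1) r (sg (QA N k p q A) t g)
      ≤ pair (fun η : St N k => wt V η.1) r (sg (QA N k p q B) t g) := by
  set π : St N k → ℝ := fun η : St N k => wt V η.1 with hπ
  set QQ := QA N k p q A with hQQ
  set R := QA N k p q B with hR
  set φ : ℝ → ℝ := fun u => pair π (sg QQ u r) (sg R (t - u) g) with hφ
  have hder : ∀ s : ℝ, HasDerivAt φ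
      (pair π (QQ *ᵥ sg QQ s r) (sg R (t - s) g) - pair π (sg QQ s r) (R *ᵥ sg R (t - s) g)) s :=
    fun s => pair_sg_hasDerivAt π QQ R t r g s
  have hval : ∀ s : ℝ, pair π (QQ *ᵥ sg QQ s r) (sg R (t - s) g)
      - pair π (sg QQ s r) (R *ᵥ sg R (t - s) g)
      = - pair π (sg QQ s r) (QA N k p q (B \ A) *ᵥ sg R (t - s) g) := by
    intro s
    rw [← pair_mulVec_of_rev π QQ (QA_rev hG A), hR, QA_split p q hAB, ← hR, ← hQQ]
    unfold pair
    rw [← Finset.sum_sub_distrib, ← Finset.sum_neg_distrib]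
    refine Finset.sum_congr rfl fun j _ => ?_
    rw [Pi.add_apply]
    ring
  have hanti : AntitoneOn φ (Set.Icc 0 t) := by
    refine antitoneOn_of_deriv_nonpos (convex_Icc 0 t)
      (fun s _ => (hder s).continuousAt.continuousWithinAt)
      (fun s _ => (hder s).differentiableAt.differentiableWithinAt) ?_
    intro s hs
    rw [interior_Icc] at hs
    rw [(hder s).deriv, hval s, neg_nonpos]
    exact pair_QA_nonneg hG (B \ A) _ _ (sgQ_decr hG A hs.1.le r hr)
      (sgQ_incr hG B (by linarith [hs.2]) g hg)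
  have h := hanti (Set.left_mem_Icc.2 ht) (Set.right_mem_Icc.2 ht) ht
  simp only [hφ, sub_self, sub_zero] at h
  rw [sg_zero, sg_zero] at h
  rw [pair_sg π QQ (QA_rev hG A) t r g]
  exact h

theorem dur_nonneg {K : Type*} (l : List (K × ℝ)) (hl : ∀ e ∈ l, 0 ≤ e.2) : 0 ≤ dur l := by
  unfold dur
  refine List.sum_nonneg fun x hx => ?_
  obtain ⟨e, he, rfl⟩ := List.mem_map.1 hx
  exact hl e he

theorem censor_pair {N k : ℕ} {κ : ℝ} {p q V : ℕ → ℝ} (hG : Good κ p q V)
    (B : Finset ℕ) (g : St N k → ℝ) (hg : Incr hle g) (l : List (Finset ℕ × ℝ)) :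
    (∀ e ∈ l, e.1 ⊆ B ∧ 0 ≤ e.2) → ∀ r : St N k → ℝ, Incr hle (-r) →
      pair (fun η : St N k => wt V η.1) r (run (QA N k p q) l g)
        ≤ pair (fun η : St N k => wt V η.1) r (sg (QA N k p q B) (dur l) g) := by
  induction l with
  | nil =>
    intro _ r _
    simp only [run, dur, List.map_nil, List.sum_nil]
    rw [sg_zero]
  | cons e l ih =>
    intro hl r hr
    obtain ⟨A, t⟩ := e
    have h0 := hl (A, t) (List.mem_cons_self)
    have ht : 0 ≤ t := h0.2
    have hAB : A ⊆ B := h0.1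
    have hl' : ∀ e ∈ l, e.1 ⊆ B ∧ 0 ≤ e.2 := fun e he => hl e (List.mem_cons_of_mem _ he)
    have hd : 0 ≤ dur l := dur_nonneg l (fun e he => (hl' e he).2)
    have hdur : dur ((A, t) :: l) = t + dur l := by
      simp [dur]
    rw [hdur, sg_add]
    simp only [run]
    calc pair (fun η : St N k => wt V η.1) r
          (sg (QA N k p q A) t (run (QA N k p q) l g))
        = pair (fun η : St N k => wt V η.1) (sg (QA N k p q A) t r)
          (run (QA N k p q) l g) := pair_sg _ _ (QA_rev hG A) t r _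
      _ ≤ pair (fun η : St N k => wt V η.1) (sg (QA N k p q A) t r)
          (sg (QA N k p q B) (dur l) g) := ih hl' _ (sgQ_decr hG A ht r hr)
      _ = pair (fun η : St N k => wt V η.1) r
          (sg (QA N k p q A) t (sg (QA N k p q B) (dur l) g)) :=
          (pair_sg _ _ (QA_rev hG A) t r _).symm
      _ ≤ _ := censor_step hG hAB ht r _ hr (sgQ_incr hG B hd g hg)

theorem censor_run {N k : ℕ} {κ : ℝ} {p q V : ℕ → ℝ} (hG : Good κ p q V) (hk : k ≤ N)
    (B : Finset ℕ) (l : List (Finset ℕ × ℝ)) (hl : ∀ e ∈ l, e.1 ⊆ B ∧ 0 ≤ e.2)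
    (g : St N k → ℝ) (hg : Incr hle g) :
    run (QA N k p q) l g (botSt N k hk) ≤ sg (QA N k p q B) (dur l) g (botSt N k hk) := by
  set b := botSt N k hk with hb
  have hr : Incr hle (-(Pi.single b (1 : ℝ) : St N k → ℝ)) := by
    intro η ζ h
    simp only [Pi.neg_apply]
    rw [neg_le_neg_iff]
    by_cases hz : ζ = b
    · subst hz
      have he : η = b := hle_antisymm h (bot_hle hk η)
      rw [he]
    · rw [Pi.single_eq_of_ne hz]
      by_cases hη : η = b
      · rw [hη, Pi.single_eq_same]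
        norm_num
      · rw [Pi.single_eq_of_ne hη]
  have h := censor_pair hG B g hg l hl _ hr
  have hp : ∀ f : St N k → ℝ, pair (fun η : St N k => wt V η.1) (Pi.single b (1 : ℝ)) f
      = wt V b.1 * f b := by
    intro f
    unfold pair
    rw [Finset.sum_eq_single b]
    · rw [Pi.single_eq_same]; ring
    · intro η _ hη
      rw [Pi.single_eq_of_ne hη]; ring
    · intro h
      exact absurd (Finset.mem_univ _) h
  rw [hp, hp] at h
  exact le_of_mul_le_mul_left h (Real.exp_pos _)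

end Pool.Agent.EBX
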