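import Mathlib
import Pool.Agent.EBX.Defs

/-!
# EBX: greedy cuts. Invariant at position y: Ok2 V y (min N (y+4w)) (h/2). If N - y ≤ 12w stop (last). Else if
Ok2 V y (y+8w): next y+4w. Else let t be least with not Ok2 V y t: y+4w < t ≤ y+8w, next cut t-1; Ok2 V (t-1) (t-1+4w) by four.
Strong induction on N - y.
-/

set_option autoImplicit false

open scoped Matrix ENNReal NNReal
open MeasureTheory Filter Topology

namespace Pool.Agent.EBX

private theorem ok2_mono {V : ℕ → ℝ} {a b a' b' : ℕ} {h : ℝ} (ha : a ≤ a') (hb : b' ≤ b)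
    (H : Ok2 V a b h) : Ok2 V a' b' h := by
  intro a₁ b₁ a₂ b₂ h1 h2 h3 h4 h5
  exact H a₁ b₁ a₂ b₂ (le_trans ha h1) h2 h3 h4 (lt_of_lt_of_le h5 hb)

private theorem cuts_aux (N w : ℕ) (hw : 1 ≤ w) (V : ℕ → ℝ) (h : ℝ)
    (four : ∀ a₁ b₁ a₂ b₂ a₃ b₃ a₄ b₄, a₁ ≤ b₁ → b₁ ≤ a₂ → a₂ ≤ b₂ → b₂ ≤ a₃ → a₃ ≤ b₃ →
      b₃ ≤ a₄ → a₄ ≤ b₄ → b₄ < N → b₄ ≤ a₁ + 50 * w →
      ((V b₁ - V a₁) + (V b₂ - V a₂)) + ((V b₃ - V a₃) + (V b₄ - V a₄)) ≤ h)
    (last : Ok2 V (N - 12 * w) N (h / 2)) :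
    ∀ n y : ℕ, N - y = n → y + 4 * w ≤ N → Ok2 V y (min N (y + 4 * w)) (h / 2) →
    ∃ (M : ℕ) (z : ℕ → ℕ), 1 ≤ M ∧ z 0 = y ∧ z M = N ∧ (∀ j < M, z j + 4 * w ≤ z (j + 1)) ∧
      (∀ j < M, z (j + 1) ≤ z j + 12 * w) ∧ ∀ j < M, Ok2 V (z j) (z (j + 1)) (h / 2) := by
  intro n
  induction n using Nat.strong_induction_on with
  | _ n ih =>
  intro y hn hy hok
  -- one step
  have step : ∀ y' : ℕ, y + 4 * w ≤ y' → y' ≤ y + 12 * w → y' + 4 * w ≤ N →
      Ok2 V y y' (h / 2) → Ok2 V y' (min N (y' + 4 * w)) (h / 2) →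
      ∃ (M : ℕ) (z : ℕ → ℕ), 1 ≤ M ∧ z 0 = y ∧ z M = N ∧ (∀ j < M, z j + 4 * w ≤ z (j + 1)) ∧
      (∀ j < M, z (j + 1) ≤ z j + 12 * w) ∧ ∀ j < M, Ok2 V (z j) (z (j + 1)) (h / 2) := by
    intro y' h1 h2 h3 h4 h5
    obtain ⟨M, z, hM, z0, zM, zlo, zhi, zok⟩ := ih (N - y') (by omega) y' rfl h3 h5
    refine ⟨M + 1, fun j => if j = 0 then y else z (j - 1), by omega, by simp, by simp [zM],
      ?_, ?_, ?_⟩
    · intro j hj
      rcases j with _ | j
      · simp only [if_true, Nat.zero_add, one_ne_zero, if_false, Nat.sub_self, z0]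
        exact h1
      · simp only [Nat.succ_ne_zero, if_false, Nat.add_sub_cancel]
        exact zlo j (by omega)
    · intro j hj
      rcases j with _ | j
      · simp only [if_true, Nat.zero_add, one_ne_zero, if_false, Nat.sub_self, z0]
        exact h2
      · simp only [Nat.succ_ne_zero, if_false, Nat.add_sub_cancel]
        exact zhi j (by omega)
    · intro j hj
      rcases j with _ | j
      · simp only [if_true, Nat.zero_add, one_ne_zero, if_false, Nat.sub_self, z0]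
        exact h4
      · simp only [Nat.succ_ne_zero, if_false, Nat.add_sub_cancel]
        exact zok j (by omega)
  by_cases hc : N ≤ y + 12 * w
  · refine ⟨1, fun j => if j = 0 then y else N, le_refl _, by simp, by simp, ?_, ?_, ?_⟩
    · intro j hj
      have : j = 0 := by omega
      subst this
      simp only [if_true, Nat.zero_add, one_ne_zero, if_false]
      exact hy
    · intro j hj
      have : j = 0 := by omega
      subst this
      simp only [if_true, Nat.zero_add, one_ne_zero, if_false]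
      exact hc
    · intro j hj
      have : j = 0 := by omega
      subst this
      simp only [if_true, Nat.zero_add, one_ne_zero, if_false]
      exact ok2_mono (by omega) (le_refl _) last
  · rw [not_le] at hc
    by_cases h8 : Ok2 V y (y + 8 * w) (h / 2)
    · apply step (y + 4 * w) (le_refl _) (by omega) (by omega)
      · exact ok2_mono (le_refl _) (by omega) h8
      · exact ok2_mono (by omega) (le_trans (min_le_right _ _) (by omega)) h8
    · classical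
      have hex : ∃ t, ¬ Ok2 V y t (h / 2) := ⟨_, h8⟩
      obtain ⟨t, ht⟩ : ∃ t, t = Nat.find hex := ⟨_, rfl⟩
      have ht1 : ¬ Ok2 V y t (h / 2) := by
        rw [ht]
        exact Nat.find_spec hex
      have ht2 : ∀ s < t, Ok2 V y s (h / 2) := by
        intro s hs
        rw [ht] at hs
        exact not_not.1 (Nat.find_min hex hs)
      have ht3 : t ≤ y + 8 * w := by
        rw [ht]
        exact Nat.find_min' hex h8
      have ht4 : y + 4 * w < t := by
        by_contra hcon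
        rw [not_lt] at hcon
        apply ht1
        refine ok2_mono (le_refl _) ?_ hok
        rw [le_min_iff]
        exact ⟨by omega, hcon⟩
      apply step (t - 1) (by omega) (by omega) (by omega)
      · exact ht2 _ (by omega)
      · have hmin : min N (t - 1 + 4 * w) ≤ t - 1 + 4 * w := min_le_right _ _
        have hex2 : ∃ a₁ b₁ a₂ b₂, y ≤ a₁ ∧ a₁ ≤ b₁ ∧ b₁ ≤ a₂ ∧ a₂ ≤ b₂ ∧ b₂ < t ∧
            h / 2 < (V b₁ - V a₁) + (V b₂ - V a₂) := by
          by_contra hcon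
          apply ht1
          intro a₁ b₁ a₂ b₂ e1 e2 e3 e4 e5
          by_contra hlt
          rw [not_le] at hlt
          exact hcon ⟨a₁, b₁, a₂, b₂, e1, e2, e3, e4, e5, hlt⟩
        obtain ⟨a₁, b₁, a₂, b₂, e1, e2, e3, e4, e5, e6⟩ := hex2
        intro a₃ b₃ a₄ b₄ f1 f2 f3 f4 f5
        have hb4 : b₄ < t - 1 + 4 * w := lt_of_lt_of_le f5 hmin
        have key := four a₁ b₁ a₂ b₂ a₃ b₃ a₄ b₄ e2 e3 e4 (by omega) f2 f3 f4 (by omega)
          (by omega)
        linarith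

theorem exists_cuts (N w : ℕ) (hw : 1 ≤ w) (hN : 24 * w ≤ N) (V : ℕ → ℝ) (h : ℝ) (hh : 0 ≤ h)
    (four : ∀ a₁ b₁ a₂ b₂ a₃ b₃ a₄ b₄, a₁ ≤ b₁ → b₁ ≤ a₂ → a₂ ≤ b₂ → b₂ ≤ a₃ → a₃ ≤ b₃ →
      b₃ ≤ a₄ → a₄ ≤ b₄ → b₄ < N → b₄ ≤ a₁ + 50 * w →
      ((V b₁ - V a₁) + (V b₂ - V a₂)) + ((V b₃ - V a₃) + (V b₄ - V a₄)) ≤ h)
    (first : Ok2 V 0 (min N (4 * w)) (h / 2)) (last : Ok2 V (N - 12 * w) N (h / 2)) :
    ∃ (M : ℕ) (y : ℕ → ℕ), 2 ≤ M ∧ M ≤ N ∧ Cuts N w M y ∧
      ∀ j < M, Ok2 V (y j) (y (j + 1)) (h / 2) := by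
  obtain ⟨M, z, hM, z0, zM, zlo, zhi, zok⟩ := cuts_aux N w hw V h four last (N - 0) 0 rfl
    (by omega) (by rw [Nat.zero_add]; exact first)
  have hlow : ∀ j ≤ M, 4 * j ≤ z j := by
    intro j
    induction j with
    | zero => intro _; omega
    | succ j ih =>
      intro hj
      have h1 := ih (by omega)
      have h2 := zlo j (by omega)
      omega
  have hM4 := hlow M (le_refl _)
  refine ⟨M, z, ?_, by omega, ⟨z0, zM, zlo, zhi⟩, zok⟩
  by_contra hcon
  have hM1 : M = 1 := by omega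
  subst hM1
  have h1 := zhi 0 (by omega)
  rw [Nat.zero_add, z0, zM] at h1
  omega

end Pool.Agent.EBX
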