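import Mathlib
import Pool.Agent.EBX.States

/-!
# EBX: weight of the right packed configuration in the final box: the class of η contains top; for ξ in the class
wt ξ / wt top = ∏_{x ∈ ξ \ T} exp(V o - V x) ∏_{x ∈ T \ ξ} exp(V x - V o), T = top ∩ box, o = N-k; sum over ξ ≤
∏_{x<o} (1+exp(V o - V x)) ∏_{x ≥ o} (1+exp(V x - V o)) ≤ exp S.
-/

set_option autoImplicit false

open scoped Matrix ENNReal NNReal
open MeasureTheory Filter Topology

namespace Pool.Agent.EBX

/-- the weight of a configuration compared with the right packed one -/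
private theorem fb_wt {N k : ℕ} (hk : k ≤ N) (V : ℕ → ℝ) (c : ℝ) (ξ : St N k) :
    wt V ξ.1 = wt V (topSt N k hk).1 *
      ((∏ x ∈ ξ.1 \ (topSt N k hk).1, Real.exp (c - V x)) *
        ∏ x ∈ (topSt N k hk).1 \ ξ.1, Real.exp (V x - c)) := by
  set T : Finset ℕ := (topSt N k hk).1 with hT
  have hcξ : ξ.1.card = k := (Finset.mem_powersetCard.1 ξ.2).2
  have hcT : T.card = k := (Finset.mem_powersetCard.1 (topSt N k hk).2).2
  have h1 := Finset.card_sdiff_add_card_inter ξ.1 T
  have h2 := Finset.card_sdiff_add_card_inter T ξ.1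
  have hcard : (ξ.1 \ T).card = (T \ ξ.1).card := by
    rw [Finset.inter_comm] at h2
    omega
  have hcard' : ((ξ.1 \ T).card : ℝ) = ((T \ ξ.1).card : ℝ) := by exact_mod_cast hcard
  have s1 : ∑ x ∈ ξ.1, V x = ∑ x ∈ ξ.1 \ T, V x + ∑ x ∈ ξ.1 ∩ T, V x := by
    rw [add_comm]
    exact (Finset.sum_inter_add_sum_sdiff ξ.1 T V).symm
  have s2 : ∑ x ∈ T, V x = ∑ x ∈ T \ ξ.1, V x + ∑ x ∈ ξ.1 ∩ T, V x := by
    rw [Finset.inter_comm, add_comm]
    exact (Finset.sum_inter_add_sum_sdiff T ξ.1 V).symm
  unfold wt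
  rw [← Real.exp_sum, ← Real.exp_sum, ← Real.exp_add, ← Real.exp_add, Finset.sum_sub_distrib,
    Finset.sum_sub_distrib, Finset.sum_const, Finset.sum_const, nsmul_eq_mul, nsmul_eq_mul,
    s1, s2, hcard']
  congr 1
  ring

private theorem fb_mem {N k : ℕ} (hk : k ≤ N) (a b : ℕ) (hab : a < b)
    (hb : b ≤ N) (η : St N k) (h1 : ht η.1 a = k) (h2 : ht η.1 b = N - b) :
    (topSt N k hk).1 \ Finset.Ico a b = η.1 \ Finset.Ico a b := by
  have hη := Finset.mem_powersetCard.1 η.2
  have e1 : η.1.filter (fun x => a ≤ x) = η.1 := by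
    apply Finset.eq_of_subset_of_card_le (Finset.filter_subset _ _)
    rw [hη.2]
    exact h1.ge
  have ha : ∀ x ∈ η.1, a ≤ x := by
    intro x hx
    rw [← e1] at hx
    exact (Finset.mem_filter.1 hx).2
  have e2 : η.1.filter (fun x => b ≤ x) = Finset.Ico b N := by
    apply Finset.eq_of_subset_of_card_le
    · intro x hx
      rw [Finset.mem_filter] at hx
      exact Finset.mem_Ico.2 ⟨hx.2, Finset.mem_range.1 (hη.1 hx.1)⟩
    · rw [Nat.card_Ico]
      exact h2.ge
  have hkb : N - b ≤ k := by
    have h9 : (η.1.filter (fun x => b ≤ x)).card ≤ η.1.card := Finset.card_filter_le _ _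
    rw [hη.2] at h9
    exact h2.ge.trans h9
  have hka : k ≤ N - a := by
    have : η.1 ⊆ Finset.Ico a N := fun x hx =>
      Finset.mem_Ico.2 ⟨ha x hx, Finset.mem_range.1 (hη.1 hx)⟩
    have := Finset.card_le_card this
    rw [hη.2, Nat.card_Ico] at this
    exact this
  ext x
  have hx : x ∈ η.1 ∧ b ≤ x ↔ b ≤ x ∧ x < N := by
    have := Finset.ext_iff.1 e2 x
    rw [Finset.mem_filter, Finset.mem_Ico] at this
    exact this
  rw [Finset.mem_sdiff, Finset.mem_sdiff, Finset.mem_Ico]
  change x ∈ Finset.Ico (N - k) N ∧ _ ↔ _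
  rw [Finset.mem_Ico]
  constructor
  · rintro ⟨⟨h3, h4⟩, h5⟩
    have h6 : b ≤ x := by
      by_contra h7
      exact h5 ⟨by omega, by omega⟩
    exact ⟨(hx.2 ⟨h6, h4⟩).1, h5⟩
  · rintro ⟨h3, h5⟩
    have h8 := ha x h3
    have h6 : b ≤ x := by
      by_contra h7
      exact h5 ⟨h8, by omega⟩
    exact ⟨⟨by omega, (hx.1 ⟨h3, h6⟩).2⟩, h5⟩

theorem final_eq {N k : ℕ} (hk : k ≤ N) (hk1 : 1 ≤ k) (V : ℕ → ℝ) (a b : ℕ) (hab : a < b)
    (hb : b ≤ N) (η : St N k) (h1 : ht η.1 a = k) (h2 : ht η.1 b = N - b) (S : ℝ)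
    (hS : (∑ x ∈ Finset.range (N - k), Real.exp (V (N - k) - V x))
      + ∑ x ∈ Finset.Ico (N - k) N, Real.exp (V x - V (N - k)) ≤ S) :
    Real.exp (-S) ≤ pic V a b η (topSt N k hk) := by
  have hmem := fb_mem hk a b hab hb η h1 h2
  set T : Finset ℕ := (topSt N k hk).1 with hT
  have hTeq : T = Finset.Ico (N - k) N := rfl
  set c : ℝ := V (N - k) with hc
  have hwt : ∀ ξ : Finset ℕ, 0 < wt V ξ := fun ξ => Real.exp_pos _
  -- the denominator
  set Zs : ℝ := ∑ ξ : St N k,
    if ξ.1 \ Finset.Ico a b = η.1 \ Finset.Ico a b then wt V ξ.1 else 0 with hZs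
  have hZpos : 0 < Zs := by
    have h3 : (if (topSt N k hk).1 \ Finset.Ico a b = η.1 \ Finset.Ico a b
        then wt V (topSt N k hk).1 else 0) ≤ Zs := by
      apply Finset.single_le_sum (f := fun ξ : St N k =>
        if ξ.1 \ Finset.Ico a b = η.1 \ Finset.Ico a b then wt V ξ.1 else 0)
        (fun ξ _ => ?_) (Finset.mem_univ (topSt N k hk))
      split_ifs
      · exact (hwt _).le
      · exact le_rfl
    rw [if_pos hmem] at h3
    exact (hwt _).trans_le h3
  -- the sum over all configurations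
  have hsum : Zs ≤ wt V T * ((∏ x ∈ Finset.range (N - k), (1 + Real.exp (c - V x))) *
      ∏ x ∈ Finset.Ico (N - k) N, (1 + Real.exp (V x - c))) := by
    rw [Finset.prod_one_add, Finset.prod_one_add, Finset.sum_mul_sum, ← Finset.sum_product',
      Finset.mul_sum]
    let F : Finset ℕ × Finset ℕ → ℝ := fun p =>
      wt V T * ((∏ x ∈ p.1, Real.exp (c - V x)) * ∏ x ∈ p.2, Real.exp (V x - c))
    have hF : ∀ p, 0 ≤ F p := fun p => mul_nonneg (hwt _).le
      (mul_nonneg (Finset.prod_nonneg fun _ _ => (Real.exp_pos _).le)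
        (Finset.prod_nonneg fun _ _ => (Real.exp_pos _).le))
    let j : St N k → Finset ℕ × Finset ℕ := fun ξ => (ξ.1 \ T, T \ ξ.1)
    have hj : Function.Injective j := by
      intro ξ ζ h
      have e1 : ξ.1 \ T = ζ.1 \ T := congrArg Prod.fst h
      have e2 : T \ ξ.1 = T \ ζ.1 := congrArg Prod.snd h
      apply Subtype.ext
      ext x
      by_cases hx : x ∈ T
      · have := Finset.ext_iff.1 e2 x
        rw [Finset.mem_sdiff, Finset.mem_sdiff] at this
        tauto
      · have := Finset.ext_iff.1 e1 x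
        rw [Finset.mem_sdiff, Finset.mem_sdiff] at this
        tauto
    calc Zs ≤ ∑ ξ : St N k, F (j ξ) := by
          apply Finset.sum_le_sum
          intro ξ _
          have := fb_wt hk V c ξ
          split_ifs
          · exact this.le
          · exact hF _
      _ = ∑ p ∈ Finset.univ.image j, F p := by
          rw [Finset.sum_image fun _ _ _ _ h => hj h]
      _ ≤ ∑ p ∈ (Finset.range (N - k)).powerset ×ˢ (Finset.Ico (N - k) N).powerset, F p := by
          apply Finset.sum_le_sum_of_subset_of_nonneg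
          · intro p hp
            rw [Finset.mem_image] at hp
            obtain ⟨ξ, _, rfl⟩ := hp
            rw [Finset.mem_product, Finset.mem_powerset, Finset.mem_powerset]
            refine ⟨fun x hx => ?_, ?_⟩
            · change x ∈ ξ.1 \ T at hx
              rw [Finset.mem_sdiff, hTeq, Finset.mem_Ico] at hx
              have hxN := Finset.mem_range.1 ((Finset.mem_powersetCard.1 ξ.2).1 hx.1)
              rw [Finset.mem_range]
              by_contra h4
              exact hx.2 ⟨by omega, hxN⟩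
            · change T \ ξ.1 ⊆ _
              rw [hTeq]
              exact Finset.sdiff_subset
          · exact fun p _ _ => hF p
  have hexp : (∏ x ∈ Finset.range (N - k), (1 + Real.exp (c - V x))) *
      ∏ x ∈ Finset.Ico (N - k) N, (1 + Real.exp (V x - c)) ≤ Real.exp S := by
    have hA : ∏ x ∈ Finset.range (N - k), (1 + Real.exp (c - V x))
        ≤ Real.exp (∑ x ∈ Finset.range (N - k), Real.exp (c - V x)) := by
      rw [Real.exp_sum]
      apply Finset.prod_le_prod
      · intro x _
        have := Real.exp_pos (c - V x)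
        linarith
      · intro x _
        have := Real.add_one_le_exp (Real.exp (c - V x))
        linarith
    have hB : ∏ x ∈ Finset.Ico (N - k) N, (1 + Real.exp (V x - c))
        ≤ Real.exp (∑ x ∈ Finset.Ico (N - k) N, Real.exp (V x - c)) := by
      rw [Real.exp_sum]
      apply Finset.prod_le_prod
      · intro x _
        have := Real.exp_pos (V x - c)
        linarith
      · intro x _
        have := Real.add_one_le_exp (Real.exp (V x - c))
        linarith
    have hB0 : 0 ≤ ∏ x ∈ Finset.Ico (N - k) N, (1 + Real.exp (V x - c)) := by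
      apply Finset.prod_nonneg
      intro x _
      have := Real.exp_pos (V x - c)
      linarith
    refine (mul_le_mul hA hB hB0 (Real.exp_pos _).le).trans ?_
    rw [← Real.exp_add]
    exact Real.exp_le_exp.2 hS
  have hpic : pic V a b η (topSt N k hk) = wt V T / Zs := by
    unfold pic
    rw [if_pos hmem]
  rw [hpic, le_div_iff₀ hZpos]
  have h5 : Zs ≤ wt V T * Real.exp S :=
    hsum.trans (mul_le_mul_of_nonneg_left hexp (hwt _).le)
  calc Real.exp (-S) * Zs ≤ Real.exp (-S) * (wt V T * Real.exp S) :=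
        mul_le_mul_of_nonneg_left h5 (Real.exp_pos _).le
    _ = wt V T * (Real.exp (-S) * Real.exp S) := by ring
    _ = wt V T := by rw [← Real.exp_add, neg_add_cancel, Real.exp_zero, mul_one]

end Pool.Agent.EBX
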