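import Mathlib
import Pool.Agent.EBX.States
import Pool.Agent.EBX.SortedEq

/-!
# EBX: the level algorithm (note 2112 (4) of MP_39c14e_pr). Define Holds l δ E E' : ∀ η ∈ E, 1 - δ ≤ run l (ind E') η;
composition adds the δ's. Moves: one pair (A, t) with A = range(N-1) minus the closed cuts {c-1 : c cut}; heights at closed cuts
are conserved (ht_mv, sg_eq_self), the box statements BoxOK + ls1/ls2 give the new heights (union bound over ≤ M boxes). State
(i, j, a): ht (y i) = k, ht (y j) = N - y j, ht (y r) ≥ 2w(M-r)+a (integers, may be negative) for i < r < j. Start i=0, j=M,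
a=-2wM. LEVEL UP (two moves: cuts y r; then cuts y r - 1 for i<r<j), DRAIN LEFT, FILL RIGHT exactly as in
the note; ≤ k+2wM level ups; drain uses pair (i,i+2), fill uses (j-2,j). End with j = i+2.
-/

set_option autoImplicit false

open scoped Matrix ENNReal NNReal
open MeasureTheory Filter Topology

namespace Pool.Agent.EBX

section MacroGen

variable {N k : ℕ} {p q : ℕ → ℝ}

theorem mac_rt_nonneg (hp : ∀ x, 0 ≤ p x) (hq : ∀ x, 0 ≤ q x) (i : ℕ × Bool) : 0 ≤ rt p q i := by
  unfold rt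
  split_ifs
  · exact hp _
  · exact hq _

theorem mac_run_append {S K : Type*} [Fintype S] [DecidableEq S] (Qs : K → Matrix S S ℝ)
    (l l' : List (K × ℝ)) (f : S → ℝ) :
    run Qs (l ++ l') f = run Qs l (run Qs l' f) := by
  induction l with
  | nil => rfl
  | cons e l ih =>
    obtain ⟨A, t⟩ := e
    simp only [List.cons_append, run, ih]

theorem mac_dur_append {K : Type*} (l l' : List (K × ℝ)) : dur (l ++ l') = dur l + dur l' := by
  simp [dur]

theorem mac_run_mono (hp : ∀ x, 0 ≤ p x) (hq : ∀ x, 0 ≤ q x) (l : List (Finset ℕ × ℝ))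
    (hl : ∀ e ∈ l, 0 ≤ e.2) (f g : St N k → ℝ) (h : ∀ η, f η ≤ g η) (η : St N k) :
    run (QA N k p q) l f η ≤ run (QA N k p q) l g η := by
  induction l generalizing η with
  | nil => exact h η
  | cons e l ih =>
    obtain ⟨A, t⟩ := e
    exact sg_mono _ _ _ (fun i _ => mac_rt_nonneg hp hq i) (hl _ List.mem_cons_self) _ _
      (fun ζ => ih (fun e he => hl e (List.mem_cons_of_mem _ he)) ζ) η

theorem mac_run_const (l : List (Finset ℕ × ℝ)) (c : ℝ) :
    run (QA N k p q) l (fun _ => c) = fun _ => c := by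
  induction l with
  | nil => rfl
  | cons e l ih =>
    obtain ⟨A, t⟩ := e
    simp only [run]
    rw [ih]
    exact sg_const _ _ _ _ _

theorem mac_run_sub (l : List (Finset ℕ × ℝ)) (f g : St N k → ℝ) :
    run (QA N k p q) l (f - g) = run (QA N k p q) l f - run (QA N k p q) l g := by
  induction l with
  | nil => rfl
  | cons e l ih =>
    obtain ⟨A, t⟩ := e
    simp only [run]
    rw [ih, sg_fsub]

/-- The schedule `l` leads from `E` to `E'` with probability at least `1 - ε`. -/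
def MacHolds (N k : ℕ) (p q : ℕ → ℝ) (l : List (Finset ℕ × ℝ)) (ε : ℝ) (E E' : Set (St N k)) :
    Prop :=
  ∀ η ∈ E, 1 - ε ≤ run (QA N k p q) l (ind E') η

theorem MacHolds.mono {l : List (Finset ℕ × ℝ)} {ε ε' : ℝ} {E E' : Set (St N k)}
    (H : MacHolds N k p q l ε E E') (h : ε ≤ ε') : MacHolds N k p q l ε' E E' :=
  fun η hη => le_trans (by linarith) (H η hη)

theorem MacHolds.comp (hp : ∀ x, 0 ≤ p x) (hq : ∀ x, 0 ≤ q x) {l₁ l₂ : List (Finset ℕ × ℝ)}
    (h₁ : ∀ e ∈ l₁, 0 ≤ e.2) (h₂ : ∀ e ∈ l₂, 0 ≤ e.2) {ε₁ ε₂ : ℝ} (hε : 0 ≤ ε₂)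
    {E E' E'' : Set (St N k)} (H₁ : MacHolds N k p q l₁ ε₁ E E')
    (H₂ : MacHolds N k p q l₂ ε₂ E' E'') : MacHolds N k p q (l₁ ++ l₂) (ε₁ + ε₂) E E'' := by
  intro η hη
  rw [mac_run_append]
  have a : ∀ ζ : St N k, (ind E' - (fun _ => ε₂) : St N k → ℝ) ζ ≤
      run (QA N k p q) l₂ (ind E'') ζ := by
    intro ζ
    by_cases hζ : ζ ∈ E'
    · have := H₂ ζ hζ
      have e1 : ind E' ζ = 1 := Set.indicator_of_mem hζ _
      rw [Pi.sub_apply, e1]
      exact this
    · have h0 : (0 : ℝ) ≤ run (QA N k p q) l₂ (ind E'') ζ := by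
        have h1 := mac_run_mono (N := N) (k := k) hp hq l₂ h₂ (fun _ => 0) (ind E'')
          (fun ξ => Set.indicator_nonneg (fun _ _ => zero_le_one) ξ) ζ
        rw [mac_run_const] at h1
        exact h1
      have e1 : ind E' ζ = 0 := Set.indicator_of_notMem hζ _
      rw [Pi.sub_apply, e1]
      linarith
  have b := mac_run_mono (N := N) (k := k) hp hq l₁ h₁ _ _ a η
  rw [mac_run_sub, mac_run_const] at b
  have c := H₁ η hη
  simp only [Pi.sub_apply] at b
  linarith

/-- Active macBonds when the cuts of `C` are closed. -/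
def macBonds (N : ℕ) (C : Finset ℕ) : Finset ℕ := (Finset.range (N - 1)).filter (fun x => x + 1 ∉ C)

theorem macBonds_subset (N : ℕ) (C : Finset ℕ) : macBonds N C ⊆ Finset.range (N - 1) :=
  Finset.filter_subset _ _

theorem mac_sg_sum {S ι : Type*} [Fintype S] [DecidableEq S] (Q : Matrix S S ℝ) (t : ℝ)
    (R : Finset ι) (f : ι → S → ℝ) : sg Q t (∑ r ∈ R, f r) = ∑ r ∈ R, sg Q t (f r) := by
  classical
  induction R using Finset.induction_on with
  | empty =>
    rw [Finset.sum_empty, Finset.sum_empty]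
    exact Matrix.mulVec_zero _
  | insert a s ha ih => rw [Finset.sum_insert ha, Finset.sum_insert ha, sg_fadd, ih]

theorem mac_move_holds (hp : ∀ x, 0 ≤ p x) (hq : ∀ x, 0 ≤ q x) (C : Finset ℕ) {t δ : ℝ}
    (ht0 : 0 ≤ t) (w : ℕ) (R : Finset ℕ) (a b : ℕ → ℕ)
    (hbox : ∀ r ∈ R, BoxOK N k p q w (a r) (b r) t δ)
    (ha : ∀ r ∈ R, a r ∈ C) (hb : ∀ r ∈ R, b r ∈ C) (hb1 : ∀ r ∈ R, 1 ≤ b r)
    (hbN : ∀ r ∈ R, b r ≤ N) (hin : ∀ r ∈ R, ∀ c ∈ C, c ≤ a r ∨ b r ≤ c)
    (E E' : Set (St N k))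
    (hE : ∀ η ∈ E, ∀ ζ : St N k, (∀ c ∈ C, ht ζ.1 c = ht η.1 c) →
      (∀ r ∈ R, Sorted w (a r) (b r) ζ.1) → ζ ∈ E') :
    MacHolds N k p q [(macBonds N C, t)] (R.card * δ) E E' := by
  intro η hη
  change 1 - (R.card : ℝ) * δ ≤ sg (QA N k p q (macBonds N C)) t (ind E') η
  set F : Set (St N k) := {ζ | ∀ c ∈ C, ht ζ.1 c = ht η.1 c} with hF
  have hF0 : QA N k p q (macBonds N C) *ᵥ ind F = 0 := by
    funext ζ
    have h1 := gen_mulVec (macBonds N C ×ˢ (Finset.univ : Finset Bool)) (rt p q) (mv N k) (ind F) ζ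
    change (gen (macBonds N C ×ˢ (Finset.univ : Finset Bool)) (rt p q) (mv N k) *ᵥ ind F) ζ = 0
    rw [h1]
    refine Finset.sum_eq_zero fun i hi => ?_
    have hiA : i.1 ∈ macBonds N C := (Finset.mem_product.1 hi).1
    have hiC : i.1 + 1 ∉ C := (Finset.mem_filter.1 hiA).2
    have h2 : mv N k i ζ ∈ F ↔ ζ ∈ F := by
      change (∀ c ∈ C, ht (mv N k i ζ).1 c = ht η.1 c) ↔ (∀ c ∈ C, ht ζ.1 c = ht η.1 c)
      refine forall₂_congr fun c hcC => ?_
      have hne : c ≠ i.1 + 1 := fun h => hiC (h ▸ hcC)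
      rw [ht_mv i hne ζ]
    have h3 : ind F (mv N k i ζ) = ind F ζ := by
      unfold ind
      by_cases hζ : ζ ∈ F
      · rw [Set.indicator_of_mem hζ, Set.indicator_of_mem (h2.2 hζ)]
      · rw [Set.indicator_of_notMem hζ, Set.indicator_of_notMem (fun h => hζ (h2.1 h))]
    rw [h3, sub_self, mul_zero]
  have hF1 : sg (QA N k p q (macBonds N C)) t (ind F) η = 1 := by
    rw [sg_eq_self _ _ _ hF0]
    have hηF : η ∈ F := fun c _ => rfl
    exact Set.indicator_of_mem hηF _
  have hpt : ∀ ζ, (ind F - ∑ r ∈ R, ind {ζ : St N k | ¬ Sorted w (a r) (b r) ζ.1}) ζ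
      ≤ ind E' ζ := by
    intro ζ
    rw [Pi.sub_apply, Finset.sum_apply]
    have hnn : ∀ r ∈ R, (0 : ℝ) ≤ ind {ζ : St N k | ¬ Sorted w (a r) (b r) ζ.1} ζ :=
      fun r _ => Set.indicator_nonneg (fun _ _ => zero_le_one) ζ
    have hE0 : (0 : ℝ) ≤ ind E' ζ := Set.indicator_nonneg (fun _ _ => zero_le_one) ζ
    have hs0 := Finset.sum_nonneg hnn
    by_cases hζF : ζ ∈ F
    · by_cases hall : ∀ r ∈ R, Sorted w (a r) (b r) ζ.1
      · have : ζ ∈ E' := hE η hη ζ hζF hall
        have e1 : ind E' ζ = 1 := Set.indicator_of_mem this _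
        have e2 : ind F ζ = 1 := Set.indicator_of_mem hζF _
        rw [e1, e2]
        linarith
      · obtain ⟨r, hr, hnr⟩ : ∃ r ∈ R, ¬ Sorted w (a r) (b r) ζ.1 := by
          by_contra hcon
          exact hall fun r hr => by_contra fun h => hcon ⟨r, hr, h⟩
        have e1 : ind {ζ : St N k | ¬ Sorted w (a r) (b r) ζ.1} ζ = 1 :=
          Set.indicator_of_mem (by exact hnr) _
        have e2 : ind F ζ = 1 := Set.indicator_of_mem hζF _
        have e3 := Finset.single_le_sum hnn hr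
        rw [e1] at e3
        rw [e2]
        linarith
    · have e2 : ind F ζ = 0 := Set.indicator_of_notMem hζF _
      rw [e2]
      linarith
  have hmono := sg_mono (macBonds N C ×ˢ (Finset.univ : Finset Bool)) (rt p q) (mv N k)
    (fun i _ => mac_rt_nonneg hp hq i) ht0 _ _ hpt η
  change sg (QA N k p q (macBonds N C)) t _ η ≤ sg (QA N k p q (macBonds N C)) t _ η at hmono
  rw [sg_fsub, mac_sg_sum, Pi.sub_apply, Finset.sum_apply, hF1] at hmono
  have hsum : ∑ r ∈ R, sg (QA N k p q (macBonds N C)) t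
      (ind {ζ : St N k | ¬ Sorted w (a r) (b r) ζ.1}) η ≤ R.card * δ := by
    have := Finset.sum_le_card_nsmul R (fun r => sg (QA N k p q (macBonds N C)) t
      (ind {ζ : St N k | ¬ Sorted w (a r) (b r) ζ.1}) η) δ (fun r hr => by
        refine hbox r hr (macBonds N C) ?_ ?_ ?_ η
        · intro x hx hxa
          exact (Finset.mem_filter.1 hx).2 (hxa ▸ ha r hr)
        · intro hx
          have h1 := (Finset.mem_filter.1 hx).2
          rw [Nat.sub_add_cancel (hb1 r hr)] at h1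
          exact h1 (hb r hr)
        · intro x hx
          rw [Finset.mem_Ico] at hx
          have h1 := hbN r hr
          refine Finset.mem_filter.2 ⟨Finset.mem_range.2 (by omega), fun hxC => ?_⟩
          rcases hin r hr _ hxC with h2 | h2 <;> omega)
    rwa [nsmul_eq_mul] at this
  linarith

end MacroGen

section MacroLevels

/-- The level of cut `r`. -/
def macLev (w M : ℕ) (a : ℤ) (r : ℕ) : ℤ := 2 * (w : ℤ) * ((M : ℤ) - r) + a

theorem macLev_succ (w M : ℕ) (a : ℤ) (r : ℕ) : macLev w M a r = macLev w M a (r + 1) + 2 * w := by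
  unfold macLev; push_cast; ring

theorem macLev_add (w M : ℕ) (a : ℤ) (r : ℕ) : macLev w M (a + 1) r = macLev w M a r + 1 := by
  unfold macLev; ring

theorem Cuts.mac_add {N w M : ℕ} {y : ℕ → ℕ} (hc : Cuts N w M y) {r : ℕ} (n : ℕ)
    (hs : r + n ≤ M) : y r + 4 * w * n ≤ y (r + n) := by
  induction n with
  | zero => simp
  | succ n ih =>
    have h1 := ih (by omega)
    have h2 := hc.lo (r + n) (by omega)
    have h3 : 4 * w * (n + 1) = 4 * w * n + 4 * w := by ring
    have h4 : r + (n + 1) = r + n + 1 := by ring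
    rw [h3, h4]
    omega

theorem Cuts.mac_mono {N w M : ℕ} {y : ℕ → ℕ} (hc : Cuts N w M y) {r s : ℕ} (h : r ≤ s)
    (hs : s ≤ M) : y r ≤ y s := by
  obtain ⟨n, rfl⟩ := Nat.exists_eq_add_of_le h
  have := hc.mac_add (r := r) n hs
  omega

theorem Cuts.mac_gap {N w M : ℕ} {y : ℕ → ℕ} (hc : Cuts N w M y) {r s : ℕ} (h : r < s)
    (hs : s ≤ M) : y r + 4 * w ≤ y s :=
  le_trans (hc.lo r (by omega)) (hc.mac_mono h hs)

theorem Cuts.mac_le_N {N w M : ℕ} {y : ℕ → ℕ} (hc : Cuts N w M y) {s : ℕ} (hs : s ≤ M) : y s ≤ N := by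
  rw [← hc.yM]
  exact hc.mac_mono hs le_rfl

/-- The macroscopic state `(i, j, a)`. -/
def MSt (N k w M : ℕ) (y : ℕ → ℕ) (i j : ℕ) (a : ℤ) : Set (St N k) :=
  {η | ht η.1 (y i) = k ∧ ht η.1 (y j) = N - y j ∧
    ∀ r, i < r → r < j → macLev w M a r ≤ (ht η.1 (y r) : ℤ)}

/-- The intermediate state of a level up. -/
def MSt' (N k w M : ℕ) (y : ℕ → ℕ) (i j : ℕ) (a : ℤ) : Set (St N k) :=
  {η | ht η.1 (y i) = k ∧ ht η.1 (y j) = N - y j ∧
    ∀ r, i < r → r < j → macLev w M a r + 1 ≤ (ht η.1 (y r - 1) : ℤ)}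

variable {N k w M : ℕ} {y : ℕ → ℕ} {p q : ℕ → ℝ} {t₁ δ : ℝ}

theorem mac_level_up_one (hw : 1 ≤ w) (hc : Cuts N w M y) (hp : ∀ x, 0 ≤ p x) (hq : ∀ x, 0 ≤ q x)
    (ht₁ : 0 ≤ t₁)
    (fast1 : ∀ j, j < M → BoxOK N k p q w (y j) (y (j + 1)) t₁ δ)
    {i j : ℕ} (hij : i + 3 ≤ j) (hj : j ≤ M) (a : ℤ)
    (h1 : macLev w M a (i + 1) + 1 ≤ (k : ℤ) - w) :
    MacHolds N k p q [(macBonds N ((Finset.Icc i j).image y), t₁)] ((Finset.Ioo i j).card * δ)
      (MSt N k w M y i j a) (MSt' N k w M y i j a) := by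
  refine mac_move_holds hp hq _ ht₁ w (Finset.Ioo i j) (fun r => y (r - 1)) y ?_ ?_ ?_ ?_ ?_ ?_ _ _ ?_
  · intro r hr
    rw [Finset.mem_Ioo] at hr
    have h := fast1 (r - 1) (by omega)
    rwa [Nat.sub_add_cancel (by omega)] at h
  · intro r hr
    rw [Finset.mem_Ioo] at hr
    exact Finset.mem_image_of_mem y (Finset.mem_Icc.2 ⟨by omega, by omega⟩)
  · intro r hr
    rw [Finset.mem_Ioo] at hr
    exact Finset.mem_image_of_mem y (Finset.mem_Icc.2 ⟨by omega, by omega⟩)
  · intro r hr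
    rw [Finset.mem_Ioo] at hr
    have := hc.mac_gap (r := i) (s := r) hr.1 (by omega)
    omega
  · intro r hr
    rw [Finset.mem_Ioo] at hr
    exact hc.mac_le_N (by omega)
  · intro r hr c hcC
    rw [Finset.mem_Ioo] at hr
    obtain ⟨s, hs, rfl⟩ := Finset.mem_image.1 hcC
    rw [Finset.mem_Icc] at hs
    rcases Nat.lt_or_ge s r with h | h
    · left
      exact hc.mac_mono (by omega) (by omega)
    · right
      exact hc.mac_mono h (by omega)
  · intro η hη ζ hζ hS
    obtain ⟨e1, e2, e3⟩ := hη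
    have hcut : ∀ s, i ≤ s → s ≤ j → ht ζ.1 (y s) = ht η.1 (y s) := fun s h h' =>
      hζ _ (Finset.mem_image_of_mem y (Finset.mem_Icc.2 ⟨h, h'⟩))
    refine ⟨?_, ?_, ?_⟩
    · rw [hcut i le_rfl (by omega), e1]
    · rw [hcut j (by omega) le_rfl, e2]
    · intro r hr hr'
      have hSr := hS r (Finset.mem_Ioo.2 ⟨hr, hr'⟩)
      have hgap := hc.mac_gap (r := r - 1) (s := r) (by omega) (by omega)
      have hl := ls2 w (y (r - 1)) (y r) (y r - 1) hw (by omega) (by omega) ζ.1 hSr
      refine le_trans (le_min ?_ ?_) hl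
      · rw [hcut r (by omega) (by omega)]
        have := e3 r hr hr'
        have h2 : ((y r - 1 : ℕ) : ℤ) = (y r : ℤ) - 1 := by
          have : 1 ≤ y r := by omega
          push_cast [this]
          ring
        rw [h2]
        linarith
      · rw [hcut (r - 1) (by omega) (by omega)]
        rcases Nat.lt_or_ge (i + 1) r with h | h
        · have h3 := e3 (r - 1) (by omega) (by omega)
          have h4 := macLev_succ w M a (r - 1)
          rw [Nat.sub_add_cancel (by omega)] at h4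
          have h5 : (1 : ℤ) ≤ w := by exact_mod_cast hw
          linarith
        · have hri : r = i + 1 := by omega
          subst hri
          rw [Nat.add_sub_cancel, e1]
          exact h1

theorem mac_level_up_two (hw : 1 ≤ w) (hc : Cuts N w M y) (hp : ∀ x, 0 ≤ p x) (hq : ∀ x, 0 ≤ q x)
    (ht₁ : 0 ≤ t₁)
    (fast2 : ∀ j, 1 ≤ j → j + 1 < M → BoxOK N k p q w (y j - 1) (y (j + 1) - 1) t₁ δ)
    (fast3 : ∀ j, 1 ≤ j → j < M → BoxOK N k p q w (y j - 1) (y (j + 1)) t₁ δ)
    {i j : ℕ} (hij : i + 3 ≤ j) (hj : j ≤ M) (a : ℤ)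
    (h2 : macLev w M a (j - 1) + 1 ≤ (N : ℤ) - y (j - 1) - w) :
    MacHolds N k p q [(macBonds N (insert (y i) (insert (y j)
        ((Finset.Ioo i j).image (fun r => y r - 1)))), t₁)] ((Finset.Ioo i j).card * δ)
      (MSt' N k w M y i j a) (MSt N k w M y i j (a + 1)) := by
  refine mac_move_holds hp hq _ ht₁ w (Finset.Ioo i j) (fun r => y r - 1)
    (fun r => if r + 1 = j then y (r + 1) else y (r + 1) - 1) ?_ ?_ ?_ ?_ ?_ ?_ _ _ ?_
  · intro r hr
    rw [Finset.mem_Ioo] at hr
    split_ifs with h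
    · exact fast3 r (by omega) (by omega)
    · exact fast2 r (by omega) (by omega)
  · intro r hr
    exact Finset.mem_insert_of_mem (Finset.mem_insert_of_mem
      (Finset.mem_image_of_mem (fun r => y r - 1) hr))
  · intro r hr
    rw [Finset.mem_Ioo] at hr
    split_ifs with h
    · rw [h]
      exact Finset.mem_insert_of_mem (Finset.mem_insert_self _ _)
    · exact Finset.mem_insert_of_mem (Finset.mem_insert_of_mem
        (Finset.mem_image_of_mem (fun r => y r - 1) (Finset.mem_Ioo.2 ⟨by omega, by omega⟩)))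
  · intro r hr
    rw [Finset.mem_Ioo] at hr
    have := hc.mac_gap (r := r) (s := r + 1) (by omega) (by omega)
    split_ifs with h <;> omega
  · intro r hr
    rw [Finset.mem_Ioo] at hr
    have := hc.mac_le_N (s := r + 1) (by omega)
    split_ifs with h <;> omega
  · intro r hr c hcC
    rw [Finset.mem_Ioo] at hr
    rw [Finset.mem_insert, Finset.mem_insert] at hcC
    rcases hcC with rfl | rfl | hcC
    · left
      have := hc.mac_gap (r := i) (s := r) hr.1 (by omega)
      omega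
    · right
      have := hc.mac_mono (r := r + 1) (s := j) (by omega) hj
      split_ifs with h <;> omega
    · obtain ⟨s, hs, rfl⟩ := Finset.mem_image.1 hcC
      rw [Finset.mem_Ioo] at hs
      rcases Nat.lt_or_ge r s with h | h
      · right
        rw [if_neg (by omega)]
        have := hc.mac_mono (r := r + 1) (s := s) h (by omega)
        omega
      · left
        have := hc.mac_mono (r := s) (s := r) h (by omega)
        omega
  · intro η hη ζ hζ hS
    obtain ⟨e1, e2, e3⟩ := hη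
    have hci : ht ζ.1 (y i) = ht η.1 (y i) := hζ _ (Finset.mem_insert_self _ _)
    have hcj : ht ζ.1 (y j) = ht η.1 (y j) :=
      hζ _ (Finset.mem_insert_of_mem (Finset.mem_insert_self _ _))
    have hcut : ∀ s, i < s → s < j → ht ζ.1 (y s - 1) = ht η.1 (y s - 1) := fun s h h' =>
      hζ _ (Finset.mem_insert_of_mem (Finset.mem_insert_of_mem
        (Finset.mem_image_of_mem (fun r => y r - 1) (Finset.mem_Ioo.2 ⟨h, h'⟩))))
    refine ⟨?_, ?_, ?_⟩
    · rw [hci, e1]
    · rw [hcj, e2]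
    · intro r hr hr'
      rw [macLev_add]
      have hSr := hS r (Finset.mem_Ioo.2 ⟨hr, hr'⟩)
      have hgap := hc.mac_gap (r := r) (s := r + 1) (by omega) (by omega)
      have hgap' := hc.mac_gap (r := i) (s := r) (by omega) (by omega)
      have hw' : (1 : ℤ) ≤ w := by exact_mod_cast hw
      by_cases h : r + 1 = j
      · rw [if_pos h] at hSr
        have hl := ls1 w (y r - 1) (y (r + 1)) (y r) hw (by omega) (by omega) ζ.1 hSr
        refine le_trans (le_min ?_ ?_) hl
        · rw [hcut r (by omega) (by omega)]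
          exact e3 r hr hr'
        · rw [h, hcj, e2]
          have hN := hc.mac_le_N (s := j) hj
          have h3 : ((N - y j : ℕ) : ℤ) = (N : ℤ) - y j := by push_cast [hN]; ring
          rw [h3]
          have h4 : j - 1 = r := by omega
          rw [h4] at h2
          linarith
      · rw [if_neg h] at hSr
        have hl := ls1 w (y r - 1) (y (r + 1) - 1) (y r) hw (by omega) (by omega) ζ.1 hSr
        refine le_trans (le_min ?_ ?_) hl
        · rw [hcut r (by omega) (by omega)]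
          exact e3 r hr hr'
        · rw [hcut (r + 1) (by omega) (by omega)]
          have h3 := e3 (r + 1) (by omega) (by omega)
          have h4 := macLev_succ w M a r
          have h5 : ((y (r + 1) - 1 : ℕ) : ℤ) = (y (r + 1) : ℤ) - 1 := by
            have : 1 ≤ y (r + 1) := by omega
            push_cast [this]
            ring
          rw [h5]
          have h6 : (y r : ℤ) + 4 * w ≤ y (r + 1) := by exact_mod_cast hgap
          linarith

theorem mac_level_up (hw : 1 ≤ w) (hc : Cuts N w M y) (hp : ∀ x, 0 ≤ p x) (hq : ∀ x, 0 ≤ q x)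
    (ht₁ : 0 ≤ t₁) (hδ : 0 ≤ δ)
    (fast1 : ∀ j, j < M → BoxOK N k p q w (y j) (y (j + 1)) t₁ δ)
    (fast2 : ∀ j, 1 ≤ j → j + 1 < M → BoxOK N k p q w (y j - 1) (y (j + 1) - 1) t₁ δ)
    (fast3 : ∀ j, 1 ≤ j → j < M → BoxOK N k p q w (y j - 1) (y (j + 1)) t₁ δ)
    {i j : ℕ} (hij : i + 3 ≤ j) (hj : j ≤ M) (a : ℤ)
    (h1 : macLev w M a (i + 1) + 1 ≤ (k : ℤ) - w)
    (h2 : macLev w M a (j - 1) + 1 ≤ (N : ℤ) - y (j - 1) - w) :
    ∃ l : List (Finset ℕ × ℝ), (∀ e ∈ l, e.1 ⊆ Finset.range (N - 1) ∧ 0 ≤ e.2) ∧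
      dur l = 2 * t₁ ∧
      MacHolds N k p q l (2 * M * δ) (MSt N k w M y i j a) (MSt N k w M y i j (a + 1)) := by
  have hH := (mac_level_up_one hw hc hp hq ht₁ fast1 hij hj a h1).comp hp hq
    (by intro e he; rw [List.mem_singleton] at he; rw [he]; exact ht₁)
    (by intro e he; rw [List.mem_singleton] at he; rw [he]; exact ht₁)
    (mul_nonneg (Nat.cast_nonneg _) hδ)
    (mac_level_up_two hw hc hp hq ht₁ fast2 fast3 hij hj a h2)
  refine ⟨_, ?_, ?_, hH.mono ?_⟩
  · intro e he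
    rw [List.mem_append, List.mem_singleton, List.mem_singleton] at he
    rcases he with rfl | rfl
    · exact ⟨macBonds_subset _ _, ht₁⟩
    · exact ⟨macBonds_subset _ _, ht₁⟩
  · simp [dur]
    ring
  · have hcard : ((Finset.Ioo i j).card : ℝ) ≤ M := by
      rw [Nat.card_Ioo]
      exact_mod_cast (by omega : j - i - 1 ≤ M)
    nlinarith

theorem mac_drain_left (hw : 1 ≤ w) (hc : Cuts N w M y) (hp : ∀ x, 0 ≤ p x) (hq : ∀ x, 0 ≤ q x)
    {t₂ : ℕ → ℝ} (ht₂ : ∀ j, 0 ≤ t₂ j)
    (slow : ∀ j, j + 2 ≤ M → BoxOK N k p q w (y j) (y (j + 2)) (t₂ j) δ)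
    {i j : ℕ} (hij : i + 3 ≤ j) (hj : j ≤ M) (a : ℤ)
    (h1 : (k : ℤ) ≤ macLev w M a (i + 1) + w) :
    MacHolds N k p q [(macBonds N (insert (y i) ((Finset.Icc (i + 2) j).image y)), t₂ i)] δ
      (MSt N k w M y i j a) (MSt N k w M y (i + 1) j a) := by
  have hH : MacHolds N k p q [(macBonds N (insert (y i) ((Finset.Icc (i + 2) j).image y)), t₂ i)]
      (({i} : Finset ℕ).card * δ) (MSt N k w M y i j a) (MSt N k w M y (i + 1) j a) := by
    refine mac_move_holds hp hq _ (ht₂ i) w {i} (fun _ => y i) (fun _ => y (i + 2))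
      ?_ ?_ ?_ ?_ ?_ ?_ _ _ ?_
    · intro r _
      exact slow i (by omega)
    · intro r _
      exact Finset.mem_insert_self _ _
    · intro r _
      exact Finset.mem_insert_of_mem (Finset.mem_image_of_mem y (Finset.mem_Icc.2
        ⟨le_rfl, by omega⟩))
    · intro r _
      have := hc.mac_gap (r := i) (s := i + 2) (by omega) (by omega)
      omega
    · intro r _
      exact hc.mac_le_N (by omega)
    · intro r _ c hcC
      rw [Finset.mem_insert] at hcC
      rcases hcC with rfl | hcC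
      · left; exact le_rfl
      · obtain ⟨s, hs, rfl⟩ := Finset.mem_image.1 hcC
        rw [Finset.mem_Icc] at hs
        right
        exact hc.mac_mono hs.1 (by omega)
    · intro η hη ζ hζ hS
      obtain ⟨e1, e2, e3⟩ := hη
      have hci : ht ζ.1 (y i) = ht η.1 (y i) := hζ _ (Finset.mem_insert_self _ _)
      have hcut : ∀ s, i + 2 ≤ s → s ≤ j → ht ζ.1 (y s) = ht η.1 (y s) := fun s h h' =>
        hζ _ (Finset.mem_insert_of_mem (Finset.mem_image_of_mem y (Finset.mem_Icc.2 ⟨h, h'⟩)))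
      have hSr := hS i (Finset.mem_singleton_self i)
      have g1 := hc.mac_gap (r := i) (s := i + 1) (by omega) (by omega)
      have g2 := hc.mac_gap (r := i + 1) (s := i + 2) (by omega) (by omega)
      have hl := ls1 w (y i) (y (i + 2)) (y (i + 1)) hw (by omega) (by omega) ζ.1 hSr
      refine ⟨?_, ?_, ?_⟩
      · refine le_antisymm (ht_le_k ζ _) ?_
        have : (k : ℤ) ≤ ht ζ.1 (y (i + 1)) := by
          refine le_trans (le_min ?_ ?_) hl
          · rw [hci, e1]
          · rw [hcut (i + 2) le_rfl (by omega)]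
            have h3 := e3 (i + 2) (by omega) (by omega)
            have h4 := macLev_succ w M a (i + 1)
            have h6 : (y (i + 1) : ℤ) + 4 * w ≤ y (i + 2) := by exact_mod_cast g2
            have h7 : macLev w M a (i + 1 + 1) = macLev w M a (i + 2) := rfl
            rw [h7] at h4
            linarith
        exact_mod_cast this
      · rw [hcut j (by omega) le_rfl, e2]
      · intro r hr hr'
        rw [hcut r (by omega) (by omega)]
        exact e3 r (by omega) hr'
  refine hH.mono (le_of_eq ?_)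
  simp

theorem mac_fill_right (hw : 1 ≤ w) (hc : Cuts N w M y) (hp : ∀ x, 0 ≤ p x) (hq : ∀ x, 0 ≤ q x)
    {t₂ : ℕ → ℝ} (ht₂ : ∀ j, 0 ≤ t₂ j)
    (slow : ∀ j, j + 2 ≤ M → BoxOK N k p q w (y j) (y (j + 2)) (t₂ j) δ)
    {i j : ℕ} (hij : i + 1 ≤ j) (hj : j + 2 ≤ M) (a : ℤ)
    (h1 : (N : ℤ) - y (j + 1) - w ≤ macLev w M a (j + 1)) :
    MacHolds N k p q [(macBonds N (insert (y (j + 2)) ((Finset.Icc i j).image y)), t₂ j)] δ
      (MSt N k w M y i (j + 2) a) (MSt N k w M y i (j + 1) a) := by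
  have hH : MacHolds N k p q [(macBonds N (insert (y (j + 2)) ((Finset.Icc i j).image y)), t₂ j)]
      (({i} : Finset ℕ).card * δ) (MSt N k w M y i (j + 2) a) (MSt N k w M y i (j + 1) a) := by
    refine mac_move_holds hp hq _ (ht₂ j) w {i} (fun _ => y j) (fun _ => y (j + 2))
      ?_ ?_ ?_ ?_ ?_ ?_ _ _ ?_
    · intro r _
      exact slow j (by omega)
    · intro r _
      exact Finset.mem_insert_of_mem (Finset.mem_image_of_mem y (Finset.mem_Icc.2
        ⟨by omega, le_rfl⟩))
    · intro r _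
      exact Finset.mem_insert_self _ _
    · intro r _
      have := hc.mac_gap (r := j) (s := j + 2) (by omega) (by omega)
      omega
    · intro r _
      exact hc.mac_le_N (by omega)
    · intro r _ c hcC
      rw [Finset.mem_insert] at hcC
      rcases hcC with rfl | hcC
      · right; exact le_rfl
      · obtain ⟨s, hs, rfl⟩ := Finset.mem_image.1 hcC
        rw [Finset.mem_Icc] at hs
        left
        exact hc.mac_mono hs.2 (by omega)
    · intro η hη ζ hζ hS
      obtain ⟨e1, e2, e3⟩ := hη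
      have hcj : ht ζ.1 (y (j + 2)) = ht η.1 (y (j + 2)) := hζ _ (Finset.mem_insert_self _ _)
      have hcut : ∀ s, i ≤ s → s ≤ j → ht ζ.1 (y s) = ht η.1 (y s) := fun s h h' =>
        hζ _ (Finset.mem_insert_of_mem (Finset.mem_image_of_mem y (Finset.mem_Icc.2 ⟨h, h'⟩)))
      have hSr := hS i (Finset.mem_singleton_self i)
      have g1 := hc.mac_gap (r := j) (s := j + 1) (by omega) (by omega)
      have g2 := hc.mac_gap (r := j + 1) (s := j + 2) (by omega) (by omega)
      have hN2 := hc.mac_le_N (s := j + 2) hj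
      have hN1 := hc.mac_le_N (s := j + 1) (by omega)
      have hl := ls2 w (y j) (y (j + 2)) (y (j + 1)) hw (by omega) (by omega) ζ.1 hSr
      refine ⟨?_, ?_, ?_⟩
      · rw [hcut i le_rfl (by omega), e1]
      · refine le_antisymm (ht_le_sub ζ _) ?_
        have : (((N - y (j + 1) : ℕ)) : ℤ) ≤ ht ζ.1 (y (j + 1)) := by
          refine le_trans (le_min ?_ ?_) hl
          · rw [hcj, e2]
            have h3 : ((N - y (j + 2) : ℕ) : ℤ) = (N : ℤ) - y (j + 2) := by
              push_cast [hN2]; ring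
            have h4 : ((N - y (j + 1) : ℕ) : ℤ) = (N : ℤ) - y (j + 1) := by
              push_cast [hN1]; ring
            rw [h3, h4]
            linarith
          · rw [hcut j (by omega) le_rfl]
            have h3 := e3 j (by omega) (by omega)
            have h4 := macLev_succ w M a j
            have h5 : ((N - y (j + 1) : ℕ) : ℤ) = (N : ℤ) - y (j + 1) := by
              push_cast [hN1]; ring
            rw [h5]
            linarith
        exact_mod_cast this
      · intro r hr hr'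
        rw [hcut r (by omega) (by omega)]
        exact e3 r (by omega) (by omega)
  refine hH.mono (le_of_eq ?_)
  simp

/-- The induction on the remaining number of moves. -/
theorem macro_aux (hw : 1 ≤ w) (hc : Cuts N w M y) (hp : ∀ x, 0 ≤ p x) (hq : ∀ x, 0 ≤ q x)
    (ht₁ : 0 ≤ t₁) {t₂ : ℕ → ℝ} (ht₂ : ∀ j, 0 ≤ t₂ j) (hδ : 0 ≤ δ)
    (fast1 : ∀ j, j < M → BoxOK N k p q w (y j) (y (j + 1)) t₁ δ)
    (fast2 : ∀ j, 1 ≤ j → j + 1 < M → BoxOK N k p q w (y j - 1) (y (j + 1) - 1) t₁ δ)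
    (fast3 : ∀ j, 1 ≤ j → j < M → BoxOK N k p q w (y j - 1) (y (j + 1)) t₁ δ)
    (slow : ∀ j, j + 2 ≤ M → BoxOK N k p q w (y j) (y (j + 2)) (t₂ j) δ) (n : ℕ) :
    ∀ (i j : ℕ) (a : ℤ), i + 2 ≤ j → j ≤ M → a ≤ k → ((k : ℤ) - a).toNat + (j - i) ≤ n →
      ∃ (l : List (Finset ℕ × ℝ)) (i' : ℕ), i' + 2 ≤ M ∧
      (∀ e ∈ l, e.1 ⊆ Finset.range (N - 1) ∧ 0 ≤ e.2) ∧
      dur l ≤ 2 * ((k : ℝ) - a) * t₁ + ∑ r ∈ Finset.Ico i M, t₂ r
        + ∑ r ∈ Finset.range (j - 1), t₂ r ∧
      MacHolds N k p q l ((2 * M * ((k : ℝ) - a) + ((j : ℝ) - i)) * δ) (MSt N k w M y i j a)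
        {η : St N k | ht η.1 (y i') = k ∧ ht η.1 (y (i' + 2)) = N - y (i' + 2)} := by
  induction n with
  | zero =>
    intro i j a hij hj ha hn
    omega
  | succ n ih =>
    intro i j a hij hj ha hn
    have hM0 : (0 : ℝ) ≤ M := Nat.cast_nonneg M
    have hka : (0 : ℝ) ≤ (k : ℝ) - a := by
      have : (a : ℝ) ≤ ((k : ℤ) : ℝ) := by exact_mod_cast ha
      push_cast at this
      linarith
    rcases Nat.lt_or_ge (i + 2) j with h3 | h3
    · have hj' : i + 3 ≤ j := h3
      by_cases c1 : macLev w M a (i + 1) + 1 ≤ (k : ℤ) - w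
      · by_cases c2 : macLev w M a (j - 1) + 1 ≤ (N : ℤ) - y (j - 1) - w
        · -- level up
          obtain ⟨l₁, hl₁, hd₁, hH₁⟩ := mac_level_up hw hc hp hq ht₁ hδ fast1 fast2 fast3 hj' hj a c1 c2
          have ha' : a + 1 ≤ k := by
            have h5 : (0 : ℤ) ≤ 2 * (w : ℤ) * ((M : ℤ) - (i + 1 : ℕ)) := by
              apply mul_nonneg (by positivity)
              have : ((i + 1 : ℕ) : ℤ) ≤ M := by exact_mod_cast (by omega : i + 1 ≤ M)
              linarith
            unfold macLev at c1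
            have : (0 : ℤ) ≤ w := Nat.cast_nonneg w
            linarith
          obtain ⟨l₂, i', hi', hl₂, hd₂, hH₂⟩ := ih i j (a + 1) hij hj ha' (by omega)
          have hka' : (0 : ℝ) ≤ (k : ℝ) - ((a + 1 : ℤ) : ℝ) := by
            have : ((a + 1 : ℤ) : ℝ) ≤ ((k : ℤ) : ℝ) := by exact_mod_cast ha'
            rw [Int.cast_natCast] at this
            linarith
          have hji : (0 : ℝ) ≤ (j : ℝ) - i := by
            have : (i : ℝ) ≤ j := by exact_mod_cast (by omega : i ≤ j)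
            linarith
          refine ⟨l₁ ++ l₂, i', hi', ?_, ?_, ?_⟩
          · intro e he
            rcases List.mem_append.1 he with h | h
            · exact hl₁ e h
            · exact hl₂ e h
          · rw [mac_dur_append, hd₁]
            push_cast at hd₂
            linarith
          · refine (hH₁.comp hp hq (fun e he => (hl₁ e he).2) (fun e he => (hl₂ e he).2)
              (mul_nonneg (by positivity) hδ) hH₂).mono (le_of_eq ?_)
            push_cast
            ring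
        · -- fill right
          obtain ⟨j₀, rfl⟩ : ∃ j₀, j = j₀ + 2 := ⟨j - 2, by omega⟩
          have c2' : (N : ℤ) - y (j₀ + 1) - w ≤ macLev w M a (j₀ + 1) := by
            have h4 : j₀ + 2 - 1 = j₀ + 1 := rfl
            rw [h4] at c2
            omega
          have hH₁ := mac_fill_right hw hc hp hq ht₂ slow (i := i) (j := j₀) (by omega) hj a c2'
          obtain ⟨l₂, i', hi', hl₂, hd₂, hH₂⟩ := ih i (j₀ + 1) a (by omega) (by omega) ha (by omega)
          refine ⟨[(macBonds N (insert (y (j₀ + 2)) ((Finset.Icc i j₀).image y)), t₂ j₀)] ++ l₂, i',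
            hi', ?_, ?_, ?_⟩
          · intro e he
            rcases List.mem_append.1 he with h | h
            · rw [List.mem_singleton] at h
              rw [h]
              exact ⟨macBonds_subset _ _, ht₂ _⟩
            · exact hl₂ e h
          · rw [mac_dur_append]
            have h5 : dur [(macBonds N (insert (y (j₀ + 2)) ((Finset.Icc i j₀).image y)), t₂ j₀)]
                = t₂ j₀ := by simp [dur]
            rw [h5]
            have h6 : j₀ + 2 - 1 = j₀ + 1 := rfl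
            have h7 : j₀ + 1 - 1 = j₀ := rfl
            rw [h6, Finset.sum_range_succ]
            rw [h7] at hd₂
            linarith
          · have hji : (0 : ℝ) ≤ ((j₀ + 1 : ℕ) : ℝ) - i := by
              have : (i : ℝ) ≤ ((j₀ + 1 : ℕ) : ℝ) := by exact_mod_cast (by omega : i ≤ j₀ + 1)
              linarith
            refine (hH₁.comp hp hq (by
              intro e he; rw [List.mem_singleton] at he; rw [he]; exact ht₂ _)
              (fun e he => (hl₂ e he).2)
              (mul_nonneg (by positivity) hδ) hH₂).mono (le_of_eq ?_)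
            push_cast
            ring
      · -- drain left
        have c1' : (k : ℤ) ≤ macLev w M a (i + 1) + w := by omega
        have hH₁ := mac_drain_left hw hc hp hq ht₂ slow hj' hj a c1'
        obtain ⟨l₂, i', hi', hl₂, hd₂, hH₂⟩ := ih (i + 1) j a (by omega) hj ha (by omega)
        refine ⟨[(macBonds N (insert (y i) ((Finset.Icc (i + 2) j).image y)), t₂ i)] ++ l₂, i',
          hi', ?_, ?_, ?_⟩
        · intro e he
          rcases List.mem_append.1 he with h | h
          · rw [List.mem_singleton] at h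
            rw [h]
            exact ⟨macBonds_subset _ _, ht₂ _⟩
          · exact hl₂ e h
        · rw [mac_dur_append]
          have h5 : dur [(macBonds N (insert (y i) ((Finset.Icc (i + 2) j).image y)), t₂ i)]
              = t₂ i := by simp [dur]
          rw [h5]
          have h6 : ∑ r ∈ Finset.Ico i M, t₂ r = t₂ i + ∑ r ∈ Finset.Ico (i + 1) M, t₂ r :=
            Finset.sum_eq_sum_Ico_succ_bot (by omega) _
          rw [h6]
          linarith
        · have hji : (0 : ℝ) ≤ (j : ℝ) - ((i + 1 : ℕ) : ℝ) := by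
            have : ((i + 1 : ℕ) : ℝ) ≤ j := by exact_mod_cast (by omega : i + 1 ≤ j)
            linarith
          refine (hH₁.comp hp hq (by
            intro e he; rw [List.mem_singleton] at he; rw [he]; exact ht₂ _)
            (fun e he => (hl₂ e he).2)
            (mul_nonneg (by positivity) hδ) hH₂).mono (le_of_eq ?_)
          push_cast
          ring
    · -- the end
      have hji : j = i + 2 := by omega
      subst hji
      refine ⟨[], i, hj, by simp, ?_, ?_⟩
      · have h1 : (0 : ℝ) ≤ ∑ r ∈ Finset.Ico i M, t₂ r := Finset.sum_nonneg fun r _ => ht₂ r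
        have h2 : (0 : ℝ) ≤ ∑ r ∈ Finset.range (i + 2 - 1), t₂ r :=
          Finset.sum_nonneg fun r _ => ht₂ r
        have h3 : (0 : ℝ) ≤ 2 * ((k : ℝ) - a) * t₁ := by positivity
        simp only [dur, List.map_nil, List.sum_nil]
        linarith
      · intro η hη
        have h1 : η ∈ {η : St N k | ht η.1 (y i) = k ∧ ht η.1 (y (i + 2)) = N - y (i + 2)} :=
          ⟨hη.1, hη.2.1⟩
        have h2 : (ind {η : St N k | ht η.1 (y i) = k ∧ ht η.1 (y (i + 2)) = N - y (i + 2)}) η
            = 1 := Set.indicator_of_mem h1 _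
        change _ ≤ (ind {η : St N k | ht η.1 (y i) = k ∧ ht η.1 (y (i + 2)) = N - y (i + 2)}) η
        rw [h2]
        have h4 : (0 : ℝ) ≤ (2 * M * ((k : ℝ) - a) + (((i + 2 : ℕ) : ℝ) - i)) * δ := by
          apply mul_nonneg _ hδ
          push_cast
          have : (0 : ℝ) ≤ 2 * M * ((k : ℝ) - a) := by positivity
          linarith
        linarith

end MacroLevels

theorem macro_run {N k w M : ℕ} (hk : k ≤ N) (hw : 1 ≤ w) (hM : 2 ≤ M) (y : ℕ → ℕ)
    (hc : Cuts N w M y) {p q : ℕ → ℝ} (hp : ∀ x, 0 ≤ p x) (hq : ∀ x, 0 ≤ q x)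
    (t₁ : ℝ) (ht₁ : 0 ≤ t₁) (t₂ : ℕ → ℝ) (ht₂ : ∀ j, 0 ≤ t₂ j) (δ : ℝ) (hδ : 0 ≤ δ)
    (fast1 : ∀ j, j < M → BoxOK N k p q w (y j) (y (j + 1)) t₁ δ)
    (fast2 : ∀ j, 1 ≤ j → j + 1 < M → BoxOK N k p q w (y j - 1) (y (j + 1) - 1) t₁ δ)
    (fast3 : ∀ j, 1 ≤ j → j < M → BoxOK N k p q w (y j - 1) (y (j + 1)) t₁ δ)
    (slow : ∀ j, j + 2 ≤ M → BoxOK N k p q w (y j) (y (j + 2)) (t₂ j) δ) :
    ∃ (l : List (Finset ℕ × ℝ)) (i : ℕ), i + 2 ≤ M ∧
      (∀ e ∈ l, e.1 ⊆ Finset.range (N - 1) ∧ 0 ≤ e.2) ∧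
      dur l ≤ 6 * N * t₁ + 2 * ∑ j ∈ Finset.range M, t₂ j ∧
      1 - 12 * (N : ℝ) ^ 2 * δ ≤ run (QA N k p q) l
        (ind {η : St N k | ht η.1 (y i) = k ∧ ht η.1 (y (i + 2)) = N - y (i + 2)})
        (botSt N k hk) := by
  have hMN : 4 * w * M ≤ N := by
    have h := hc.mac_add (r := 0) M (by omega)
    rw [Nat.zero_add, hc.y0, hc.yM] at h
    omega
  have hk0 : (0 : ℤ) ≤ k := Nat.cast_nonneg k
  have hwM : (0 : ℤ) ≤ 2 * (w : ℤ) * M := by positivity
  obtain ⟨l, i, hi, hl, hd, hH⟩ := macro_aux (N := N) (k := k) hw hc hp hq ht₁ ht₂ hδ fast1 fast2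
    fast3 slow _ 0 M (-(2 * (w : ℤ) * M)) (by omega) le_rfl (by linarith) le_rfl
  have hN0 : (0 : ℝ) ≤ N := Nat.cast_nonneg N
  have hkN : (k : ℝ) ≤ N := by exact_mod_cast hk
  have hMN' : 4 * (w : ℝ) * M ≤ N := by exact_mod_cast hMN
  have hw' : (1 : ℝ) ≤ w := by exact_mod_cast hw
  have hM' : (2 : ℝ) ≤ M := by exact_mod_cast hM
  have hMN1 : (M : ℝ) ≤ N := by nlinarith
  have hN1 : (1 : ℝ) ≤ N := by linarith
  have hlev : (k : ℝ) - ((-(2 * (w : ℤ) * M) : ℤ) : ℝ) ≤ 2 * N := by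
    push_cast
    nlinarith
  refine ⟨l, i, hi, hl, ?_, ?_⟩
  · refine hd.trans ?_
    have h1 : ∑ r ∈ Finset.Ico 0 M, t₂ r = ∑ r ∈ Finset.range M, t₂ r := by
      rw [Finset.range_eq_Ico]
    have h2 : ∑ r ∈ Finset.range (M - 1), t₂ r ≤ ∑ r ∈ Finset.range M, t₂ r :=
      Finset.sum_le_sum_of_subset_of_nonneg (Finset.range_subset_range.2 (by omega))
        (fun r _ _ => ht₂ r)
    have h3 : 2 * ((k : ℝ) - ((-(2 * (w : ℤ) * M) : ℤ) : ℝ)) * t₁ ≤ 2 * (2 * N) * t₁ :=
      mul_le_mul_of_nonneg_right (mul_le_mul_of_nonneg_left hlev (by norm_num)) ht₁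
    have h4 : 0 ≤ (N : ℝ) * t₁ := mul_nonneg hN0 ht₁
    rw [h1]
    nlinarith
  · have hbot : botSt N k hk ∈ MSt N k w M y 0 M (-(2 * (w : ℤ) * M)) := by
      refine ⟨?_, ?_, ?_⟩
      · rw [hc.y0]
        exact ht_zero _
      · rw [hc.yM, Nat.sub_self]
        exact ht_top _ le_rfl
      · intro r _ _
        have h1 : (0 : ℤ) ≤ (ht (botSt N k hk).1 (y r) : ℤ) := Nat.cast_nonneg _
        have h2 : (0 : ℤ) ≤ 2 * (w : ℤ) * r := by positivity
        refine le_trans ?_ h1
        unfold macLev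
        linarith
    refine le_trans ?_ (hH _ hbot)
    have h1 : (2 * (M : ℝ) * ((k : ℝ) - ((-(2 * (w : ℤ) * M) : ℤ) : ℝ)) + ((M : ℝ) - (0 : ℕ)))
        ≤ 12 * (N : ℝ) ^ 2 := by
      have h2 : 2 * (M : ℝ) * ((k : ℝ) - ((-(2 * (w : ℤ) * M) : ℤ) : ℝ)) ≤ 2 * M * (2 * N) :=
        mul_le_mul_of_nonneg_left hlev (by positivity)
      push_cast at h2 ⊢
      nlinarith
    have h3 := mul_le_mul_of_nonneg_right h1 hδ
    linarith

end Pool.Agent.EBX
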