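import Mathlib
import Pool.Agent.EBX.Censor
import Pool.Agent.EBX.BoxMix
import Pool.Agent.EBX.Macro
import Pool.Agent.EBX.FinalBox
import Pool.Agent.EBX.Cuts

/-!
# EBX: deterministic assembly: good_env, cuts, box_ok for all boxes (fast: R = exp(h/2 + log(1/κ)), one more site on
the left costs |V(x+1)-V(x)| ≤ log(1/κ); slow: R = Z2 at y j), macro_run, then final box (box_decay + final_eq), censor_run
(ind {top} is increasing). The two lists are concatenated (run of an append).
-/

set_option autoImplicit false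

open scoped Matrix ENNReal NNReal
open MeasureTheory Filter Topology

namespace Pool.Agent.EBX

theorem good_env {N : ℕ} (κ : ℝ) (hκ : 0 < κ) (hκ1 : κ ≤ 1 / 2) (ω : Fin N → ℝ)
    (hω : ∀ x, ω x ∈ Set.Icc κ (1 - κ)) : Good κ (pw ω) (qw ω) (Vw ω) := by
  have hext : ∀ x, ext ω x ∈ Set.Icc κ (1 - κ) := by
    intro x
    unfold ext
    split_ifs with h
    · exact hω _
    · exact ⟨hκ1, by linarith⟩
  refine ⟨hκ, fun x => (hext x).1, fun x => ?_, fun x => ?_, fun x => ?_, fun x => ?_⟩
  · have := (hext (x + 1)).2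
    unfold qw; linarith
  · have := (hext x).2
    unfold pw; linarith
  · have := (hext (x + 1)).1
    unfold qw; linarith
  · have hp : 0 < pw ω x := lt_of_lt_of_le hκ (hext x).1
    have hq : 0 < qw ω x := by
      have := (hext (x + 1)).2
      unfold qw; linarith
    have hV : Vw ω (x + 1) = Vw ω x + Real.log (qw ω x / pw ω x) := by
      unfold Vw
      rw [Finset.sum_range_succ]
    rw [hV, neg_add, Real.exp_add, Real.exp_neg (Real.log _), Real.exp_log (div_pos hq hp)]
    field_simp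

theorem boxok_mono {N k : ℕ} {p q : ℕ → ℝ} {w a b : ℕ} {t δ δ' : ℝ} (h : δ ≤ δ')
    (hB : BoxOK N k p q w a b t δ) : BoxOK N k p q w a b t δ' :=
  fun A h1 h2 h3 η => (hB A h1 h2 h3 η).trans h

theorem assemble {N k w : ℕ} (hk : k ≤ N) (hk1 : 1 ≤ k) (hw : 1 ≤ w) (hN : 24 * w ≤ N)
    {κ : ℝ} {p q V : ℕ → ℝ} (hG : Good κ p q V) (hκ1 : κ ≤ 1) {h e₁ Sl S Λ : ℝ} (hh : 0 ≤ h)
    (he₁ : 0 ≤ e₁) (hΛ : 0 ≤ Λ) (hS : S ≤ Λ) (hE : EnvOK N k w V h e₁ Sl S) :
    let L : ℝ := 24 * w
    let τ : ℝ := L ^ 5 / κ * (L * (L * Real.log (1 / κ) + 1) + Λ)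
    ∃ T : ℝ, 0 ≤ T ∧
      T ≤ τ * (6 * N * Real.exp (h / 2 + Real.log (1 / κ)) + 3 * Sl) ∧
      (1 - 12 * (N : ℝ) ^ 2 * (L ^ 2 * e₁ + Real.exp (-Λ))) * (Real.exp (-S) - Real.exp (-Λ))
        ≤ sg (QA N k p q (Finset.range (N - 1))) T (ind {topSt N k hk}) (botSt N k hk) := by
  intro L τ
  obtain ⟨M, y, hM, hMN, hc, hok⟩ := exists_cuts N w hw hN V h hh hE.four hE.first hE.last
  have hκ : 0 < κ := hG.kpos
  set C₀ : ℝ := Real.log (1 / κ) with hC₀
  have hC₀0 : 0 ≤ C₀ := Real.log_nonneg (by rw [le_div_iff₀ hκ]; linarith)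
  -- one step of the potential
  have hstep : ∀ x, V (x + 1) - V x ≤ C₀ ∧ V x - V (x + 1) ≤ C₀ := by
    intro x
    have hp := hκ.trans_le (hG.p_ge x)
    have hq := hκ.trans_le (hG.q_ge x)
    have hb := hG.bal x
    have h1 : Real.exp (V (x + 1) - V x) = q x / p x := by
      rw [eq_div_iff hp.ne', show V (x + 1) - V x = -V x - -V (x + 1) by ring, Real.exp_sub,
        div_mul_eq_mul_div, mul_comm, hb, mul_div_assoc, div_self (Real.exp_pos _).ne', mul_one]
    have h2 : q x / p x ≤ 1 / κ := div_le_div₀ zero_le_one (hG.q_le x) hκ (hG.p_ge x)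
    have h3 : p x / q x ≤ 1 / κ := div_le_div₀ zero_le_one (hG.p_le x) hκ (hG.q_ge x)
    constructor
    · rw [hC₀, ← Real.log_exp (V (x + 1) - V x)]
      exact Real.log_le_log (Real.exp_pos _) (by rw [h1]; exact h2)
    · rw [hC₀, ← Real.log_exp (V x - V (x + 1))]
      refine Real.log_le_log (Real.exp_pos _) ?_
      rw [show V x - V (x + 1) = -(V (x + 1) - V x) by ring, Real.exp_neg, h1, inv_div]
      exact h3
  have hdist : ∀ n x, V (x + n) - V x ≤ n * C₀ ∧ V x - V (x + n) ≤ n * C₀ := by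
    intro n
    induction n with
    | zero => intro x; simp
    | succ n ih =>
      intro x
      have h1 := ih x
      have h2 := hstep (x + n)
      rw [show x + (n + 1) = x + n + 1 by ring]
      push_cast
      constructor <;> linarith [h1.1, h1.2, h2.1, h2.2]
  set Bd : ℝ := L * C₀ with hBddef
  have hL0 : (0 : ℝ) < L := by
    have : (1 : ℝ) ≤ (w : ℝ) := by exact_mod_cast hw
    show (0 : ℝ) < 24 * (w : ℝ)
    linarith
  have hBd : 0 ≤ Bd := mul_nonneg hL0.le hC₀0
  have hX : 0 ≤ L * (Bd + 1) + Λ := by positivity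
  have hτ0 : 0 ≤ τ := by
    show 0 ≤ L ^ 5 / κ * (L * (Bd + 1) + Λ)
    positivity
  set δ : ℝ := L ^ 2 * e₁ + Real.exp (-Λ) with hδ
  have hδ0 : 0 ≤ δ := by positivity
  -- time of a box
  have htime : ∀ a b : ℕ, a < b → b ≤ a + 24 * w → ∀ R : ℝ, 1 ≤ R →
      ((b - a : ℕ) : ℝ) ^ 5 * R / κ * (((b - a : ℕ) : ℝ) * (Bd + 1) + Λ) ≤ τ * R := by
    intro a b hab hb R hR
    have h1 : ((b - a : ℕ) : ℝ) ≤ L := by
      show ((b - a : ℕ) : ℝ) ≤ 24 * (w : ℝ)
      have : b - a ≤ 24 * w := by omega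
      exact_mod_cast this
    have h0 : (0 : ℝ) ≤ ((b - a : ℕ) : ℝ) := Nat.cast_nonneg _
    have h2 : ((b - a : ℕ) : ℝ) ^ 5 ≤ L ^ 5 := pow_le_pow_left₀ h0 h1 5
    have h3 : ((b - a : ℕ) : ℝ) * (Bd + 1) + Λ ≤ L * (Bd + 1) + Λ := by
      have : ((b - a : ℕ) : ℝ) * (Bd + 1) ≤ L * (Bd + 1) :=
        mul_le_mul_of_nonneg_right h1 (by linarith)
      linarith
    calc ((b - a : ℕ) : ℝ) ^ 5 * R / κ * (((b - a : ℕ) : ℝ) * (Bd + 1) + Λ)
        = (((b - a : ℕ) : ℝ) ^ 5 * (((b - a : ℕ) : ℝ) * (Bd + 1) + Λ)) * (R / κ) := by ring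
      _ ≤ (L ^ 5 * (L * (Bd + 1) + Λ)) * (R / κ) := by
          refine mul_le_mul_of_nonneg_right (mul_le_mul h2 h3 ?_ (by positivity)) (by positivity)
          positivity
      _ = τ * R := by
          show _ = L ^ 5 / κ * (L * (Bd + 1) + Λ) * R
          ring
  have hV : ∀ a b : ℕ, b ≤ N → b ≤ a + 24 * w → ∀ x z, a ≤ x → x < b → a ≤ z → z < b →
      V x - V z ≤ Bd := by
    intro a b hb hab x z h1 h2 h3 h4
    rcases le_total x z with hxz | hxz
    · have h5 := (hdist (z - x) x).2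
      rw [Nat.add_sub_cancel' hxz] at h5
      refine h5.trans (mul_le_mul_of_nonneg_right ?_ hC₀0)
      show ((z - x : ℕ) : ℝ) ≤ 24 * (w : ℝ)
      have : z - x ≤ 24 * w := by omega
      exact_mod_cast this
    · have h5 := (hdist (x - z) z).1
      rw [Nat.add_sub_cancel' hxz] at h5
      refine h5.trans (mul_le_mul_of_nonneg_right ?_ hC₀0)
      show ((x - z : ℕ) : ℝ) ≤ 24 * (w : ℝ)
      have : x - z ≤ 24 * w := by omega
      exact_mod_cast this
  have hbox : ∀ a b : ℕ, a < b → b ≤ N → b ≤ a + 24 * w → ∀ R : ℝ, Rise2 V a b R →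
      BoxOK N k p q w a b (τ * R) δ := by
    intro a b hab hb hab2 R hR
    have hR1 : 1 ≤ R := by
      have := hR a a a a le_rfl le_rfl le_rfl le_rfl hab
      simpa using this
    have hb1 := box_ok (N := N) (k := k) hG w a b hw hab hb R hR Bd (hV a b hb hab2) e₁
      (fun x z hx hxz hz => hE.drop x z hxz (by omega)) he₁ Λ (τ * R) hΛ
      (htime a b hab hab2 R hR1)
    refine boxok_mono ?_ hb1
    have h1 : ((b - a : ℕ) : ℝ) ≤ L := by
      show ((b - a : ℕ) : ℝ) ≤ 24 * (w : ℝ)
      have : b - a ≤ 24 * w := by omega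
      exact_mod_cast this
    have h0 : (0 : ℝ) ≤ ((b - a : ℕ) : ℝ) := Nat.cast_nonneg _
    have h2 : ((b - a : ℕ) : ℝ) ^ 2 ≤ L ^ 2 := pow_le_pow_left₀ h0 h1 2
    have := mul_le_mul_of_nonneg_right h2 he₁
    linarith
  have hfastR : ∀ a b : ℕ, Ok2 V a b (h / 2 + C₀) → Rise2 V a b (Real.exp (h / 2 + C₀)) := by
    intro a b hO z j z' u h1 h2 h3 h4 h5
    exact Real.exp_le_exp.2 (hO z j z' u h1 h2 h3 h4 h5)
  -- one more site on the left
  have hleft : ∀ a b : ℕ, 1 ≤ a → Ok2 V a b (h / 2) → a < b → Ok2 V (a - 1) b (h / 2 + C₀) := by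
    intro a b ha hO hab z j z' u h1 h2 h3 h4 h5
    have hs := (hstep (a - 1)).1
    rw [Nat.sub_add_cancel ha] at hs
    by_cases hz : z = a - 1
    · by_cases hj : j = a - 1
      · by_cases hz' : z' = a - 1
        · by_cases hu : u = a - 1
          · rw [hz, hj, hz', hu]; linarith
          · have := hO a a a u le_rfl le_rfl le_rfl (by omega) h5
            rw [hz, hj, hz']; linarith
        · have := hO z' z' z' u (by omega) le_rfl le_rfl h4 h5
          rw [hz, hj]; linarith
      · have := hO a j z' u le_rfl (by omega) h3 h4 h5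
        rw [hz]; linarith
    · have := hO z j z' u (by omega) h2 h3 h4 h5
      linarith
  have hOsub : ∀ a b a' b' : ℕ, a ≤ a' → b' ≤ b → Ok2 V a b (h / 2 + C₀) →
      Ok2 V a' b' (h / 2 + C₀) := by
    intro a b a' b' h1 h2 hO z j z' u h3 h4 h5 h6 h7
    exact hO z j z' u (by omega) h4 h5 h6 (by omega)
  have hO0 : ∀ a b : ℕ, Ok2 V a b (h / 2) → Ok2 V a b (h / 2 + C₀) := by
    intro a b hO z j z' u h3 h4 h5 h6 h7
    have := hO z j z' u h3 h4 h5 h6 h7
    linarith
  have hyN : ∀ j, j ≤ M → y j ≤ N := fun j hj => hc.mac_le_N hj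
  have hslowR : ∀ j, j + 2 ≤ M → Rise2 V (y j) (y (j + 2)) (Z2 N w V (y j)) := by
    intro j hj z u z' v h1 h2 h3 h4 h5
    have hyj2 := hyN (j + 2) hj
    have h6 := hc.hi j (by omega)
    have h7 := hc.hi (j + 1) (by omega)
    have hmin : v < min N (y j + 24 * w) := by
      rw [lt_min_iff]
      have : y (j + 1 + 1) = y (j + 2) := rfl
      constructor <;> omega
    unfold Z2
    have e0 : ∀ a b c d : ℕ, 0 ≤ Real.exp ((V b - V a) + (V d - V c)) :=
      fun _ _ _ _ => (Real.exp_pos _).le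
    refine le_trans ?_ (Finset.single_le_sum (f := fun a₁ =>
      ∑ b₁ ∈ Finset.Ico a₁ (min N (y j + 24 * w)), ∑ a₂ ∈ Finset.Ico b₁ (min N (y j + 24 * w)),
        ∑ b₂ ∈ Finset.Ico a₂ (min N (y j + 24 * w)), Real.exp ((V b₁ - V a₁) + (V b₂ - V a₂)))
      (fun a₁ _ => Finset.sum_nonneg fun b₁ _ => Finset.sum_nonneg fun a₂ _ =>
        Finset.sum_nonneg fun b₂ _ => e0 _ _ _ _)
      (Finset.mem_Ico.2 ⟨h1, by omega⟩ : z ∈ Finset.Ico (y j) (min N (y j + 24 * w))))
    refine le_trans ?_ (Finset.single_le_sum (f := fun b₁ =>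
      ∑ a₂ ∈ Finset.Ico b₁ (min N (y j + 24 * w)),
        ∑ b₂ ∈ Finset.Ico a₂ (min N (y j + 24 * w)), Real.exp ((V b₁ - V z) + (V b₂ - V a₂)))
      (fun b₁ _ => Finset.sum_nonneg fun a₂ _ =>
        Finset.sum_nonneg fun b₂ _ => e0 _ _ _ _)
      (Finset.mem_Ico.2 ⟨h2, by omega⟩ : u ∈ Finset.Ico z (min N (y j + 24 * w))))
    refine le_trans ?_ (Finset.single_le_sum (f := fun a₂ =>
        ∑ b₂ ∈ Finset.Ico a₂ (min N (y j + 24 * w)), Real.exp ((V u - V z) + (V b₂ - V a₂)))
      (fun a₂ _ => Finset.sum_nonneg fun b₂ _ => e0 _ _ _ _)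
      (Finset.mem_Ico.2 ⟨h3, by omega⟩ : z' ∈ Finset.Ico u (min N (y j + 24 * w))))
    exact Finset.single_le_sum (f := fun b₂ => Real.exp ((V u - V z) + (V b₂ - V z')))
      (fun b₂ _ => e0 _ _ _ _)
      (Finset.mem_Ico.2 ⟨h4, hmin⟩ : v ∈ Finset.Ico z' (min N (y j + 24 * w)))
  have hZ0 : ∀ x, 0 ≤ Z2 N w V x := fun x => by
    unfold Z2
    exact Finset.sum_nonneg fun _ _ => Finset.sum_nonneg fun _ _ => Finset.sum_nonneg fun _ _ =>
      Finset.sum_nonneg fun _ _ => (Real.exp_pos _).le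
  have hp0 : ∀ x, 0 ≤ p x := fun x => hG.kpos.le.trans (hG.p_ge x)
  have hq0 : ∀ x, 0 ≤ q x := fun x => hG.kpos.le.trans (hG.q_ge x)
  have ht1 : 0 ≤ τ * Real.exp (h / 2 + C₀) := mul_nonneg hτ0 (Real.exp_pos _).le
  obtain ⟨l, i, hiM, hl, hdur, hrun⟩ := macro_run (p := p) (q := q) hk hw hM y hc hp0 hq0
    (τ * Real.exp (h / 2 + C₀)) ht1 (fun j => τ * Z2 N w V (y j)) (fun j => mul_nonneg hτ0 (hZ0 _))
    δ hδ0
    (fun j hj => hbox _ _ (by have := hc.lo j hj; omega) (hyN _ (by omega))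
      (by have := hc.hi j hj; omega) _
      (hfastR _ _ (hO0 _ _ (hok j hj))))
    (fun j hj1 hj => by
      have h1 := hc.lo j (by omega)
      have h2 := hc.hi j (by omega)
      have h3 := hyN (j + 1) (by omega)
      have h4 := hc.lo (j - 1) (by omega)
      have h5 : j - 1 + 1 = j := by omega
      rw [h5] at h4
      exact hbox _ _ (by omega) (by omega) (by omega) _
        (hfastR _ _ (hOsub _ _ _ _ le_rfl (by omega)
          (hleft (y j) (y (j + 1)) (by omega) (hok j (by omega)) (by omega)))))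
    (fun j hj1 hj => by
      have h1 := hc.lo j (by omega)
      have h2 := hc.hi j (by omega)
      have h3 := hyN (j + 1) (by omega)
      have h4 := hc.lo (j - 1) (by omega)
      have h5 : j - 1 + 1 = j := by omega
      rw [h5] at h4
      exact hbox _ _ (by omega) (by omega) (by omega) _
        (hfastR _ _ (hleft (y j) (y (j + 1)) (by omega) (hok j hj) (by omega))))
    (fun j hj => by
      have h1 := hc.lo j (by omega)
      have h2 := hc.hi j (by omega)
      have h3 := hyN (j + 2) (by omega)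
      have h4 := hc.lo (j + 1) (by omega)
      have h5 := hc.hi (j + 1) (by omega)
      have h6 : y (j + 1 + 1) = y (j + 2) := rfl
      exact hbox _ _ (by omega) (by omega) (by omega) _ (hslowR j hj))
  -- final box
  have ha := hc.lo i (by omega)
  have hb := hc.lo (i + 1) (by omega)
  have ha' := hc.hi i (by omega)
  have hb' := hc.hi (i + 1) (by omega)
  have hyy : y (i + 1 + 1) = y (i + 2) := rfl
  have hfy := hyN (i + 2) (by omega)
  set A : Finset ℕ := Finset.Ico (y i) (y (i + 2) - 1) with hA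
  set tf : ℝ := τ * Z2 N w V (y i) with htf
  have htf0 : 0 ≤ tf := mul_nonneg hτ0 (hZ0 _)
  set G : Set (St N k) := {η : St N k | ht η.1 (y i) = k ∧ ht η.1 (y (i + 2)) = N - y (i + 2)}
    with hGdef
  set c : ℝ := Real.exp (-S) - Real.exp (-Λ) with hcdef
  have hc0 : 0 ≤ c := by
    have := Real.exp_le_exp.2 (neg_le_neg hS)
    linarith
  have hZ1 : 1 ≤ Z2 N w V (y i) := by
    have := hslowR i hiM (y i) (y i) (y i) (y i) le_rfl le_rfl le_rfl le_rfl (by omega)
    simpa using this
  have hfinal : ∀ η ∈ G, c ≤ sg (QA N k p q A) tf (ind {topSt N k hk}) η := by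
    intro η hη
    have h1 := box_decay (N := N) (k := k) hG (y i) (y (i + 2)) (by omega) hfy
      (Z2 N w V (y i)) (hslowR i hiM) Bd (hV _ _ hfy (by omega)) Λ tf hΛ
      (htime _ _ (by omega) (by omega) _ hZ1) {topSt N k hk} η
    have h2 := final_eq hk hk1 V (y i) (y (i + 2)) (by omega) hfy η hη.1 hη.2 S hE.fin
    have h3 : ∑ ζ, pic V (y i) (y (i + 2)) η ζ * ind {topSt N k hk} ζ
        = pic V (y i) (y (i + 2)) η (topSt N k hk) := by
      rw [Finset.sum_eq_single (topSt N k hk)]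
      · simp [ind]
      · intro ζ _ hne
        have : ind {topSt N k hk} ζ = 0 := by
          unfold ind
          rw [Set.indicator_of_notMem]
          simpa using hne
        rw [this, mul_zero]
      · intro h; exact absurd (Finset.mem_univ _) h
    rw [h3] at h1
    have h4 := (abs_le.1 h1).1
    simp only [hcdef]
    linarith
  have hrun2 : (1 - 12 * (N : ℝ) ^ 2 * δ) * c
      ≤ run (QA N k p q) (l ++ [(A, tf)]) (ind {topSt N k hk}) (botSt N k hk) := by
    rw [mac_run_append]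
    have h1 : run (QA N k p q) [(A, tf)] (ind {topSt N k hk})
        = sg (QA N k p q A) tf (ind {topSt N k hk}) := rfl
    rw [h1]
    have h2 : ∀ η, (fun η => ind G η * c) η ≤ sg (QA N k p q A) tf (ind {topSt N k hk}) η := by
      intro η
      by_cases hη : η ∈ G
      · have : ind G η = 1 := by unfold ind; rw [Set.indicator_of_mem hη]
        simp only [this, one_mul]
        exact hfinal η hη
      · have : ind G η = 0 := by unfold ind; rw [Set.indicator_of_notMem hη]
        simp only [this, zero_mul]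
        unfold QA
        refine sg_nonneg _ _ _ (fun e _ => mac_rt_nonneg hp0 hq0 e) htf0 _ (fun ζ => ?_) η
        unfold ind
        exact Set.indicator_nonneg (fun _ _ => zero_le_one) ζ
    have h3 := mac_run_mono (N := N) (k := k) hp0 hq0 l (fun e he => (hl e he).2) _ _ h2
      (botSt N k hk)
    refine le_trans ?_ h3
    have h4 : run (QA N k p q) l (fun η => ind G η * c) (botSt N k hk)
        = run (QA N k p q) l (ind G) (botSt N k hk) * c := by
      have h5 : (fun η : St N k => ind G η * c) = c • ind G := by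
        funext η; simp [mul_comm]
      rw [h5]
      have h6 : ∀ (l : List (Finset ℕ × ℝ)) (f : St N k → ℝ),
          run (QA N k p q) l (c • f) = c • run (QA N k p q) l f := by
        intro l
        induction l with
        | nil => intro f; rfl
        | cons e l ih =>
          intro f
          show sg _ _ (run (QA N k p q) l (c • f)) = c • sg _ _ (run (QA N k p q) l f)
          rw [ih, sg_fsmul]
      rw [h6]
      simp [mul_comm]
    rw [h4]
    exact mul_le_mul_of_nonneg_right hrun hc0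
  have hcens := censor_run hG hk (Finset.range (N - 1)) (l ++ [(A, tf)]) (by
    intro e he
    rcases List.mem_append.1 he with he | he
    · exact hl e he
    · rw [List.mem_singleton] at he
      subst he
      refine ⟨fun x hx => ?_, htf0⟩
      rw [hA, Finset.mem_Ico] at hx
      exact Finset.mem_range.2 (by omega)) (ind {topSt N k hk}) (by
    intro η ζ hηζ
    unfold ind
    by_cases h1 : η = topSt N k hk
    · subst h1
      have h2 : ζ = topSt N k hk := hle_antisymm (hle_top hk ζ) hηζ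
      rw [h2]
    · rw [Set.indicator_of_notMem (by simpa using h1)]
      exact Set.indicator_nonneg (fun _ _ => zero_le_one) _)
  refine ⟨dur (l ++ [(A, tf)]), ?_, ?_, hrun2.trans hcens⟩
  · refine dur_nonneg _ fun e he => ?_
    rcases List.mem_append.1 he with he | he
    · exact (hl e he).2
    · rw [List.mem_singleton] at he
      subst he
      exact htf0
  · rw [mac_dur_append]
    have h1 : dur [(A, tf)] = tf := by simp [dur]
    rw [h1]
    have hsum : ∑ j ∈ Finset.range M, Z2 N w V (y j) ≤ Sl := by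
      refine le_trans ?_ hE.slow
      have hinj : Set.InjOn y (Finset.range M : Set ℕ) := by
        intro a ha b hb hab
        rw [Finset.coe_range, Set.mem_Iio] at ha hb
        rcases Nat.lt_trichotomy a b with h | h | h
        · have := hc.mac_gap h (by omega)
          omega
        · exact h
        · have := hc.mac_gap h (by omega)
          omega
      rw [← Finset.sum_image (f := fun x => Z2 N w V x) hinj]
      refine Finset.sum_le_sum_of_subset_of_nonneg ?_ fun x _ _ => hZ0 x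
      intro x hx
      obtain ⟨j, hj, rfl⟩ := Finset.mem_image.1 hx
      rw [Finset.mem_range] at hj ⊢
      have h2 := hc.lo j hj
      have h3 := hyN (j + 1) (by omega)
      omega
    have hZi : Z2 N w V (y i) ≤ Sl :=
      (Finset.single_le_sum (f := fun j => Z2 N w V (y j)) (fun j _ => hZ0 _)
        (Finset.mem_range.2 (by omega : i < M))).trans hsum
    have h4 : ∑ j ∈ Finset.range M, τ * Z2 N w V (y j) = τ * ∑ j ∈ Finset.range M, Z2 N w V (y j) :=
      (Finset.mul_sum _ _ _).symm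
    rw [h4] at hdur
    have h5 : τ * ∑ j ∈ Finset.range M, Z2 N w V (y j) ≤ τ * Sl :=
      mul_le_mul_of_nonneg_left hsum hτ0
    have h6 : tf ≤ τ * Sl := mul_le_mul_of_nonneg_left hZi hτ0
    calc dur l + tf ≤ 6 * N * (τ * Real.exp (h / 2 + C₀)) + 2 * (τ * Sl) + τ * Sl := by linarith
      _ = _ := by ring

end Pool.Agent.EBX
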