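import Mathlib
import Pool.Agent.EBX.BoxGap
import Pool.Agent.EBX.Path2

/-!
# EBX: Poincare inequality of a closed box, only the left rates bounded below
-/

set_option autoImplicit false

open scoped Matrix

namespace Pool.Agent.EBX

theorem box_gap2 {N k : ℕ} {κ₀ : ℝ} {p q V : ℕ → ℝ} (hG : Good κ₀ p q V) (κ : ℝ) (hκ : 0 < κ)
    (hq : ∀ x, κ ≤ q x) (a b : ℕ) (hab : a < b)
    (hb : b ≤ N) (R : ℝ) (hR : Rise2 V a b R) (η₀ : St N k) (f : St N k → ℝ)
    (hf : ∑ ζ, pic V a b η₀ ζ * f ζ = 0) :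
    (κ / (((b - a : ℕ) : ℝ) ^ 5 * R)) * ∑ ζ, pic V a b η₀ ζ * f ζ ^ 2
      ≤ - pair (pic V a b η₀) f (QA N k p q (Finset.Ico a (b - 1)) *ᵥ f) := by
  set I := Finset.Ico a b with hI
  set n := (η₀.1 ∩ I).card with hn
  set P := I.powersetCard n with hP
  set O := η₀.1 \ I with hO
  set F := lft a b η₀ f with hF
  have hR1 : 1 ≤ R := by
    have := hR a a a a le_rfl le_rfl le_rfl le_rfl hab
    simpa using this
  have hR0 : 0 < R := by linarith
  have hL : (0 : ℝ) < ((b - a : ℕ) : ℝ) := by exact_mod_cast (by omega : 0 < b - a)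
  set Z₀ : ℝ := ∑ ξ ∈ P, wt V ξ with hZ₀
  have hP₀ : η₀.1 ∩ I ∈ P := by
    rw [hP, Finset.mem_powersetCard]
    exact ⟨Finset.inter_subset_right, rfl⟩
  have hZ₀pos : 0 < Z₀ := Finset.sum_pos (fun ξ _ => wt_pos V ξ) ⟨_, hP₀⟩
  have hsub : ∀ ξ ∈ P, ξ ⊆ I := fun ξ hξ => (Finset.mem_powersetCard.1 hξ).1
  have hOpos : 0 < wt V O := wt_pos V O
  have hzc : zc V a b η₀ = wt V O * Z₀ := by
    unfold zc
    rw [sum_class a b hb η₀ (fun ξ => wt V ξ.1), hZ₀, Finset.mul_sum]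
    refine Finset.sum_congr rfl fun ξ hξ => ?_
    rw [lft_eq a b hb η₀ _ ξ hξ]
    show wt V (ξ ∪ (η₀.1 \ Finset.Ico a b)) = _
    rw [wt_glue V a b η₀ ξ (hsub ξ hξ), mul_comm]
  -- transfer of sums against pic
  have htr : ∀ G : St N k → ℝ, ∑ ζ, pic V a b η₀ ζ * G ζ
      = (∑ ξ ∈ P, wt V ξ * lft a b η₀ G ξ) / Z₀ := by
    intro G
    have h1 : ∀ ζ : St N k, pic V a b η₀ ζ * G ζ
        = (if ζ.1 \ Finset.Ico a b = η₀.1 \ Finset.Ico a b then wt V ζ.1 * G ζ else 0)
          / zc V a b η₀ := by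
      intro ζ
      rw [pic_eq]
      split_ifs
      · ring
      · simp
    simp_rw [h1]
    rw [← Finset.sum_div, sum_class a b hb η₀ (fun ζ => wt V ζ.1 * G ζ), hzc]
    have h2 : ∑ ξ ∈ P, lft a b η₀ (fun ζ => wt V ζ.1 * G ζ) ξ
        = wt V O * ∑ ξ ∈ P, wt V ξ * lft a b η₀ G ξ := by
      rw [Finset.mul_sum]
      refine Finset.sum_congr rfl fun ξ hξ => ?_
      rw [lft_eq a b hb η₀ _ ξ hξ, lft_eq a b hb η₀ _ ξ hξ]
      show wt V (ξ ∪ (η₀.1 \ Finset.Ico a b)) * _ = _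
      rw [wt_glue V a b η₀ ξ (hsub ξ hξ)]
      ring
    rw [h2]
    field_simp
  have hcent : ∑ ξ ∈ P, wt V ξ * F ξ = 0 := by
    have := htr f
    rw [hf] at this
    rw [eq_comm, div_eq_zero_iff] at this
    rcases this with h | h
    · exact h
    · exact absurd h hZ₀pos.ne'
  have hsq : ∑ ζ, pic V a b η₀ ζ * f ζ ^ 2 = (∑ ξ ∈ P, wt V ξ * F ξ ^ 2) / Z₀ := by
    rw [htr (fun ζ => f ζ ^ 2)]
    congr 1
    refine Finset.sum_congr rfl fun ξ hξ => ?_
    rw [hF, lft_eq a b hb η₀ _ ξ hξ, lft_eq a b hb η₀ _ ξ hξ]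
  -- variance
  have hvar : ∑ A ∈ P, ∑ B ∈ P, wt V A * wt V B * (F A - F B) ^ 2
      = 2 * Z₀ * ∑ ξ ∈ P, wt V ξ * F ξ ^ 2 := by
    have h1 : ∀ A ∈ P, ∑ B ∈ P, wt V A * wt V B * (F A - F B) ^ 2
        = wt V A * F A ^ 2 * Z₀ + wt V A * ∑ ξ ∈ P, wt V ξ * F ξ ^ 2 := by
      intro A _
      have h2 : ∀ B ∈ P, wt V A * wt V B * (F A - F B) ^ 2
          = wt V A * F A ^ 2 * wt V B + wt V A * (wt V B * F B ^ 2)
            - 2 * wt V A * F A * (wt V B * F B) := by
        intro B _; ring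
      rw [Finset.sum_congr rfl h2, Finset.sum_sub_distrib, Finset.sum_add_distrib,
        ← Finset.mul_sum, ← Finset.mul_sum, ← Finset.mul_sum, hcent]
      ring
    rw [Finset.sum_congr rfl h1, Finset.sum_add_distrib, ← Finset.sum_mul, ← Finset.sum_mul]
    ring
  have hex := exchange_var n I (fun x => Real.exp (-V x)) (fun x _ => (Real.exp_pos _).le) F
  simp only [prod_exp_eq_wt] at hex
  rw [← hP, hvar] at hex
  have hpe := path_energy2 a b n V R hR F
  rw [← hI, ← hP] at hpe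
  have hmain : ∑ ξ ∈ P, wt V ξ * F ξ ^ 2 ≤ ((b - a : ℕ) : ℝ) ^ 5 * R * ∑ A ∈ P,
        wt V A * ∑ j ∈ Finset.Ico a (b - 1),
          if j ∈ A ∧ j + 1 ∉ A then
            Real.exp (-(V (j + 1) - V j)) * (F (exch A j (j + 1)) - F A) ^ 2 else 0 := by
    refine le_trans ?_ hpe
    have h2 : 0 < 2 * Z₀ := by positivity
    exact le_of_mul_le_mul_left hex h2
  -- Dirichlet form
  have hdir : κ * ∑ A ∈ P, wt V A * ∑ j ∈ Finset.Ico a (b - 1),
          (if j ∈ A ∧ j + 1 ∉ A then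
            Real.exp (-(V (j + 1) - V j)) * (F (exch A j (j + 1)) - F A) ^ 2 else 0)
      ≤ Z₀ * - pair (pic V a b η₀) f (QA N k p q (Finset.Ico a (b - 1)) *ᵥ f) := by
    rw [pair_pic hG]
    have h1 : ∀ j ∈ Finset.Ico a (b - 1), ∑ ζ : St N k,
        pic V a b η₀ ζ * (p j * (f (Up N k j ζ) - f ζ) ^ 2)
        = (∑ A ∈ P, wt V A * (p j *
          if j ∈ A ∧ j + 1 ∉ A then (F (exch A j (j + 1)) - F A) ^ 2 else 0)) / Z₀ := by
      intro j hj
      rw [htr (fun ζ => p j * (f (Up N k j ζ) - f ζ) ^ 2)]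
      congr 1
      refine Finset.sum_congr rfl fun A hA => ?_
      rw [lft_eq a b hb η₀ _ A hA]
      rw [Finset.mem_Ico] at hj
      have hjI : j ∈ I := Finset.mem_Ico.2 ⟨hj.1, by omega⟩
      have hj1I : j + 1 ∈ I := Finset.mem_Ico.2 ⟨by omega, by omega⟩
      have hmj : j ∈ A ∪ (η₀.1 \ Finset.Ico a b) ↔ j ∈ A := by
        rw [Finset.mem_union, Finset.mem_sdiff]
        tauto
      have hmj1 : j + 1 ∈ A ∪ (η₀.1 \ Finset.Ico a b) ↔ j + 1 ∈ A := by
        rw [Finset.mem_union, Finset.mem_sdiff]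
        tauto
      have hjN : j + 1 < N := by omega
      congr 2
      by_cases hcond : j ∈ A ∧ j + 1 ∉ A
      · rw [if_pos hcond]
        have hE : exch A j (j + 1) ∈ P := by
          rw [hP, Finset.mem_powersetCard] at hA ⊢
          have hne : j + 1 ∉ A.erase j := fun h => hcond.2 (Finset.mem_of_mem_erase h)
          refine ⟨?_, ?_⟩
          · exact Finset.insert_subset hj1I ((Finset.erase_subset _ _).trans hA.1)
          · unfold exch
            rw [Finset.card_insert_of_notMem hne, Finset.card_erase_of_mem hcond.1, hA.2]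
            have : 0 < A.card := Finset.card_pos.2 ⟨j, hcond.1⟩
            omega
        have e1 : F (exch A j (j + 1)) = f (Up N k j ⟨A ∪ (η₀.1 \ Finset.Ico a b),
            glue_mem a b hb η₀ A hA⟩) := by
          rw [hF, lft_eq a b hb η₀ _ _ hE]
          congr 1
          apply Subtype.ext
          unfold Up
          rw [dif_pos hjN]
          show exch A j (j + 1) ∪ (η₀.1 \ Finset.Ico a b) = up j (A ∪ (η₀.1 \ Finset.Ico a b))
          unfold up
          rw [if_pos ⟨hmj.2 hcond.1, fun h => hcond.2 (hmj1.1 h)⟩]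
          unfold exch
          ext u
          simp only [Finset.mem_insert, Finset.mem_erase, Finset.mem_union, Finset.mem_sdiff]
          constructor
          · rintro ((h | ⟨h1, h2⟩) | h)
            · exact Or.inl h
            · exact Or.inr ⟨h1, Or.inl h2⟩
            · refine Or.inr ⟨?_, Or.inr h⟩
              rintro rfl
              exact h.2 hjI
          · rintro (h | ⟨h1, h2 | h2⟩)
            · exact Or.inl (Or.inl h)
            · exact Or.inl (Or.inr ⟨h1, h2⟩)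
            · exact Or.inr h2
        rw [e1, hF, lft_eq a b hb η₀ _ A hA]
      · rw [if_neg hcond]
        have e1 : Up N k j ⟨A ∪ (η₀.1 \ Finset.Ico a b), glue_mem a b hb η₀ A hA⟩
            = ⟨A ∪ (η₀.1 \ Finset.Ico a b), glue_mem a b hb η₀ A hA⟩ := by
          apply Subtype.ext
          unfold Up
          rw [dif_pos hjN]
          show up j (A ∪ (η₀.1 \ Finset.Ico a b)) = _
          unfold up
          rw [if_neg]
          rw [hmj, hmj1]
          exact hcond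
        rw [e1]
        simp
    rw [Finset.sum_congr rfl h1, ← Finset.sum_div, mul_div_cancel₀ _ hZ₀pos.ne', Finset.mul_sum,
      Finset.sum_comm]
    refine Finset.sum_le_sum fun A _ => ?_
    rw [← mul_assoc, mul_comm κ, mul_assoc, ← Finset.mul_sum]
    refine mul_le_mul_of_nonneg_left ?_ (wt_pos V A).le
    rw [Finset.mul_sum]
    refine Finset.sum_le_sum fun j _ => ?_
    split_ifs
    · rw [← mul_assoc]
      refine mul_le_mul_of_nonneg_right ?_ (sq_nonneg _)
      have h2 : p j = q j * Real.exp (-(V (j + 1) - V j)) := by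
        have h3 := hG.bal j
        have h4 : Real.exp (-V j) ≠ 0 := (Real.exp_pos _).ne'
        have h5 : Real.exp (-(V (j + 1) - V j)) * Real.exp (-V j) = Real.exp (-V (j + 1)) := by
          rw [← Real.exp_add]; congr 1; ring
        apply mul_right_cancel₀ h4
        rw [h3, mul_assoc, h5]
      rw [h2]
      exact mul_le_mul_of_nonneg_right (hq j) (Real.exp_pos _).le
    · simp
  rw [hsq]
  have hLR : 0 < ((b - a : ℕ) : ℝ) ^ 5 * R := by positivity
  rw [div_mul_eq_mul_div, div_le_iff₀ hLR]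
  have h5 : κ * ∑ ξ ∈ P, wt V ξ * F ξ ^ 2 ≤ (((b - a : ℕ) : ℝ) ^ 5 * R) *
      (Z₀ * - pair (pic V a b η₀) f (QA N k p q (Finset.Ico a (b - 1)) *ᵥ f)) := by
    calc κ * ∑ ξ ∈ P, wt V ξ * F ξ ^ 2
        ≤ κ * (((b - a : ℕ) : ℝ) ^ 5 * R * ∑ A ∈ P,
          wt V A * ∑ j ∈ Finset.Ico a (b - 1),
          if j ∈ A ∧ j + 1 ∉ A then
            Real.exp (-(V (j + 1) - V j)) * (F (exch A j (j + 1)) - F A) ^ 2 else 0) :=
          mul_le_mul_of_nonneg_left hmain hκ.le
      _ = (((b - a : ℕ) : ℝ) ^ 5 * R) * (κ * ∑ A ∈ P,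
          wt V A * ∑ j ∈ Finset.Ico a (b - 1),
          if j ∈ A ∧ j + 1 ∉ A then
            Real.exp (-(V (j + 1) - V j)) * (F (exch A j (j + 1)) - F A) ^ 2 else 0) := by ring
      _ ≤ _ := mul_le_mul_of_nonneg_left hdir hLR.le
  rw [← mul_div_assoc, div_le_iff₀ hZ₀pos]
  calc κ * ∑ ξ ∈ P, wt V ξ * F ξ ^ 2 ≤ _ := h5
    _ = _ := by ring

end Pool.Agent.EBX
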