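import Mathlib
import Pool.Agent.EBX.BoxMix
import Pool.Agent.EBX.BoxGap2

/-!
# EBX: mixing of closed boxes, only the left rates bounded below
-/

set_option autoImplicit false

open scoped Matrix

namespace Pool.Agent.EBX

theorem box_decay2 {N k : ℕ} {κ₀ : ℝ} {p q V : ℕ → ℝ} (hG : Good κ₀ p q V) (κ : ℝ) (hκ : 0 < κ)
    (hq : ∀ x, κ ≤ q x) (a b : ℕ) (hab : a < b)
    (hb : b ≤ N) (R : ℝ) (hR : Rise2 V a b R) (Bd : ℝ)
    (hV : ∀ x y, a ≤ x → x < b → a ≤ y → y < b → V x - V y ≤ Bd)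
    (Λ t : ℝ) (hΛ : 0 ≤ Λ)
    (ht : ((b - a : ℕ) : ℝ) ^ 5 * R / κ * (((b - a : ℕ) : ℝ) * (Bd + 1) + Λ) ≤ t)
    (E : Set (St N k)) (η : St N k) :
    |sg (QA N k p q (Finset.Ico a (b - 1))) t (ind E) η - ∑ ζ, pic V a b η ζ * ind E ζ|
      ≤ Real.exp (-Λ) := by
  have hR1 : 1 ≤ R := by
    have := hR a a a a le_rfl le_rfl le_rfl le_rfl hab
    simpa using this
  have hR0 : 0 < R := by linarith
  have hL : (0 : ℝ) < ((b - a : ℕ) : ℝ) := by exact_mod_cast (by omega : 0 < b - a)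
  have hBd : 0 ≤ Bd := by
    have := hV a a le_rfl hab le_rfl hab
    linarith
  set L : ℝ := ((b - a : ℕ) : ℝ) with hLdef
  have hLR : 0 < L ^ 5 * R := by positivity
  set γ : ℝ := κ / (L ^ 5 * R) with hγ
  have hγ0 : 0 < γ := div_pos hκ hLR
  have hX : 0 ≤ L * (Bd + 1) + Λ := by positivity
  have ht0 : 0 ≤ t := le_trans (by positivity) ht
  have hγt : L * (Bd + 1) + Λ ≤ γ * t := by
    have h1 : γ * (L ^ 5 * R / κ * (L * (Bd + 1) + Λ)) = L * (Bd + 1) + Λ := by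
      rw [hγ]; field_simp
    rw [← h1]
    exact mul_le_mul_of_nonneg_left ht hγ0.le
  have hself := pic_self_ge V a b Bd hV hb η
  rw [← hLdef] at hself
  have hpos : 0 < pic V a b η η := lt_of_lt_of_le (Real.exp_pos _) hself
  have hrev : Rev (pic V a b η) (QA N k p q (Finset.Ico a (b - 1))) :=
    pic_rev hG a b η _ fun x hx => by
      rw [Finset.mem_Ico] at hx
      exact ⟨hx.1, by omega⟩
  have hdec := decay (pic V a b η) (pic_nonneg V a b η) (pic_sum V a b η)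
    (Finset.Ico a (b - 1) ×ˢ (Finset.univ : Finset Bool)) (rt p q) (mv N k) hrev γ
    (fun f hf => box_gap2 hG κ hκ hq a b hab hb R hR η f hf) ht0 (ind E)
    (fun i => Set.indicator_nonneg (fun _ _ => zero_le_one) i)
    (fun i => Set.indicator_le_self' (fun _ _ => zero_le_one) i |>.trans le_rfl) η hpos
  refine hdec.trans ?_
  rw [div_le_iff₀ (Real.sqrt_pos.2 hpos)]
  have hsqrt : Real.exp (-(L * (Bd + 1))) ≤ Real.sqrt (pic V a b η η) := by
    apply Real.le_sqrt_of_sq_le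
    rw [← Real.exp_nat_mul]
    refine le_trans (le_of_eq ?_) hself
    congr 1
    push_cast
    ring
  calc Real.exp (-(γ * t)) ≤ Real.exp (-(L * (Bd + 1) + Λ)) := by
        apply Real.exp_le_exp.2; linarith
    _ = Real.exp (-Λ) * Real.exp (-(L * (Bd + 1))) := by
        rw [← Real.exp_add]; congr 1; ring
    _ ≤ _ := mul_le_mul_of_nonneg_left hsqrt (Real.exp_pos _).le

theorem box_ok2 {N k : ℕ} {κ₀ : ℝ} {p q V : ℕ → ℝ} (hG : Good κ₀ p q V) (κ : ℝ) (hκ : 0 < κ)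
    (hq : ∀ x, κ ≤ q x) (w a b : ℕ) (hw : 1 ≤ w)
    (hab : a < b) (hb : b ≤ N) (R : ℝ) (hR : Rise2 V a b R) (Bd : ℝ)
    (hV : ∀ x y, a ≤ x → x < b → a ≤ y → y < b → V x - V y ≤ Bd) (e₁ : ℝ)
    (he : ∀ x y, a ≤ x → x + w ≤ y → y < b → Real.exp (V y - V x) ≤ e₁) (he0 : 0 ≤ e₁)
    (Λ t : ℝ) (hΛ : 0 ≤ Λ)
    (ht : ((b - a : ℕ) : ℝ) ^ 5 * R / κ * (((b - a : ℕ) : ℝ) * (Bd + 1) + Λ) ≤ t) :
    BoxOK N k p q w a b t (((b - a : ℕ) : ℝ) ^ 2 * e₁ + Real.exp (-Λ)) := by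
  intro A hA1 hA2 hA3 η
  rw [sg_box p q a b A hA1 hA2 hA3 hab (ind {ζ : St N k | ¬ Sorted w a b ζ.1}) ?_ t]
  · have h1 := box_decay2 hG κ hκ hq a b hab hb R hR Bd hV Λ t hΛ ht {ζ : St N k | ¬ Sorted w a b ζ.1} η
    have h2 := pic_unsorted V w a b hw e₁ he0 he hb η
    have h3 := (abs_le.1 h1).2
    linarith
  · intro η ζ h
    have h1 := sorted_congr (w := w) h
    unfold ind
    by_cases hs : Sorted w a b η.1
    · rw [Set.indicator_of_notMem, Set.indicator_of_notMem]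
      · exact fun h2 => h2 (h1.1 hs)
      · exact fun h2 => h2 hs
    · rw [Set.indicator_of_mem, Set.indicator_of_mem]
      · exact fun h2 => hs (h1.2 h2)
      · exact hs

end Pool.Agent.EBX
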