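import Mathlib
import Pool.Agent.EBX.Defs

/-!
# EBX: good environments, second version.
-/

set_option autoImplicit false

open scoped Matrix ENNReal NNReal
open MeasureTheory Filter Topology

namespace Pool.Agent.EBX

/-- The good environments, without a lower bound on the right rates. -/
structure EnvOK2 (N k w : ℕ) (V : ℕ → ℝ) (h e₁ Sl S Bd : ℝ) : Prop where
  drop : ∀ x y, x + w ≤ y → y < N → Real.exp (V y - V x) ≤ e₁
  four : ∀ a₁ b₁ a₂ b₂ a₃ b₃ a₄ b₄, a₁ ≤ b₁ → b₁ ≤ a₂ → a₂ ≤ b₂ → b₂ ≤ a₃ + 1 → a₃ ≤ b₃ →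
    b₃ ≤ a₄ → a₄ ≤ b₄ → b₄ < N → b₄ ≤ a₁ + 50 * w →
    ((V b₁ - V a₁) + (V b₂ - V a₂)) + ((V b₃ - V a₃) + (V b₄ - V a₄)) ≤ h
  first : Ok2 V 0 (min N (4 * w)) (h / 2)
  last : Ok2 V (N - 12 * w - 1) N (h / 2)
  slow : ∑ x ∈ Finset.range N, Z2 N w V x ≤ Sl
  fin : (∑ x ∈ Finset.range (N - k), Real.exp (V (N - k) - V x))
    + ∑ x ∈ Finset.Ico (N - k) N, Real.exp (V x - V (N - k)) ≤ S
  bd : ∀ x y, x < N → y < N → x ≤ y + 24 * w → y ≤ x + 24 * w → V x - V y ≤ Bd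

end Pool.Agent.EBX
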