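import Mathlib
import Pool.Agent.EBX.Defs2
import Pool.Agent.EBX.Cuts2
import Pool.Agent.EBX.BoxMix2
import Pool.Agent.EBX.Assemble

/-!
# EBX: copy of EBX/Assemble with box_decay2, box_ok2 (κ bounds the left rates only), exists_cuts2; fast boxes
R = exp(h/2) (all of them are inside [y j - 1, y (j+1)), Ok2 there), slow R = Z2, Bd from hE.bd (boxes have length ≤ 24w).
-/

set_option autoImplicit false

open scoped Matrix ENNReal NNReal
open MeasureTheory Filter Topology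

namespace Pool.Agent.EBX

theorem as2_rise {V : ℕ → ℝ} {a b : ℕ} {h : ℝ} (H : Ok2 V a b h) : Rise2 V a b (Real.exp h) := by
  intro z j z' y h1 h2 h3 h4 h5
  exact Real.exp_le_exp.2 (H z j z' y h1 h2 h3 h4 h5)

theorem as2_ok2_mono {V : ℕ → ℝ} {a b a' b' : ℕ} {h : ℝ} (ha : a ≤ a') (hb : b' ≤ b)
    (H : Ok2 V a b h) : Ok2 V a' b' h := by
  intro a₁ b₁ a₂ b₂ h1 h2 h3 h4 h5
  exact H a₁ b₁ a₂ b₂ (le_trans ha h1) h2 h3 h4 (lt_of_lt_of_le h5 hb)

theorem as2_Z2_nonneg (N w : ℕ) (V : ℕ → ℝ) (x : ℕ) : 0 ≤ Z2 N w V x := by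
  unfold Z2
  exact Finset.sum_nonneg fun _ _ => Finset.sum_nonneg fun _ _ => Finset.sum_nonneg fun _ _ =>
    Finset.sum_nonneg fun _ _ => (Real.exp_pos _).le

theorem as2_Z2_rise (N w : ℕ) (V : ℕ → ℝ) (x b : ℕ) (hb : b ≤ N) (hb' : b ≤ x + 24 * w) :
    Rise2 V x b (Z2 N w V x) := by
  intro z j z' y h1 h2 h3 h4 h5
  have hm : y < min N (x + 24 * w) := lt_min (by omega) (by omega)
  unfold Z2
  have e4 : Real.exp ((V j - V z) + (V y - V z')) ≤
      ∑ b₂ ∈ Finset.Ico z' (min N (x + 24 * w)), Real.exp ((V j - V z) + (V b₂ - V z')) :=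
    Finset.single_le_sum (f := fun b₂ => Real.exp ((V j - V z) + (V b₂ - V z')))
      (fun _ _ => (Real.exp_pos _).le) (Finset.mem_Ico.2 ⟨h4, hm⟩)
  have e3 : (∑ b₂ ∈ Finset.Ico z' (min N (x + 24 * w)), Real.exp ((V j - V z) + (V b₂ - V z')))
      ≤ ∑ a₂ ∈ Finset.Ico j (min N (x + 24 * w)), ∑ b₂ ∈ Finset.Ico a₂ (min N (x + 24 * w)),
        Real.exp ((V j - V z) + (V b₂ - V a₂)) :=
    Finset.single_le_sum (f := fun a₂ => ∑ b₂ ∈ Finset.Ico a₂ (min N (x + 24 * w)),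
        Real.exp ((V j - V z) + (V b₂ - V a₂)))
      (fun _ _ => Finset.sum_nonneg fun _ _ => (Real.exp_pos _).le)
      (Finset.mem_Ico.2 ⟨h3, lt_of_le_of_lt h4 hm⟩)
  have e2 : (∑ a₂ ∈ Finset.Ico j (min N (x + 24 * w)), ∑ b₂ ∈ Finset.Ico a₂ (min N (x + 24 * w)),
        Real.exp ((V j - V z) + (V b₂ - V a₂)))
      ≤ ∑ b₁ ∈ Finset.Ico z (min N (x + 24 * w)), ∑ a₂ ∈ Finset.Ico b₁ (min N (x + 24 * w)),
        ∑ b₂ ∈ Finset.Ico a₂ (min N (x + 24 * w)), Real.exp ((V b₁ - V z) + (V b₂ - V a₂)) :=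
    Finset.single_le_sum (f := fun b₁ => ∑ a₂ ∈ Finset.Ico b₁ (min N (x + 24 * w)),
        ∑ b₂ ∈ Finset.Ico a₂ (min N (x + 24 * w)), Real.exp ((V b₁ - V z) + (V b₂ - V a₂)))
      (fun _ _ => Finset.sum_nonneg fun _ _ => Finset.sum_nonneg fun _ _ => (Real.exp_pos _).le)
      (Finset.mem_Ico.2 ⟨h2, lt_of_le_of_lt (h3.trans h4) hm⟩)
  have e1 : (∑ b₁ ∈ Finset.Ico z (min N (x + 24 * w)),
        ∑ a₂ ∈ Finset.Ico b₁ (min N (x + 24 * w)), ∑ b₂ ∈ Finset.Ico a₂ (min N (x + 24 * w)),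
        Real.exp ((V b₁ - V z) + (V b₂ - V a₂)))
      ≤ ∑ a₁ ∈ Finset.Ico x (min N (x + 24 * w)), ∑ b₁ ∈ Finset.Ico a₁ (min N (x + 24 * w)),
        ∑ a₂ ∈ Finset.Ico b₁ (min N (x + 24 * w)), ∑ b₂ ∈ Finset.Ico a₂ (min N (x + 24 * w)),
        Real.exp ((V b₁ - V a₁) + (V b₂ - V a₂)) :=
    Finset.single_le_sum (f := fun a₁ => ∑ b₁ ∈ Finset.Ico a₁ (min N (x + 24 * w)),
        ∑ a₂ ∈ Finset.Ico b₁ (min N (x + 24 * w)), ∑ b₂ ∈ Finset.Ico a₂ (min N (x + 24 * w)),
        Real.exp ((V b₁ - V a₁) + (V b₂ - V a₂)))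
      (fun _ _ => Finset.sum_nonneg fun _ _ => Finset.sum_nonneg fun _ _ =>
        Finset.sum_nonneg fun _ _ => (Real.exp_pos _).le)
      (Finset.mem_Ico.2 ⟨h1, lt_of_le_of_lt (h2.trans (h3.trans h4)) hm⟩)
  exact e4.trans (e3.trans (e2.trans e1))

theorem as2_boxok_mono {N k w a b : ℕ} {p q : ℕ → ℝ} {t δ δ' : ℝ} (hδ : δ ≤ δ')
    (H : BoxOK N k p q w a b t δ) : BoxOK N k p q w a b t δ' :=
  fun A h1 h2 h3 η => (H A h1 h2 h3 η).trans hδ

theorem as2_run_smul {S K : Type*} [Fintype S] [DecidableEq S] (Qs : K → Matrix S S ℝ)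
    (l : List (K × ℝ)) (c : ℝ) (f : S → ℝ) : run Qs l (c • f) = c • run Qs l f := by
  induction l with
  | nil => rfl
  | cons e l ih =>
    obtain ⟨A, t⟩ := e
    simp only [run]
    rw [ih, sg_fsmul]

theorem as2_top_incr {N k : ℕ} (hk : k ≤ N) :
    Incr hle (ind ({topSt N k hk} : Set (St N k))) := by
  intro η ζ h
  by_cases hη : η = topSt N k hk
  · subst hη
    have : ζ = topSt N k hk := hle_antisymm (hle_top hk ζ) h
    rw [this]
  · unfold ind
    rw [Set.indicator_of_notMem (by simpa using hη)]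
    exact Set.indicator_nonneg (fun _ _ => zero_le_one) ζ

theorem assemble2 {N k w : ℕ} (hk : k ≤ N) (hk1 : 1 ≤ k) (hw : 1 ≤ w) (hN : 24 * w + 2 ≤ N)
    {κ₀ : ℝ} {p q V : ℕ → ℝ} (hG : Good κ₀ p q V) (κ : ℝ) (hκ : 0 < κ) (hκ1 : κ ≤ 1)
    (hq : ∀ x, κ ≤ q x) {h e₁ Sl S Bd Λ : ℝ} (hh : 0 ≤ h) (he₁ : 0 ≤ e₁) (hΛ : 0 ≤ Λ)
    (hS : S ≤ Λ) (hE : EnvOK2 N k w V h e₁ Sl S Bd) :
    let L : ℝ := 24 * w
    let τ : ℝ := L ^ 5 / κ * (L * (Bd + 1) + Λ)
    ∃ T : ℝ, 0 ≤ T ∧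
      T ≤ τ * (6 * N * Real.exp (h / 2) + 3 * Sl) ∧
      (1 - 12 * (N : ℝ) ^ 2 * (L ^ 2 * e₁ + Real.exp (-Λ))) * (Real.exp (-S) - Real.exp (-Λ))
        ≤ sg (QA N k p q (Finset.range (N - 1))) T (ind {topSt N k hk}) (botSt N k hk) := by
  intro L τ
  obtain ⟨M, y, hM2, hMN, hC, hok⟩ := exists_cuts2 N w hw hN V h hh hE.four hE.first hE.last
  have hp0 : ∀ x, 0 ≤ p x := fun x => hG.kpos.le.trans (hG.p_ge x)
  have hq0 : ∀ x, 0 ≤ q x := fun x => hG.kpos.le.trans (hG.q_ge x)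
  have hBd : 0 ≤ Bd := by
    have := hE.bd 0 0 (by omega) (by omega) (by omega) (by omega)
    linarith
  have hL1 : (1 : ℝ) ≤ L := by
    have : (1 : ℝ) ≤ w := by exact_mod_cast hw
    show (1 : ℝ) ≤ 24 * w
    linarith
  have hL0 : (0 : ℝ) ≤ L := by linarith
  have hX : 0 ≤ L * (Bd + 1) + Λ := by positivity
  have hτ : 0 ≤ τ := mul_nonneg (by positivity) hX
  -- heights of cuts
  have hylt : ∀ r s, r < s → s ≤ M → y r < y s := by
    intro r s hrs hs
    have := hC.mac_gap hrs hs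
    omega
  have hyN : ∀ s, s ≤ M → y s ≤ N := fun s hs => hC.mac_le_N hs
  -- generic box statement
  have box : ∀ a b R t, a < b → b ≤ N → b ≤ a + 24 * w → Rise2 V a b R → 0 ≤ R → τ * R ≤ t →
      BoxOK N k p q w a b t (L ^ 2 * e₁ + Real.exp (-Λ)) ∧
      (∀ (E : Set (St N k)) (η : St N k),
        |sg (QA N k p q (Finset.Ico a (b - 1))) t (ind E) η - ∑ ζ, pic V a b η ζ * ind E ζ|
        ≤ Real.exp (-Λ)) := by
    intro a b R t hab hb hbL hR hR0 ht
    have hlen : ((b - a : ℕ) : ℝ) ≤ L := by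
      have : (b - a : ℕ) ≤ 24 * w := by omega
      show ((b - a : ℕ) : ℝ) ≤ 24 * w
      exact_mod_cast this
    have hlen0 : (0 : ℝ) ≤ ((b - a : ℕ) : ℝ) := Nat.cast_nonneg _
    have hV : ∀ x z, a ≤ x → x < b → a ≤ z → z < b → V x - V z ≤ Bd := by
      intro x z h1 h2 h3 h4
      exact hE.bd x z (by omega) (by omega) (by omega) (by omega)
    have ht' : ((b - a : ℕ) : ℝ) ^ 5 * R / κ * (((b - a : ℕ) : ℝ) * (Bd + 1) + Λ) ≤ t := by
      refine le_trans ?_ ht
      have h1 : ((b - a : ℕ) : ℝ) ^ 5 ≤ L ^ 5 := pow_le_pow_left₀ hlen0 hlen 5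
      have h2 : ((b - a : ℕ) : ℝ) * (Bd + 1) + Λ ≤ L * (Bd + 1) + Λ := by
        have := mul_le_mul_of_nonneg_right hlen (by linarith : (0 : ℝ) ≤ Bd + 1)
        linarith
      have h3 : ((b - a : ℕ) : ℝ) ^ 5 * R / κ ≤ L ^ 5 * R / κ :=
        div_le_div_of_nonneg_right (mul_le_mul_of_nonneg_right h1 hR0) hκ.le
      have h4 : 0 ≤ ((b - a : ℕ) : ℝ) * (Bd + 1) + Λ := by positivity
      calc ((b - a : ℕ) : ℝ) ^ 5 * R / κ * (((b - a : ℕ) : ℝ) * (Bd + 1) + Λ)
          ≤ L ^ 5 * R / κ * (L * (Bd + 1) + Λ) :=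
            mul_le_mul h3 h2 h4 (by positivity)
        _ = τ * R := by
            show _ = L ^ 5 / κ * (L * (Bd + 1) + Λ) * R
            ring
    refine ⟨?_, fun E η => box_decay2 hG κ hκ hq a b hab hb R hR Bd hV Λ t hΛ ht' E η⟩
    have he : ∀ x z, a ≤ x → x + w ≤ z → z < b → Real.exp (V z - V x) ≤ e₁ := by
      intro x z _ h2 h3
      exact hE.drop x z h2 (by omega)
    refine as2_boxok_mono ?_ (box_ok2 hG κ hκ hq w a b hw hab hb R hR Bd hV e₁ he he₁ Λ t hΛ ht')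
    have h1 : ((b - a : ℕ) : ℝ) ^ 2 ≤ L ^ 2 := pow_le_pow_left₀ hlen0 hlen 2
    have := mul_le_mul_of_nonneg_right h1 he₁
    linarith
  have hexp0 : 0 ≤ Real.exp (h / 2) := (Real.exp_pos _).le
  set δ : ℝ := L ^ 2 * e₁ + Real.exp (-Λ) with hδ
  have hδ0 : 0 ≤ δ := by
    have := Real.exp_pos (-Λ)
    positivity
  set t₁ : ℝ := τ * Real.exp (h / 2) with ht₁
  set t₂ : ℕ → ℝ := fun j => τ * Z2 N w V (y j) with ht₂
  have ht₁0 : 0 ≤ t₁ := mul_nonneg hτ hexp0
  have ht₂0 : ∀ j, 0 ≤ t₂ j := fun j => mul_nonneg hτ (as2_Z2_nonneg N w V _)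
  have hy1 : ∀ j, 1 ≤ j → j ≤ M → 4 ≤ y j := by
    intro j hj hjM
    have h1 : y 0 + 4 * w ≤ y 1 := hC.lo 0 (by omega)
    rw [hC.y0] at h1
    rcases Nat.eq_or_lt_of_le hj with h2 | h2
    · rw [← h2]; omega
    · have := hylt 1 j h2 hjM
      omega
  have slow : ∀ j, j + 2 ≤ M → BoxOK N k p q w (y j) (y (j + 2)) (t₂ j) δ ∧
      (∀ (E : Set (St N k)) (η : St N k),
        |sg (QA N k p q (Finset.Ico (y j) (y (j + 2) - 1))) (t₂ j) (ind E) η
          - ∑ ζ, pic V (y j) (y (j + 2)) η ζ * ind E ζ| ≤ Real.exp (-Λ)) := by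
    intro j hj
    have h1 := hC.hi j (by omega)
    have h2 := hC.hi (j + 1) (by omega)
    have h3 := hyN (j + 2) hj
    have h2' : y (j + 2) ≤ y (j + 1) + 12 * w := h2
    exact box _ _ _ _ (hylt _ _ (by omega) hj) h3 (by omega)
      (as2_Z2_rise N w V (y j) (y (j + 2)) h3 (by omega)) (as2_Z2_nonneg N w V _) le_rfl
  obtain ⟨l, i, hi, hl, hdur, hrun⟩ := macro_run (N := N) (k := k) (w := w) (M := M) hk hw hM2 y hC
    hp0 hq0 t₁ ht₁0 t₂ ht₂0 δ hδ0
    (by
      intro j hj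
      have h1 := hC.hi j hj
      exact (box _ _ _ _ (hylt _ _ (by omega) (by omega)) (hyN _ (by omega)) (by omega)
        (as2_rise (as2_ok2_mono (Nat.sub_le _ _) le_rfl (hok j hj))) hexp0 le_rfl).1)
    (by
      intro j hj1 hj
      have h1 := hC.hi j (by omega)
      have h2 := hy1 j hj1 (by omega)
      have h3 := hylt j (j + 1) (by omega) (by omega)
      have h4 := hyN (j + 1) (by omega)
      exact (box _ _ _ _ (by omega) (by omega) (by omega)
        (as2_rise (as2_ok2_mono le_rfl (Nat.sub_le _ _) (hok j (by omega)))) hexp0 le_rfl).1)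
    (by
      intro j hj1 hj
      have h1 := hC.hi j (by omega)
      have h2 := hy1 j hj1 (by omega)
      have h3 := hylt j (j + 1) (by omega) (by omega)
      have h4 := hyN (j + 1) (by omega)
      exact (box _ _ _ _ (by omega) (by omega) (by omega)
        (as2_rise (hok j (by omega))) hexp0 le_rfl).1)
    (fun j hj => (slow j hj).1)
  -- the last move
  have hab : y i < y (i + 2) := hylt _ _ (by omega) hi
  have hbN : y (i + 2) ≤ N := hyN _ hi
  set Af : Finset ℕ := Finset.Ico (y i) (y (i + 2) - 1) with hAf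
  have hAfsub : Af ⊆ Finset.range (N - 1) := by
    intro x hx
    rw [hAf, Finset.mem_Ico] at hx
    rw [Finset.mem_range]
    omega
  set E : Set (St N k) := {η : St N k | ht η.1 (y i) = k ∧ ht η.1 (y (i + 2)) = N - y (i + 2)}
    with hEdef
  set c : ℝ := Real.exp (-S) - Real.exp (-Λ) with hc
  have hc0 : 0 ≤ c := by
    have := Real.exp_le_exp.2 (neg_le_neg hS)
    linarith
  have hstep : ∀ η : St N k, (c • ind E) η
      ≤ sg (QA N k p q Af) (t₂ i) (ind {topSt N k hk}) η := by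
    intro η
    rw [Pi.smul_apply, smul_eq_mul]
    by_cases hη : η ∈ E
    · have h1 : ind E η = 1 := Set.indicator_of_mem hη _
      rw [h1, mul_one]
      have h2 := (abs_le.1 ((slow i hi).2 {topSt N k hk} η)).1
      have h3 : (∑ ζ, pic V (y i) (y (i + 2)) η ζ * ind ({topSt N k hk} : Set (St N k)) ζ)
          = pic V (y i) (y (i + 2)) η (topSt N k hk) := by
        rw [Finset.sum_eq_single (topSt N k hk)]
        · unfold ind
          rw [Set.indicator_of_mem (Set.mem_singleton _), mul_one]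
        · intro ζ _ hζ
          unfold ind
          rw [Set.indicator_of_notMem (by simpa using hζ), mul_zero]
        · intro hcon
          exact absurd (Finset.mem_univ _) hcon
      rw [h3] at h2
      have h4 := final_eq hk hk1 V (y i) (y (i + 2)) hab hbN η hη.1 hη.2 S hE.fin
      rw [hc]
      linarith
    · have h1 : ind E η = 0 := Set.indicator_of_notMem hη _
      rw [h1, mul_zero]
      exact sg_nonneg _ _ _ (fun i _ => mac_rt_nonneg hp0 hq0 i) (ht₂0 i) _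
        (fun ζ => Set.indicator_nonneg (fun _ _ => zero_le_one) ζ) η
  refine ⟨dur (l ++ [(Af, t₂ i)]), ?_, ?_, ?_⟩
  · apply dur_nonneg
    intro e he
    rw [List.mem_append, List.mem_singleton] at he
    rcases he with he | he
    · exact (hl e he).2
    · rw [he]; exact ht₂0 i
  · rw [mac_dur_append]
    have h1 : dur [(Af, t₂ i)] = t₂ i := by simp [dur]
    rw [h1]
    have h2 : t₂ i ≤ ∑ j ∈ Finset.range M, t₂ j :=
      Finset.single_le_sum (f := t₂) (fun j _ => ht₂0 j) (Finset.mem_range.2 (by omega))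
    have h3 : ∑ j ∈ Finset.range M, t₂ j = τ * ∑ j ∈ Finset.range M, Z2 N w V (y j) := by
      rw [Finset.mul_sum]
    have h4 : ∑ j ∈ Finset.range M, Z2 N w V (y j) ≤ Sl := by
      refine le_trans ?_ hE.slow
      have hinj : Set.InjOn y (Finset.range M : Set ℕ) := by
        intro r hr s hs hrs
        rw [Finset.coe_range, Set.mem_Iio] at hr hs
        by_contra hne
        rcases Nat.lt_or_gt_of_ne hne with h5 | h5
        · have := hylt r s h5 (by omega)
          omega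
        · have := hylt s r h5 (by omega)
          omega
      rw [← Finset.sum_image (f := fun x => Z2 N w V x) (g := y) (s := Finset.range M)
        (fun a ha b hb hab => hinj (by simpa using ha) (by simpa using hb) hab)]
      apply Finset.sum_le_sum_of_subset_of_nonneg
      · intro x hx
        rw [Finset.mem_image] at hx
        obtain ⟨j, hj, rfl⟩ := hx
        rw [Finset.mem_range] at hj ⊢
        have h5 := hylt j M hj le_rfl
        rw [hC.yM] at h5
        exact h5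
      · intro x _ _
        exact as2_Z2_nonneg N w V x
    have h5 := mul_le_mul_of_nonneg_left h4 hτ
    have h6 : 6 * (N : ℝ) * t₁ = τ * (6 * N * Real.exp (h / 2)) := by
      rw [ht₁]; ring
    have h7 : τ * (6 * N * Real.exp (h / 2) + 3 * Sl)
        = τ * (6 * N * Real.exp (h / 2)) + 3 * (τ * Sl) := by ring
    rw [h7]
    linarith
  · have h1 := censor_run hG hk (Finset.range (N - 1)) (l ++ [(Af, t₂ i)]) (by
      intro e he
      rw [List.mem_append, List.mem_singleton] at he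
      rcases he with he | he
      · exact hl e he
      · rw [he]; exact ⟨hAfsub, ht₂0 i⟩) (ind {topSt N k hk}) (as2_top_incr hk)
    refine le_trans ?_ h1
    rw [mac_run_append]
    have h2 : run (QA N k p q) [(Af, t₂ i)] (ind {topSt N k hk})
        = sg (QA N k p q Af) (t₂ i) (ind {topSt N k hk}) := rfl
    rw [h2]
    have h3 := mac_run_mono hp0 hq0 l (fun e he => (hl e he).2) (c • ind E)
      (sg (QA N k p q Af) (t₂ i) (ind {topSt N k hk})) hstep (botSt N k hk)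
    refine le_trans ?_ h3
    rw [as2_run_smul, Pi.smul_apply, smul_eq_mul, mul_comm]
    exact mul_le_mul_of_nonneg_left hrun hc0

end Pool.Agent.EBX
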