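import Mathlib
import Pool.Agent.EBX.Asymp

/-!
# EBX: as EBX/Asymp, Bd has one more factor log N.
-/

set_option autoImplicit false

open scoped Matrix ENNReal NNReal
open MeasureTheory Filter Topology

namespace Pool.Agent.EBX

private theorem asymp_tau2 (κ C ℓ W : ℝ) (hκ : 0 < κ) (hκ1 : κ ≤ 1) (hC : 0 < C) (h1 : 1 ≤ ℓ)
    (hW0 : 0 ≤ W) (hW : W ≤ (C + 1) * ℓ) :
    (24 * W) ^ 5 / κ * ((24 * W) * (24 * W * (ℓ + Real.log (1 / κ)) + 1) + 5 * ℓ)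
      ≤ ((24 * (C + 1)) ^ 5 / κ *
          ((24 * (C + 1)) * ((24 * (C + 1)) * (1 + Real.log (1 / κ)) + 1) + 5))
        * ℓ ^ 8 := by
  have hlk : 0 ≤ Real.log (1 / κ) := by
    apply Real.log_nonneg
    rw [le_div_iff₀ hκ]; linarith
  set lk := Real.log (1 / κ) with hlkd
  set c := 24 * (C + 1) with hc
  have hc0 : 0 < c := by positivity
  set L := 24 * W with hL
  have hL0 : 0 ≤ L := by positivity
  have hLc : L ≤ c * ℓ := by rw [hL, hc]; nlinarith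
  have hℓ0 : 0 ≤ ℓ := by linarith
  have hA : L ^ 5 / κ ≤ c ^ 5 / κ * ℓ ^ 5 := by
    have : L ^ 5 ≤ (c * ℓ) ^ 5 := pow_le_pow_left₀ hL0 hLc 5
    calc L ^ 5 / κ ≤ (c * ℓ) ^ 5 / κ := by gcongr
      _ = c ^ 5 / κ * ℓ ^ 5 := by rw [mul_pow]; ring
  have hB : L * (L * (ℓ + lk) + 1) + 5 * ℓ ≤ (c * (c * (1 + lk) + 1) + 5) * ℓ ^ 3 := by
    have hℓ2 : 1 ≤ ℓ ^ 2 := by nlinarith
    have hℓ3 : ℓ ≤ ℓ ^ 3 := by nlinarith
    have h1' : ℓ + lk ≤ (1 + lk) * ℓ := by nlinarith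
    have h2 : L * (ℓ + lk) + 1 ≤ (c * (1 + lk) + 1) * ℓ ^ 2 := by
      have h21 : L * (ℓ + lk) ≤ (c * ℓ) * ((1 + lk) * ℓ) :=
        mul_le_mul hLc h1' (by positivity) (by positivity)
      nlinarith
    have h3 : L * (L * (ℓ + lk) + 1) ≤ (c * ℓ) * ((c * (1 + lk) + 1) * ℓ ^ 2) :=
      mul_le_mul hLc h2 (by positivity) (by positivity)
    nlinarith
  calc L ^ 5 / κ * (L * (L * (ℓ + lk) + 1) + 5 * ℓ)
      ≤ (c ^ 5 / κ * ℓ ^ 5) * ((c * (c * (1 + lk) + 1) + 5) * ℓ ^ 3) :=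
        mul_le_mul hA hB (by positivity) (by positivity)
    _ = c ^ 5 / κ * (c * (c * (1 + lk) + 1) + 5) * ℓ ^ 8 := by ring

private theorem asymp_delta2 (C ε ℓ W : ℝ) (hC : 0 < C) (h1 : 1 ≤ ℓ) (hε1 : ε ≤ 1)
    (hW0 : 0 ≤ W) (hW : W ≤ (C + 1) * ℓ)
    (E4 : 24 * ((24 * (C + 1) * ℓ) ^ 2 + 1) ≤ Real.exp (3 * ℓ)) :
    Real.exp (-(ε * ℓ)) / 4 ≤
      (1 - 12 * (Real.exp ℓ) ^ 2 * ((24 * W) ^ 2 * Real.exp (-5 * ℓ) + Real.exp (-(5 * ℓ))))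
        * (Real.exp (-(ε * ℓ)) - Real.exp (-(5 * ℓ))) := by
  have e1 : (Real.exp ℓ) ^ 2 = Real.exp (2 * ℓ) := by
    rw [← Real.exp_nat_mul]; norm_num
  have e2 : Real.exp (-5 * ℓ) = Real.exp (-(5 * ℓ)) := by ring_nf
  have e3 : Real.exp (2 * ℓ) * Real.exp (-(5 * ℓ)) = Real.exp (-(3 * ℓ)) := by
    rw [← Real.exp_add]; ring_nf
  have e4 : Real.exp (3 * ℓ) * Real.exp (-(3 * ℓ)) = 1 := by
    rw [← Real.exp_add]; simp
  have hLL : (24 * W) ^ 2 ≤ (24 * (C + 1) * ℓ) ^ 2 := by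
    apply pow_le_pow_left₀ (by positivity)
    nlinarith
  have hA : (1 : ℝ) / 2 ≤
      1 - 12 * (Real.exp ℓ) ^ 2 * ((24 * W) ^ 2 * Real.exp (-5 * ℓ) + Real.exp (-(5 * ℓ))) := by
    have : 12 * (Real.exp ℓ) ^ 2 * ((24 * W) ^ 2 * Real.exp (-5 * ℓ) + Real.exp (-(5 * ℓ)))
        = 12 * ((24 * W) ^ 2 + 1) * Real.exp (-(3 * ℓ)) := by
      rw [e1, e2, ← e3]; ring
    rw [this]
    have hp : 0 < Real.exp (-(3 * ℓ)) := Real.exp_pos _
    have : 24 * ((24 * W) ^ 2 + 1) * Real.exp (-(3 * ℓ)) ≤ 1 := by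
      calc 24 * ((24 * W) ^ 2 + 1) * Real.exp (-(3 * ℓ))
          ≤ Real.exp (3 * ℓ) * Real.exp (-(3 * ℓ)) := by
            apply mul_le_mul_of_nonneg_right _ hp.le
            linarith
        _ = 1 := e4
    linarith
  have hB : Real.exp (-(ε * ℓ)) / 2 ≤ Real.exp (-(ε * ℓ)) - Real.exp (-(5 * ℓ)) := by
    have h5 : Real.exp (-(5 * ℓ)) = Real.exp (-(ε * ℓ)) * Real.exp (-((5 - ε) * ℓ)) := by
      rw [← Real.exp_add]; ring_nf
    have h6 : Real.exp (-((5 - ε) * ℓ)) ≤ 1 / 2 := by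
      have h7 : Real.exp (-((5 - ε) * ℓ)) ≤ Real.exp (-1) := by
        apply Real.exp_le_exp.2
        nlinarith
      have h8 : Real.exp (-1) ≤ 1 / 2 := by
        rw [Real.exp_neg, one_div]
        apply inv_anti₀ (by norm_num)
        have := Real.add_one_le_exp (1 : ℝ)
        linarith
      linarith
    have hp : 0 < Real.exp (-(ε * ℓ)) := Real.exp_pos _
    rw [h5]
    nlinarith
  have hp : 0 < Real.exp (-(ε * ℓ)) := Real.exp_pos _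
  calc Real.exp (-(ε * ℓ)) / 4 = (1 / 2) * (Real.exp (-(ε * ℓ)) / 2) := by ring
    _ ≤ _ := mul_le_mul hA hB (by positivity) (by linarith)

private theorem asymp_core2 (κ C s ε a ℓ W : ℝ) (hκ : 0 < κ) (hκ1 : κ ≤ 1) (hC : 0 < C)
    (hs : 1 ≤ s) (hε : 0 < ε) (hε1 : ε ≤ 1) (ha : 1 + (1 + ε) / (2 * s) + 3 * ε < a)
    (h1 : 1 ≤ ℓ) (hW0 : 0 ≤ W) (hW : W ≤ (C + 1) * ℓ)
    (E2 : ((24 * (C + 1)) ^ 5 / κ *
      ((24 * (C + 1)) * ((24 * (C + 1)) * (1 + Real.log (1 / κ)) + 1) + 5)) * 9 * 9 * ℓ ^ 8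
      ≤ Real.exp (ε * ℓ))
    (δ : ℝ) (hδ : Real.exp (-(ε * ℓ)) / 4 ≤ δ) :
    (24 * W) ^ 5 / κ * ((24 * W) * (24 * W * (ℓ + Real.log (1 / κ)) + 1) + 5 * ℓ)
      * (6 * Real.exp ℓ * Real.exp ((1 + ε) / s * ℓ / 2)
        + 3 * Real.exp ((1 + ε) * ℓ)) * (2 / δ + 1) ≤ Real.exp (a * ℓ) := by
  have hτ := asymp_tau2 κ C ℓ W hκ hκ1 hC h1 hW0 hW
  have hlk : 0 ≤ Real.log (1 / κ) := by
    apply Real.log_nonneg
    rw [le_div_iff₀ hκ]; linarith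
  set c2 := (24 * (C + 1)) ^ 5 / κ *
    ((24 * (C + 1)) * ((24 * (C + 1)) * (1 + Real.log (1 / κ)) + 1) + 5) with hc2
  have hc20 : 0 ≤ c2 := by positivity
  have hℓ0 : 0 < ℓ := by linarith
  have hs0 : 0 < s := by linarith
  have hsp : 0 < (1 + ε) / (2 * s) := by positivity
  have hE1 : 6 * Real.exp ℓ * Real.exp ((1 + ε) / s * ℓ / 2)
      ≤ 6 * Real.exp ((a - 2 * ε) * ℓ) := by
    have : Real.exp ℓ * Real.exp ((1 + ε) / s * ℓ / 2) ≤ Real.exp ((a - 2 * ε) * ℓ) := by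
      rw [← Real.exp_add]
      apply Real.exp_le_exp.2
      have h9 : (1 + ε) / s * ℓ / 2 = (1 + ε) / (2 * s) * ℓ := by
        field_simp
      rw [h9]
      nlinarith
    calc 6 * Real.exp ℓ * Real.exp ((1 + ε) / s * ℓ / 2)
        = 6 * (Real.exp ℓ * Real.exp ((1 + ε) / s * ℓ / 2)) := by ring
      _ ≤ 6 * Real.exp ((a - 2 * ε) * ℓ) := by
        apply mul_le_mul_of_nonneg_left this (by norm_num)
  have hE2 : 3 * Real.exp ((1 + ε) * ℓ) ≤ 3 * Real.exp ((a - 2 * ε) * ℓ) := by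
    apply mul_le_mul_of_nonneg_left _ (by norm_num)
    apply Real.exp_le_exp.2
    nlinarith
  have hE3 : 6 * Real.exp ℓ * Real.exp ((1 + ε) / s * ℓ / 2)
        + 3 * Real.exp ((1 + ε) * ℓ) ≤ 9 * Real.exp ((a - 2 * ε) * ℓ) := by
    linarith
  have hδ0 : 0 < δ := lt_of_lt_of_le (by positivity) hδ
  have hE4 : 2 / δ + 1 ≤ 9 * Real.exp (ε * ℓ) := by
    have hx : 1 ≤ Real.exp (ε * ℓ) := by
      rw [← Real.exp_zero]
      apply Real.exp_le_exp.2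
      positivity
    have : 2 / δ ≤ 8 * Real.exp (ε * ℓ) := by
      rw [div_le_iff₀ hδ0]
      calc (2 : ℝ) = 8 * (Real.exp (ε * ℓ) * Real.exp (-(ε * ℓ))) / 4 := by
            rw [← Real.exp_add]; simp; norm_num
        _ = 8 * Real.exp (ε * ℓ) * (Real.exp (-(ε * ℓ)) / 4) := by ring
        _ ≤ 8 * Real.exp (ε * ℓ) * δ := by
            apply mul_le_mul_of_nonneg_left hδ (by positivity)
    linarith
  have hpos : 0 ≤ 6 * Real.exp ℓ * Real.exp ((1 + ε) / s * ℓ / 2)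
        + 3 * Real.exp ((1 + ε) * ℓ) := by positivity
  calc _ ≤ (c2 * ℓ ^ 8) * (9 * Real.exp ((a - 2 * ε) * ℓ)) * (9 * Real.exp (ε * ℓ)) := by
        apply mul_le_mul _ hE4 (by positivity) (by positivity)
        exact mul_le_mul hτ hE3 hpos (by positivity)
    _ = (c2 * 9 * 9 * ℓ ^ 8) * (Real.exp ((a - 2 * ε) * ℓ) * Real.exp (ε * ℓ)) := by ring
    _ ≤ Real.exp (ε * ℓ) * (Real.exp ((a - 2 * ε) * ℓ) * Real.exp (ε * ℓ)) := by
        apply mul_le_mul_of_nonneg_right E2 (by positivity)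
    _ = Real.exp (a * ℓ) := by
        rw [← Real.exp_add, ← Real.exp_add]; ring_nf

theorem asymp2 (κ : ℝ) (hκ : 0 < κ) (hκ1 : κ ≤ 1) (C : ℝ) (hC : 0 < C) (s : ℝ) (hs : 1 ≤ s)
    (ε a : ℝ) (hε : 0 < ε) (hε1 : ε ≤ 1) (ha : 1 + (1 + ε) / (2 * s) + 3 * ε < a) :
    ∀ᶠ N : ℕ in atTop,
      let w : ℕ := ⌈C * Real.log N⌉₊
      let L : ℝ := 24 * w
      let h : ℝ := (1 + ε) / s * Real.log N
      let Λ : ℝ := 5 * Real.log N
      let Bd : ℝ := 24 * w * (Real.log N + Real.log (1 / κ))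
      let τ : ℝ := L ^ 5 / κ * (L * (Bd + 1) + Λ)
      let T : ℝ := τ * (6 * N * Real.exp (h / 2) + 3 * (N : ℝ) ^ (1 + ε))
      let δ : ℝ := (1 - 12 * (N : ℝ) ^ 2 * (L ^ 2 * (N : ℝ) ^ (-(5 : ℝ)) + Real.exp (-Λ)))
        * (Real.exp (-(ε * Real.log N)) - Real.exp (-Λ))
      1 ≤ w ∧ 24 * w + 2 ≤ N ∧ 0 < δ ∧ ε * Real.log N ≤ Λ ∧ T * (2 / δ + 1) ≤ (N : ℝ) ^ a := by
  have hlog : Tendsto (fun N : ℕ => Real.log (N : ℝ)) atTop atTop :=
    Real.tendsto_log_atTop.comp tendsto_natCast_atTop_atTop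
  set c3 : ℝ := ((24 * (C + 1)) ^ 5 / κ *
      ((24 * (C + 1)) * ((24 * (C + 1)) * (1 + Real.log (1 / κ)) + 1) + 5)) * 9 * 9 with hc3
  have E2 : ∀ᶠ x : ℝ in atTop, c3 * x ^ 8 ≤ Real.exp (ε * x) := by
    have h := (isLittleO_pow_exp_pos_mul_atTop (k := 8) hε)
    have h' := h.const_mul_left c3
    filter_upwards [h'.bound (c := 1) one_pos] with x hx
    calc c3 * x ^ 8 ≤ ‖c3 * x ^ 8‖ := Real.le_norm_self _
      _ ≤ 1 * ‖Real.exp (ε * x)‖ := hx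
      _ = Real.exp (ε * x) := by rw [one_mul, Real.norm_of_nonneg (Real.exp_pos _).le]
  have E3 : ∀ᶠ x : ℝ in atTop, (24 * (C + 1) + 2) * x ≤ Real.exp x := by
    have h := (isLittleO_pow_exp_pos_mul_atTop (k := 1) (b := 1) one_pos)
    have h' := h.const_mul_left (24 * (C + 1) + 2)
    filter_upwards [h'.bound (c := 1) one_pos] with x hx
    calc (24 * (C + 1) + 2) * x = (24 * (C + 1) + 2) * x ^ 1 := by ring
      _ ≤ ‖(24 * (C + 1) + 2) * x ^ 1‖ := Real.le_norm_self _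
      _ ≤ 1 * ‖Real.exp (1 * x)‖ := hx
      _ = Real.exp x := by rw [one_mul, Real.norm_of_nonneg (Real.exp_pos _).le, one_mul]
  have E4 : ∀ᶠ x : ℝ in atTop, 24 * ((24 * (C + 1) * x) ^ 2 + 1) ≤ Real.exp (3 * x) := by
    have h := (isLittleO_pow_exp_pos_mul_atTop (k := 2) (b := 3) (by norm_num))
    have h' := h.const_mul_left (24 * ((24 * (C + 1)) ^ 2 + 1))
    filter_upwards [h'.bound (c := 1) one_pos, eventually_ge_atTop (1 : ℝ)] with x hx hx1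
    have h3 : 24 * ((24 * (C + 1)) ^ 2 + 1) * x ^ 2 ≤ Real.exp (3 * x) := by
      calc 24 * ((24 * (C + 1)) ^ 2 + 1) * x ^ 2
          ≤ ‖24 * ((24 * (C + 1)) ^ 2 + 1) * x ^ 2‖ := Real.le_norm_self _
        _ ≤ 1 * ‖Real.exp (3 * x)‖ := hx
        _ = Real.exp (3 * x) := by rw [one_mul, Real.norm_of_nonneg (Real.exp_pos _).le]
    have h4 : (1 : ℝ) ≤ x ^ 2 := by nlinarith
    nlinarith
  filter_upwards [hlog.eventually E2, hlog.eventually E3, hlog.eventually E4,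
    hlog.eventually (eventually_ge_atTop (1 : ℝ)), eventually_gt_atTop 0] with N h2 h3 h4 h1 hN0
  have hNpos : (0 : ℝ) < N := by exact_mod_cast hN0
  have hexp : Real.exp (Real.log (N : ℝ)) = N := Real.exp_log hNpos
  intro w L h Λ Bd τ T δ
  have hw1 : (w : ℝ) ≤ (C + 1) * Real.log N := by
    have := (Nat.ceil_lt_add_one (a := C * Real.log N) (by positivity)).le
    calc (w : ℝ) ≤ C * Real.log N + 1 := this
      _ ≤ (C + 1) * Real.log N := by linarith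
  have hw0 : (0 : ℝ) ≤ (w : ℝ) := Nat.cast_nonneg _
  have hδ : Real.exp (-(ε * Real.log N)) / 4 ≤ δ := by
    have := asymp_delta2 C ε (Real.log N) w hC h1 hε1 hw0 hw1 h4
    rw [hexp] at this
    have e5 : (N : ℝ) ^ (-(5 : ℝ)) = Real.exp (-5 * Real.log N) := by
      rw [Real.rpow_def_of_pos hNpos]; ring_nf
    show Real.exp (-(ε * Real.log N)) / 4 ≤
      (1 - 12 * (N : ℝ) ^ 2 * ((24 * (w : ℝ)) ^ 2 * (N : ℝ) ^ (-(5 : ℝ))
        + Real.exp (-(5 * Real.log N)))) * (Real.exp (-(ε * Real.log N))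
          - Real.exp (-(5 * Real.log N)))
    rw [e5]
    exact this
  refine ⟨?_, ?_, lt_of_lt_of_le (by positivity) hδ, ?_, ?_⟩
  · apply Nat.one_le_iff_ne_zero.2
    apply Nat.pos_iff_ne_zero.1
    apply Nat.ceil_pos.2
    positivity
  · have : (24 * (w : ℝ)) + 2 ≤ N := by
      rw [hexp] at h3
      nlinarith
    exact_mod_cast this
  · show ε * Real.log N ≤ 5 * Real.log N
    nlinarith
  · have := asymp_core2 κ C s ε a (Real.log N) w hκ hκ1 hC hs hε hε1 ha h1 hw0 hw1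
      (by rw [hc3] at h2; exact h2) δ hδ
    rw [hexp] at this
    have e6 : (N : ℝ) ^ (1 + ε) = Real.exp ((1 + ε) * Real.log N) := by
      rw [Real.rpow_def_of_pos hNpos]; ring_nf
    have e7 : (N : ℝ) ^ a = Real.exp (a * Real.log N) := by
      rw [Real.rpow_def_of_pos hNpos]; ring_nf
    show (24 * (w : ℝ)) ^ 5 / κ * ((24 * (w : ℝ)) *
        (24 * (w : ℝ) * (Real.log N + Real.log (1 / κ)) + 1) + 5 * Real.log N)
      * (6 * N * Real.exp ((1 + ε) / s * Real.log N / 2)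
        + 3 * (N : ℝ) ^ (1 + ε)) * (2 / δ + 1) ≤ (N : ℝ) ^ a
    rw [e6, e7]
    exact this

end Pool.Agent.EBX
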