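import Mathlib
import Pool.Agent.EBX.Defs

/-!
# EBX: moments of rises under the product measure. exp(θ(V y - V x)) ≤ κ⁻¹^θ ∏_{x<z<y} ρ_z^θ a.s.; coordinates of
disjoint open intervals are distinct; lintegral_fintype_prod_eq_prod or similar; a ≤ b with a = b gives factor 1.
-/

set_option autoImplicit false

open scoped Matrix ENNReal NNReal
open MeasureTheory Filter Topology

namespace Pool.Agent.EBX

/-- product moments -/
theorem moment_prod {N : ℕ} (ν : Measure ℝ) [IsProbabilityMeasure ν] (F : ℝ → ℝ≥0∞)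
    (hF : Measurable F) (X : Finset (Fin N)) :
    ∫⁻ ω, ∏ x ∈ X, F (ω x) ∂(Measure.pi fun _ : Fin N => ν) = (∫⁻ u, F u ∂ν) ^ X.card := by
  have h := ProbabilityTheory.lintegral_prod_eq_prod_lintegral_of_indepFun
    (μ := Measure.pi fun _ : Fin N => ν) X (fun (i : Fin N) (ω : Fin N → ℝ) => F (ω i))
    (ProbabilityTheory.iIndepFun_pi (μ := fun _ : Fin N => ν) (X := fun _ => F)
      (fun _ => hF.aemeasurable))
    (fun i => hF.comp (measurable_pi_apply i))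
  rw [h]
  have h2 : ∀ i : Fin N, ∫⁻ ω, F (ω i) ∂(Measure.pi fun _ : Fin N => ν) = ∫⁻ u, F u ∂ν := by
    intro i
    exact (measurePreserving_eval (fun _ : Fin N => ν) i).lintegral_comp hF
  simp only [h2, Finset.prod_const]

/-- almost surely all coordinates are in the interval -/
theorem ae_good {N : ℕ} (ν : Measure ℝ) [IsProbabilityMeasure ν] (κ : ℝ)
    (hν : ν (Set.Icc κ (1 - κ))ᶜ = 0) :
    ∀ᵐ ω ∂(Measure.pi fun _ : Fin N => ν), ∀ i : Fin N, ω i ∈ Set.Icc κ (1 - κ) := by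
  rw [ae_all_iff]
  intro i
  have h : ∀ᵐ u ∂ν, u ∈ Set.Icc κ (1 - κ) := by
    rw [ae_iff]
    exact hν
  exact (measurePreserving_eval (fun _ : Fin N => ν) i).quasiMeasurePreserving.ae h

theorem kappa_half {ν : Measure ℝ} [IsProbabilityMeasure ν] {κ : ℝ}
    (hν : ν (Set.Icc κ (1 - κ))ᶜ = 0) : κ ≤ 1 - κ := by
  by_contra h
  rw [Set.Icc_eq_empty h, Set.compl_empty, measure_univ] at hν
  exact one_ne_zero hν

theorem Vw_diff {N : ℕ} (ω : Fin N → ℝ) (κ : ℝ) (hκ : 0 < κ)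
    (hω : ∀ i : Fin N, ω i ∈ Set.Icc κ (1 - κ)) (a : ℕ) :
    ∀ b : ℕ, a + 1 ≤ b → b < N →
      Vw ω b - Vw ω a = (∑ z ∈ Finset.Ioo a b, Real.log ((1 - ext ω z) / ext ω z))
        + (Real.log (1 - ext ω b) - Real.log (ext ω a)) := by
  have he : ∀ z : ℕ, z < N → 0 < ext ω z ∧ 0 < 1 - ext ω z := by
    intro z hz
    have h1 := hω ⟨z, hz⟩
    simp only [ext, hz, dif_pos]
    constructor
    · linarith [h1.1]
    · linarith [h1.2]
  intro b hb
  induction b, hb using Nat.le_induction with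
  | base =>
    intro hN
    have h0 := he a (by omega)
    have h1 := he (a + 1) hN
    simp only [Vw, Finset.sum_range_succ, add_sub_cancel_left, qw, pw]
    rw [Real.log_div h1.2.ne' h0.1.ne']
    have : Finset.Ioo a (a + 1) = ∅ := by
      ext z; simp only [Finset.mem_Ioo, Finset.notMem_empty, iff_false]; omega
    rw [this]; simp
  | succ b hb ih =>
    intro hN
    have h0 := he b (by omega)
    have h1 := he (b + 1) hN
    have ih' := ih (by omega)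
    have e1 : Vw ω (b + 1) = Vw ω b + Real.log ((1 - ext ω (b + 1)) / ext ω b) := by
      simp only [Vw, Finset.sum_range_succ, qw, pw]
    have e2 : Finset.Ioo a (b + 1) = insert b (Finset.Ioo a b) := by
      ext z; simp only [Finset.mem_Ioo, Finset.mem_insert]; omega
    rw [e1, e2, Finset.sum_insert (by simp)]
    rw [Real.log_div h1.2.ne' h0.1.ne', Real.log_div h0.2.ne' h0.1.ne']
    linarith

/-- deterministic bound -/
theorem rise_det {N : ℕ} (ω : Fin N → ℝ) (κ θ : ℝ) (hκ : 0 < κ) (hκ1 : κ ≤ 1) (hθ : 0 < θ)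
    (hω : ∀ i : Fin N, ω i ∈ Set.Icc κ (1 - κ)) (a b : ℕ) (hab : a ≤ b) (hb : b < N) :
    Real.exp (θ * (Vw ω b - Vw ω a)) ≤
      κ⁻¹ ^ θ * ∏ z ∈ Finset.Ioo a b, ((1 - ext ω z) / ext ω z) ^ θ := by
  have he : ∀ z : ℕ, z < N → κ ≤ ext ω z ∧ κ ≤ 1 - ext ω z := by
    intro z hz
    have h1 := hω ⟨z, hz⟩
    simp only [ext, hz, dif_pos]
    constructor
    · linarith [h1.1]
    · linarith [h1.2]
  have hk : κ⁻¹ ^ θ = Real.exp (θ * (-Real.log κ)) := by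
    rw [Real.rpow_def_of_pos (inv_pos.2 hκ), Real.log_inv]
    ring_nf
  rcases Nat.eq_or_lt_of_le hab with rfl | hlt
  · simp only [sub_self, mul_zero, Real.exp_zero]
    have : Finset.Ioo a a = ∅ := by simp
    rw [this, Finset.prod_empty, mul_one]
    exact Real.one_le_rpow ((one_le_inv₀ hκ).2 hκ1) hθ.le
  · have hp : ∏ z ∈ Finset.Ioo a b, ((1 - ext ω z) / ext ω z) ^ θ
        = Real.exp (θ * ∑ z ∈ Finset.Ioo a b, Real.log ((1 - ext ω z) / ext ω z)) := by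
      rw [Finset.mul_sum, Real.exp_sum]
      apply Finset.prod_congr rfl
      intro z hz
      have hzN : z < N := by have := (Finset.mem_Ioo.1 hz).2; omega
      have h2 := he z hzN
      rw [Real.rpow_def_of_pos (div_pos (by linarith [h2.2]) (by linarith [h2.1])), mul_comm]
    rw [hp, hk, ← Real.exp_add, Real.exp_le_exp, Vw_diff ω κ hκ hω a b hlt hb, ← mul_add]
    apply mul_le_mul_of_nonneg_left _ hθ.le
    have h3 := he b hb
    have h4 := he a (by omega)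
    have h5 : Real.log (1 - ext ω b) ≤ 0 := by
      apply Real.log_nonpos
      · linarith [h3.2]
      · linarith [h3.1]
    have h6 : Real.log κ ≤ Real.log (ext ω a) := Real.log_le_log hκ h4.1
    linarith

/-- the coordinates strictly between `a` and `b` -/
def Xs (N a b : ℕ) : Finset (Fin N) := Finset.univ.filter fun z => a < z.1 ∧ z.1 < b

theorem Xs_map {N a b : ℕ} (hb : b ≤ N) :
    (Xs N a b).map Fin.valEmbedding = Finset.Ioo a b := by
  ext z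
  simp only [Xs, Finset.mem_map, Finset.mem_filter, Finset.mem_univ, true_and,
    Fin.valEmbedding_apply, Finset.mem_Ioo]
  constructor
  · rintro ⟨w, hw, rfl⟩; exact hw
  · intro hz; exact ⟨⟨z, by omega⟩, hz, rfl⟩

theorem Xs_card {N a b : ℕ} (hb : b ≤ N) : (Xs N a b).card = b - a - 1 := by
  rw [← Finset.card_map Fin.valEmbedding, Xs_map hb, Nat.card_Ioo]

theorem Xs_prod {N a b : ℕ} (hb : b ≤ N) (ω : Fin N → ℝ) (θ : ℝ) :
    ∏ z ∈ Finset.Ioo a b, ((1 - ext ω z) / ext ω z) ^ θ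
      = ∏ z ∈ Xs N a b, ((1 - ω z) / ω z) ^ θ := by
  rw [← Xs_map hb, Finset.prod_map]
  apply Finset.prod_congr rfl
  intro z _
  simp [ext, z.2]

theorem ofReal_prod_pow {N : ℕ} (ω : Fin N → ℝ) (κ θ : ℝ) (hκ : 0 < κ)
    (hω : ∀ i : Fin N, ω i ∈ Set.Icc κ (1 - κ)) (X : Finset (Fin N)) :
    ENNReal.ofReal (∏ z ∈ X, ((1 - ω z) / ω z) ^ θ)
      = ∏ z ∈ X, ENNReal.ofReal (((1 - ω z) / ω z) ^ θ) := by
  apply ENNReal.ofReal_prod_of_nonneg
  intro z _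
  have h1 := hω z
  exact Real.rpow_nonneg (div_nonneg (by linarith [h1.2]) (by linarith [h1.1])) _

theorem meas_F (θ : ℝ) : Measurable fun u : ℝ => ENNReal.ofReal (((1 - u) / u) ^ θ) := by
  apply ENNReal.measurable_ofReal.comp
  exact ((measurable_const.sub measurable_id).div measurable_id).pow_const θ

/-- one rise -/
theorem rise_one {N : ℕ} (ν : Measure ℝ) [IsProbabilityMeasure ν] (κ : ℝ) (hκ : 0 < κ)
    (hν : ν (Set.Icc κ (1 - κ))ᶜ = 0) (θ m : ℝ) (hθ : 0 < θ) (hm : 0 ≤ m)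
    (hmν : ∫⁻ u, ENNReal.ofReal (((1 - u) / u) ^ θ) ∂ν ≤ ENNReal.ofReal m)
    (x y : ℕ) (hxy : x < y) (hy : y < N) :
    ∫⁻ ω, ENNReal.ofReal (Real.exp (θ * (Vw ω y - Vw ω x)))
      ∂(Measure.pi fun _ : Fin N => ν) ≤ ENNReal.ofReal (κ⁻¹ ^ θ * m ^ (y - x - 1)) := by
  have hκ1 : κ ≤ 1 := by linarith [kappa_half hν]
  have hk : 0 ≤ κ⁻¹ ^ θ := Real.rpow_nonneg (inv_nonneg.2 hκ.le) _
  calc ∫⁻ ω, ENNReal.ofReal (Real.exp (θ * (Vw ω y - Vw ω x)))
        ∂(Measure.pi fun _ : Fin N => ν)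
      ≤ ∫⁻ ω, ENNReal.ofReal (κ⁻¹ ^ θ) * ∏ z ∈ Xs N x y, ENNReal.ofReal (((1 - ω z) / ω z) ^ θ)
        ∂(Measure.pi fun _ : Fin N => ν) := by
        apply lintegral_mono_ae
        filter_upwards [ae_good ν κ hν] with ω hω
        have h := rise_det ω κ θ hκ hκ1 hθ hω x y hxy.le hy
        rw [Xs_prod hy.le] at h
        rw [← ofReal_prod_pow ω κ θ hκ hω, ← ENNReal.ofReal_mul hk]
        exact ENNReal.ofReal_le_ofReal h
    _ = ENNReal.ofReal (κ⁻¹ ^ θ) * (∫⁻ u, ENNReal.ofReal (((1 - u) / u) ^ θ) ∂ν) ^ (y - x - 1) := by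
        rw [lintegral_const_mul, moment_prod ν _ (meas_F θ), Xs_card hy.le]
        exact Finset.measurable_prod _ fun z _ => (meas_F θ).comp (measurable_pi_apply z)
    _ ≤ ENNReal.ofReal (κ⁻¹ ^ θ) * (ENNReal.ofReal m) ^ (y - x - 1) := by
        gcongr
    _ = ENNReal.ofReal (κ⁻¹ ^ θ * m ^ (y - x - 1)) := by
        rw [ENNReal.ofReal_mul hk, ENNReal.ofReal_pow hm]

/-- four rises -/
theorem rise_four {N : ℕ} (ν : Measure ℝ) [IsProbabilityMeasure ν] (κ : ℝ) (hκ : 0 < κ)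
    (hκ1 : κ ≤ 1)
    (hν : ν (Set.Icc κ (1 - κ))ᶜ = 0) (θ : ℝ) (hθ : 0 < θ)
    (hmν : ∫⁻ u, ENNReal.ofReal (((1 - u) / u) ^ θ) ∂ν ≤ 1)
    (a₁ b₁ a₂ b₂ a₃ b₃ a₄ b₄ : ℕ) (h1 : a₁ ≤ b₁) (h2 : b₁ ≤ a₂) (h3 : a₂ ≤ b₂) (h4 : b₂ ≤ a₃)
    (h5 : a₃ ≤ b₃) (h6 : b₃ ≤ a₄) (h7 : a₄ ≤ b₄) (h8 : b₄ < N) :
    ∫⁻ ω, ENNReal.ofReal (Real.exp (θ * (((Vw ω b₁ - Vw ω a₁) + (Vw ω b₂ - Vw ω a₂))
      + ((Vw ω b₃ - Vw ω a₃) + (Vw ω b₄ - Vw ω a₄)))))
      ∂(Measure.pi fun _ : Fin N => ν) ≤ ENNReal.ofReal (κ⁻¹ ^ (4 * θ)) := by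
  have hk : 0 ≤ κ⁻¹ ^ θ := Real.rpow_nonneg (inv_nonneg.2 hκ.le) _
  have hk4 : κ⁻¹ ^ (4 * θ) = (κ⁻¹ ^ θ * κ⁻¹ ^ θ) * (κ⁻¹ ^ θ * κ⁻¹ ^ θ) := by
    have hp : 0 < κ⁻¹ := inv_pos.2 hκ
    rw [← Real.rpow_add hp, ← Real.rpow_add hp]
    ring_nf
  have hk40 : 0 ≤ κ⁻¹ ^ (4 * θ) := Real.rpow_nonneg (inv_nonneg.2 hκ.le) _
  have d1 : Disjoint (Xs N a₁ b₁) (Xs N a₂ b₂) := by
    rw [Finset.disjoint_left]; intro z hz hz'
    simp only [Xs, Finset.mem_filter, Finset.mem_univ, true_and] at hz hz'; omega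
  have d2 : Disjoint (Xs N a₃ b₃) (Xs N a₄ b₄) := by
    rw [Finset.disjoint_left]; intro z hz hz'
    simp only [Xs, Finset.mem_filter, Finset.mem_univ, true_and] at hz hz'; omega
  have d3 : Disjoint (Xs N a₁ b₁ ∪ Xs N a₂ b₂) (Xs N a₃ b₃ ∪ Xs N a₄ b₄) := by
    rw [Finset.disjoint_left]; intro z hz hz'
    simp only [Xs, Finset.mem_union, Finset.mem_filter, Finset.mem_univ, true_and] at hz hz'
    omega
  set X := (Xs N a₁ b₁ ∪ Xs N a₂ b₂) ∪ (Xs N a₃ b₃ ∪ Xs N a₄ b₄) with hX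
  calc ∫⁻ ω, ENNReal.ofReal (Real.exp (θ * (((Vw ω b₁ - Vw ω a₁) + (Vw ω b₂ - Vw ω a₂))
        + ((Vw ω b₃ - Vw ω a₃) + (Vw ω b₄ - Vw ω a₄)))))
        ∂(Measure.pi fun _ : Fin N => ν)
      ≤ ∫⁻ ω, ENNReal.ofReal (κ⁻¹ ^ (4 * θ)) * ∏ z ∈ X, ENNReal.ofReal (((1 - ω z) / ω z) ^ θ)
        ∂(Measure.pi fun _ : Fin N => ν) := by
        apply lintegral_mono_ae
        filter_upwards [ae_good ν κ hν] with ω hω
        have g1 := rise_det ω κ θ hκ hκ1 hθ hω a₁ b₁ h1 (by omega)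
        have g2 := rise_det ω κ θ hκ hκ1 hθ hω a₂ b₂ h3 (by omega)
        have g3 := rise_det ω κ θ hκ hκ1 hθ hω a₃ b₃ h5 (by omega)
        have g4 := rise_det ω κ θ hκ hκ1 hθ hω a₄ b₄ h7 (by omega)
        rw [Xs_prod (by omega)] at g1 g2 g3 g4
        rw [← ofReal_prod_pow ω κ θ hκ hω, ← ENNReal.ofReal_mul hk40]
        apply ENNReal.ofReal_le_ofReal
        have e : Real.exp (θ * (((Vw ω b₁ - Vw ω a₁) + (Vw ω b₂ - Vw ω a₂))
            + ((Vw ω b₃ - Vw ω a₃) + (Vw ω b₄ - Vw ω a₄))))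
            = (Real.exp (θ * (Vw ω b₁ - Vw ω a₁)) * Real.exp (θ * (Vw ω b₂ - Vw ω a₂)))
              * (Real.exp (θ * (Vw ω b₃ - Vw ω a₃)) * Real.exp (θ * (Vw ω b₄ - Vw ω a₄))) := by
          rw [← Real.exp_add, ← Real.exp_add, ← Real.exp_add]
          ring_nf
        have hnn : ∀ Y : Finset (Fin N), 0 ≤ ∏ z ∈ Y, ((1 - ω z) / ω z) ^ θ := by
          intro Y
          apply Finset.prod_nonneg
          intro z _
          have hz := hω z
          exact Real.rpow_nonneg (div_nonneg (by linarith [hz.2]) (by linarith [hz.1])) _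
        rw [e, hX, Finset.prod_union d3, Finset.prod_union d1, Finset.prod_union d2, hk4]
        have m12 := mul_le_mul g1 g2 (Real.exp_pos _).le (mul_nonneg hk (hnn _))
        have m34 := mul_le_mul g3 g4 (Real.exp_pos _).le (mul_nonneg hk (hnn _))
        have m := mul_le_mul m12 m34 (mul_nonneg (Real.exp_pos _).le (Real.exp_pos _).le)
          (mul_nonneg (mul_nonneg hk (hnn _)) (mul_nonneg hk (hnn _)))
        calc _ ≤ _ := m
          _ = _ := by ring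
    _ = ENNReal.ofReal (κ⁻¹ ^ (4 * θ))
          * (∫⁻ u, ENNReal.ofReal (((1 - u) / u) ^ θ) ∂ν) ^ X.card := by
        rw [lintegral_const_mul, moment_prod ν _ (meas_F θ)]
        exact Finset.measurable_prod _ fun z _ => (meas_F θ).comp (measurable_pi_apply z)
    _ ≤ ENNReal.ofReal (κ⁻¹ ^ (4 * θ)) * 1 := by
        gcongr
        exact pow_le_one₀ (bot_le) hmν
    _ = ENNReal.ofReal (κ⁻¹ ^ (4 * θ)) := mul_one _

end Pool.Agent.EBX
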