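import Mathlib
import Pool.Agent.EBX.EnvMoments

/-!
# EBX: union bounds with Markov: drop (θ=1, geometric m^(w-1), C large), four (θ=s, N(50w+1)^7 tuples, h=(1+ε)/s log N),
first/last (θ=s, (12w)^4 tuples), slow (E Z2 ≤ (24w)^4 κ⁻², Markov), fin (expectation ≤ const, Markov with ε log N).
Split the event into its six parts; each has probability → 0; finite union.
-/

set_option autoImplicit false

open scoped Matrix ENNReal NNReal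
open MeasureTheory Filter Topology

namespace Pool.Agent.EBX

namespace EnvGoodAux

theorem meas_ext {N : ℕ} (x : ℕ) : Measurable fun ω : Fin N → ℝ => ext ω x := by
  by_cases h : x < N
  · simp only [ext, h, dif_pos]
    exact measurable_pi_apply _
  · simp only [ext, h, dif_neg, not_false_iff]
    exact measurable_const

theorem meas_Vw {N : ℕ} (x : ℕ) : Measurable fun ω : Fin N → ℝ => Vw ω x := by
  unfold Vw
  refine Finset.measurable_sum _ fun i _ => ?_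
  refine Real.measurable_log.comp ?_
  unfold qw pw
  exact (measurable_const.sub (meas_ext (i + 1))).div (meas_ext i)

theorem mark {Ω : Type*} [MeasurableSpace Ω] (μ : Measure Ω) (g : Ω → ℝ) (hg : Measurable g)
    (c B : ℝ) (hc : 0 < c) (hB : ∫⁻ ω, ENNReal.ofReal (g ω) ∂μ ≤ ENNReal.ofReal B) :
    μ {ω | c < g ω} ≤ ENNReal.ofReal (c⁻¹ * B) := by
  have h1 : ENNReal.ofReal c * μ {ω | ENNReal.ofReal c ≤ ENNReal.ofReal (g ω)}
      ≤ ∫⁻ ω, ENNReal.ofReal (g ω) ∂μ :=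
    mul_meas_ge_le_lintegral (ENNReal.measurable_ofReal.comp hg) _
  have h2 : μ {ω | c < g ω} ≤ μ {ω | ENNReal.ofReal c ≤ ENNReal.ofReal (g ω)} := by
    apply measure_mono
    intro ω hω
    exact ENNReal.ofReal_le_ofReal (le_of_lt hω)
  calc μ {ω | c < g ω} = ENNReal.ofReal c⁻¹ * (ENNReal.ofReal c * μ {ω | c < g ω}) := by
        rw [← mul_assoc, ← ENNReal.ofReal_mul (by positivity), inv_mul_cancel₀ hc.ne']
        simp
    _ ≤ ENNReal.ofReal c⁻¹ * ENNReal.ofReal B := by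
        gcongr
        exact le_trans (by gcongr) (h1.trans hB)
    _ = ENNReal.ofReal (c⁻¹ * B) := (ENNReal.ofReal_mul (by positivity)).symm

theorem chern {Ω : Type*} [MeasurableSpace Ω] (μ : Measure Ω) (f : Ω → ℝ) (hf : Measurable f)
    (θ c B : ℝ) (hθ : 0 < θ)
    (hB : ∫⁻ ω, ENNReal.ofReal (Real.exp (θ * f ω)) ∂μ ≤ ENNReal.ofReal B) :
    μ {ω | c < f ω} ≤ ENNReal.ofReal (Real.exp (-(θ * c)) * B) := by
  have h := mark μ (fun ω => Real.exp (θ * f ω))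
    (Real.measurable_exp.comp (measurable_const.mul hf)) (Real.exp (θ * c)) B (Real.exp_pos _) hB
  rw [← Real.exp_neg] at h
  refine le_trans (measure_mono ?_) h
  intro ω hω
  exact Real.exp_lt_exp.2 (mul_lt_mul_of_pos_left hω hθ)

theorem union_bd {ι Ω : Type*} [MeasurableSpace Ω] (μ : Measure Ω) (s : Finset ι)
    (S : ι → Set Ω) (b : ℝ) (h : ∀ i ∈ s, μ (S i) ≤ ENNReal.ofReal b) (E : Set Ω)
    (hE : ∀ ω ∈ E, ∃ i ∈ s, ω ∈ S i) : μ E ≤ ENNReal.ofReal ((s.card : ℝ) * b) := by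
  calc μ E ≤ μ (⋃ i ∈ s, S i) := by
        apply measure_mono
        intro ω hω
        obtain ⟨i, hi, h'⟩ := hE ω hω
        exact Set.mem_biUnion hi h'
    _ ≤ ∑ i ∈ s, μ (S i) := measure_biUnion_finset_le _ _
    _ ≤ ∑ i ∈ s, ENNReal.ofReal b := Finset.sum_le_sum h
    _ = ENNReal.ofReal ((s.card : ℝ) * b) := by
        rw [Finset.sum_const, nsmul_eq_mul, ENNReal.ofReal_mul (by positivity),
          ENNReal.ofReal_natCast]

/-- two rises, from the four rises bound -/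
theorem rise_two {N : ℕ} (ν : Measure ℝ) [IsProbabilityMeasure ν] (κ : ℝ) (hκ : 0 < κ)
    (hκ1 : κ ≤ 1)
    (hν : ν (Set.Icc κ (1 - κ))ᶜ = 0) (θ : ℝ) (hθ : 0 < θ)
    (hmν : ∫⁻ u, ENNReal.ofReal (((1 - u) / u) ^ θ) ∂ν ≤ 1)
    (a₁ b₁ a₂ b₂ : ℕ) (h1 : a₁ ≤ b₁) (h2 : b₁ ≤ a₂) (h3 : a₂ ≤ b₂) (h8 : b₂ < N) :
    ∫⁻ ω, ENNReal.ofReal (Real.exp (θ * ((Vw ω b₁ - Vw ω a₁) + (Vw ω b₂ - Vw ω a₂))))
      ∂(Measure.pi fun _ : Fin N => ν) ≤ ENNReal.ofReal (κ⁻¹ ^ (4 * θ)) := by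
  have h := rise_four (N := N) ν κ hκ hκ1 hν θ hθ hmν a₁ b₁ a₂ b₂ b₂ b₂ b₂ b₂ h1 h2 h3 le_rfl
    le_rfl le_rfl le_rfl h8
  simpa using h

/-! ### probabilities -/

theorem p_range {N : ℕ} (ν : Measure ℝ) [IsProbabilityMeasure ν] (κ : ℝ)
    (hν : ν (Set.Icc κ (1 - κ))ᶜ = 0) :
    (Measure.pi fun _ : Fin N => ν) {ω | ¬ ∀ x, ω x ∈ Set.Icc κ (1 - κ)} = 0 := by
  have h : ∀ᵐ ω ∂(Measure.pi fun _ : Fin N => ν), ∀ x, ω x ∈ Set.Icc κ (1 - κ) := by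
    rw [ae_all_iff]
    intro x
    have h1 : ∀ᵐ u ∂ν, u ∈ Set.Icc κ (1 - κ) := by
      rw [ae_iff]
      exact hν
    exact (Measure.quasiMeasurePreserving_eval (μ := fun _ : Fin N => ν) x).ae h1
  exact ae_iff.1 h

theorem p_drop {N : ℕ} (ν : Measure ℝ) [IsProbabilityMeasure ν] (κ : ℝ) (hκ : 0 < κ)
    (hν : ν (Set.Icc κ (1 - κ))ᶜ = 0) (m : ℝ) (hm : 0 < m) (hm1 : m < 1)
    (hmν : ∫⁻ u, ENNReal.ofReal ((1 - u) / u) ∂ν ≤ ENNReal.ofReal m) (w : ℕ) (hw : 1 ≤ w)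
    (c : ℝ) :
    (Measure.pi fun _ : Fin N => ν)
        {ω | ∃ x y, x + w ≤ y ∧ y < N ∧ -c < Vw ω y - Vw ω x}
      ≤ ENNReal.ofReal ((N : ℝ) * N * (Real.exp c * (κ⁻¹ * m ^ (w - 1)))) := by
  have h := union_bd (Measure.pi fun _ : Fin N => ν)
    ((Finset.range N) ×ˢ (Finset.range N))
    (fun t => {ω : Fin N → ℝ | t.1 + w ≤ t.2 ∧ -c < Vw ω t.2 - Vw ω t.1})
    (Real.exp c * (κ⁻¹ * m ^ (w - 1))) ?_
    {ω | ∃ x y, x + w ≤ y ∧ y < N ∧ -c < Vw ω y - Vw ω x} ?_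
  · simpa using h
  · rintro ⟨x, y⟩ hxy
    simp only [Finset.mem_product, Finset.mem_range] at hxy
    by_cases hc : x + w ≤ y
    · have h1 := chern (Measure.pi fun _ : Fin N => ν) (fun ω => Vw ω y - Vw ω x)
        ((meas_Vw y).sub (meas_Vw x)) 1 (-c) (κ⁻¹ ^ (1 : ℝ) * m ^ (y - x - 1)) one_pos
        (rise_one ν κ hκ hν 1 m one_pos hm.le (by simpa using hmν) x y (by omega) hxy.2)
      have h2 : {ω : Fin N → ℝ | x + w ≤ y ∧ -c < Vw ω y - Vw ω x}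
          ⊆ {ω | -c < Vw ω y - Vw ω x} := fun ω hω => hω.2
      refine (measure_mono h2).trans (h1.trans ?_)
      apply ENNReal.ofReal_le_ofReal
      rw [Real.rpow_one, one_mul, neg_neg]
      gcongr ?_ * (?_ * ?_)
      exact pow_le_pow_of_le_one hm.le hm1.le (by omega)
    · have : {ω : Fin N → ℝ | x + w ≤ y ∧ -c < Vw ω y - Vw ω x} = ∅ := by
        ext ω
        simp [hc]
      rw [this]
      simp
  · rintro ω ⟨x, y, h1, h2, h3⟩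
    exact ⟨(x, y), by simp only [Finset.mem_product, Finset.mem_range]; omega, h1, h3⟩

theorem p_four {N : ℕ} (ν : Measure ℝ) [IsProbabilityMeasure ν] (κ : ℝ) (hκ : 0 < κ)
    (hκ1 : κ ≤ 1)
    (hν : ν (Set.Icc κ (1 - κ))ᶜ = 0) (s : ℝ) (hs : 0 < s)
    (hmν : ∫⁻ u, ENNReal.ofReal (((1 - u) / u) ^ s) ∂ν ≤ 1) (w : ℕ) (h : ℝ) :
    (Measure.pi fun _ : Fin N => ν)
        {ω | ∃ a₁ b₁ a₂ b₂ a₃ b₃ a₄ b₄, a₁ ≤ b₁ ∧ b₁ ≤ a₂ ∧ a₂ ≤ b₂ ∧ b₂ ≤ a₃ ∧ a₃ ≤ b₃ ∧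
          b₃ ≤ a₄ ∧ a₄ ≤ b₄ ∧ b₄ < N ∧ b₄ ≤ a₁ + 50 * w ∧
          h < ((Vw ω b₁ - Vw ω a₁) + (Vw ω b₂ - Vw ω a₂))
            + ((Vw ω b₃ - Vw ω a₃) + (Vw ω b₄ - Vw ω a₄))}
      ≤ ENNReal.ofReal ((N : ℝ) * (50 * (w : ℝ) + 1) ^ 7
          * (Real.exp (-(s * h)) * κ⁻¹ ^ (4 * s))) := by
  have key := union_bd (Measure.pi fun _ : Fin N => ν)
    ((Finset.range N) ×ˢ (Fintype.piFinset (fun _ : Fin 7 => Finset.range (50 * w + 1))))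
    (fun t => {ω : Fin N → ℝ |
      (t.1 ≤ t.1 + t.2 0 ∧ t.1 + t.2 0 ≤ t.1 + t.2 1 ∧ t.1 + t.2 1 ≤ t.1 + t.2 2 ∧
        t.1 + t.2 2 ≤ t.1 + t.2 3 ∧ t.1 + t.2 3 ≤ t.1 + t.2 4 ∧ t.1 + t.2 4 ≤ t.1 + t.2 5 ∧
        t.1 + t.2 5 ≤ t.1 + t.2 6 ∧ t.1 + t.2 6 < N) ∧
      h < ((Vw ω (t.1 + t.2 0) - Vw ω t.1) + (Vw ω (t.1 + t.2 2) - Vw ω (t.1 + t.2 1)))
        + ((Vw ω (t.1 + t.2 4) - Vw ω (t.1 + t.2 3))
          + (Vw ω (t.1 + t.2 6) - Vw ω (t.1 + t.2 5)))})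
    (Real.exp (-(s * h)) * κ⁻¹ ^ (4 * s)) ?_
    {ω | ∃ a₁ b₁ a₂ b₂ a₃ b₃ a₄ b₄, a₁ ≤ b₁ ∧ b₁ ≤ a₂ ∧ a₂ ≤ b₂ ∧ b₂ ≤ a₃ ∧ a₃ ≤ b₃ ∧
          b₃ ≤ a₄ ∧ a₄ ≤ b₄ ∧ b₄ < N ∧ b₄ ≤ a₁ + 50 * w ∧
          h < ((Vw ω b₁ - Vw ω a₁) + (Vw ω b₂ - Vw ω a₂))
            + ((Vw ω b₃ - Vw ω a₃) + (Vw ω b₄ - Vw ω a₄))} ?_
  · refine key.trans (le_of_eq ?_)
    congr 2
    rw [Finset.card_product, Finset.card_range, Fintype.card_piFinset]
    simp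
  · rintro ⟨a, d⟩ -
    by_cases hc : (a ≤ a + d 0 ∧ a + d 0 ≤ a + d 1 ∧ a + d 1 ≤ a + d 2 ∧
        a + d 2 ≤ a + d 3 ∧ a + d 3 ≤ a + d 4 ∧ a + d 4 ≤ a + d 5 ∧
        a + d 5 ≤ a + d 6 ∧ a + d 6 < N)
    · obtain ⟨c1, c2, c3, c4, c5, c6, c7, c8⟩ := hc
      have h1 := chern (Measure.pi fun _ : Fin N => ν)
        (fun ω => ((Vw ω (a + d 0) - Vw ω a) + (Vw ω (a + d 2) - Vw ω (a + d 1)))
          + ((Vw ω (a + d 4) - Vw ω (a + d 3)) + (Vw ω (a + d 6) - Vw ω (a + d 5))))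
        ((((meas_Vw _).sub (meas_Vw _)).add ((meas_Vw _).sub (meas_Vw _))).add
          (((meas_Vw _).sub (meas_Vw _)).add ((meas_Vw _).sub (meas_Vw _)))) s h
        (κ⁻¹ ^ (4 * s)) hs
        (rise_four ν κ hκ hκ1 hν s hs hmν a (a + d 0) (a + d 1) (a + d 2) (a + d 3) (a + d 4)
          (a + d 5) (a + d 6) c1 c2 c3 c4 c5 c6 c7 c8)
      refine le_trans (measure_mono ?_) h1
      exact fun ω hω => hω.2
    · refine le_trans (le_of_eq ?_) zero_le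
      have : {ω : Fin N → ℝ |
          (a ≤ a + d 0 ∧ a + d 0 ≤ a + d 1 ∧ a + d 1 ≤ a + d 2 ∧
            a + d 2 ≤ a + d 3 ∧ a + d 3 ≤ a + d 4 ∧ a + d 4 ≤ a + d 5 ∧
            a + d 5 ≤ a + d 6 ∧ a + d 6 < N) ∧
          h < ((Vw ω (a + d 0) - Vw ω a) + (Vw ω (a + d 2) - Vw ω (a + d 1)))
            + ((Vw ω (a + d 4) - Vw ω (a + d 3))
              + (Vw ω (a + d 6) - Vw ω (a + d 5)))} = ∅ :=
        Set.eq_empty_of_forall_notMem fun ω hω => hc hω.1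
      exact (congrArg _ this).trans measure_empty
  · rintro ω ⟨a₁, b₁, a₂, b₂, a₃, b₃, a₄, b₄, c1, c2, c3, c4, c5, c6, c7, c8, c9, hlt⟩
    refine ⟨(a₁, ![b₁ - a₁, a₂ - a₁, b₂ - a₁, a₃ - a₁, b₃ - a₁, a₄ - a₁, b₄ - a₁]), ?_, ?_⟩
    · simp only [Finset.mem_product, Finset.mem_range, Fintype.mem_piFinset]
      refine ⟨by omega, ?_⟩
      intro i
      fin_cases i <;> simp <;> omega
    · have e1 : a₁ + (b₁ - a₁) = b₁ := by omega
      have e2 : a₁ + (a₂ - a₁) = a₂ := by omega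
      have e3 : a₁ + (b₂ - a₁) = b₂ := by omega
      have e4 : a₁ + (a₃ - a₁) = a₃ := by omega
      have e5 : a₁ + (b₃ - a₁) = b₃ := by omega
      have e6 : a₁ + (a₄ - a₁) = a₄ := by omega
      have e7 : a₁ + (b₄ - a₁) = b₄ := by omega
      have f0 : (![b₁ - a₁, a₂ - a₁, b₂ - a₁, a₃ - a₁, b₃ - a₁, a₄ - a₁, b₄ - a₁] : Fin 7 → ℕ) 0
          = b₁ - a₁ := rfl
      have f1 : (![b₁ - a₁, a₂ - a₁, b₂ - a₁, a₃ - a₁, b₃ - a₁, a₄ - a₁, b₄ - a₁] : Fin 7 → ℕ) 1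
          = a₂ - a₁ := rfl
      have f2 : (![b₁ - a₁, a₂ - a₁, b₂ - a₁, a₃ - a₁, b₃ - a₁, a₄ - a₁, b₄ - a₁] : Fin 7 → ℕ) 2
          = b₂ - a₁ := rfl
      have f3 : (![b₁ - a₁, a₂ - a₁, b₂ - a₁, a₃ - a₁, b₃ - a₁, a₄ - a₁, b₄ - a₁] : Fin 7 → ℕ) 3
          = a₃ - a₁ := rfl
      have f4 : (![b₁ - a₁, a₂ - a₁, b₂ - a₁, a₃ - a₁, b₃ - a₁, a₄ - a₁, b₄ - a₁] : Fin 7 → ℕ) 4
          = b₃ - a₁ := rfl
      have f5 : (![b₁ - a₁, a₂ - a₁, b₂ - a₁, a₃ - a₁, b₃ - a₁, a₄ - a₁, b₄ - a₁] : Fin 7 → ℕ) 5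
          = a₄ - a₁ := rfl
      have f6 : (![b₁ - a₁, a₂ - a₁, b₂ - a₁, a₃ - a₁, b₃ - a₁, a₄ - a₁, b₄ - a₁] : Fin 7 → ℕ) 6
          = b₄ - a₁ := rfl
      simp only [Set.mem_ofPred_eq, f0, f1, f2, f3, f4, f5, f6, e1, e2, e3, e4, e5, e6, e7]
      exact ⟨⟨by omega, by omega, by omega, by omega, by omega, by omega, by omega, by omega⟩,
        hlt⟩

/-- two rises in a window of `n` sites starting at `a` -/
theorem p_two {N : ℕ} (ν : Measure ℝ) [IsProbabilityMeasure ν] (κ : ℝ) (hκ : 0 < κ)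
    (hκ1 : κ ≤ 1)
    (hν : ν (Set.Icc κ (1 - κ))ᶜ = 0) (s : ℝ) (hs : 0 < s)
    (hmν : ∫⁻ u, ENNReal.ofReal (((1 - u) / u) ^ s) ∂ν ≤ 1) (a n : ℕ) (h : ℝ) :
    (Measure.pi fun _ : Fin N => ν)
        {ω | ∃ a₁ b₁ a₂ b₂, a ≤ a₁ ∧ a₁ ≤ b₁ ∧ b₁ ≤ a₂ ∧ a₂ ≤ b₂ ∧ b₂ < N ∧ b₂ < a + n ∧
          h < (Vw ω b₁ - Vw ω a₁) + (Vw ω b₂ - Vw ω a₂)}
      ≤ ENNReal.ofReal ((n : ℝ) ^ 4 * (Real.exp (-(s * h)) * κ⁻¹ ^ (4 * s))) := by
  have key := union_bd (Measure.pi fun _ : Fin N => ν)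
    (Fintype.piFinset (fun _ : Fin 4 => Finset.range n))
    (fun t => {ω : Fin N → ℝ |
      (a + t 0 ≤ a + t 1 ∧ a + t 1 ≤ a + t 2 ∧ a + t 2 ≤ a + t 3 ∧ a + t 3 < N) ∧
      h < (Vw ω (a + t 1) - Vw ω (a + t 0)) + (Vw ω (a + t 3) - Vw ω (a + t 2))})
    (Real.exp (-(s * h)) * κ⁻¹ ^ (4 * s)) ?_
    {ω | ∃ a₁ b₁ a₂ b₂, a ≤ a₁ ∧ a₁ ≤ b₁ ∧ b₁ ≤ a₂ ∧ a₂ ≤ b₂ ∧ b₂ < N ∧ b₂ < a + n ∧
          h < (Vw ω b₁ - Vw ω a₁) + (Vw ω b₂ - Vw ω a₂)} ?_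
  · refine key.trans (le_of_eq ?_)
    congr 2
    rw [Fintype.card_piFinset]
    simp
  · rintro d -
    by_cases hc : (a + d 0 ≤ a + d 1 ∧ a + d 1 ≤ a + d 2 ∧ a + d 2 ≤ a + d 3 ∧ a + d 3 < N)
    · obtain ⟨c1, c2, c3, c4⟩ := hc
      have h1 := chern (Measure.pi fun _ : Fin N => ν)
        (fun ω => (Vw ω (a + d 1) - Vw ω (a + d 0)) + (Vw ω (a + d 3) - Vw ω (a + d 2)))
        (((meas_Vw _).sub (meas_Vw _)).add ((meas_Vw _).sub (meas_Vw _))) s h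
        (κ⁻¹ ^ (4 * s)) hs
        (rise_two ν κ hκ hκ1 hν s hs hmν (a + d 0) (a + d 1) (a + d 2) (a + d 3) c1 c2 c3 c4)
      refine le_trans (measure_mono ?_) h1
      exact fun ω hω => hω.2
    · refine le_trans (le_of_eq ?_) zero_le
      have : {ω : Fin N → ℝ |
          (a + d 0 ≤ a + d 1 ∧ a + d 1 ≤ a + d 2 ∧ a + d 2 ≤ a + d 3 ∧ a + d 3 < N) ∧
          h < (Vw ω (a + d 1) - Vw ω (a + d 0)) + (Vw ω (a + d 3) - Vw ω (a + d 2))} = ∅ :=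
        Set.eq_empty_of_forall_notMem fun ω hω => hc hω.1
      exact (congrArg _ this).trans measure_empty
  · rintro ω ⟨a₁, b₁, a₂, b₂, c0, c1, c2, c3, c4, c5, hlt⟩
    refine ⟨![a₁ - a, b₁ - a, a₂ - a, b₂ - a], ?_, ?_⟩
    · simp only [Finset.mem_range, Fintype.mem_piFinset]
      intro i
      fin_cases i <;> simp <;> omega
    · have e0 : a + (a₁ - a) = a₁ := by omega
      have e1 : a + (b₁ - a) = b₁ := by omega
      have e2 : a + (a₂ - a) = a₂ := by omega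
      have e3 : a + (b₂ - a) = b₂ := by omega
      have f0 : (![a₁ - a, b₁ - a, a₂ - a, b₂ - a] : Fin 4 → ℕ) 0 = a₁ - a := rfl
      have f1 : (![a₁ - a, b₁ - a, a₂ - a, b₂ - a] : Fin 4 → ℕ) 1 = b₁ - a := rfl
      have f2 : (![a₁ - a, b₁ - a, a₂ - a, b₂ - a] : Fin 4 → ℕ) 2 = a₂ - a := rfl
      have f3 : (![a₁ - a, b₁ - a, a₂ - a, b₂ - a] : Fin 4 → ℕ) 3 = b₂ - a := rfl
      simp only [Set.mem_ofPred_eq, f0, f1, f2, f3, e0, e1, e2, e3]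
      exact ⟨⟨by omega, by omega, by omega, by omega⟩, hlt⟩

theorem sum_bd {ι Ω : Type*} [MeasurableSpace Ω] (μ : Measure Ω) (s : Finset ι)
    (g : ι → Ω → ℝ) (hg : ∀ i ∈ s, Measurable (g i)) (h0 : ∀ i ∈ s, ∀ ω, 0 ≤ g i ω)
    (b n : ℝ) (hb : 0 ≤ b) (hn : (s.card : ℝ) ≤ n)
    (h : ∀ i ∈ s, ∫⁻ ω, ENNReal.ofReal (g i ω) ∂μ ≤ ENNReal.ofReal b) :
    ∫⁻ ω, ENNReal.ofReal (∑ i ∈ s, g i ω) ∂μ ≤ ENNReal.ofReal (n * b) := by
  calc ∫⁻ ω, ENNReal.ofReal (∑ i ∈ s, g i ω) ∂μ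
      = ∫⁻ ω, ∑ i ∈ s, ENNReal.ofReal (g i ω) ∂μ := by
        congr 1
        funext ω
        exact ENNReal.ofReal_sum_of_nonneg fun i hi => h0 i hi ω
    _ = ∑ i ∈ s, ∫⁻ ω, ENNReal.ofReal (g i ω) ∂μ :=
        lintegral_finsetSum _ fun i hi => ENNReal.measurable_ofReal.comp (hg i hi)
    _ ≤ ∑ i ∈ s, ENNReal.ofReal b := Finset.sum_le_sum h
    _ = ENNReal.ofReal ((s.card : ℝ) * b) := by
        rw [Finset.sum_const, nsmul_eq_mul, ENNReal.ofReal_mul (by positivity),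
          ENNReal.ofReal_natCast]
    _ ≤ ENNReal.ofReal (n * b) := ENNReal.ofReal_le_ofReal (by gcongr)

theorem sum_bd' {ι Ω : Type*} [MeasurableSpace Ω] (μ : Measure Ω) (s : Finset ι)
    (g : ι → Ω → ℝ) (hg : ∀ i ∈ s, Measurable (g i)) (h0 : ∀ i ∈ s, ∀ ω, 0 ≤ g i ω)
    (b : ι → ℝ) (hb : ∀ i ∈ s, 0 ≤ b i)
    (h : ∀ i ∈ s, ∫⁻ ω, ENNReal.ofReal (g i ω) ∂μ ≤ ENNReal.ofReal (b i)) :
    ∫⁻ ω, ENNReal.ofReal (∑ i ∈ s, g i ω) ∂μ ≤ ENNReal.ofReal (∑ i ∈ s, b i) := by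
  calc ∫⁻ ω, ENNReal.ofReal (∑ i ∈ s, g i ω) ∂μ
      = ∫⁻ ω, ∑ i ∈ s, ENNReal.ofReal (g i ω) ∂μ := by
        congr 1
        funext ω
        exact ENNReal.ofReal_sum_of_nonneg fun i hi => h0 i hi ω
    _ = ∑ i ∈ s, ∫⁻ ω, ENNReal.ofReal (g i ω) ∂μ :=
        lintegral_finsetSum _ fun i hi => ENNReal.measurable_ofReal.comp (hg i hi)
    _ ≤ ∑ i ∈ s, ENNReal.ofReal (b i) := Finset.sum_le_sum h
    _ = ENNReal.ofReal (∑ i ∈ s, b i) := (ENNReal.ofReal_sum_of_nonneg hb).symm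

theorem meas_Z2 {N : ℕ} (w x : ℕ) : Measurable fun ω : Fin N → ℝ => Z2 N w (Vw ω) x := by
  unfold Z2
  refine Finset.measurable_sum _ fun a₁ _ => Finset.measurable_sum _ fun b₁ _ =>
    Finset.measurable_sum _ fun a₂ _ => Finset.measurable_sum _ fun b₂ _ => ?_
  exact Real.measurable_exp.comp (((meas_Vw _).sub (meas_Vw _)).add ((meas_Vw _).sub (meas_Vw _)))

theorem l_Z2 {N : ℕ} (ν : Measure ℝ) [IsProbabilityMeasure ν] (κ : ℝ) (hκ : 0 < κ)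
    (hκ1 : κ ≤ 1)
    (hν : ν (Set.Icc κ (1 - κ))ᶜ = 0)
    (hmν : ∫⁻ u, ENNReal.ofReal (((1 - u) / u) ^ (1 : ℝ)) ∂ν ≤ 1) (w x : ℕ) :
    ∫⁻ ω, ENNReal.ofReal (Z2 N w (Vw ω) x) ∂(Measure.pi fun _ : Fin N => ν)
      ≤ ENNReal.ofReal ((24 * (w : ℝ)) * ((24 * (w : ℝ)) * ((24 * (w : ℝ)) *
          ((24 * (w : ℝ)) * κ⁻¹ ^ (4 * (1 : ℝ)))))) := by
  have hc : ∀ z, x ≤ z → ((Finset.Ico z (min N (x + 24 * w))).card : ℝ) ≤ 24 * (w : ℝ) := by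
    intro z hz
    rw [Nat.card_Ico]
    have : min N (x + 24 * w) - z ≤ 24 * w := by omega
    exact_mod_cast this
  have m4 : ∀ a₁ b₁ a₂ b₂ : ℕ, Measurable fun ω : Fin N → ℝ =>
      Real.exp ((Vw ω b₁ - Vw ω a₁) + (Vw ω b₂ - Vw ω a₂)) := fun a₁ b₁ a₂ b₂ =>
    Real.measurable_exp.comp (((meas_Vw _).sub (meas_Vw _)).add ((meas_Vw _).sub (meas_Vw _)))
  unfold Z2
  refine sum_bd _ _ (fun a₁ ω => _) (fun a₁ _ => ?_) (fun a₁ _ ω => ?_) _ _ (by positivity)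
    (hc x le_rfl) (fun a₁ ha₁ => ?_)
  · exact Finset.measurable_sum _ fun b₁ _ => Finset.measurable_sum _ fun a₂ _ =>
      Finset.measurable_sum _ fun b₂ _ => m4 _ _ _ _
  · positivity
  rw [Finset.mem_Ico] at ha₁
  refine sum_bd _ _ (fun b₁ ω => _) (fun b₁ _ => ?_) (fun b₁ _ ω => ?_) _ _ (by positivity)
    (hc a₁ ha₁.1) (fun b₁ hb₁ => ?_)
  · exact Finset.measurable_sum _ fun a₂ _ =>
      Finset.measurable_sum _ fun b₂ _ => m4 _ _ _ _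
  · positivity
  rw [Finset.mem_Ico] at hb₁
  refine sum_bd _ _ (fun a₂ ω => _) (fun a₂ _ => ?_) (fun a₂ _ ω => ?_) _ _ (by positivity)
    (hc b₁ (by omega)) (fun a₂ ha₂ => ?_)
  · exact Finset.measurable_sum _ fun b₂ _ => m4 _ _ _ _
  · positivity
  rw [Finset.mem_Ico] at ha₂
  refine sum_bd _ _ (fun b₂ ω => _) (fun b₂ _ => ?_) (fun b₂ _ ω => ?_) _ _ (by positivity)
    (hc a₂ (by omega)) (fun b₂ hb₂ => ?_)
  · exact m4 _ _ _ _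
  · positivity
  rw [Finset.mem_Ico] at hb₂
  have h := rise_two (N := N) ν κ hκ hκ1 hν 1 one_pos hmν a₁ b₁ a₂ b₂ hb₁.1 ha₂.1 hb₂.1
    (by omega)
  simpa only [one_mul] using h

theorem p_slow {N : ℕ} (ν : Measure ℝ) [IsProbabilityMeasure ν] (κ : ℝ) (hκ : 0 < κ)
    (hκ1 : κ ≤ 1)
    (hν : ν (Set.Icc κ (1 - κ))ᶜ = 0)
    (hmν : ∫⁻ u, ENNReal.ofReal (((1 - u) / u) ^ (1 : ℝ)) ∂ν ≤ 1) (w : ℕ) (c : ℝ) (hc : 0 < c) :
    (Measure.pi fun _ : Fin N => ν)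
        {ω | c < ∑ x ∈ Finset.range N, Z2 N w (Vw ω) x}
      ≤ ENNReal.ofReal (c⁻¹ * ((N : ℝ) * ((24 * (w : ℝ)) * ((24 * (w : ℝ)) * ((24 * (w : ℝ)) *
          ((24 * (w : ℝ)) * κ⁻¹ ^ (4 * (1 : ℝ)))))))) := by
  refine mark _ _ (Finset.measurable_sum _ fun x _ => meas_Z2 w x) c _ hc ?_
  refine sum_bd _ _ (fun x ω => _) (fun x _ => meas_Z2 w x) (fun x _ ω => ?_) _ _
    (by positivity) (by simp) (fun x _ => l_Z2 ν κ hκ hκ1 hν hmν w x)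
  unfold Z2
  positivity

theorem geom_le (m : ℝ) (hm : 0 < m) (hm1 : m < 1) (n : ℕ) :
    ∑ i ∈ Finset.range n, m ^ i ≤ (1 - m)⁻¹ := by
  rw [← tsum_geometric_of_lt_one hm.le hm1]
  exact Summable.sum_le_tsum _ (fun i _ => pow_nonneg hm.le i)
    (summable_geometric_of_lt_one hm.le hm1)

theorem p_fin {N : ℕ} (ν : Measure ℝ) [IsProbabilityMeasure ν] (κ : ℝ) (hκ : 0 < κ)
    (hκ1 : κ ≤ 1)
    (hν : ν (Set.Icc κ (1 - κ))ᶜ = 0) (m : ℝ) (hm : 0 < m) (hm1 : m < 1)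
    (hmν : ∫⁻ u, ENNReal.ofReal ((1 - u) / u) ∂ν ≤ ENNReal.ofReal m) (y : ℕ) (hy : y < N)
    (c : ℝ) (hc : 0 < c) :
    (Measure.pi fun _ : Fin N => ν)
        {ω | c < (∑ x ∈ Finset.range y, Real.exp (Vw ω y - Vw ω x))
          + ∑ x ∈ Finset.Ico y N, Real.exp (Vw ω x - Vw ω y)}
      ≤ ENNReal.ofReal (c⁻¹ * (κ⁻¹ * (1 - m)⁻¹ + κ⁻¹ * (1 + (1 - m)⁻¹))) := by
  have hm' : ∫⁻ u, ENNReal.ofReal (((1 - u) / u) ^ (1 : ℝ)) ∂ν ≤ ENNReal.ofReal m := by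
    simpa using hmν
  have hκi : (1 : ℝ) ≤ κ⁻¹ := (one_le_inv₀ hκ).2 hκ1
  have hme : ∀ a b : ℕ, Measurable fun ω : Fin N → ℝ => Real.exp (Vw ω a - Vw ω b) :=
    fun a b => Real.measurable_exp.comp ((meas_Vw _).sub (meas_Vw _))
  have m1 : Measurable fun ω : Fin N → ℝ => ∑ x ∈ Finset.range y, Real.exp (Vw ω y - Vw ω x) :=
    Finset.measurable_sum _ fun x _ => hme _ _
  have m2 : Measurable fun ω : Fin N → ℝ => ∑ x ∈ Finset.Ico y N, Real.exp (Vw ω x - Vw ω y) :=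
    Finset.measurable_sum _ fun x _ => hme _ _
  have hq : 0 < (1 - m)⁻¹ := inv_pos.2 (by linarith)
  have b1 : ∫⁻ ω, ENNReal.ofReal (∑ x ∈ Finset.range y, Real.exp (Vw ω y - Vw ω x))
      ∂(Measure.pi fun _ : Fin N => ν) ≤ ENNReal.ofReal (κ⁻¹ * (1 - m)⁻¹) := by
    refine (sum_bd' (Measure.pi fun _ : Fin N => ν) (Finset.range y)
      (fun x ω => Real.exp (Vw ω y - Vw ω x)) (fun x _ => hme _ _)
      (fun x _ ω => (Real.exp_pos _).le) (fun x => κ⁻¹ * m ^ (y - x - 1))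
      (fun x _ => by positivity) (fun x hx => ?_)).trans ?_
    · have h := rise_one (N := N) ν κ hκ hν 1 m one_pos hm.le hm' x y (Finset.mem_range.1 hx) hy
      simpa only [one_mul, Real.rpow_one] using h
    · apply ENNReal.ofReal_le_ofReal
      rw [← Finset.mul_sum]
      gcongr
      have : ∑ x ∈ Finset.range y, m ^ (y - x - 1) = ∑ x ∈ Finset.range y, m ^ x := by
        rw [← Finset.sum_range_reflect (fun x => m ^ x) y]
        refine Finset.sum_congr rfl fun x _ => ?_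
        congr 1
        omega
      rw [this]
      exact geom_le m hm hm1 y
  have b2 : ∫⁻ ω, ENNReal.ofReal (∑ x ∈ Finset.Ico y N, Real.exp (Vw ω x - Vw ω y))
      ∂(Measure.pi fun _ : Fin N => ν) ≤ ENNReal.ofReal (κ⁻¹ * (1 + (1 - m)⁻¹)) := by
    refine (sum_bd' (Measure.pi fun _ : Fin N => ν) (Finset.Ico y N)
      (fun x ω => Real.exp (Vw ω x - Vw ω y)) (fun x _ => hme _ _)
      (fun x _ ω => (Real.exp_pos _).le) (fun x => κ⁻¹ * m ^ (x - y - 1))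
      (fun x _ => by positivity) (fun x hx => ?_)).trans ?_
    · rw [Finset.mem_Ico] at hx
      rcases Nat.eq_or_lt_of_le hx.1 with rfl | hlt
      · simpa using hκi
      · have h := rise_one (N := N) ν κ hκ hν 1 m one_pos hm.le hm' y x hlt hx.2
        simpa only [one_mul, Real.rpow_one] using h
    · apply ENNReal.ofReal_le_ofReal
      rw [← Finset.mul_sum]
      gcongr
      rw [Finset.sum_Ico_eq_sum_range]
      obtain ⟨n, hn⟩ : ∃ n, N - y = n + 1 := ⟨N - y - 1, by omega⟩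
      rw [hn, Finset.sum_range_succ']
      have : ∑ k ∈ Finset.range n, m ^ (y + (k + 1) - y - 1) = ∑ k ∈ Finset.range n, m ^ k := by
        refine Finset.sum_congr rfl fun x _ => ?_
        congr 1
        omega
      rw [this]
      have h0 : m ^ (y + 0 - y - 1) = 1 := by
        have : y + 0 - y - 1 = 0 := by omega
        rw [this, pow_zero]
      rw [h0, add_comm]
      gcongr
      exact geom_le m hm hm1 n
  refine mark _ _ (m1.add m2) c _ hc ?_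
  have hs1 : ∀ ω : Fin N → ℝ, 0 ≤ ∑ x ∈ Finset.range y, Real.exp (Vw ω y - Vw ω x) :=
    fun ω => Finset.sum_nonneg fun _ _ => (Real.exp_pos _).le
  have hs2 : ∀ ω : Fin N → ℝ, 0 ≤ ∑ x ∈ Finset.Ico y N, Real.exp (Vw ω x - Vw ω y) :=
    fun ω => Finset.sum_nonneg fun _ _ => (Real.exp_pos _).le
  calc ∫⁻ ω, ENNReal.ofReal ((∑ x ∈ Finset.range y, Real.exp (Vw ω y - Vw ω x))
          + ∑ x ∈ Finset.Ico y N, Real.exp (Vw ω x - Vw ω y)) ∂(Measure.pi fun _ : Fin N => ν)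
      = ∫⁻ ω, (ENNReal.ofReal (∑ x ∈ Finset.range y, Real.exp (Vw ω y - Vw ω x))
          + ENNReal.ofReal (∑ x ∈ Finset.Ico y N, Real.exp (Vw ω x - Vw ω y)))
            ∂(Measure.pi fun _ : Fin N => ν) := by
        congr 1
        funext ω
        exact ENNReal.ofReal_add (hs1 ω) (hs2 ω)
    _ = ∫⁻ ω, ENNReal.ofReal (∑ x ∈ Finset.range y, Real.exp (Vw ω y - Vw ω x))
            ∂(Measure.pi fun _ : Fin N => ν)
        + ∫⁻ ω, ENNReal.ofReal (∑ x ∈ Finset.Ico y N, Real.exp (Vw ω x - Vw ω y))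
            ∂(Measure.pi fun _ : Fin N => ν) :=
        lintegral_add_left (ENNReal.measurable_ofReal.comp m1) _
    _ ≤ ENNReal.ofReal (κ⁻¹ * (1 - m)⁻¹) + ENNReal.ofReal (κ⁻¹ * (1 + (1 - m)⁻¹)) :=
        add_le_add b1 b2
    _ = ENNReal.ofReal (κ⁻¹ * (1 - m)⁻¹ + κ⁻¹ * (1 + (1 - m)⁻¹)) :=
        (ENNReal.ofReal_add (by positivity) (by positivity)).symm

/-! ### asymptotics -/

theorem tendsto_log_nat : Tendsto (fun N : ℕ => Real.log N) atTop atTop :=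
  Real.tendsto_log_atTop.comp tendsto_natCast_atTop_atTop

theorem tendsto_exp_neg (a c : ℝ) (ha : 0 < a) :
    Tendsto (fun N : ℕ => c * Real.exp (-(a * Real.log N))) atTop (𝓝 0) := by
  have h := (Real.tendsto_exp_neg_atTop_nhds_zero.comp
    (tendsto_log_nat.const_mul_atTop ha)).const_mul c
  simpa [Function.comp_def] using h

theorem ev_w (C : ℝ) (hC : 0 < C) (δ : ℝ) (hδ : 0 < δ) :
    ∀ᶠ N : ℕ in atTop, 50 * ((⌈C * Real.log N⌉₊ : ℕ) : ℝ) + 1 ≤ Real.exp (δ * Real.log N) := by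
  filter_upwards [tendsto_log_nat.eventually_ge_atTop (1 : ℝ),
    tendsto_log_nat.eventually_ge_atTop (2 * (50 * C + 51) / δ ^ 2)] with N h1 h2
  set L := Real.log N
  have h3 : ((⌈C * L⌉₊ : ℕ) : ℝ) < C * L + 1 := Nat.ceil_lt_add_one (by positivity)
  have h4 := Real.quadratic_le_exp_of_nonneg (x := δ * L) (by positivity)
  rw [div_le_iff₀ (by positivity)] at h2
  have h5 : 0 ≤ δ * L := by positivity
  nlinarith [mul_le_mul_of_nonneg_left h2 (by linarith : (0 : ℝ) ≤ L)]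

end EnvGoodAux

open EnvGoodAux in
theorem env_good (ν : Measure ℝ) [IsProbabilityMeasure ν] (κ : ℝ) (hκ : 0 < κ) (hκ1 : κ ≤ 1 / 2)
    (hν : ν (Set.Icc κ (1 - κ))ᶜ = 0) (s : ℝ) (hs : 1 < s)
    (hm1 : ∫⁻ u, ENNReal.ofReal ((1 - u) / u) ∂ν < 1)
    (hms : ∫⁻ u, ENNReal.ofReal (((1 - u) / u) ^ s) ∂ν < 1)
    (ε K : ℝ) (hε : 0 < ε) (hK : 0 < K) :
    ∃ C : ℝ, 0 < C ∧ ∀ k : ℕ → ℕ, (∀ᶠ N in atTop, 1 ≤ k N ∧ k N ≤ N) →
      Tendsto (fun N : ℕ => (Measure.pi fun _ : Fin N => ν)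
        {ω | ¬ ((∀ x, ω x ∈ Set.Icc κ (1 - κ)) ∧
          EnvOK N (k N) ⌈C * Real.log N⌉₊ (Vw ω) ((1 + ε) / s * Real.log N) ((N : ℝ) ^ (-K))
            ((N : ℝ) ^ (1 + ε)) (ε * Real.log N))}) atTop (𝓝 0) := by
  have hs0 : 0 < s := by linarith
  have hκ2 : κ ≤ 1 := by linarith
  obtain ⟨m, hm, hmlt, hmν⟩ : ∃ m : ℝ, 0 < m ∧ m < 1 ∧
      ∫⁻ u, ENNReal.ofReal ((1 - u) / u) ∂ν ≤ ENNReal.ofReal m := by
    set J := ∫⁻ u, ENNReal.ofReal ((1 - u) / u) ∂ν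
    have hJ : J ≠ ⊤ := (hm1.trans ENNReal.one_lt_top).ne
    have hJ1 : J.toReal < 1 := by
      have := (ENNReal.toReal_lt_toReal hJ ENNReal.one_ne_top).2 hm1
      simpa using this
    refine ⟨max J.toReal (1 / 2), by positivity, max_lt hJ1 (by norm_num), ?_⟩
    rw [← ENNReal.ofReal_toReal hJ]
    exact ENNReal.ofReal_le_ofReal (by rw [ENNReal.toReal_ofReal ENNReal.toReal_nonneg];
                                       exact le_max_left _ _)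
  have hm' : ∫⁻ u, ENNReal.ofReal (((1 - u) / u) ^ (1 : ℝ)) ∂ν ≤ 1 := by
    simpa using hm1.le
  have hlm : Real.log m < 0 := Real.log_neg hm hmlt
  refine ⟨(K + 3) / (-Real.log m), by apply div_pos <;> linarith, ?_⟩
  intro k hk
  set C : ℝ := (K + 3) / (-Real.log m) with hCdef
  have hC : 0 < C := by apply div_pos <;> linarith
  have hCm : Real.log m * C = -(K + 3) := by
    have h0 : -Real.log m ≠ 0 := by
      intro h0
      linarith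
    rw [hCdef, ← neg_inj, ← neg_mul, mul_div_cancel₀ _ h0, neg_neg]
  set δ : ℝ := ε / 14 with hδ
  have hδ0 : 0 < δ := by positivity
  set c1 : ℝ := κ⁻¹ * m⁻¹
  set c2 : ℝ := κ⁻¹ ^ (4 * s)
  set c3 : ℝ := κ⁻¹ ^ (4 * (1 : ℝ))
  set c4 : ℝ := κ⁻¹ * (1 - m)⁻¹ + κ⁻¹ * (1 + (1 - m)⁻¹)
  have hc2 : 0 < c2 := by positivity
  have hc3 : 0 < c3 := by positivity
  have t1 := tendsto_exp_neg 1 c1 one_pos
  have t2 := tendsto_exp_neg (ε / 2) c2 (by positivity)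
  have t3 := tendsto_exp_neg (1 / 2) c2 (by positivity)
  have t4 := tendsto_exp_neg (ε / 2) c3 (by positivity)
  have t5 : Tendsto (fun N : ℕ => (ε * Real.log N)⁻¹ * c4) atTop (𝓝 0) := by
    have := (tendsto_inv_atTop_zero.comp (tendsto_log_nat.const_mul_atTop hε)).mul_const c4
    simpa [Function.comp_def] using this
  have T : Tendsto (fun N : ℕ =>
      ENNReal.ofReal (c1 * Real.exp (-(1 * Real.log N)))
      + (ENNReal.ofReal (c2 * Real.exp (-(ε / 2 * Real.log N)))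
      + (ENNReal.ofReal (c2 * Real.exp (-(1 / 2 * Real.log N)))
      + (ENNReal.ofReal (c2 * Real.exp (-(1 / 2 * Real.log N)))
      + (ENNReal.ofReal (c3 * Real.exp (-(ε / 2 * Real.log N)))
      + ENNReal.ofReal ((ε * Real.log N)⁻¹ * c4)))))) atTop (𝓝 0) := by
    have f : ∀ {g : ℕ → ℝ}, Tendsto g atTop (𝓝 0) →
        Tendsto (fun N => ENNReal.ofReal (g N)) atTop (𝓝 0) := by
      intro g hg
      have := ENNReal.tendsto_ofReal hg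
      simpa using this
    have := (f t1).add ((f t2).add ((f t3).add ((f t3).add ((f t4).add (f t5)))))
    simpa using this
  refine tendsto_of_tendsto_of_tendsto_of_le_of_le' tendsto_const_nhds T
    (Eventually.of_forall fun N => zero_le) ?_
  filter_upwards [hk, ev_w C hC δ hδ0, tendsto_log_nat.eventually_ge_atTop (1 : ℝ),
    eventually_ge_atTop 1] with N hkN hw hL hN1
  set w : ℕ := ⌈C * Real.log N⌉₊ with hwdef
  set L : ℝ := Real.log N with hLdef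
  have hNpos : (0 : ℝ) < N := by exact_mod_cast hN1
  have hNe : (N : ℝ) = Real.exp L := (Real.exp_log hNpos).symm
  have hw1 : 1 ≤ w := Nat.one_le_iff_ne_zero.2 (Nat.ceil_pos.2 (by positivity)).ne'
  have hCw : C * L ≤ (w : ℝ) := Nat.le_ceil _
  have hw0 : (0 : ℝ) ≤ w := by positivity
  have hEpos : 0 < Real.exp (δ * L) := Real.exp_pos _
  have hEpow : ∀ n : ℕ, Real.exp (δ * L) ^ n = Real.exp (n * (δ * L)) := fun n => by
    rw [← Real.exp_nat_mul]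
  -- the pieces
  have P0 := p_range (N := N) ν κ hν
  have P1 := p_drop (N := N) ν κ hκ hν m hm hmlt hmν w hw1 (K * L)
  have P2 := p_four (N := N) ν κ hκ hκ2 hν s hs0 hms.le w ((1 + ε) / s * L)
  have P3 := p_two (N := N) ν κ hκ hκ2 hν s hs0 hms.le 0 (4 * w) ((1 + ε) / s * L / 2)
  have P4 := p_two (N := N) ν κ hκ hκ2 hν s hs0 hms.le (N - 12 * w) (12 * w)
    ((1 + ε) / s * L / 2)
  have P5 := p_slow (N := N) ν κ hκ hκ2 hν hm' w ((N : ℝ) ^ (1 + ε)) (by positivity)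
  have P6 := p_fin (N := N) ν κ hκ hκ2 hν m hm hmlt hmν (N - k N) (by omega) (ε * L)
    (by positivity)
  set A0 : Set (Fin N → ℝ) := {ω | ¬ ∀ x, ω x ∈ Set.Icc κ (1 - κ)}
  set A1 : Set (Fin N → ℝ) := {ω | ∃ x y, x + w ≤ y ∧ y < N ∧ -(K * L) < Vw ω y - Vw ω x}
  set A2 : Set (Fin N → ℝ) :=
        {ω | ∃ a₁ b₁ a₂ b₂ a₃ b₃ a₄ b₄, a₁ ≤ b₁ ∧ b₁ ≤ a₂ ∧ a₂ ≤ b₂ ∧ b₂ ≤ a₃ ∧ a₃ ≤ b₃ ∧
          b₃ ≤ a₄ ∧ a₄ ≤ b₄ ∧ b₄ < N ∧ b₄ ≤ a₁ + 50 * w ∧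
          (1 + ε) / s * L < ((Vw ω b₁ - Vw ω a₁) + (Vw ω b₂ - Vw ω a₂))
            + ((Vw ω b₃ - Vw ω a₃) + (Vw ω b₄ - Vw ω a₄))}
  set A3 : Set (Fin N → ℝ) :=
        {ω | ∃ a₁ b₁ a₂ b₂, 0 ≤ a₁ ∧ a₁ ≤ b₁ ∧ b₁ ≤ a₂ ∧ a₂ ≤ b₂ ∧ b₂ < N ∧ b₂ < 0 + 4 * w ∧
          (1 + ε) / s * L / 2 < (Vw ω b₁ - Vw ω a₁) + (Vw ω b₂ - Vw ω a₂)}
  set A4 : Set (Fin N → ℝ) :=
        {ω | ∃ a₁ b₁ a₂ b₂, N - 12 * w ≤ a₁ ∧ a₁ ≤ b₁ ∧ b₁ ≤ a₂ ∧ a₂ ≤ b₂ ∧ b₂ < N ∧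
          b₂ < N - 12 * w + 12 * w ∧
          (1 + ε) / s * L / 2 < (Vw ω b₁ - Vw ω a₁) + (Vw ω b₂ - Vw ω a₂)}
  set A5 : Set (Fin N → ℝ) := {ω | (N : ℝ) ^ (1 + ε) < ∑ x ∈ Finset.range N, Z2 N w (Vw ω) x}
  set A6 : Set (Fin N → ℝ) :=
        {ω | ε * L < (∑ x ∈ Finset.range (N - k N), Real.exp (Vw ω (N - k N) - Vw ω x))
          + ∑ x ∈ Finset.Ico (N - k N) N, Real.exp (Vw ω x - Vw ω (N - k N))}
  have hsub : {ω : Fin N → ℝ | ¬ ((∀ x, ω x ∈ Set.Icc κ (1 - κ)) ∧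
          EnvOK N (k N) w (Vw ω) ((1 + ε) / s * L) ((N : ℝ) ^ (-K))
            ((N : ℝ) ^ (1 + ε)) (ε * L))}
      ⊆ A0 ∪ (A1 ∪ (A2 ∪ (A3 ∪ (A4 ∪ (A5 ∪ A6))))) := by
    intro ω hω
    by_contra hcon
    simp only [Set.mem_union, not_or] at hcon
    obtain ⟨n0, n1, n2, n3, n4, n5, n6⟩ := hcon
    apply hω
    refine ⟨not_not.1 n0, ?_, ?_, ?_, ?_, ?_, ?_⟩
    · intro x y hxy hy
      have h : Vw ω y - Vw ω x ≤ -(K * L) := by
        by_contra hlt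
        exact n1 ⟨x, y, hxy, hy, not_le.1 hlt⟩
      rw [Real.rpow_def_of_pos hNpos]
      apply Real.exp_le_exp.2
      rw [← hLdef]
      linarith
    · intro a₁ b₁ a₂ b₂ a₃ b₃ a₄ b₄ g1 g2 g3 g4 g5 g6 g7 g8 g9
      by_contra hlt
      exact n2 ⟨a₁, b₁, a₂, b₂, a₃, b₃, a₄, b₄, g1, g2, g3, g4, g5, g6, g7, g8, g9,
        not_le.1 hlt⟩
    · intro a₁ b₁ a₂ b₂ g0 g1 g2 g3 g4
      by_contra hlt
      exact n3 ⟨a₁, b₁, a₂, b₂, g0, g1, g2, g3, by omega, by omega, not_le.1 hlt⟩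
    · intro a₁ b₁ a₂ b₂ g0 g1 g2 g3 g4
      by_contra hlt
      exact n4 ⟨a₁, b₁, a₂, b₂, g0, g1, g2, g3, by omega, by omega, not_le.1 hlt⟩
    · exact not_lt.1 n5
    · exact not_lt.1 n6
  refine (measure_mono hsub).trans ?_
  have Q1 : (Measure.pi fun _ : Fin N => ν) A1
      ≤ ENNReal.ofReal (c1 * Real.exp (-(1 * L))) := by
    refine P1.trans (ENNReal.ofReal_le_ofReal ?_)
    have e1 : m ^ (w - 1) ≤ m⁻¹ * Real.exp (-(K + 3) * L) := by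
      have e2 : m ^ (w - 1) = m⁻¹ * m ^ w := by
        obtain ⟨v, hv⟩ : ∃ v, w = v + 1 := ⟨w - 1, by omega⟩
        rw [hv, pow_succ, Nat.add_sub_cancel]
        field_simp
      rw [e2]
      gcongr
      rw [← Real.rpow_natCast m w, Real.rpow_def_of_pos hm]
      apply Real.exp_le_exp.2
      calc Real.log m * (w : ℝ) ≤ Real.log m * (C * L) :=
            mul_le_mul_of_nonpos_left hCw hlm.le
        _ = -(K + 3) * L := by rw [← mul_assoc, hCm]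
    calc (N : ℝ) * N * (Real.exp (K * L) * (κ⁻¹ * m ^ (w - 1)))
        ≤ (N : ℝ) * N * (Real.exp (K * L) * (κ⁻¹ * (m⁻¹ * Real.exp (-(K + 3) * L)))) := by
          gcongr
      _ = c1 * (Real.exp L * Real.exp L * Real.exp (K * L) * Real.exp (-(K + 3) * L)) := by
          rw [hNe]; ring
      _ = c1 * Real.exp (-(1 * L)) := by
          rw [← Real.exp_add, ← Real.exp_add, ← Real.exp_add]
          congr 2
          ring
  have Q2 : (Measure.pi fun _ : Fin N => ν) A2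
      ≤ ENNReal.ofReal (c2 * Real.exp (-(ε / 2 * L))) := by
    refine P2.trans (ENNReal.ofReal_le_ofReal ?_)
    have e1 : s * ((1 + ε) / s * L) = (1 + ε) * L := by field_simp
    calc (N : ℝ) * (50 * (w : ℝ) + 1) ^ 7 * (Real.exp (-(s * ((1 + ε) / s * L))) * c2)
        ≤ Real.exp L * Real.exp (δ * L) ^ 7 * (Real.exp (-((1 + ε) * L)) * c2) := by
          rw [e1, hNe]
          gcongr
      _ = c2 * (Real.exp L * Real.exp ((7 : ℕ) * (δ * L)) * Real.exp (-((1 + ε) * L))) := by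
          rw [hEpow]; ring
      _ = c2 * Real.exp (-(ε / 2 * L)) := by
          rw [← Real.exp_add, ← Real.exp_add]
          congr 2
          rw [hδ]
          push_cast
          ring
  have R4 : ∀ n : ℕ, (n : ℝ) ≤ 50 * (w : ℝ) + 1 →
      (n : ℝ) ^ 4 * (Real.exp (-(s * ((1 + ε) / s * L / 2))) * c2)
        ≤ c2 * Real.exp (-(1 / 2 * L)) := by
    intro n hn
    have e1 : s * ((1 + ε) / s * L / 2) = (1 + ε) / 2 * L := by field_simp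
    calc (n : ℝ) ^ 4 * (Real.exp (-(s * ((1 + ε) / s * L / 2))) * c2)
        ≤ Real.exp (δ * L) ^ 4 * (Real.exp (-((1 + ε) / 2 * L)) * c2) := by
          rw [e1]
          gcongr
          exact hn.trans hw
      _ = c2 * (Real.exp ((4 : ℕ) * (δ * L)) * Real.exp (-((1 + ε) / 2 * L))) := by
          rw [hEpow]; ring
      _ ≤ c2 * Real.exp (-(1 / 2 * L)) := by
          rw [← Real.exp_add]
          gcongr
          rw [hδ]
          push_cast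
          nlinarith
  have Q3 : (Measure.pi fun _ : Fin N => ν) A3
      ≤ ENNReal.ofReal (c2 * Real.exp (-(1 / 2 * L))) := by
    refine P3.trans (ENNReal.ofReal_le_ofReal (R4 (4 * w) ?_))
    push_cast
    linarith
  have Q4 : (Measure.pi fun _ : Fin N => ν) A4
      ≤ ENNReal.ofReal (c2 * Real.exp (-(1 / 2 * L))) := by
    refine P4.trans (ENNReal.ofReal_le_ofReal (R4 (12 * w) ?_))
    push_cast
    linarith
  have Q5 : (Measure.pi fun _ : Fin N => ν) A5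
      ≤ ENNReal.ofReal (c3 * Real.exp (-(ε / 2 * L))) := by
    refine P5.trans (ENNReal.ofReal_le_ofReal ?_)
    have e1 : ((N : ℝ) ^ (1 + ε))⁻¹ = Real.exp (-((1 + ε) * L)) := by
      rw [Real.rpow_def_of_pos hNpos, ← Real.exp_neg, ← hLdef]
      congr 1
      ring
    have e2 : 24 * (w : ℝ) ≤ Real.exp (δ * L) := by linarith
    calc ((N : ℝ) ^ (1 + ε))⁻¹ * ((N : ℝ) * ((24 * (w : ℝ)) * ((24 * (w : ℝ)) *
          ((24 * (w : ℝ)) * ((24 * (w : ℝ)) * c3)))))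
        ≤ Real.exp (-((1 + ε) * L)) * (Real.exp L * (Real.exp (δ * L) * (Real.exp (δ * L) *
          (Real.exp (δ * L) * (Real.exp (δ * L) * c3))))) := by
          rw [e1, hNe]
          gcongr
      _ = c3 * (Real.exp (-((1 + ε) * L)) * Real.exp L * Real.exp (δ * L) ^ 4) := by ring
      _ = c3 * (Real.exp (-((1 + ε) * L)) * Real.exp L * Real.exp ((4 : ℕ) * (δ * L))) := by
          rw [hEpow]
      _ ≤ c3 * Real.exp (-(ε / 2 * L)) := by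
          rw [← Real.exp_add, ← Real.exp_add]
          gcongr
          rw [hδ]
          push_cast
          nlinarith
  calc (Measure.pi fun _ : Fin N => ν) (A0 ∪ (A1 ∪ (A2 ∪ (A3 ∪ (A4 ∪ (A5 ∪ A6))))))
      ≤ (Measure.pi fun _ : Fin N => ν) A0 + ((Measure.pi fun _ : Fin N => ν) A1
        + ((Measure.pi fun _ : Fin N => ν) A2 + ((Measure.pi fun _ : Fin N => ν) A3
        + ((Measure.pi fun _ : Fin N => ν) A4 + ((Measure.pi fun _ : Fin N => ν) A5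
        + (Measure.pi fun _ : Fin N => ν) A6))))) := by
        refine (measure_union_le _ _).trans (add_le_add le_rfl ?_)
        refine (measure_union_le _ _).trans (add_le_add le_rfl ?_)
        refine (measure_union_le _ _).trans (add_le_add le_rfl ?_)
        refine (measure_union_le _ _).trans (add_le_add le_rfl ?_)
        refine (measure_union_le _ _).trans (add_le_add le_rfl ?_)
        exact measure_union_le _ _
    _ ≤ _ := by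
        rw [P0, zero_add]
        exact add_le_add Q1 (add_le_add Q2 (add_le_add Q3 (add_le_add Q4 (add_le_add Q5 P6))))

end Pool.Agent.EBX
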