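import Mathlib
import Pool.Agent.EBX.Defs2
import Pool.Agent.EBX.EnvMoments

/-!
# EBX: moments of rises, law on (0,1), no lower bound. Pointwise exp(θ(V b - V a)) ≤ ω_a^(-θ) ∏_{a<z<b} ρ_z^θ
for a < b (the last factor (1-ω_b)^θ ≤ 1), = 1 for a = b. Four rises: at each site z ∉ {a₁,a₂,a₃,a₄} the total factor is 1 or ρ^θ
(the intervals [a₁,b₁), [a₂,b₂) are disjoint and < a₃+1, the other two are ≥ a₃, so only z = a₃ can be covered twice); at the
sites a_i it is ≤ ω^(-2θ) (at most two factors, each ≤ ω^(-θ), ω ≤ 1). So the expectation is ≤ M^4 by moment_prod2.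
-/

set_option autoImplicit false

open scoped Matrix ENNReal NNReal
open MeasureTheory Filter Topology

namespace Pool.Agent.EBX

theorem moment_prod2 {N : ℕ} (ν : Measure ℝ) [IsProbabilityMeasure ν] (F : Fin N → ℝ → ℝ≥0∞)
    (hF : ∀ x, Measurable (F x)) :
    ∫⁻ ω, ∏ x, F x (ω x) ∂(Measure.pi fun _ : Fin N => ν) = ∏ x, ∫⁻ u, F x u ∂ν := by
  have h := ProbabilityTheory.lintegral_prod_eq_prod_lintegral_of_indepFun
    (μ := Measure.pi fun _ : Fin N => ν) Finset.univ (fun (i : Fin N) (ω : Fin N → ℝ) => F i (ω i))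
    (ProbabilityTheory.iIndepFun_pi (μ := fun _ : Fin N => ν) (X := F)
      (fun i => (hF i).aemeasurable))
    (fun i => (hF i).comp (measurable_pi_apply i))
  rw [h]
  apply Finset.prod_congr rfl
  intro i _
  exact (measurePreserving_eval (fun _ : Fin N => ν) i).lintegral_comp (hF i)

/-- almost surely all coordinates are in the open interval -/
theorem ae_good2 {N : ℕ} (ν : Measure ℝ) [IsProbabilityMeasure ν]
    (hν : ν (Set.Ioo 0 1)ᶜ = 0) :
    ∀ᵐ ω ∂(Measure.pi fun _ : Fin N => ν), ∀ i : Fin N, ω i ∈ Set.Ioo (0 : ℝ) 1 := by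
  rw [ae_all_iff]
  intro i
  have h : ∀ᵐ u ∂ν, u ∈ Set.Ioo (0 : ℝ) 1 := by
    rw [ae_iff]
    exact hν
  exact (measurePreserving_eval (fun _ : Fin N => ν) i).quasiMeasurePreserving.ae h

theorem ext_pos {N : ℕ} (ω : Fin N → ℝ) (hω : ∀ i : Fin N, ω i ∈ Set.Ioo (0 : ℝ) 1) (z : ℕ) :
    0 < ext ω z ∧ 0 < 1 - ext ω z := by
  by_cases hz : z < N
  · have h1 := hω ⟨z, hz⟩
    simp only [ext, hz, dif_pos]
    constructor
    · linarith [h1.1]
    · linarith [h1.2]
  · simp only [ext, hz, dif_neg, not_false_eq_true]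
    norm_num

theorem Vw_diff2 {N : ℕ} (ω : Fin N → ℝ)
    (hω : ∀ i : Fin N, ω i ∈ Set.Ioo (0 : ℝ) 1) (a : ℕ) :
    ∀ b : ℕ, a + 1 ≤ b →
      Vw ω b - Vw ω a = (∑ z ∈ Finset.Ioo a b, Real.log ((1 - ext ω z) / ext ω z))
        + (Real.log (1 - ext ω b) - Real.log (ext ω a)) := by
  have he := ext_pos ω hω
  intro b hb
  induction b, hb using Nat.le_induction with
  | base =>
    have h0 := he a
    have h1 := he (a + 1)
    simp only [Vw, Finset.sum_range_succ, add_sub_cancel_left, qw, pw]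
    rw [Real.log_div h1.2.ne' h0.1.ne']
    have : Finset.Ioo a (a + 1) = ∅ := by
      ext z; simp only [Finset.mem_Ioo, Finset.notMem_empty, iff_false]; omega
    rw [this]; simp
  | succ b hb ih =>
    have h0 := he b
    have h1 := he (b + 1)
    have e1 : Vw ω (b + 1) = Vw ω b + Real.log ((1 - ext ω (b + 1)) / ext ω b) := by
      simp only [Vw, Finset.sum_range_succ, qw, pw]
    have e2 : Finset.Ioo a (b + 1) = insert b (Finset.Ioo a b) := by
      ext z; simp only [Finset.mem_Ioo, Finset.mem_insert]; omega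
    rw [e1, e2, Finset.sum_insert (by simp)]
    rw [Real.log_div h1.2.ne' h0.1.ne', Real.log_div h0.2.ne' h0.1.ne']
    linarith

/-- the factor of the rise from `a` to `b` at the site `z` -/
noncomputable def sf (θ : ℝ) (a b z : ℕ) (u : ℝ) : ℝ :=
  if a ≤ z ∧ z < b then (if z = a then u ^ (-θ) else ((1 - u) / u) ^ θ) else 1

theorem sf_nonneg (θ : ℝ) (a b z : ℕ) {u : ℝ} (hu : u ∈ Set.Ioo (0 : ℝ) 1) :
    0 ≤ sf θ a b z u := by
  unfold sf
  split_ifs
  · exact Real.rpow_nonneg hu.1.le _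
  · exact Real.rpow_nonneg (div_nonneg (by linarith [hu.2]) hu.1.le) _
  · exact zero_le_one

theorem sf_meas (θ : ℝ) (a b z : ℕ) : Measurable (sf θ a b z) := by
  unfold sf
  split_ifs
  · exact measurable_id.pow_const _
  · exact ((measurable_const.sub measurable_id).div measurable_id).pow_const θ
  · exact measurable_const

theorem sf_le (θ : ℝ) (hθ : 0 < θ) (a b z : ℕ) {u : ℝ} (hu : u ∈ Set.Ioo (0 : ℝ) 1) :
    sf θ a b z u ≤ u ^ (-θ) := by
  have h1 : (1 : ℝ) ≤ u ^ (-θ) :=
    Real.one_le_rpow_of_pos_of_le_one_of_nonpos hu.1 hu.2.le (by linarith)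
  unfold sf
  split_ifs
  · exact le_refl _
  · rw [Real.rpow_neg hu.1.le, ← Real.inv_rpow hu.1.le]
    apply Real.rpow_le_rpow (div_nonneg (by linarith [hu.2]) hu.1.le) _ hθ.le
    rw [div_eq_mul_inv]
    have : 0 < u⁻¹ := inv_pos.2 hu.1
    nlinarith [hu.1]
  · exact h1

/-- deterministic bound -/
theorem rise_det2 {N : ℕ} (ω : Fin N → ℝ) (θ : ℝ) (hθ : 0 < θ)
    (hω : ∀ i : Fin N, ω i ∈ Set.Ioo (0 : ℝ) 1) (a b : ℕ) (hab : a ≤ b) (hb : b ≤ N) :
    Real.exp (θ * (Vw ω b - Vw ω a)) ≤ ∏ z : Fin N, sf θ a b z.1 (ω z) := by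
  have he := ext_pos ω hω
  rcases Nat.eq_or_lt_of_le hab with rfl | hlt
  · simp only [sub_self, mul_zero, Real.exp_zero]
    have : ∀ z : Fin N, sf θ a a z.1 (ω z) = 1 := by
      intro z
      unfold sf
      rw [if_neg (by omega)]
    simp [this]
  · have e1 : ∏ z : Fin N, sf θ a b z.1 (ω z) = ∏ z ∈ Finset.range N, sf θ a b z (ext ω z) := by
      rw [← Fin.prod_univ_eq_prod_range (fun z => sf θ a b z (ext ω z)) N]
      apply Finset.prod_congr rfl
      intro z _
      simp [ext, z.2]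
    have e2 : ∏ z ∈ Finset.range N, sf θ a b z (ext ω z)
        = ∏ z ∈ insert a (Finset.Ioo a b), sf θ a b z (ext ω z) := by
      symm
      apply Finset.prod_subset
      · intro z hz
        rw [Finset.mem_insert, Finset.mem_Ioo] at hz
        rw [Finset.mem_range]; omega
      · intro z _ hz
        rw [Finset.mem_insert, Finset.mem_Ioo] at hz
        unfold sf
        rw [if_neg (by omega)]
    have e3 : ∏ z ∈ Finset.Ioo a b, sf θ a b z (ext ω z)
        = Real.exp (θ * ∑ z ∈ Finset.Ioo a b, Real.log ((1 - ext ω z) / ext ω z)) := by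
      rw [Finset.mul_sum, Real.exp_sum]
      apply Finset.prod_congr rfl
      intro z hz
      have hz' := Finset.mem_Ioo.1 hz
      have h2 := he z
      unfold sf
      rw [if_pos (by omega), if_neg (by omega),
        Real.rpow_def_of_pos (div_pos (by linarith [h2.2]) (by linarith [h2.1])), mul_comm]
    have e4 : sf θ a b a (ext ω a) = Real.exp (θ * (-Real.log (ext ω a))) := by
      have h2 := he a
      unfold sf
      rw [if_pos (by omega), if_pos rfl, Real.rpow_def_of_pos h2.1]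
      ring_nf
    rw [e1, e2, Finset.prod_insert (by simp), e3, e4, ← Real.exp_add, Real.exp_le_exp,
      Vw_diff2 ω hω a b hlt, ← mul_add]
    apply mul_le_mul_of_nonneg_left _ hθ.le
    have h3 := he b
    have h5 : Real.log (1 - ext ω b) ≤ 0 := by
      apply Real.log_nonpos
      · linarith [h3.2]
      · linarith [h3.1]
    linarith

/-- one rise, `M` bounds the moment of `1 / u` -/
theorem rise_one2 {N : ℕ} (ν : Measure ℝ) [IsProbabilityMeasure ν]
    (hν : ν (Set.Ioo 0 1)ᶜ = 0) (θ m M : ℝ) (hθ : 0 < θ) (hm : 0 ≤ m) (hM : 0 ≤ M)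
    (hmν : ∫⁻ u, ENNReal.ofReal (((1 - u) / u) ^ θ) ∂ν ≤ ENNReal.ofReal m)
    (hMν : ∫⁻ u, ENNReal.ofReal (u ^ (-θ)) ∂ν ≤ ENNReal.ofReal M)
    (x y : ℕ) (hxy : x < y) (hy : y < N) :
    ∫⁻ ω, ENNReal.ofReal (Real.exp (θ * (Vw ω y - Vw ω x)))
      ∂(Measure.pi fun _ : Fin N => ν) ≤ ENNReal.ofReal (M * m ^ (y - x - 1)) := by
  calc ∫⁻ ω, ENNReal.ofReal (Real.exp (θ * (Vw ω y - Vw ω x)))
        ∂(Measure.pi fun _ : Fin N => ν)
      ≤ ∫⁻ ω, ∏ z : Fin N, ENNReal.ofReal (sf θ x y z.1 (ω z))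
        ∂(Measure.pi fun _ : Fin N => ν) := by
        apply lintegral_mono_ae
        filter_upwards [ae_good2 ν hν] with ω hω
        rw [← ENNReal.ofReal_prod_of_nonneg (fun z _ => sf_nonneg θ x y z.1 (hω z))]
        exact ENNReal.ofReal_le_ofReal (rise_det2 ω θ hθ hω x y hxy.le hy.le)
    _ = ∏ z : Fin N, ∫⁻ u, ENNReal.ofReal (sf θ x y z.1 u) ∂ν :=
        moment_prod2 ν (fun z u => ENNReal.ofReal (sf θ x y z.1 u))
          (fun z => ENNReal.measurable_ofReal.comp (sf_meas θ x y z.1))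
    _ ≤ ∏ z : Fin N, ((if z = (⟨x, by omega⟩ : Fin N) then ENNReal.ofReal M else 1)
          * (if z ∈ Xs N x y then ENNReal.ofReal m else 1)) := by
        apply Finset.prod_le_prod'
        intro z _
        by_cases h1 : z.1 = x
        · have hz1 : z = (⟨x, by omega⟩ : Fin N) := Fin.ext h1
          have hz2 : z ∉ Xs N x y := by
            simp only [Xs, Finset.mem_filter, Finset.mem_univ, true_and]; omega
          rw [if_pos hz1, if_neg hz2, mul_one]
          have : ∀ u, sf θ x y z.1 u = u ^ (-θ) := by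
            intro u
            unfold sf
            rw [if_pos (by omega), if_pos h1]
          simp only [this]
          exact hMν
        · have hz1 : z ≠ (⟨x, by omega⟩ : Fin N) := by
            intro hc; apply h1; rw [hc]
          rw [if_neg hz1, one_mul]
          by_cases h2 : x < z.1 ∧ z.1 < y
          · have hz2 : z ∈ Xs N x y := by
              simp only [Xs, Finset.mem_filter, Finset.mem_univ, true_and]; exact h2
            rw [if_pos hz2]
            have : ∀ u, sf θ x y z.1 u = ((1 - u) / u) ^ θ := by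
              intro u
              unfold sf
              rw [if_pos (by omega), if_neg h1]
            simp only [this]
            exact hmν
          · have hz2 : z ∉ Xs N x y := by
              simp only [Xs, Finset.mem_filter, Finset.mem_univ, true_and]; exact h2
            rw [if_neg hz2]
            have : ∀ u, sf θ x y z.1 u = 1 := by
              intro u
              unfold sf
              rw [if_neg (by omega)]
            simp [this]
    _ = ENNReal.ofReal (M * m ^ (y - x - 1)) := by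
        rw [Finset.prod_mul_distrib, Finset.prod_ite_eq' Finset.univ,
          if_pos (Finset.mem_univ _), ENNReal.ofReal_mul hM, ENNReal.ofReal_pow hm]
        congr 1
        rw [Finset.prod_ite_mem, Finset.univ_inter, Finset.prod_const, Xs_card hy.le]

/-- four rises; the second and the third interval may share one bond -/
theorem rise_four2 {N : ℕ} (ν : Measure ℝ) [IsProbabilityMeasure ν]
    (hν : ν (Set.Ioo 0 1)ᶜ = 0) (θ M : ℝ) (hθ : 0 < θ) (hM : 1 ≤ M)
    (hmν : ∫⁻ u, ENNReal.ofReal (((1 - u) / u) ^ θ) ∂ν ≤ 1)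
    (hMν : ∫⁻ u, ENNReal.ofReal (u ^ (-(2 * θ))) ∂ν ≤ ENNReal.ofReal M)
    (a₁ b₁ a₂ b₂ a₃ b₃ a₄ b₄ : ℕ) (h1 : a₁ ≤ b₁) (h2 : b₁ ≤ a₂) (h3 : a₂ ≤ b₂) (h4 : b₂ ≤ a₃ + 1)
    (h5 : a₃ ≤ b₃) (h6 : b₃ ≤ a₄) (h7 : a₄ ≤ b₄) (h8 : b₄ < N) :
    ∫⁻ ω, ENNReal.ofReal (Real.exp (θ * (((Vw ω b₁ - Vw ω a₁) + (Vw ω b₂ - Vw ω a₂))
      + ((Vw ω b₃ - Vw ω a₃) + (Vw ω b₄ - Vw ω a₄)))))
      ∂(Measure.pi fun _ : Fin N => ν) ≤ ENNReal.ofReal (M ^ 4) := by
  set G : ℕ → ℝ → ℝ := fun z u =>
    (sf θ a₁ b₁ z u * sf θ a₂ b₂ z u) * (sf θ a₃ b₃ z u * sf θ a₄ b₄ z u) with hG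
  have hGn : ∀ z : ℕ, ∀ u ∈ Set.Ioo (0 : ℝ) 1, 0 ≤ G z u := by
    intro z u hu
    exact mul_nonneg (mul_nonneg (sf_nonneg θ _ _ z hu) (sf_nonneg θ _ _ z hu))
      (mul_nonneg (sf_nonneg θ _ _ z hu) (sf_nonneg θ _ _ z hu))
  have hGm : ∀ z : ℕ, Measurable (G z) := by
    intro z
    exact ((sf_meas θ _ _ z).mul (sf_meas θ _ _ z)).mul ((sf_meas θ _ _ z).mul (sf_meas θ _ _ z))
  have hpair : ∀ (a b c d z : ℕ), a ≤ b → b ≤ c → c ≤ d → ∀ u ∈ Set.Ioo (0 : ℝ) 1,
      sf θ a b z u * sf θ c d z u ≤ u ^ (-θ) := by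
    intro a b c d z hab hbc hcd u hu
    by_cases hz : a ≤ z ∧ z < b
    · have : sf θ c d z u = 1 := by
        unfold sf; rw [if_neg (by omega)]
      rw [this, mul_one]
      exact sf_le θ hθ a b z hu
    · have : sf θ a b z u = 1 := by
        unfold sf; rw [if_neg hz]
      rw [this, one_mul]
      exact sf_le θ hθ c d z hu
  have hν' : ∀ᵐ u ∂ν, u ∈ Set.Ioo (0 : ℝ) 1 := by
    rw [ae_iff]; exact hν
  set T : Finset (Fin N) := Finset.univ.filter fun z => z.1 = a₁ ∨ z.1 = a₂ ∨ z.1 = a₃ ∨ z.1 = a₄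
    with hT
  have hTc : T.card ≤ 4 := by
    have hm : T.map Fin.valEmbedding ⊆ ({a₁, a₂, a₃, a₄} : Finset ℕ) := by
      intro z hz
      rw [Finset.mem_map] at hz
      obtain ⟨w, hw, rfl⟩ := hz
      simp only [hT, Finset.mem_filter, Finset.mem_univ, true_and] at hw
      simp only [Fin.valEmbedding_apply, Finset.mem_insert, Finset.mem_singleton]
      exact hw
    calc T.card = (T.map Fin.valEmbedding).card := (Finset.card_map _).symm
      _ ≤ ({a₁, a₂, a₃, a₄} : Finset ℕ).card := Finset.card_le_card hm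
      _ ≤ 4 := Finset.card_le_four
  have hM1 : (1 : ℝ≥0∞) ≤ ENNReal.ofReal M := by
    rw [← ENNReal.ofReal_one]; exact ENNReal.ofReal_le_ofReal hM
  calc ∫⁻ ω, ENNReal.ofReal (Real.exp (θ * (((Vw ω b₁ - Vw ω a₁) + (Vw ω b₂ - Vw ω a₂))
        + ((Vw ω b₃ - Vw ω a₃) + (Vw ω b₄ - Vw ω a₄)))))
        ∂(Measure.pi fun _ : Fin N => ν)
      ≤ ∫⁻ ω, ∏ z : Fin N, ENNReal.ofReal (G z.1 (ω z))
        ∂(Measure.pi fun _ : Fin N => ν) := by
        apply lintegral_mono_ae
        filter_upwards [ae_good2 ν hν] with ω hω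
        rw [← ENNReal.ofReal_prod_of_nonneg (fun z _ => hGn z.1 _ (hω z))]
        apply ENNReal.ofReal_le_ofReal
        have g1 := rise_det2 ω θ hθ hω a₁ b₁ h1 (by omega)
        have g2 := rise_det2 ω θ hθ hω a₂ b₂ h3 (by omega)
        have g3 := rise_det2 ω θ hθ hω a₃ b₃ h5 (by omega)
        have g4 := rise_det2 ω θ hθ hω a₄ b₄ h7 (by omega)
        have e : Real.exp (θ * (((Vw ω b₁ - Vw ω a₁) + (Vw ω b₂ - Vw ω a₂))
            + ((Vw ω b₃ - Vw ω a₃) + (Vw ω b₄ - Vw ω a₄))))
            = (Real.exp (θ * (Vw ω b₁ - Vw ω a₁)) * Real.exp (θ * (Vw ω b₂ - Vw ω a₂)))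
              * (Real.exp (θ * (Vw ω b₃ - Vw ω a₃)) * Real.exp (θ * (Vw ω b₄ - Vw ω a₄))) := by
          rw [← Real.exp_add, ← Real.exp_add, ← Real.exp_add]
          ring_nf
        have hnn : ∀ a b : ℕ, 0 ≤ ∏ z : Fin N, sf θ a b z.1 (ω z) := by
          intro a b
          exact Finset.prod_nonneg fun z _ => sf_nonneg θ a b z.1 (hω z)
        have m12 := mul_le_mul g1 g2 (Real.exp_pos _).le (hnn _ _)
        have m34 := mul_le_mul g3 g4 (Real.exp_pos _).le (hnn _ _)
        have m := mul_le_mul m12 m34 (mul_nonneg (Real.exp_pos _).le (Real.exp_pos _).le)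
          (mul_nonneg (hnn _ _) (hnn _ _))
        rw [e]
        refine le_trans m (le_of_eq ?_)
        simp only [hG, Finset.prod_mul_distrib]
    _ = ∏ z : Fin N, ∫⁻ u, ENNReal.ofReal (G z.1 u) ∂ν :=
        moment_prod2 ν (fun z u => ENNReal.ofReal (G z.1 u))
          (fun z => ENNReal.measurable_ofReal.comp (hGm z.1))
    _ ≤ ∏ z : Fin N, (if z ∈ T then ENNReal.ofReal M else 1) := by
        apply Finset.prod_le_prod'
        intro z _
        by_cases hz : z ∈ T
        · rw [if_pos hz]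
          refine le_trans (lintegral_mono_ae ?_) hMν
          filter_upwards [hν'] with u hu
          apply ENNReal.ofReal_le_ofReal
          have q1 := hpair a₁ b₁ a₂ b₂ z.1 h1 h2 h3 u hu
          have q2 := hpair a₃ b₃ a₄ b₄ z.1 h5 h6 h7 u hu
          have q3 : u ^ (-(2 * θ)) = u ^ (-θ) * u ^ (-θ) := by
            rw [← Real.rpow_add hu.1]; ring_nf
          rw [q3]
          exact mul_le_mul q1 q2
            (mul_nonneg (sf_nonneg θ _ _ z.1 hu) (sf_nonneg θ _ _ z.1 hu))
            (Real.rpow_nonneg hu.1.le _)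
        · rw [if_neg hz]
          simp only [hT, Finset.mem_filter, Finset.mem_univ, true_and, not_or] at hz
          obtain ⟨n1, n2, n3, n4⟩ := hz
          have key : (∀ u, G z.1 u = 1) ∨ (∀ u, G z.1 u = ((1 - u) / u) ^ θ) := by
            by_cases c1 : a₁ ≤ z.1 ∧ z.1 < b₁
            · right; intro u
              simp only [hG, sf]
              rw [if_pos c1, if_neg n1, if_neg (by omega), if_neg (by omega), if_neg (by omega)]
              ring
            · by_cases c2 : a₂ ≤ z.1 ∧ z.1 < b₂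
              · right; intro u
                simp only [hG, sf]
                rw [if_neg c1, if_pos c2, if_neg n2, if_neg (by omega), if_neg (by omega)]
                ring
              · by_cases c3 : a₃ ≤ z.1 ∧ z.1 < b₃
                · right; intro u
                  simp only [hG, sf]
                  rw [if_neg c1, if_neg c2, if_pos c3, if_neg n3, if_neg (by omega)]
                  ring
                · by_cases c4 : a₄ ≤ z.1 ∧ z.1 < b₄
                  · right; intro u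
                    simp only [hG, sf]
                    rw [if_neg c1, if_neg c2, if_neg c3, if_pos c4, if_neg n4]
                    ring
                  · left; intro u
                    simp only [hG, sf]
                    rw [if_neg c1, if_neg c2, if_neg c3, if_neg c4]
                    ring
          rcases key with hk | hk
          · simp [hk]
          · simp only [hk]
            exact hmν
    _ = (ENNReal.ofReal M) ^ T.card := by
        rw [Finset.prod_ite_mem, Finset.univ_inter, Finset.prod_const]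
    _ ≤ (ENNReal.ofReal M) ^ 4 := pow_le_pow_right₀ hM1 hTc
    _ = ENNReal.ofReal (M ^ 4) := (ENNReal.ofReal_pow (by linarith) 4).symm

end Pool.Agent.EBX
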