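import Mathlib
import Pool.Agent.EBX.EnvMoments2
import Pool.Agent.EBX.EnvGood

/-!
# EBX: copy of EBX/EnvGood with the new moments: drop by rise_one2 (θ=1, M = E 1/u), four/first/last/slow all by
rise_four2 (θ=s or θ=1; trivial rises a=b are allowed), fin by rise_one2 (finite expectation), bd: all ω x ≥ 1/N w.h.p.
(N P(u < 1/N) ≤ N N^(-2s) E u^(-2s) → 0) and then each up step is ≤ log N, each down step ≤ log(1/κ). ν lives on (0, 1-κ].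
-/

set_option autoImplicit false

open scoped Matrix ENNReal NNReal
open MeasureTheory Filter Topology

namespace Pool.Agent.EBX

namespace EnvGood2Aux

open EnvGoodAux

/-- two rises, from the four rises bound -/
theorem rise_two2 {N : ℕ} (ν : Measure ℝ) [IsProbabilityMeasure ν]
    (hν : ν (Set.Ioo 0 1)ᶜ = 0) (θ M : ℝ) (hθ : 0 < θ) (hM : 1 ≤ M)
    (hmν : ∫⁻ u, ENNReal.ofReal (((1 - u) / u) ^ θ) ∂ν ≤ 1)
    (hMν : ∫⁻ u, ENNReal.ofReal (u ^ (-(2 * θ))) ∂ν ≤ ENNReal.ofReal M)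
    (a₁ b₁ a₂ b₂ : ℕ) (h1 : a₁ ≤ b₁) (h2 : b₁ ≤ a₂) (h3 : a₂ ≤ b₂) (h8 : b₂ < N) :
    ∫⁻ ω, ENNReal.ofReal (Real.exp (θ * ((Vw ω b₁ - Vw ω a₁) + (Vw ω b₂ - Vw ω a₂))))
      ∂(Measure.pi fun _ : Fin N => ν) ≤ ENNReal.ofReal (M ^ 4) := by
  have h := rise_four2 (N := N) ν hν θ M hθ hM hmν hMν a₁ b₁ a₂ b₂ b₂ b₂ b₂ b₂ h1 h2 h3
    (Nat.le_succ _) le_rfl le_rfl le_rfl h8
  simpa using h

/-! ### probabilities -/

theorem p_range2 {N : ℕ} (ν : Measure ℝ) [IsProbabilityMeasure ν] (κ : ℝ)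
    (hν : ν (Set.Ioc 0 (1 - κ))ᶜ = 0) :
    (Measure.pi fun _ : Fin N => ν) {ω | ¬ ∀ x, ω x ∈ Set.Ioc 0 (1 - κ)} = 0 := by
  have h : ∀ᵐ ω ∂(Measure.pi fun _ : Fin N => ν), ∀ x, ω x ∈ Set.Ioc 0 (1 - κ) := by
    rw [ae_all_iff]
    intro x
    have h1 : ∀ᵐ u ∂ν, u ∈ Set.Ioc 0 (1 - κ) := by
      rw [ae_iff]
      exact hν
    exact (Measure.quasiMeasurePreserving_eval (μ := fun _ : Fin N => ν) x).ae h1
  exact ae_iff.1 h

theorem p_drop2 {N : ℕ} (ν : Measure ℝ) [IsProbabilityMeasure ν]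
    (hν : ν (Set.Ioo 0 1)ᶜ = 0) (m M : ℝ) (hm : 0 < m) (hm1 : m < 1) (hM : 0 ≤ M)
    (hmν : ∫⁻ u, ENNReal.ofReal ((1 - u) / u) ∂ν ≤ ENNReal.ofReal m)
    (hMν : ∫⁻ u, ENNReal.ofReal (u ^ (-(1 : ℝ))) ∂ν ≤ ENNReal.ofReal M) (w : ℕ) (hw : 1 ≤ w)
    (c : ℝ) :
    (Measure.pi fun _ : Fin N => ν)
        {ω | ∃ x y, x + w ≤ y ∧ y < N ∧ -c < Vw ω y - Vw ω x}
      ≤ ENNReal.ofReal ((N : ℝ) * N * (Real.exp c * (M * m ^ (w - 1)))) := by
  have h := union_bd (Measure.pi fun _ : Fin N => ν)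
    ((Finset.range N) ×ˢ (Finset.range N))
    (fun t => {ω : Fin N → ℝ | t.1 + w ≤ t.2 ∧ -c < Vw ω t.2 - Vw ω t.1})
    (Real.exp c * (M * m ^ (w - 1))) ?_
    {ω | ∃ x y, x + w ≤ y ∧ y < N ∧ -c < Vw ω y - Vw ω x} ?_
  · simpa using h
  · rintro ⟨x, y⟩ hxy
    simp only [Finset.mem_product, Finset.mem_range] at hxy
    by_cases hc : x + w ≤ y
    · have h1 := chern (Measure.pi fun _ : Fin N => ν) (fun ω => Vw ω y - Vw ω x)
        ((meas_Vw y).sub (meas_Vw x)) 1 (-c) (M * m ^ (y - x - 1)) one_pos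
        (rise_one2 ν hν 1 m M one_pos hm.le hM (by simpa using hmν) hMν x y (by omega) hxy.2)
      have h2 : {ω : Fin N → ℝ | x + w ≤ y ∧ -c < Vw ω y - Vw ω x}
          ⊆ {ω | -c < Vw ω y - Vw ω x} := fun ω hω => hω.2
      refine (measure_mono h2).trans (h1.trans ?_)
      apply ENNReal.ofReal_le_ofReal
      rw [one_mul, neg_neg]
      gcongr ?_ * (?_ * ?_)
      exact pow_le_pow_of_le_one hm.le hm1.le (by omega)
    · have : {ω : Fin N → ℝ | x + w ≤ y ∧ -c < Vw ω y - Vw ω x} = ∅ := by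
        ext ω
        simp [hc]
      rw [this]
      simp
  · rintro ω ⟨x, y, h1, h2, h3⟩
    exact ⟨(x, y), by simp only [Finset.mem_product, Finset.mem_range]; omega, h1, h3⟩

theorem p_four2 {N : ℕ} (ν : Measure ℝ) [IsProbabilityMeasure ν]
    (hν : ν (Set.Ioo 0 1)ᶜ = 0) (s M : ℝ) (hs : 0 < s) (hM : 1 ≤ M)
    (hmν : ∫⁻ u, ENNReal.ofReal (((1 - u) / u) ^ s) ∂ν ≤ 1)
    (hMν : ∫⁻ u, ENNReal.ofReal (u ^ (-(2 * s))) ∂ν ≤ ENNReal.ofReal M) (w : ℕ) (h : ℝ) :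
    (Measure.pi fun _ : Fin N => ν)
        {ω | ∃ a₁ b₁ a₂ b₂ a₃ b₃ a₄ b₄, a₁ ≤ b₁ ∧ b₁ ≤ a₂ ∧ a₂ ≤ b₂ ∧ b₂ ≤ a₃ + 1 ∧ a₃ ≤ b₃ ∧
          b₃ ≤ a₄ ∧ a₄ ≤ b₄ ∧ b₄ < N ∧ b₄ ≤ a₁ + 50 * w ∧
          h < ((Vw ω b₁ - Vw ω a₁) + (Vw ω b₂ - Vw ω a₂))
            + ((Vw ω b₃ - Vw ω a₃) + (Vw ω b₄ - Vw ω a₄))}
      ≤ ENNReal.ofReal (((N : ℝ) + 1) * (50 * (w : ℝ) + 3) ^ 7
          * (Real.exp (-(s * h)) * M ^ 4)) := by
  have key := union_bd (Measure.pi fun _ : Fin N => ν)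
    ((Finset.range (N + 1)) ×ˢ (Fintype.piFinset (fun _ : Fin 7 => Finset.range (50 * w + 3))))
    (fun t => {ω : Fin N → ℝ |
      (t.1 ≤ t.1 + t.2 0 - 1 ∧ t.1 + t.2 0 - 1 ≤ t.1 + t.2 1 - 1 ∧
        t.1 + t.2 1 - 1 ≤ t.1 + t.2 2 - 1 ∧
        t.1 + t.2 2 - 1 ≤ (t.1 + t.2 3 - 1) + 1 ∧ t.1 + t.2 3 - 1 ≤ t.1 + t.2 4 - 1 ∧
        t.1 + t.2 4 - 1 ≤ t.1 + t.2 5 - 1 ∧
        t.1 + t.2 5 - 1 ≤ t.1 + t.2 6 - 1 ∧ t.1 + t.2 6 - 1 < N) ∧
      h < ((Vw ω (t.1 + t.2 0 - 1) - Vw ω t.1)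
          + (Vw ω (t.1 + t.2 2 - 1) - Vw ω (t.1 + t.2 1 - 1)))
        + ((Vw ω (t.1 + t.2 4 - 1) - Vw ω (t.1 + t.2 3 - 1))
          + (Vw ω (t.1 + t.2 6 - 1) - Vw ω (t.1 + t.2 5 - 1)))})
    (Real.exp (-(s * h)) * M ^ 4) ?_
    {ω | ∃ a₁ b₁ a₂ b₂ a₃ b₃ a₄ b₄, a₁ ≤ b₁ ∧ b₁ ≤ a₂ ∧ a₂ ≤ b₂ ∧ b₂ ≤ a₃ + 1 ∧ a₃ ≤ b₃ ∧
          b₃ ≤ a₄ ∧ a₄ ≤ b₄ ∧ b₄ < N ∧ b₄ ≤ a₁ + 50 * w ∧
          h < ((Vw ω b₁ - Vw ω a₁) + (Vw ω b₂ - Vw ω a₂))
            + ((Vw ω b₃ - Vw ω a₃) + (Vw ω b₄ - Vw ω a₄))} ?_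
  · refine key.trans (le_of_eq ?_)
    congr 2
    rw [Finset.card_product, Finset.card_range, Fintype.card_piFinset]
    simp
  · rintro ⟨a, d⟩ -
    by_cases hc : (a ≤ a + d 0 - 1 ∧ a + d 0 - 1 ≤ a + d 1 - 1 ∧
        a + d 1 - 1 ≤ a + d 2 - 1 ∧
        a + d 2 - 1 ≤ (a + d 3 - 1) + 1 ∧ a + d 3 - 1 ≤ a + d 4 - 1 ∧
        a + d 4 - 1 ≤ a + d 5 - 1 ∧
        a + d 5 - 1 ≤ a + d 6 - 1 ∧ a + d 6 - 1 < N)
    · obtain ⟨c1, c2, c3, c4, c5, c6, c7, c8⟩ := hc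
      have h1 := chern (Measure.pi fun _ : Fin N => ν)
        (fun ω => ((Vw ω (a + d 0 - 1) - Vw ω a) + (Vw ω (a + d 2 - 1) - Vw ω (a + d 1 - 1)))
          + ((Vw ω (a + d 4 - 1) - Vw ω (a + d 3 - 1))
            + (Vw ω (a + d 6 - 1) - Vw ω (a + d 5 - 1))))
        ((((meas_Vw _).sub (meas_Vw _)).add ((meas_Vw _).sub (meas_Vw _))).add
          (((meas_Vw _).sub (meas_Vw _)).add ((meas_Vw _).sub (meas_Vw _)))) s h
        (M ^ 4) hs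
        (rise_four2 ν hν s M hs hM hmν hMν a (a + d 0 - 1) (a + d 1 - 1) (a + d 2 - 1)
          (a + d 3 - 1) (a + d 4 - 1) (a + d 5 - 1) (a + d 6 - 1) c1 c2 c3 c4 c5 c6 c7 c8)
      refine le_trans (measure_mono ?_) h1
      exact fun ω hω => hω.2
    · refine le_trans (le_of_eq ?_) zero_le
      have : {ω : Fin N → ℝ |
          (a ≤ a + d 0 - 1 ∧ a + d 0 - 1 ≤ a + d 1 - 1 ∧
            a + d 1 - 1 ≤ a + d 2 - 1 ∧
            a + d 2 - 1 ≤ (a + d 3 - 1) + 1 ∧ a + d 3 - 1 ≤ a + d 4 - 1 ∧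
            a + d 4 - 1 ≤ a + d 5 - 1 ∧
            a + d 5 - 1 ≤ a + d 6 - 1 ∧ a + d 6 - 1 < N) ∧
          h < ((Vw ω (a + d 0 - 1) - Vw ω a) + (Vw ω (a + d 2 - 1) - Vw ω (a + d 1 - 1)))
            + ((Vw ω (a + d 4 - 1) - Vw ω (a + d 3 - 1))
              + (Vw ω (a + d 6 - 1) - Vw ω (a + d 5 - 1)))} = ∅ :=
        Set.eq_empty_of_forall_notMem fun ω hω => hc hω.1
      exact (congrArg _ this).trans measure_empty
  · rintro ω ⟨a₁, b₁, a₂, b₂, a₃, b₃, a₄, b₄, c1, c2, c3, c4, c5, c6, c7, c8, c9, hlt⟩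
    refine ⟨(a₁, ![b₁ + 1 - a₁, a₂ + 1 - a₁, b₂ + 1 - a₁, a₃ + 1 - a₁, b₃ + 1 - a₁,
      a₄ + 1 - a₁, b₄ + 1 - a₁]), ?_, ?_⟩
    · simp only [Finset.mem_product, Finset.mem_range, Fintype.mem_piFinset]
      refine ⟨by omega, ?_⟩
      intro i
      fin_cases i <;> simp <;> omega
    · have e1 : a₁ + (b₁ + 1 - a₁) - 1 = b₁ := by omega
      have e2 : a₁ + (a₂ + 1 - a₁) - 1 = a₂ := by omega
      have e3 : a₁ + (b₂ + 1 - a₁) - 1 = b₂ := by omega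
      have e4 : a₁ + (a₃ + 1 - a₁) - 1 = a₃ := by omega
      have e5 : a₁ + (b₃ + 1 - a₁) - 1 = b₃ := by omega
      have e6 : a₁ + (a₄ + 1 - a₁) - 1 = a₄ := by omega
      have e7 : a₁ + (b₄ + 1 - a₁) - 1 = b₄ := by omega
      have f0 : (![b₁ + 1 - a₁, a₂ + 1 - a₁, b₂ + 1 - a₁, a₃ + 1 - a₁, b₃ + 1 - a₁,
          a₄ + 1 - a₁, b₄ + 1 - a₁] : Fin 7 → ℕ) 0 = b₁ + 1 - a₁ := rfl
      have f1 : (![b₁ + 1 - a₁, a₂ + 1 - a₁, b₂ + 1 - a₁, a₃ + 1 - a₁, b₃ + 1 - a₁,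
          a₄ + 1 - a₁, b₄ + 1 - a₁] : Fin 7 → ℕ) 1 = a₂ + 1 - a₁ := rfl
      have f2 : (![b₁ + 1 - a₁, a₂ + 1 - a₁, b₂ + 1 - a₁, a₃ + 1 - a₁, b₃ + 1 - a₁,
          a₄ + 1 - a₁, b₄ + 1 - a₁] : Fin 7 → ℕ) 2 = b₂ + 1 - a₁ := rfl
      have f3 : (![b₁ + 1 - a₁, a₂ + 1 - a₁, b₂ + 1 - a₁, a₃ + 1 - a₁, b₃ + 1 - a₁,
          a₄ + 1 - a₁, b₄ + 1 - a₁] : Fin 7 → ℕ) 3 = a₃ + 1 - a₁ := rfl
      have f4 : (![b₁ + 1 - a₁, a₂ + 1 - a₁, b₂ + 1 - a₁, a₃ + 1 - a₁, b₃ + 1 - a₁,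
          a₄ + 1 - a₁, b₄ + 1 - a₁] : Fin 7 → ℕ) 4 = b₃ + 1 - a₁ := rfl
      have f5 : (![b₁ + 1 - a₁, a₂ + 1 - a₁, b₂ + 1 - a₁, a₃ + 1 - a₁, b₃ + 1 - a₁,
          a₄ + 1 - a₁, b₄ + 1 - a₁] : Fin 7 → ℕ) 5 = a₄ + 1 - a₁ := rfl
      have f6 : (![b₁ + 1 - a₁, a₂ + 1 - a₁, b₂ + 1 - a₁, a₃ + 1 - a₁, b₃ + 1 - a₁,
          a₄ + 1 - a₁, b₄ + 1 - a₁] : Fin 7 → ℕ) 6 = b₄ + 1 - a₁ := rfl
      simp only [Set.mem_ofPred_eq, f0, f1, f2, f3, f4, f5, f6, e1, e2, e3, e4, e5, e6, e7]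
      exact ⟨⟨by omega, by omega, by omega, by omega, by omega, by omega, by omega, by omega⟩,
        hlt⟩

/-- two rises in a window of `n` sites starting at `a` -/
theorem p_two2 {N : ℕ} (ν : Measure ℝ) [IsProbabilityMeasure ν]
    (hν : ν (Set.Ioo 0 1)ᶜ = 0) (s M : ℝ) (hs : 0 < s) (hM : 1 ≤ M)
    (hmν : ∫⁻ u, ENNReal.ofReal (((1 - u) / u) ^ s) ∂ν ≤ 1)
    (hMν : ∫⁻ u, ENNReal.ofReal (u ^ (-(2 * s))) ∂ν ≤ ENNReal.ofReal M) (a n : ℕ) (h : ℝ) :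
    (Measure.pi fun _ : Fin N => ν)
        {ω | ∃ a₁ b₁ a₂ b₂, a ≤ a₁ ∧ a₁ ≤ b₁ ∧ b₁ ≤ a₂ ∧ a₂ ≤ b₂ ∧ b₂ < N ∧ b₂ < a + n ∧
          h < (Vw ω b₁ - Vw ω a₁) + (Vw ω b₂ - Vw ω a₂)}
      ≤ ENNReal.ofReal ((n : ℝ) ^ 4 * (Real.exp (-(s * h)) * M ^ 4)) := by
  have key := union_bd (Measure.pi fun _ : Fin N => ν)
    (Fintype.piFinset (fun _ : Fin 4 => Finset.range n))
    (fun t => {ω : Fin N → ℝ |
      (a + t 0 ≤ a + t 1 ∧ a + t 1 ≤ a + t 2 ∧ a + t 2 ≤ a + t 3 ∧ a + t 3 < N) ∧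
      h < (Vw ω (a + t 1) - Vw ω (a + t 0)) + (Vw ω (a + t 3) - Vw ω (a + t 2))})
    (Real.exp (-(s * h)) * M ^ 4) ?_
    {ω | ∃ a₁ b₁ a₂ b₂, a ≤ a₁ ∧ a₁ ≤ b₁ ∧ b₁ ≤ a₂ ∧ a₂ ≤ b₂ ∧ b₂ < N ∧ b₂ < a + n ∧
          h < (Vw ω b₁ - Vw ω a₁) + (Vw ω b₂ - Vw ω a₂)} ?_
  · refine key.trans (le_of_eq ?_)
    congr 2
    rw [Fintype.card_piFinset]
    simp
  · rintro d -
    by_cases hc : (a + d 0 ≤ a + d 1 ∧ a + d 1 ≤ a + d 2 ∧ a + d 2 ≤ a + d 3 ∧ a + d 3 < N)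
    · obtain ⟨c1, c2, c3, c4⟩ := hc
      have h1 := chern (Measure.pi fun _ : Fin N => ν)
        (fun ω => (Vw ω (a + d 1) - Vw ω (a + d 0)) + (Vw ω (a + d 3) - Vw ω (a + d 2)))
        (((meas_Vw _).sub (meas_Vw _)).add ((meas_Vw _).sub (meas_Vw _))) s h
        (M ^ 4) hs
        (rise_two2 ν hν s M hs hM hmν hMν (a + d 0) (a + d 1) (a + d 2) (a + d 3) c1 c2 c3 c4)
      refine le_trans (measure_mono ?_) h1
      exact fun ω hω => hω.2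
    · refine le_trans (le_of_eq ?_) zero_le
      have : {ω : Fin N → ℝ |
          (a + d 0 ≤ a + d 1 ∧ a + d 1 ≤ a + d 2 ∧ a + d 2 ≤ a + d 3 ∧ a + d 3 < N) ∧
          h < (Vw ω (a + d 1) - Vw ω (a + d 0)) + (Vw ω (a + d 3) - Vw ω (a + d 2))} = ∅ :=
        Set.eq_empty_of_forall_notMem fun ω hω => hc hω.1
      exact (congrArg _ this).trans measure_empty
  · rintro ω ⟨a₁, b₁, a₂, b₂, c0, c1, c2, c3, c4, c5, hlt⟩
    refine ⟨![a₁ - a, b₁ - a, a₂ - a, b₂ - a], ?_, ?_⟩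
    · simp only [Finset.mem_range, Fintype.mem_piFinset]
      intro i
      fin_cases i <;> simp <;> omega
    · have e0 : a + (a₁ - a) = a₁ := by omega
      have e1 : a + (b₁ - a) = b₁ := by omega
      have e2 : a + (a₂ - a) = a₂ := by omega
      have e3 : a + (b₂ - a) = b₂ := by omega
      have f0 : (![a₁ - a, b₁ - a, a₂ - a, b₂ - a] : Fin 4 → ℕ) 0 = a₁ - a := rfl
      have f1 : (![a₁ - a, b₁ - a, a₂ - a, b₂ - a] : Fin 4 → ℕ) 1 = b₁ - a := rfl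
      have f2 : (![a₁ - a, b₁ - a, a₂ - a, b₂ - a] : Fin 4 → ℕ) 2 = a₂ - a := rfl
      have f3 : (![a₁ - a, b₁ - a, a₂ - a, b₂ - a] : Fin 4 → ℕ) 3 = b₂ - a := rfl
      simp only [Set.mem_ofPred_eq, f0, f1, f2, f3, e0, e1, e2, e3]
      exact ⟨⟨by omega, by omega, by omega, by omega⟩, hlt⟩

theorem l_Z22 {N : ℕ} (ν : Measure ℝ) [IsProbabilityMeasure ν]
    (hν : ν (Set.Ioo 0 1)ᶜ = 0) (M : ℝ) (hM : 1 ≤ M)
    (hmν : ∫⁻ u, ENNReal.ofReal (((1 - u) / u) ^ (1 : ℝ)) ∂ν ≤ 1)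
    (hMν : ∫⁻ u, ENNReal.ofReal (u ^ (-(2 * (1 : ℝ)))) ∂ν ≤ ENNReal.ofReal M) (w x : ℕ) :
    ∫⁻ ω, ENNReal.ofReal (Z2 N w (Vw ω) x) ∂(Measure.pi fun _ : Fin N => ν)
      ≤ ENNReal.ofReal ((24 * (w : ℝ)) * ((24 * (w : ℝ)) * ((24 * (w : ℝ)) *
          ((24 * (w : ℝ)) * M ^ 4)))) := by
  have hc : ∀ z, x ≤ z → ((Finset.Ico z (min N (x + 24 * w))).card : ℝ) ≤ 24 * (w : ℝ) := by
    intro z hz
    rw [Nat.card_Ico]
    have : min N (x + 24 * w) - z ≤ 24 * w := by omega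
    exact_mod_cast this
  have m4 : ∀ a₁ b₁ a₂ b₂ : ℕ, Measurable fun ω : Fin N → ℝ =>
      Real.exp ((Vw ω b₁ - Vw ω a₁) + (Vw ω b₂ - Vw ω a₂)) := fun a₁ b₁ a₂ b₂ =>
    Real.measurable_exp.comp (((meas_Vw _).sub (meas_Vw _)).add ((meas_Vw _).sub (meas_Vw _)))
  unfold Z2
  refine sum_bd _ _ (fun a₁ ω => _) (fun a₁ _ => ?_) (fun a₁ _ ω => ?_) _ _ (by positivity)
    (hc x le_rfl) (fun a₁ ha₁ => ?_)
  · exact Finset.measurable_sum _ fun b₁ _ => Finset.measurable_sum _ fun a₂ _ =>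
      Finset.measurable_sum _ fun b₂ _ => m4 _ _ _ _
  · positivity
  rw [Finset.mem_Ico] at ha₁
  refine sum_bd _ _ (fun b₁ ω => _) (fun b₁ _ => ?_) (fun b₁ _ ω => ?_) _ _ (by positivity)
    (hc a₁ ha₁.1) (fun b₁ hb₁ => ?_)
  · exact Finset.measurable_sum _ fun a₂ _ =>
      Finset.measurable_sum _ fun b₂ _ => m4 _ _ _ _
  · positivity
  rw [Finset.mem_Ico] at hb₁
  refine sum_bd _ _ (fun a₂ ω => _) (fun a₂ _ => ?_) (fun a₂ _ ω => ?_) _ _ (by positivity)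
    (hc b₁ (by omega)) (fun a₂ ha₂ => ?_)
  · exact Finset.measurable_sum _ fun b₂ _ => m4 _ _ _ _
  · positivity
  rw [Finset.mem_Ico] at ha₂
  refine sum_bd _ _ (fun b₂ ω => _) (fun b₂ _ => ?_) (fun b₂ _ ω => ?_) _ _ (by positivity)
    (hc a₂ (by omega)) (fun b₂ hb₂ => ?_)
  · exact m4 _ _ _ _
  · positivity
  rw [Finset.mem_Ico] at hb₂
  have h := rise_two2 (N := N) ν hν 1 M one_pos hM hmν hMν a₁ b₁ a₂ b₂ hb₁.1 ha₂.1 hb₂.1
    (by omega)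
  simpa only [one_mul] using h

theorem p_slow2 {N : ℕ} (ν : Measure ℝ) [IsProbabilityMeasure ν]
    (hν : ν (Set.Ioo 0 1)ᶜ = 0) (M : ℝ) (hM : 1 ≤ M)
    (hmν : ∫⁻ u, ENNReal.ofReal (((1 - u) / u) ^ (1 : ℝ)) ∂ν ≤ 1)
    (hMν : ∫⁻ u, ENNReal.ofReal (u ^ (-(2 * (1 : ℝ)))) ∂ν ≤ ENNReal.ofReal M)
    (w : ℕ) (c : ℝ) (hc : 0 < c) :
    (Measure.pi fun _ : Fin N => ν)
        {ω | c < ∑ x ∈ Finset.range N, Z2 N w (Vw ω) x}
      ≤ ENNReal.ofReal (c⁻¹ * ((N : ℝ) * ((24 * (w : ℝ)) * ((24 * (w : ℝ)) * ((24 * (w : ℝ)) *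
          ((24 * (w : ℝ)) * M ^ 4)))))) := by
  refine mark _ _ (Finset.measurable_sum _ fun x _ => meas_Z2 w x) c _ hc ?_
  refine sum_bd _ _ (fun x ω => _) (fun x _ => meas_Z2 w x) (fun x _ ω => ?_) _ _
    (by positivity) (by simp) (fun x _ => l_Z22 ν hν M hM hmν hMν w x)
  unfold Z2
  positivity

theorem p_fin2 {N : ℕ} (ν : Measure ℝ) [IsProbabilityMeasure ν]
    (hν : ν (Set.Ioo 0 1)ᶜ = 0) (m M : ℝ) (hm : 0 < m) (hm1 : m < 1) (hM : 1 ≤ M)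
    (hmν : ∫⁻ u, ENNReal.ofReal ((1 - u) / u) ∂ν ≤ ENNReal.ofReal m)
    (hMν : ∫⁻ u, ENNReal.ofReal (u ^ (-(1 : ℝ))) ∂ν ≤ ENNReal.ofReal M) (y : ℕ) (hy : y < N)
    (c : ℝ) (hc : 0 < c) :
    (Measure.pi fun _ : Fin N => ν)
        {ω | c < (∑ x ∈ Finset.range y, Real.exp (Vw ω y - Vw ω x))
          + ∑ x ∈ Finset.Ico y N, Real.exp (Vw ω x - Vw ω y)}
      ≤ ENNReal.ofReal (c⁻¹ * (M * (1 - m)⁻¹ + M * (1 + (1 - m)⁻¹))) := by
  have hm' : ∫⁻ u, ENNReal.ofReal (((1 - u) / u) ^ (1 : ℝ)) ∂ν ≤ ENNReal.ofReal m := by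
    simpa using hmν
  have hM0 : (0 : ℝ) ≤ M := by linarith
  have hme : ∀ a b : ℕ, Measurable fun ω : Fin N → ℝ => Real.exp (Vw ω a - Vw ω b) :=
    fun a b => Real.measurable_exp.comp ((meas_Vw _).sub (meas_Vw _))
  have m1 : Measurable fun ω : Fin N → ℝ => ∑ x ∈ Finset.range y, Real.exp (Vw ω y - Vw ω x) :=
    Finset.measurable_sum _ fun x _ => hme _ _
  have m2 : Measurable fun ω : Fin N → ℝ => ∑ x ∈ Finset.Ico y N, Real.exp (Vw ω x - Vw ω y) :=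
    Finset.measurable_sum _ fun x _ => hme _ _
  have hq : 0 < (1 - m)⁻¹ := inv_pos.2 (by linarith)
  have b1 : ∫⁻ ω, ENNReal.ofReal (∑ x ∈ Finset.range y, Real.exp (Vw ω y - Vw ω x))
      ∂(Measure.pi fun _ : Fin N => ν) ≤ ENNReal.ofReal (M * (1 - m)⁻¹) := by
    refine (sum_bd' (Measure.pi fun _ : Fin N => ν) (Finset.range y)
      (fun x ω => Real.exp (Vw ω y - Vw ω x)) (fun x _ => hme _ _)
      (fun x _ ω => (Real.exp_pos _).le) (fun x => M * m ^ (y - x - 1))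
      (fun x _ => by positivity) (fun x hx => ?_)).trans ?_
    · have h := rise_one2 (N := N) ν hν 1 m M one_pos hm.le hM0 hm' hMν x y
        (Finset.mem_range.1 hx) hy
      simpa only [one_mul] using h
    · apply ENNReal.ofReal_le_ofReal
      rw [← Finset.mul_sum]
      gcongr
      have : ∑ x ∈ Finset.range y, m ^ (y - x - 1) = ∑ x ∈ Finset.range y, m ^ x := by
        rw [← Finset.sum_range_reflect (fun x => m ^ x) y]
        refine Finset.sum_congr rfl fun x _ => ?_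
        congr 1
        omega
      rw [this]
      exact geom_le m hm hm1 y
  have b2 : ∫⁻ ω, ENNReal.ofReal (∑ x ∈ Finset.Ico y N, Real.exp (Vw ω x - Vw ω y))
      ∂(Measure.pi fun _ : Fin N => ν) ≤ ENNReal.ofReal (M * (1 + (1 - m)⁻¹)) := by
    refine (sum_bd' (Measure.pi fun _ : Fin N => ν) (Finset.Ico y N)
      (fun x ω => Real.exp (Vw ω x - Vw ω y)) (fun x _ => hme _ _)
      (fun x _ ω => (Real.exp_pos _).le) (fun x => M * m ^ (x - y - 1))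
      (fun x _ => by positivity) (fun x hx => ?_)).trans ?_
    · rw [Finset.mem_Ico] at hx
      rcases Nat.eq_or_lt_of_le hx.1 with rfl | hlt
      · simpa using hM
      · have h := rise_one2 (N := N) ν hν 1 m M one_pos hm.le hM0 hm' hMν y x hlt hx.2
        simpa only [one_mul] using h
    · apply ENNReal.ofReal_le_ofReal
      rw [← Finset.mul_sum]
      gcongr
      rw [Finset.sum_Ico_eq_sum_range]
      obtain ⟨n, hn⟩ : ∃ n, N - y = n + 1 := ⟨N - y - 1, by omega⟩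
      rw [hn, Finset.sum_range_succ']
      have : ∑ k ∈ Finset.range n, m ^ (y + (k + 1) - y - 1) = ∑ k ∈ Finset.range n, m ^ k := by
        refine Finset.sum_congr rfl fun x _ => ?_
        congr 1
        omega
      rw [this]
      have h0 : m ^ (y + 0 - y - 1) = 1 := by
        have : y + 0 - y - 1 = 0 := by omega
        rw [this, pow_zero]
      rw [h0, add_comm]
      gcongr
      exact geom_le m hm hm1 n
  refine mark _ _ (m1.add m2) c _ hc ?_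
  have hs1 : ∀ ω : Fin N → ℝ, 0 ≤ ∑ x ∈ Finset.range y, Real.exp (Vw ω y - Vw ω x) :=
    fun ω => Finset.sum_nonneg fun _ _ => (Real.exp_pos _).le
  have hs2 : ∀ ω : Fin N → ℝ, 0 ≤ ∑ x ∈ Finset.Ico y N, Real.exp (Vw ω x - Vw ω y) :=
    fun ω => Finset.sum_nonneg fun _ _ => (Real.exp_pos _).le
  calc ∫⁻ ω, ENNReal.ofReal ((∑ x ∈ Finset.range y, Real.exp (Vw ω y - Vw ω x))
          + ∑ x ∈ Finset.Ico y N, Real.exp (Vw ω x - Vw ω y)) ∂(Measure.pi fun _ : Fin N => ν)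
      = ∫⁻ ω, (ENNReal.ofReal (∑ x ∈ Finset.range y, Real.exp (Vw ω y - Vw ω x))
          + ENNReal.ofReal (∑ x ∈ Finset.Ico y N, Real.exp (Vw ω x - Vw ω y)))
            ∂(Measure.pi fun _ : Fin N => ν) := by
        congr 1
        funext ω
        exact ENNReal.ofReal_add (hs1 ω) (hs2 ω)
    _ = ∫⁻ ω, ENNReal.ofReal (∑ x ∈ Finset.range y, Real.exp (Vw ω y - Vw ω x))
            ∂(Measure.pi fun _ : Fin N => ν)
        + ∫⁻ ω, ENNReal.ofReal (∑ x ∈ Finset.Ico y N, Real.exp (Vw ω x - Vw ω y))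
            ∂(Measure.pi fun _ : Fin N => ν) :=
        lintegral_add_left (ENNReal.measurable_ofReal.comp m1) _
    _ ≤ ENNReal.ofReal (M * (1 - m)⁻¹) + ENNReal.ofReal (M * (1 + (1 - m)⁻¹)) :=
        add_le_add b1 b2
    _ = ENNReal.ofReal (M * (1 - m)⁻¹ + M * (1 + (1 - m)⁻¹)) :=
        (ENNReal.ofReal_add (by positivity) (by positivity)).symm

/-- all sites are at least `1 / N` -/
theorem p_low {N : ℕ} (ν : Measure ℝ) [IsProbabilityMeasure ν]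
    (hν : ν (Set.Ioo 0 1)ᶜ = 0) (s M : ℝ) (hs : 0 < s)
    (hMν : ∫⁻ u, ENNReal.ofReal (u ^ (-(2 * s))) ∂ν ≤ ENNReal.ofReal M) (t : ℝ) (ht : 0 < t) :
    (Measure.pi fun _ : Fin N => ν) {ω | ∃ x : Fin N, ω x < t}
      ≤ ENNReal.ofReal ((N : ℝ) * (t ^ (2 * s) * M)) := by
  have h := union_bd (Measure.pi fun _ : Fin N => ν) (Finset.univ : Finset (Fin N))
    (fun x => {ω : Fin N → ℝ | ω x < t}) (t ^ (2 * s) * M) ?_ {ω | ∃ x : Fin N, ω x < t} ?_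
  · simpa using h
  · intro x _
    have h1 : (Measure.pi fun _ : Fin N => ν) {ω : Fin N → ℝ | ω x < t} = ν (Set.Iio t) := by
      have := (measurePreserving_eval (μ := fun _ : Fin N => ν) x).measure_preimage
        (s := Set.Iio t) measurableSet_Iio.nullMeasurableSet
      simpa [Function.eval, Set.preimage] using this
    rw [h1]
    have hpos : ∀ᵐ u ∂ν, u ∈ Set.Ioo (0 : ℝ) 1 := by
      rw [ae_iff]
      exact hν
    have hgm : Measurable fun u : ℝ => ENNReal.ofReal (u ^ (-(2 * s))) := by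
      apply ENNReal.measurable_ofReal.comp
      exact measurable_id.pow_const _
    have h2 : ENNReal.ofReal (t ^ (-(2 * s)))
          * ν {u | ENNReal.ofReal (t ^ (-(2 * s))) ≤ ENNReal.ofReal (u ^ (-(2 * s)))}
        ≤ ∫⁻ u, ENNReal.ofReal (u ^ (-(2 * s))) ∂ν :=
      mul_meas_ge_le_lintegral hgm _
    have h3 : ν (Set.Iio t)
        ≤ ν {u | ENNReal.ofReal (t ^ (-(2 * s))) ≤ ENNReal.ofReal (u ^ (-(2 * s)))} := by
      apply measure_mono_ae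
      filter_upwards [hpos] with u hu hut
      exact ENNReal.ofReal_le_ofReal
        (Real.rpow_le_rpow_of_nonpos hu.1 (le_of_lt hut) (by linarith))
    calc ν (Set.Iio t) = ENNReal.ofReal (t ^ (2 * s)) * (ENNReal.ofReal (t ^ (-(2 * s)))
          * ν (Set.Iio t)) := by
          rw [← mul_assoc, ← ENNReal.ofReal_mul (by positivity), ← Real.rpow_add ht]
          simp
      _ ≤ ENNReal.ofReal (t ^ (2 * s)) * ENNReal.ofReal M := by
          gcongr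
          exact le_trans (by gcongr) (h2.trans hMν)
      _ = ENNReal.ofReal (t ^ (2 * s) * M) := (ENNReal.ofReal_mul (by positivity)).symm
  · rintro ω ⟨x, hx⟩
    exact ⟨x, Finset.mem_univ _, hx⟩

/-- oscillation of the potential -/
theorem osc {N : ℕ} (κ : ℝ) (hκ : 0 < κ) (hκ1 : κ ≤ 1) (hN : 1 ≤ N) (ω : Fin N → ℝ)
    (h1 : ∀ x, ω x ∈ Set.Ioc 0 (1 - κ)) (h2 : ∀ x, 1 / (N : ℝ) ≤ ω x) (n : ℕ) (x y : ℕ)
    (hx : x < N) (hy : y < N) (hxy : x ≤ y + n) (hyx : y ≤ x + n) :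
    Vw ω x - Vw ω y ≤ n * (Real.log N + Real.log (1 / κ)) := by
  have hN0 : (0 : ℝ) < N := by exact_mod_cast hN
  have hL : 0 ≤ Real.log N := Real.log_nonneg (by exact_mod_cast hN)
  have hK : 0 ≤ Real.log (1 / κ) := Real.log_nonneg (by rw [le_div_iff₀ hκ]; linarith)
  have hst : ∀ i, i + 1 < N → Real.log (qw ω i / pw ω i) ≤ Real.log N ∧
      - Real.log (1 / κ) ≤ Real.log (qw ω i / pw ω i) := by
    intro i hi
    have e1 : pw ω i = ω ⟨i, by omega⟩ := by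
      simp only [pw, ext, show i < N by omega, dif_pos]
    have e2 : qw ω i = 1 - ω ⟨i + 1, hi⟩ := by
      simp only [qw, ext, hi, dif_pos]
    have a1 := h1 ⟨i, by omega⟩
    have a2 := h1 ⟨i + 1, hi⟩
    have a3 := h2 ⟨i, by omega⟩
    rw [e1, e2]
    set u := ω ⟨i, by omega⟩
    set v := ω ⟨i + 1, hi⟩
    have hu : 0 < u := a1.1
    have hu1 : u ≤ 1 := by linarith [a1.2]
    have hv : κ ≤ 1 - v := by linarith [a2.2]
    have hv1 : 1 - v ≤ 1 := by linarith [a2.1]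
    have hv0 : 0 < 1 - v := lt_of_lt_of_le hκ hv
    constructor
    · apply Real.log_le_log (by positivity)
      rw [div_le_iff₀ hu]
      rw [div_le_iff₀ hN0] at a3
      nlinarith
    · rw [← Real.log_inv, one_div, inv_inv]
      apply Real.log_le_log hκ
      rw [le_div_iff₀ hu]
      nlinarith
  rcases le_total y x with hle | hle
  · have e : Vw ω x - Vw ω y = ∑ i ∈ Finset.Ico y x, Real.log (qw ω i / pw ω i) := by
      unfold Vw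
      rw [Finset.sum_Ico_eq_sub _ hle]
    rw [e]
    calc ∑ i ∈ Finset.Ico y x, Real.log (qw ω i / pw ω i)
        ≤ ∑ i ∈ Finset.Ico y x, Real.log N := by
          refine Finset.sum_le_sum fun i hi => ?_
          rw [Finset.mem_Ico] at hi
          exact (hst i (by omega)).1
      _ = ((x - y : ℕ) : ℝ) * Real.log N := by
          rw [Finset.sum_const, Nat.card_Ico, nsmul_eq_mul]
      _ ≤ n * (Real.log N + Real.log (1 / κ)) := by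
          have : ((x - y : ℕ) : ℝ) ≤ n := by exact_mod_cast (by omega : x - y ≤ n)
          gcongr
          linarith
  · have e : Vw ω x - Vw ω y = - ∑ i ∈ Finset.Ico x y, Real.log (qw ω i / pw ω i) := by
      unfold Vw
      rw [Finset.sum_Ico_eq_sub _ hle]
      ring
    rw [e, ← Finset.sum_neg_distrib]
    calc ∑ i ∈ Finset.Ico x y, -Real.log (qw ω i / pw ω i)
        ≤ ∑ i ∈ Finset.Ico x y, Real.log (1 / κ) := by
          refine Finset.sum_le_sum fun i hi => ?_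
          rw [Finset.mem_Ico] at hi
          linarith [(hst i (by omega)).2]
      _ = ((y - x : ℕ) : ℝ) * Real.log (1 / κ) := by
          rw [Finset.sum_const, Nat.card_Ico, nsmul_eq_mul]
      _ ≤ n * (Real.log N + Real.log (1 / κ)) := by
          have : ((y - x : ℕ) : ℝ) ≤ n := by exact_mod_cast (by omega : y - x ≤ n)
          gcongr
          linarith

/-! ### asymptotics -/

theorem ev_w2 (C : ℝ) (hC : 0 < C) (δ : ℝ) (hδ : 0 < δ) :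
    ∀ᶠ N : ℕ in atTop, 50 * ((⌈C * Real.log N⌉₊ : ℕ) : ℝ) + 3 ≤ Real.exp (δ * Real.log N) := by
  filter_upwards [tendsto_log_nat.eventually_ge_atTop (1 : ℝ),
    tendsto_log_nat.eventually_ge_atTop (2 * (50 * C + 53) / δ ^ 2)] with N h1 h2
  set L := Real.log N
  have h3 : ((⌈C * L⌉₊ : ℕ) : ℝ) < C * L + 1 := Nat.ceil_lt_add_one (by positivity)
  have h4 := Real.quadratic_le_exp_of_nonneg (x := δ * L) (by positivity)
  rw [div_le_iff₀ (by positivity)] at h2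
  have h5 : 0 ≤ δ * L := by positivity
  nlinarith [mul_le_mul_of_nonneg_left h2 (by linarith : (0 : ℝ) ≤ L)]

end EnvGood2Aux

open EnvGoodAux EnvGood2Aux in
theorem env_good2 (ν : Measure ℝ) [IsProbabilityMeasure ν] (κ : ℝ) (hκ : 0 < κ) (hκ1 : κ ≤ 1 / 2)
    (hν : ν (Set.Ioc 0 (1 - κ))ᶜ = 0) (s : ℝ) (hs : 1 ≤ s)
    (hm1 : ∫⁻ u, ENNReal.ofReal ((1 - u) / u) ∂ν < 1)
    (hms : ∫⁻ u, ENNReal.ofReal (((1 - u) / u) ^ s) ∂ν < 1)
    (hMs : ∫⁻ u, ENNReal.ofReal (u ^ (-(2 * s))) ∂ν < ∞)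
    (ε K : ℝ) (hε : 0 < ε) (hK : 0 < K) :
    ∃ C : ℝ, 0 < C ∧ ∀ k : ℕ → ℕ, (∀ᶠ N in atTop, 1 ≤ k N ∧ k N ≤ N) →
      Tendsto (fun N : ℕ => (Measure.pi fun _ : Fin N => ν)
        {ω | ¬ ((∀ x, ω x ∈ Set.Ioc 0 (1 - κ)) ∧
          EnvOK2 N (k N) ⌈C * Real.log N⌉₊ (Vw ω) ((1 + ε) / s * Real.log N) ((N : ℝ) ^ (-K))
            ((N : ℝ) ^ (1 + ε)) (ε * Real.log N)
            (24 * (⌈C * Real.log N⌉₊ : ℕ) * (Real.log N + Real.log (1 / κ))))})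
        atTop (𝓝 0) := by
  have hs0 : 0 < s := by linarith
  have hκ2 : κ ≤ 1 := by linarith
  have hν' : ν (Set.Ioo 0 1)ᶜ = 0 := by
    refine measure_mono_null (Set.compl_subset_compl.2 ?_) hν
    intro u hu
    exact ⟨hu.1, by linarith [hu.2]⟩
  have hpos : ∀ᵐ u ∂ν, u ∈ Set.Ioo (0 : ℝ) 1 := by
    rw [ae_iff]
    exact hν'
  obtain ⟨m, hm, hmlt, hmν⟩ : ∃ m : ℝ, 0 < m ∧ m < 1 ∧
      ∫⁻ u, ENNReal.ofReal ((1 - u) / u) ∂ν ≤ ENNReal.ofReal m := by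
    set J := ∫⁻ u, ENNReal.ofReal ((1 - u) / u) ∂ν
    have hJ : J ≠ ⊤ := (hm1.trans ENNReal.one_lt_top).ne
    have hJ1 : J.toReal < 1 := by
      have := (ENNReal.toReal_lt_toReal hJ ENNReal.one_ne_top).2 hm1
      simpa using this
    refine ⟨max J.toReal (1 / 2), by positivity, max_lt hJ1 (by norm_num), ?_⟩
    rw [← ENNReal.ofReal_toReal hJ]
    exact ENNReal.ofReal_le_ofReal (by rw [ENNReal.toReal_ofReal ENNReal.toReal_nonneg];
                                       exact le_max_left _ _)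
  obtain ⟨M, hM, hMν⟩ : ∃ M : ℝ, 1 ≤ M ∧
      ∫⁻ u, ENNReal.ofReal (u ^ (-(2 * s))) ∂ν ≤ ENNReal.ofReal M := by
    set J := ∫⁻ u, ENNReal.ofReal (u ^ (-(2 * s))) ∂ν
    have hJ : J ≠ ⊤ := hMs.ne
    refine ⟨max J.toReal 1, le_max_right _ _, ?_⟩
    rw [← ENNReal.ofReal_toReal hJ]
    exact ENNReal.ofReal_le_ofReal (by rw [ENNReal.toReal_ofReal ENNReal.toReal_nonneg];
                                       exact le_max_left _ _)
  have hMθ : ∀ θ : ℝ, θ ≤ 2 * s → ∫⁻ u, ENNReal.ofReal (u ^ (-θ)) ∂ν ≤ ENNReal.ofReal M := by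
    intro θ hθ
    refine le_trans (lintegral_mono_ae ?_) hMν
    filter_upwards [hpos] with u hu
    apply ENNReal.ofReal_le_ofReal
    exact Real.rpow_le_rpow_of_exponent_ge hu.1 hu.2.le (by linarith)
  have hM1 := hMθ 1 (by linarith)
  have hM2 := hMθ (2 * 1) (by linarith)
  have hM0 : 0 ≤ M := by linarith
  have hm' : ∫⁻ u, ENNReal.ofReal (((1 - u) / u) ^ (1 : ℝ)) ∂ν ≤ 1 := by
    simpa using hm1.le
  have hlm : Real.log m < 0 := Real.log_neg hm hmlt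
  refine ⟨(K + 3) / (-Real.log m), by apply div_pos <;> linarith, ?_⟩
  intro k hk
  set C : ℝ := (K + 3) / (-Real.log m) with hCdef
  have hC : 0 < C := by apply div_pos <;> linarith
  have hCm : Real.log m * C = -(K + 3) := by
    have h0 : -Real.log m ≠ 0 := by
      intro h0
      linarith
    rw [hCdef, ← neg_inj, ← neg_mul, mul_div_cancel₀ _ h0, neg_neg]
  set δ : ℝ := ε / 14 with hδ
  have hδ0 : 0 < δ := by positivity
  set c1 : ℝ := M * m⁻¹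
  set c2 : ℝ := M ^ 4
  set c4 : ℝ := M * (1 - m)⁻¹ + M * (1 + (1 - m)⁻¹)
  have hc2 : 0 < c2 := by positivity
  have t1 := tendsto_exp_neg 1 c1 one_pos
  have t2 := tendsto_exp_neg (ε / 2) (2 * c2) (by positivity)
  have t3 := tendsto_exp_neg (1 / 2) c2 (by positivity)
  have t4 := tendsto_exp_neg (ε / 2) c2 (by positivity)
  have t5 : Tendsto (fun N : ℕ => (ε * Real.log N)⁻¹ * c4) atTop (𝓝 0) := by
    have := (tendsto_inv_atTop_zero.comp (tendsto_log_nat.const_mul_atTop hε)).mul_const c4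
    simpa [Function.comp_def] using this
  have t6 := tendsto_exp_neg 1 M one_pos
  have T : Tendsto (fun N : ℕ =>
      ENNReal.ofReal (c1 * Real.exp (-(1 * Real.log N)))
      + (ENNReal.ofReal (2 * c2 * Real.exp (-(ε / 2 * Real.log N)))
      + (ENNReal.ofReal (c2 * Real.exp (-(1 / 2 * Real.log N)))
      + (ENNReal.ofReal (c2 * Real.exp (-(1 / 2 * Real.log N)))
      + (ENNReal.ofReal (c2 * Real.exp (-(ε / 2 * Real.log N)))
      + (ENNReal.ofReal ((ε * Real.log N)⁻¹ * c4)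
      + ENNReal.ofReal (M * Real.exp (-(1 * Real.log N))))))))) atTop (𝓝 0) := by
    have f : ∀ {g : ℕ → ℝ}, Tendsto g atTop (𝓝 0) →
        Tendsto (fun N => ENNReal.ofReal (g N)) atTop (𝓝 0) := by
      intro g hg
      have := ENNReal.tendsto_ofReal hg
      simpa using this
    have := (f t1).add ((f t2).add ((f t3).add ((f t3).add ((f t4).add ((f t5).add (f t6))))))
    simpa using this
  refine tendsto_of_tendsto_of_tendsto_of_le_of_le' tendsto_const_nhds T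
    (Eventually.of_forall fun N => zero_le) ?_
  filter_upwards [hk, ev_w2 C hC δ hδ0, tendsto_log_nat.eventually_ge_atTop (1 : ℝ),
    eventually_ge_atTop 1] with N hkN hw hL hN1
  set w : ℕ := ⌈C * Real.log N⌉₊ with hwdef
  set L : ℝ := Real.log N with hLdef
  have hNpos : (0 : ℝ) < N := by exact_mod_cast hN1
  have hNe : (N : ℝ) = Real.exp L := (Real.exp_log hNpos).symm
  have hw1 : 1 ≤ w := Nat.one_le_iff_ne_zero.2 (Nat.ceil_pos.2 (by positivity)).ne'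
  have hCw : C * L ≤ (w : ℝ) := Nat.le_ceil _
  have hw0 : (0 : ℝ) ≤ w := by positivity
  have hEpos : 0 < Real.exp (δ * L) := Real.exp_pos _
  have hEpow : ∀ n : ℕ, Real.exp (δ * L) ^ n = Real.exp (n * (δ * L)) := fun n => by
    rw [← Real.exp_nat_mul]
  -- the pieces
  have P0 := p_range2 (N := N) ν κ hν
  have P1 := p_drop2 (N := N) ν hν' m M hm hmlt hM0 hmν hM1 w hw1 (K * L)
  have P2 := p_four2 (N := N) ν hν' s M hs0 hM hms.le hMν w ((1 + ε) / s * L)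
  have P3 := p_two2 (N := N) ν hν' s M hs0 hM hms.le hMν 0 (4 * w) ((1 + ε) / s * L / 2)
  have P4 := p_two2 (N := N) ν hν' s M hs0 hM hms.le hMν (N - 12 * w - 1) (12 * w + 1)
    ((1 + ε) / s * L / 2)
  have P5 := p_slow2 (N := N) ν hν' M hM hm' hM2 w ((N : ℝ) ^ (1 + ε)) (by positivity)
  have P6 := p_fin2 (N := N) ν hν' m M hm hmlt hM hmν hM1 (N - k N) (by omega) (ε * L)
    (by positivity)
  have P7 := p_low (N := N) ν hν' s M hs0 hMν (1 / (N : ℝ)) (by positivity)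
  set A0 : Set (Fin N → ℝ) := {ω | ¬ ∀ x, ω x ∈ Set.Ioc 0 (1 - κ)}
  set A1 : Set (Fin N → ℝ) := {ω | ∃ x y, x + w ≤ y ∧ y < N ∧ -(K * L) < Vw ω y - Vw ω x}
  set A2 : Set (Fin N → ℝ) :=
        {ω | ∃ a₁ b₁ a₂ b₂ a₃ b₃ a₄ b₄, a₁ ≤ b₁ ∧ b₁ ≤ a₂ ∧ a₂ ≤ b₂ ∧ b₂ ≤ a₃ + 1 ∧ a₃ ≤ b₃ ∧
          b₃ ≤ a₄ ∧ a₄ ≤ b₄ ∧ b₄ < N ∧ b₄ ≤ a₁ + 50 * w ∧
          (1 + ε) / s * L < ((Vw ω b₁ - Vw ω a₁) + (Vw ω b₂ - Vw ω a₂))
            + ((Vw ω b₃ - Vw ω a₃) + (Vw ω b₄ - Vw ω a₄))}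
  set A3 : Set (Fin N → ℝ) :=
        {ω | ∃ a₁ b₁ a₂ b₂, 0 ≤ a₁ ∧ a₁ ≤ b₁ ∧ b₁ ≤ a₂ ∧ a₂ ≤ b₂ ∧ b₂ < N ∧ b₂ < 0 + 4 * w ∧
          (1 + ε) / s * L / 2 < (Vw ω b₁ - Vw ω a₁) + (Vw ω b₂ - Vw ω a₂)}
  set A4 : Set (Fin N → ℝ) :=
        {ω | ∃ a₁ b₁ a₂ b₂, N - 12 * w - 1 ≤ a₁ ∧ a₁ ≤ b₁ ∧ b₁ ≤ a₂ ∧ a₂ ≤ b₂ ∧ b₂ < N ∧
          b₂ < N - 12 * w - 1 + (12 * w + 1) ∧
          (1 + ε) / s * L / 2 < (Vw ω b₁ - Vw ω a₁) + (Vw ω b₂ - Vw ω a₂)}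
  set A5 : Set (Fin N → ℝ) := {ω | (N : ℝ) ^ (1 + ε) < ∑ x ∈ Finset.range N, Z2 N w (Vw ω) x}
  set A6 : Set (Fin N → ℝ) :=
        {ω | ε * L < (∑ x ∈ Finset.range (N - k N), Real.exp (Vw ω (N - k N) - Vw ω x))
          + ∑ x ∈ Finset.Ico (N - k N) N, Real.exp (Vw ω x - Vw ω (N - k N))}
  set A7 : Set (Fin N → ℝ) := {ω | ∃ x : Fin N, ω x < 1 / (N : ℝ)}
  have hsub : {ω : Fin N → ℝ | ¬ ((∀ x, ω x ∈ Set.Ioc 0 (1 - κ)) ∧
          EnvOK2 N (k N) w (Vw ω) ((1 + ε) / s * L) ((N : ℝ) ^ (-K))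
            ((N : ℝ) ^ (1 + ε)) (ε * L) (24 * (w : ℕ) * (L + Real.log (1 / κ))))}
      ⊆ A0 ∪ (A1 ∪ (A2 ∪ (A3 ∪ (A4 ∪ (A5 ∪ (A6 ∪ A7)))))) := by
    intro ω hω
    by_contra hcon
    simp only [Set.mem_union, not_or] at hcon
    obtain ⟨n0, n1, n2, n3, n4, n5, n6, n7⟩ := hcon
    apply hω
    refine ⟨not_not.1 n0, ?_, ?_, ?_, ?_, ?_, ?_, ?_⟩
    · intro x y hxy hy
      have h : Vw ω y - Vw ω x ≤ -(K * L) := by
        by_contra hlt
        exact n1 ⟨x, y, hxy, hy, not_le.1 hlt⟩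
      rw [Real.rpow_def_of_pos hNpos]
      apply Real.exp_le_exp.2
      rw [← hLdef]
      linarith
    · intro a₁ b₁ a₂ b₂ a₃ b₃ a₄ b₄ g1 g2 g3 g4 g5 g6 g7 g8 g9
      by_contra hlt
      exact n2 ⟨a₁, b₁, a₂, b₂, a₃, b₃, a₄, b₄, g1, g2, g3, g4, g5, g6, g7, g8, g9,
        not_le.1 hlt⟩
    · intro a₁ b₁ a₂ b₂ g0 g1 g2 g3 g4
      by_contra hlt
      exact n3 ⟨a₁, b₁, a₂, b₂, g0, g1, g2, g3, by omega, by omega, not_le.1 hlt⟩
    · intro a₁ b₁ a₂ b₂ g0 g1 g2 g3 g4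
      by_contra hlt
      exact n4 ⟨a₁, b₁, a₂, b₂, g0, g1, g2, g3, by omega, by omega, not_le.1 hlt⟩
    · exact not_lt.1 n5
    · exact not_lt.1 n6
    · intro x y hx hy hxy hyx
      have h7 : ∀ x : Fin N, 1 / (N : ℝ) ≤ ω x := by
        intro x
        by_contra hlt
        exact n7 ⟨x, not_le.1 hlt⟩
      have := osc κ hκ hκ2 hN1 ω (not_not.1 n0) h7 (24 * w) x y hx hy hxy hyx
      push_cast at this
      exact this
  refine (measure_mono hsub).trans ?_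
  have Q1 : (Measure.pi fun _ : Fin N => ν) A1
      ≤ ENNReal.ofReal (c1 * Real.exp (-(1 * L))) := by
    refine P1.trans (ENNReal.ofReal_le_ofReal ?_)
    have e1 : m ^ (w - 1) ≤ m⁻¹ * Real.exp (-(K + 3) * L) := by
      have e2 : m ^ (w - 1) = m⁻¹ * m ^ w := by
        obtain ⟨v, hv⟩ : ∃ v, w = v + 1 := ⟨w - 1, by omega⟩
        rw [hv, pow_succ, Nat.add_sub_cancel]
        field_simp
      rw [e2]
      gcongr
      rw [← Real.rpow_natCast m w, Real.rpow_def_of_pos hm]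
      apply Real.exp_le_exp.2
      calc Real.log m * (w : ℝ) ≤ Real.log m * (C * L) :=
            mul_le_mul_of_nonpos_left hCw hlm.le
        _ = -(K + 3) * L := by rw [← mul_assoc, hCm]
    calc (N : ℝ) * N * (Real.exp (K * L) * (M * m ^ (w - 1)))
        ≤ (N : ℝ) * N * (Real.exp (K * L) * (M * (m⁻¹ * Real.exp (-(K + 3) * L)))) := by
          gcongr
      _ = c1 * (Real.exp L * Real.exp L * Real.exp (K * L) * Real.exp (-(K + 3) * L)) := by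
          rw [hNe]; ring
      _ = c1 * Real.exp (-(1 * L)) := by
          rw [← Real.exp_add, ← Real.exp_add, ← Real.exp_add]
          congr 2
          ring
  have Q2 : (Measure.pi fun _ : Fin N => ν) A2
      ≤ ENNReal.ofReal (2 * c2 * Real.exp (-(ε / 2 * L))) := by
    refine P2.trans (ENNReal.ofReal_le_ofReal ?_)
    have e1 : s * ((1 + ε) / s * L) = (1 + ε) * L := by field_simp
    have e2 : (N : ℝ) + 1 ≤ 2 * Real.exp L := by
      rw [← hNe]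
      have : (1 : ℝ) ≤ N := by exact_mod_cast hN1
      linarith
    calc ((N : ℝ) + 1) * (50 * (w : ℝ) + 3) ^ 7 * (Real.exp (-(s * ((1 + ε) / s * L))) * c2)
        ≤ (2 * Real.exp L) * Real.exp (δ * L) ^ 7 * (Real.exp (-((1 + ε) * L)) * c2) := by
          rw [e1]
          gcongr
      _ = 2 * c2 * (Real.exp L * Real.exp ((7 : ℕ) * (δ * L)) * Real.exp (-((1 + ε) * L))) := by
          rw [hEpow]; ring
      _ = 2 * c2 * Real.exp (-(ε / 2 * L)) := by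
          rw [← Real.exp_add, ← Real.exp_add]
          congr 2
          rw [hδ]
          push_cast
          ring
  have R4 : ∀ n : ℕ, (n : ℝ) ≤ 50 * (w : ℝ) + 3 →
      (n : ℝ) ^ 4 * (Real.exp (-(s * ((1 + ε) / s * L / 2))) * c2)
        ≤ c2 * Real.exp (-(1 / 2 * L)) := by
    intro n hn
    have e1 : s * ((1 + ε) / s * L / 2) = (1 + ε) / 2 * L := by field_simp
    calc (n : ℝ) ^ 4 * (Real.exp (-(s * ((1 + ε) / s * L / 2))) * c2)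
        ≤ Real.exp (δ * L) ^ 4 * (Real.exp (-((1 + ε) / 2 * L)) * c2) := by
          rw [e1]
          gcongr
          exact hn.trans hw
      _ = c2 * (Real.exp ((4 : ℕ) * (δ * L)) * Real.exp (-((1 + ε) / 2 * L))) := by
          rw [hEpow]; ring
      _ ≤ c2 * Real.exp (-(1 / 2 * L)) := by
          rw [← Real.exp_add]
          gcongr
          rw [hδ]
          push_cast
          nlinarith
  have Q3 : (Measure.pi fun _ : Fin N => ν) A3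
      ≤ ENNReal.ofReal (c2 * Real.exp (-(1 / 2 * L))) := by
    refine P3.trans (ENNReal.ofReal_le_ofReal (R4 (4 * w) ?_))
    push_cast
    linarith
  have Q4 : (Measure.pi fun _ : Fin N => ν) A4
      ≤ ENNReal.ofReal (c2 * Real.exp (-(1 / 2 * L))) := by
    refine P4.trans (ENNReal.ofReal_le_ofReal (R4 (12 * w + 1) ?_))
    push_cast
    linarith
  have Q5 : (Measure.pi fun _ : Fin N => ν) A5
      ≤ ENNReal.ofReal (c2 * Real.exp (-(ε / 2 * L))) := by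
    refine P5.trans (ENNReal.ofReal_le_ofReal ?_)
    have e1 : ((N : ℝ) ^ (1 + ε))⁻¹ = Real.exp (-((1 + ε) * L)) := by
      rw [Real.rpow_def_of_pos hNpos, ← Real.exp_neg, ← hLdef]
      congr 1
      ring
    have e2 : 24 * (w : ℝ) ≤ Real.exp (δ * L) := by linarith
    calc ((N : ℝ) ^ (1 + ε))⁻¹ * ((N : ℝ) * ((24 * (w : ℝ)) * ((24 * (w : ℝ)) *
          ((24 * (w : ℝ)) * ((24 * (w : ℝ)) * c2)))))
        ≤ Real.exp (-((1 + ε) * L)) * (Real.exp L * (Real.exp (δ * L) * (Real.exp (δ * L) *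
          (Real.exp (δ * L) * (Real.exp (δ * L) * c2))))) := by
          rw [e1, hNe]
          gcongr
      _ = c2 * (Real.exp (-((1 + ε) * L)) * Real.exp L * Real.exp (δ * L) ^ 4) := by ring
      _ = c2 * (Real.exp (-((1 + ε) * L)) * Real.exp L * Real.exp ((4 : ℕ) * (δ * L))) := by
          rw [hEpow]
      _ ≤ c2 * Real.exp (-(ε / 2 * L)) := by
          rw [← Real.exp_add, ← Real.exp_add]
          gcongr
          rw [hδ]
          push_cast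
          nlinarith
  have Q7 : (Measure.pi fun _ : Fin N => ν) A7
      ≤ ENNReal.ofReal (M * Real.exp (-(1 * L))) := by
    refine P7.trans (ENNReal.ofReal_le_ofReal ?_)
    have e1 : (1 / (N : ℝ)) ^ (2 * s) = Real.exp (-(2 * s * L)) := by
      rw [one_div, Real.inv_rpow hNpos.le, Real.rpow_def_of_pos hNpos, ← Real.exp_neg, ← hLdef]
      congr 1
      ring
    calc (N : ℝ) * ((1 / (N : ℝ)) ^ (2 * s) * M)
        = M * (Real.exp L * Real.exp (-(2 * s * L))) := by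
          rw [e1, ← hNe]
          ring
      _ ≤ M * Real.exp (-(1 * L)) := by
          rw [← Real.exp_add]
          gcongr
          nlinarith
  calc (Measure.pi fun _ : Fin N => ν) (A0 ∪ (A1 ∪ (A2 ∪ (A3 ∪ (A4 ∪ (A5 ∪ (A6 ∪ A7)))))))
      ≤ (Measure.pi fun _ : Fin N => ν) A0 + ((Measure.pi fun _ : Fin N => ν) A1
        + ((Measure.pi fun _ : Fin N => ν) A2 + ((Measure.pi fun _ : Fin N => ν) A3
        + ((Measure.pi fun _ : Fin N => ν) A4 + ((Measure.pi fun _ : Fin N => ν) A5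
        + ((Measure.pi fun _ : Fin N => ν) A6 + (Measure.pi fun _ : Fin N => ν) A7)))))) := by
        refine (measure_union_le _ _).trans (add_le_add le_rfl ?_)
        refine (measure_union_le _ _).trans (add_le_add le_rfl ?_)
        refine (measure_union_le _ _).trans (add_le_add le_rfl ?_)
        refine (measure_union_le _ _).trans (add_le_add le_rfl ?_)
        refine (measure_union_le _ _).trans (add_le_add le_rfl ?_)
        refine (measure_union_le _ _).trans (add_le_add le_rfl ?_)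
        exact measure_union_le _ _
    _ ≤ _ := by
        rw [P0, zero_add]
        exact add_le_add Q1 (add_le_add Q2 (add_le_add Q3 (add_le_add Q4 (add_le_add Q5
          (add_le_add P6 Q7)))))

end Pool.Agent.EBX
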