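import Mathlib
import Pool.Agent.EBX.States

/-!
# EBX: landed exclusion process = QA on the full segment, and Doeblin bound. (1) bijection e : Config N k ≃ St N k
(map by Fin.val); generator ω intertwines: (generator ω *ᵥ (f ∘ e)) = (QA (pw ω) (qw ω) (range (N-1)) *ᵥ f) ∘ e; hence the
semigroups (intertwining of powers, hasSum_exp_entry). (2) g = ind {top} is increasing (hle top η → η = top by hle_top), so
sg T g η ≥ δ for all η (sg_incr, bot_hle). (3) K = exp(TQ) has K η top ≥ δ: |∑ v K^n|_1 ≤ (1-δ)^n |v|_1 if ∑ v = 0. (4) stationary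
π exists: det Q = 0 (rows sum to 0) gives v ≠ 0 with v Q = 0, v K = v, so ∑ v ≠ 0 by (3), normalise, v ≥ 0 because
v ζ = lim K^n η ζ; invariance for all t from v Q = 0. (5) tv(law (nT) η, π) ≤ (1-δ)^n ≤ exp(-δ n) ≤ 1/4 for n = ceil(2/δ) (δ ≤ 1).
mixingTime is an infimum: take t = nT ≤ T(2/δ+1).
-/

set_option autoImplicit false

open scoped Matrix ENNReal NNReal
open MeasureTheory Filter Topology

set_option linter.unusedSectionVars false

namespace Pool.Agent.EBX

/-! ### Doeblin's bound -/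

section Doeblin

variable {S : Type*} [Fintype S] [DecidableEq S]

theorem abs_vecMul_le (K : Matrix S S ℝ) (hK : ∀ i j, 0 ≤ K i j) (hrow : ∀ i, ∑ j, K i j = 1)
    (s : S) (δ : ℝ) (hs : ∀ i, δ ≤ K i s) (v : S → ℝ) (hv : ∑ i, v i = 0) :
    ∑ j, |(v ᵥ* K) j| ≤ (1 - δ) * ∑ i, |v i| := by
  classical
  set L : S → S → ℝ := fun i j => K i j - if j = s then δ else 0 with hL
  have hL0 : ∀ i j, 0 ≤ L i j := by
    intro i j
    simp only [hL]
    split_ifs with h
    · subst h; linarith [hs i]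
    · linarith [hK i j]
  have hLrow : ∀ i, ∑ j, L i j = 1 - δ := by
    intro i
    simp only [hL, Finset.sum_sub_distrib, hrow, Finset.sum_ite_eq', Finset.mem_univ, if_true]
  have h1 : ∀ j, (v ᵥ* K) j = ∑ i, v i * L i j := by
    intro j
    simp only [hL, Matrix.vecMul, dotProduct, mul_sub, Finset.sum_sub_distrib]
    rw [← Finset.sum_mul, hv, zero_mul, sub_zero]
  calc ∑ j, |(v ᵥ* K) j| ≤ ∑ j, ∑ i, |v i| * L i j := by
        refine Finset.sum_le_sum fun j _ => ?_
        rw [h1]
        refine (Finset.abs_sum_le_sum_abs _ _).trans (le_of_eq ?_)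
        refine Finset.sum_congr rfl fun i _ => ?_
        rw [abs_mul, abs_of_nonneg (hL0 i j)]
    _ = (1 - δ) * ∑ i, |v i| := by
        rw [Finset.sum_comm, Finset.mul_sum]
        refine Finset.sum_congr rfl fun i _ => ?_
        rw [← Finset.mul_sum, hLrow]
        ring

theorem sum_vecMul (K : Matrix S S ℝ) (hrow : ∀ i, ∑ j, K i j = 1) (v : S → ℝ) :
    ∑ j, (v ᵥ* K) j = ∑ i, v i := by
  simp only [Matrix.vecMul, dotProduct]
  rw [Finset.sum_comm]
  refine Finset.sum_congr rfl fun i _ => ?_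
  rw [← Finset.mul_sum, hrow, mul_one]

theorem abs_vecMul_pow_le (K : Matrix S S ℝ) (hK : ∀ i j, 0 ≤ K i j)
    (hrow : ∀ i, ∑ j, K i j = 1) (s : S) (δ : ℝ) (hs : ∀ i, δ ≤ K i s) (n : ℕ) (v : S → ℝ)
    (hv : ∑ i, v i = 0) : ∑ j, |(v ᵥ* (K ^ n)) j| ≤ (1 - δ) ^ n * ∑ i, |v i| := by
  have hδ1 : 0 ≤ 1 - δ := by
    have h1 := Finset.single_le_sum (fun j _ => hK s j) (Finset.mem_univ s)
    have h2 := hs s
    have h3 := hrow s
    linarith
  induction n generalizing v with
  | zero => simp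
  | succ n ih =>
    rw [pow_succ', ← Matrix.vecMul_vecMul]
    refine (ih (v ᵥ* K) (by rw [sum_vecMul K hrow, hv])).trans ?_
    rw [pow_succ (1 - δ), mul_assoc]
    exact mul_le_mul_of_nonneg_left (abs_vecMul_le K hK hrow s δ hs v hv) (pow_nonneg hδ1 n)

/-- invariant vectors of the generator are invariant for the semigroup -/
theorem vecMul_exp_of_zero (Q : Matrix S S ℝ) (v : S → ℝ) (hv : v ᵥ* Q = 0) (t : ℝ) :
    v ᵥ* NormedSpace.exp (t • Q) = v := by
  have hpow : ∀ n : ℕ, v ᵥ* ((t • Q) ^ (n + 1)) = 0 := by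
    intro n
    rw [pow_succ', ← Matrix.vecMul_vecMul, Matrix.vecMul_smul, hv, smul_zero, Matrix.zero_vecMul]
  funext j
  have h1 : HasSum (fun n : ℕ => ∑ i, v i * (((n.factorial : ℝ)⁻¹) * ((t • Q) ^ n) i j))
      (∑ i, v i * NormedSpace.exp (t • Q) i j) :=
    hasSum_sum fun i _ => (H96.hasSum_exp_entry (t • Q) i j).mul_left (v i)
  have h2 : HasSum (fun n : ℕ => ∑ i, v i * (((n.factorial : ℝ)⁻¹) * ((t • Q) ^ n) i j)) (v j) := by
    have h3 : ∀ n : ℕ, n ≠ 0 →
        ∑ i, v i * (((n.factorial : ℝ)⁻¹) * ((t • Q) ^ n) i j) = 0 := by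
      intro n hn
      obtain ⟨m, rfl⟩ := Nat.exists_eq_succ_of_ne_zero hn
      have h4 := congrFun (hpow m) j
      simp only [Matrix.vecMul, dotProduct, Pi.zero_apply] at h4
      calc ∑ i, v i * ((((m + 1).factorial : ℝ)⁻¹) * ((t • Q) ^ (m + 1)) i j)
          = (((m + 1).factorial : ℝ)⁻¹) * ∑ i, v i * ((t • Q) ^ (m + 1)) i j := by
            rw [Finset.mul_sum]
            exact Finset.sum_congr rfl fun i _ => by ring
        _ = 0 := by rw [h4, mul_zero]
    have h5 := hasSum_single (f := fun n : ℕ =>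
      ∑ i, v i * (((n.factorial : ℝ)⁻¹) * ((t • Q) ^ n) i j)) 0 h3
    convert h5 using 1
    simp [Matrix.one_apply]
  exact h1.unique h2

theorem exists_stationary (Q : Matrix S S ℝ) (hrow : ∀ i, ∑ j, Q i j = 0)
    (hoff : ∀ i j, i ≠ j → 0 ≤ Q i j) (T δ : ℝ) (hT : 0 ≤ T) (hδ : 0 < δ) (s : S)
    (hs : ∀ i, δ ≤ NormedSpace.exp (T • Q) i s) :
    ∃ π : S → ℝ, (∀ i, 0 ≤ π i) ∧ ∑ i, π i = 1 ∧
      (∀ t : ℝ, ∀ j, ∑ i, π i * NormedSpace.exp (t • Q) i j = π j) ∧
      ∀ (n : ℕ) (i : S), ∑ j, |NormedSpace.exp ((n * T) • Q) i j - π j| ≤ 2 * (1 - δ) ^ n := by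
  classical
  set K : Matrix S S ℝ := NormedSpace.exp (T • Q) with hKdef
  have hK : ∀ i j, 0 ≤ K i j := by
    intro i j
    refine H96.exp_entry_nonneg _ (fun a b hab => ?_) i j
    simp only [Matrix.smul_apply, smul_eq_mul]
    exact mul_nonneg hT (hoff a b hab)
  have hKrow : ∀ i, ∑ j, K i j = 1 := by
    intro i
    have h1 := H96.exp_mulVec_one Q hrow T i
    simpa [Matrix.mulVec, dotProduct] using h1
  have hKn : ∀ n : ℕ, NormedSpace.exp ((n * T) • Q) = K ^ n := by
    intro n
    rw [hKdef, ← Matrix.exp_nsmul, mul_smul]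
    congr 1
    exact Nat.cast_smul_eq_nsmul ℝ n (T • Q)
  have hδ1 : 1 - δ < 1 := by linarith
  have hδ0 : 0 ≤ 1 - δ := by
    have h1 := Finset.single_le_sum (fun j _ => hK s j) (Finset.mem_univ s)
    have h2 := hs s
    have h3 := hKrow s
    linarith
  -- an invariant vector
  obtain ⟨v, hv0, hv⟩ : ∃ v : S → ℝ, v ≠ 0 ∧ v ᵥ* Q = 0 := by
    refine Matrix.exists_vecMul_eq_zero_iff.2 ?_
    refine Matrix.exists_mulVec_eq_zero_iff.1 ⟨fun _ => 1, ?_, ?_⟩
    · intro h
      have := congrFun h s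
      simp at this
    · funext i
      simpa [Matrix.mulVec, dotProduct] using hrow i
  have hvK : v ᵥ* K = v := vecMul_exp_of_zero Q v hv T
  have hsum : ∑ i, v i ≠ 0 := by
    intro h0
    have h1 := abs_vecMul_le K hK hKrow s δ hs v h0
    rw [hvK] at h1
    have h2 : 0 < ∑ i, |v i| := by
      obtain ⟨i, hi⟩ := Function.ne_iff.1 hv0
      exact Finset.sum_pos' (fun j _ => abs_nonneg _) ⟨i, Finset.mem_univ i, abs_pos.2 hi⟩
    nlinarith
  set π : S → ℝ := fun i => v i / ∑ j, v j with hπ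
  have hπsum : ∑ i, π i = 1 := by
    rw [hπ, ← Finset.sum_div, div_self hsum]
  have hπinv : ∀ t : ℝ, π ᵥ* NormedSpace.exp (t • Q) = π := by
    intro t
    have h1 : π = (∑ j, v j)⁻¹ • v := by
      funext i
      simp only [hπ, Pi.smul_apply, smul_eq_mul]
      ring
    rw [h1, Matrix.smul_vecMul, vecMul_exp_of_zero Q v hv t]
  have hπK : ∀ n : ℕ, π ᵥ* (K ^ n) = π := by
    intro n
    rw [← hKn]
    exact hπinv _
  -- convergence
  have hconv : ∀ (n : ℕ) (i : S), ∑ j, |(K ^ n) i j - π j|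
      ≤ (1 - δ) ^ n * ∑ j, |(Pi.single i (1 : ℝ) : S → ℝ) j - π j| := by
    intro n i
    have h1 := abs_vecMul_pow_le K hK hKrow s δ hs n (fun j => (Pi.single i (1 : ℝ) : S → ℝ) j - π j)
      (by rw [Finset.sum_sub_distrib, hπsum, Finset.sum_pi_single']; simp)
    refine le_trans (le_of_eq ?_) h1
    refine Finset.sum_congr rfl fun j _ => ?_
    have h2 : (fun j => (Pi.single i (1 : ℝ) : S → ℝ) j - π j) = Pi.single i (1 : ℝ) - π := rfl
    rw [h2, Matrix.sub_vecMul, hπK, Pi.sub_apply]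
    simp
  have hπ0 : ∀ j, 0 ≤ π j := by
    intro j
    have hlim : Tendsto (fun n : ℕ => (K ^ n) s j) atTop (𝓝 (π j)) := by
      rw [tendsto_iff_norm_sub_tendsto_zero]
      refine squeeze_zero (fun n => norm_nonneg _) (fun n => ?_)
        (g := fun n : ℕ => (1 - δ) ^ n * ∑ j, |(Pi.single s (1 : ℝ) : S → ℝ) j - π j|) ?_
      · rw [Real.norm_eq_abs]
        exact (Finset.single_le_sum (f := fun j => |(K ^ n) s j - π j|)
          (fun j _ => abs_nonneg _) (Finset.mem_univ j)).trans (hconv n s)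
      · have h1 := (tendsto_pow_atTop_nhds_zero_of_lt_one hδ0 hδ1).mul_const
          (∑ j, |(Pi.single s (1 : ℝ) : S → ℝ) j - π j|)
        rwa [zero_mul] at h1
    exact ge_of_tendsto hlim (Eventually.of_forall fun n => H96.pow_entry_nonneg K hK n s j)
  refine ⟨π, hπ0, hπsum, fun t j => ?_, fun n i => ?_⟩
  · exact congrFun (hπinv t) j
  · rw [hKn]
    refine (hconv n i).trans ?_
    rw [mul_comm (2 : ℝ)]
    refine mul_le_mul_of_nonneg_left ?_ (pow_nonneg hδ0 n)
    calc ∑ j, |(Pi.single i (1 : ℝ) : S → ℝ) j - π j|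
        ≤ ∑ j, (|(Pi.single i (1 : ℝ) : S → ℝ) j| + |π j|) :=
          Finset.sum_le_sum fun j _ => abs_sub _ _
      _ = 2 := by
          rw [Finset.sum_add_distrib]
          have h1 : ∑ j, |π j| = 1 := by
            rw [← hπsum]
            exact Finset.sum_congr rfl fun j _ => abs_of_nonneg (hπ0 j)
          have h2 : ∑ j, |(Pi.single i (1 : ℝ) : S → ℝ) j| = 1 := by
            have : ∀ j, |(Pi.single i (1 : ℝ) : S → ℝ) j| = (Pi.single i (1 : ℝ) : S → ℝ) j := by
              intro j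
              by_cases hj : j = i
              · subst hj; simp
              · simp [Pi.single_eq_of_ne hj]
            rw [Finset.sum_congr rfl fun j _ => this j, Finset.sum_pi_single']
            simp
          rw [h1, h2]; norm_num

end Doeblin

/-! ### The landed generator -/

section Gen

open H96.Exclusion

variable {N k : ℕ}

/-- The configuration as a set of natural numbers. -/
def toSt (η : Config N k) : St N k :=
  ⟨η.1.map Fin.valEmbedding, Finset.mem_powersetCard.2
    ⟨fun x hx => by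
      obtain ⟨y, -, rfl⟩ := Finset.mem_map.1 hx
      exact Finset.mem_range.2 y.2, by rw [Finset.card_map]; exact η.2⟩⟩

theorem toSt_val (η : Config N k) : (toSt η).1 = η.1.map Fin.valEmbedding := rfl

theorem mem_toSt (η : Config N k) (x : Fin N) : (x : ℕ) ∈ (toSt η).1 ↔ x ∈ η.1 := by
  rw [toSt_val]
  exact Finset.mem_map' Fin.valEmbedding

theorem toSt_injective : Function.Injective (toSt : Config N k → St N k) := by
  intro η ζ h
  have h1 := congrArg Subtype.val h
  exact Subtype.ext (Finset.map_injective _ h1)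

theorem toSt_surjective : Function.Surjective (toSt : Config N k → St N k) := by
  intro η
  have hη := Finset.mem_powersetCard.1 η.2
  refine ⟨⟨Finset.univ.filter (fun x : Fin N => (x : ℕ) ∈ η.1), ?_⟩, ?_⟩
  · refine Eq.trans ?_ hη.2
    rw [← Finset.card_map Fin.valEmbedding]
    congr 1
    ext x
    simp only [Finset.mem_map, Finset.mem_filter, Finset.mem_univ, true_and, Fin.valEmbedding_apply]
    constructor
    · rintro ⟨y, hy, rfl⟩
      exact hy
    · intro hx
      exact ⟨⟨x, Finset.mem_range.1 (hη.1 hx)⟩, hx, rfl⟩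
  · apply Subtype.ext
    rw [toSt_val]
    ext x
    simp only [Finset.mem_map, Finset.mem_filter, Finset.mem_univ, true_and, Fin.valEmbedding_apply]
    constructor
    · rintro ⟨y, hy, rfl⟩
      exact hy
    · intro hx
      exact ⟨⟨x, Finset.mem_range.1 (hη.1 hx)⟩, hx, rfl⟩

/-- Extension of a function on `St N k` to all finite sets. -/
noncomputable def fx (f : St N k → ℝ) (s : Finset ℕ) : ℝ :=
  if h : s ∈ (Finset.range N).powersetCard k then f ⟨s, h⟩ else 0

theorem fx_val (f : St N k → ℝ) (η : St N k) : fx f η.1 = f η := by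
  unfold fx
  rw [dif_pos η.2]

theorem fx_up (f : St N k → ℝ) (η : St N k) {x : ℕ} (hx : x + 1 < N) :
    fx f (up x η.1) = f (Up N k x η) := by
  unfold Up
  rw [dif_pos hx]
  exact fx_val f ⟨up x η.1, up_mem hx η.2⟩

theorem fx_dn (f : St N k → ℝ) (η : St N k) {x : ℕ} (hx : x + 1 < N) :
    fx f (dn x η.1) = f (Dn N k x η) := by
  unfold Dn
  rw [dif_pos hx]
  exact fx_val f ⟨dn x η.1, dn_mem hx η.2⟩

/-- A double sum over neighbours. -/
theorem sum_nbr (N : ℕ) (a b : ℕ → ℝ) (c : ℕ → ℕ → ℝ) :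
    ∑ x ∈ Finset.range N, ∑ y ∈ Finset.range N,
      (if y = x + 1 then a x else if x = y + 1 then b x else 0) * c x y
      = ∑ x ∈ Finset.range (N - 1), (a x * c x (x + 1) + b (x + 1) * c (x + 1) x) := by
  have h1 : ∀ x y : ℕ, (if y = x + 1 then a x else if x = y + 1 then b x else 0) * c x y
      = (if y = x + 1 then a x * c x (x + 1) else 0)
        + (if x = y + 1 then b (y + 1) * c (y + 1) y else 0) := by
    intro x y
    by_cases h : y = x + 1
    · subst h
      have : ¬ x = x + 1 + 1 := by omega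
      simp [this]
    · by_cases h' : x = y + 1
      · subst h'
        simp [h]
      · simp [h, h']
  have h2 : ∀ g : ℕ → ℝ, ∑ x ∈ Finset.range N, ∑ y ∈ Finset.range N,
      (if y = x + 1 then g x else 0) = ∑ x ∈ Finset.range (N - 1), g x := by
    intro g
    have h3 : ∀ x ∈ Finset.range N, ∑ y ∈ Finset.range N, (if y = x + 1 then g x else 0)
        = if x + 1 < N then g x else 0 := by
      intro x _
      rw [Finset.sum_ite_eq']
      simp only [Finset.mem_range]
    rw [Finset.sum_congr rfl h3]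
    cases N with
    | zero => simp
    | succ n =>
      rw [Finset.sum_range_succ, if_neg (by omega), add_zero]
      refine Finset.sum_congr rfl fun x hx => ?_
      rw [if_pos (by have := Finset.mem_range.1 hx; omega)]
  simp_rw [h1, Finset.sum_add_distrib]
  rw [h2 (fun x => a x * c x (x + 1))]
  congr 1
  rw [Finset.sum_comm]
  exact h2 (fun y => b (y + 1) * c (y + 1) y)

/-- The configuration after a jump. -/
theorem swap_card {η : Config N k} {x y : Fin N} (h : x ∈ η.1 ∧ y ∉ η.1) :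
    (insert y (η.1.erase x)).card = k := by
  rw [Finset.card_insert_of_notMem (fun hc => h.2 (Finset.mem_of_mem_erase hc)),
    Finset.card_erase_of_mem h.1, η.2]
  have : 0 < η.1.card := Finset.card_pos.2 ⟨x, h.1⟩
  rw [η.2] at this
  omega

theorem generator_mulVec (ω : Fin N → ℝ) (F : Config N k → ℝ) (η : Config N k) :
    (generator ω *ᵥ F) η = ∑ ζ, jumpRate ω η ζ * (F ζ - F η) := by
  simp only [Matrix.mulVec, dotProduct, generator, Matrix.of_apply]
  simp only [sub_mul, ite_mul, zero_mul, Finset.sum_sub_distrib, Finset.sum_ite_eq,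
    Finset.mem_univ, if_true, mul_sub]
  rw [Finset.sum_mul]

theorem generator_intertwine (ω : Fin N → ℝ) (f : St N k → ℝ) (η : Config N k) :
    (generator ω *ᵥ (fun ζ => f (toSt ζ))) η
      = (QA N k (pw ω) (qw ω) (Finset.range (N - 1)) *ᵥ f) (toSt η) := by
  classical
  rw [generator_mulVec, QA_mulVec]
  -- left hand side
  set c : ℕ → ℕ → ℝ := fun x y => if x ∈ (toSt η).1 ∧ y ∉ (toSt η).1 then
    fx f (insert y ((toSt η).1.erase x)) - f (toSt η) else 0 with hc
  have hL : ∑ ζ, jumpRate ω η ζ * (f (toSt ζ) - f (toSt η))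
      = ∑ x : Fin N, ∑ y : Fin N, siteRate ω x y * c x y := by
    unfold jumpRate
    simp only [Finset.sum_mul]
    rw [Finset.sum_comm]
    refine Finset.sum_congr rfl fun x _ => ?_
    rw [Finset.sum_comm]
    refine Finset.sum_congr rfl fun y _ => ?_
    simp only [hc, mem_toSt]
    by_cases h : x ∈ η.1 ∧ y ∉ η.1
    · rw [if_pos h]
      have hcard := swap_card h
      rw [Finset.sum_eq_single (⟨insert y (η.1.erase x), hcard⟩ : Config N k)]
      · rw [if_pos ⟨h.1, h.2, rfl⟩]
        have h1 : (toSt (⟨insert y (η.1.erase x), hcard⟩ : Config N k)).1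
            = insert (y : ℕ) ((toSt η).1.erase (x : ℕ)) := by
          rw [toSt_val, toSt_val, Finset.map_insert, Finset.map_erase]
          rfl
        rw [← h1, fx_val]
      · intro ζ _ hζ
        rw [if_neg, zero_mul]
        rintro ⟨-, -, h3⟩
        exact hζ (Subtype.ext h3)
      · intro h'
        exact absurd (Finset.mem_univ _) h'
    · rw [if_neg h, mul_zero]
      refine Finset.sum_eq_zero fun ζ _ => ?_
      rw [if_neg (fun h' => h ⟨h'.1, h'.2.1⟩), zero_mul]
  have hR : ∀ x y : Fin N, siteRate ω x y * c x y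
      = (if (y : ℕ) = x + 1 then ext ω x else if (x : ℕ) = y + 1 then 1 - ext ω x else 0) * c x y := by
    intro x y
    unfold siteRate
    have h1 : ext ω (x : ℕ) = ω x := by
      unfold ext
      rw [dif_pos x.2]
    rw [h1]
  rw [hL]
  simp_rw [hR]
  have hF : ∀ x : ℕ, ∑ y : Fin N,
      (if (y : ℕ) = x + 1 then ext ω x else if x = y + 1 then 1 - ext ω x else 0) * c x y
      = ∑ y ∈ Finset.range N,
      (if y = x + 1 then ext ω x else if x = y + 1 then 1 - ext ω x else 0) * c x y := fun x =>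
    Fin.sum_univ_eq_sum_range (fun y =>
      (if y = x + 1 then ext ω x else if x = y + 1 then 1 - ext ω x else 0) * c x y) N
  simp_rw [hF]
  rw [Fin.sum_univ_eq_sum_range (fun x => ∑ y ∈ Finset.range N,
      (if y = x + 1 then ext ω x else if x = y + 1 then 1 - ext ω x else 0) * c x y) N]
  rw [sum_nbr N (fun x => ext ω x) (fun x => 1 - ext ω x) c]
  refine Finset.sum_congr rfl fun x hx => ?_
  have hx' : x + 1 < N := by have := Finset.mem_range.1 hx; omega
  have h1 : c x (x + 1) = f (Up N k x (toSt η)) - f (toSt η) := by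
    rw [← fx_up f _ hx']
    simp only [hc]
    unfold up
    split_ifs with h
    · rfl
    · rw [fx_val, sub_self]
  have h2 : c (x + 1) x = f (Dn N k x (toSt η)) - f (toSt η) := by
    rw [← fx_dn f _ hx']
    simp only [hc]
    unfold dn
    split_ifs with h
    · rfl
    · rw [fx_val, sub_self]
  rw [h1, h2]
  rfl

theorem exp_intertwine {S S' : Type*} [Fintype S] [DecidableEq S] [Fintype S'] [DecidableEq S']
    (A : Matrix S S ℝ) (B : Matrix S' S' ℝ) (e : S → S')
    (h : ∀ f : S' → ℝ, ∀ i, (A *ᵥ (fun j => f (e j))) i = (B *ᵥ f) (e i)) (t : ℝ)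
    (f : S' → ℝ) (i : S) :
    (NormedSpace.exp (t • A) *ᵥ (fun j => f (e j))) i = (NormedSpace.exp (t • B) *ᵥ f) (e i) := by
  have hpow : ∀ n : ℕ, ∀ f : S' → ℝ, ∀ i,
      (((t • A) ^ n) *ᵥ (fun j => f (e j))) i = (((t • B) ^ n) *ᵥ f) (e i) := by
    intro n
    induction n with
    | zero => intro f i; simp
    | succ n ih =>
      intro f i
      rw [pow_succ, pow_succ, ← Matrix.mulVec_mulVec, ← Matrix.mulVec_mulVec, ← ih]
      have h1 : (t • A) *ᵥ (fun j => f (e j)) = fun j => ((t • B) *ᵥ f) (e j) := by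
        funext j
        rw [Matrix.smul_mulVec, Matrix.smul_mulVec, Pi.smul_apply, Pi.smul_apply, h f j]
      rw [h1]
  have h1 : HasSum (fun n : ℕ => ∑ j, ((n.factorial : ℝ)⁻¹ * ((t • A) ^ n) i j) * f (e j))
      (∑ j, NormedSpace.exp (t • A) i j * f (e j)) :=
    hasSum_sum fun j _ => (H96.hasSum_exp_entry (t • A) i j).mul_right (f (e j))
  have h2 : HasSum (fun n : ℕ => ∑ j, ((n.factorial : ℝ)⁻¹ * ((t • B) ^ n) (e i) j) * f j)
      (∑ j, NormedSpace.exp (t • B) (e i) j * f j) :=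
    hasSum_sum fun j _ => (H96.hasSum_exp_entry (t • B) (e i) j).mul_right (f j)
  have h3 : (fun n : ℕ => ∑ j, ((n.factorial : ℝ)⁻¹ * ((t • A) ^ n) i j) * f (e j))
      = fun n : ℕ => ∑ j, ((n.factorial : ℝ)⁻¹ * ((t • B) ^ n) (e i) j) * f j := by
    funext n
    simp_rw [mul_assoc]
    rw [← Finset.mul_sum, ← Finset.mul_sum]
    congr 1
    exact hpow n f i
  rw [h3] at h1
  exact h1.unique h2

theorem ext_mem {ω : Fin N → ℝ} (h0 : ∀ x, 0 ≤ ω x) (h1 : ∀ x, ω x ≤ 1) (x : ℕ) :
    0 ≤ ext ω x ∧ ext ω x ≤ 1 := by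
  unfold ext
  split_ifs with h
  · exact ⟨h0 _, h1 _⟩
  · norm_num

end Gen

theorem mixing_le {N k : ℕ} (hk : k ≤ N) (ω : Fin N → ℝ) (h0 : ∀ x, 0 ≤ ω x)
    (h1 : ∀ x, ω x ≤ 1) (T δ : ℝ) (hT : 0 ≤ T) (hδ : 0 < δ)
    (h : δ ≤ sg (QA N k (pw ω) (qw ω) (Finset.range (N - 1))) T (ind {topSt N k hk})
      (botSt N k hk)) :
    H96.Exclusion.mixingTime k ω ≤ ENNReal.ofReal (T * (2 / δ + 1)) := by
  classical
  obtain ⟨s, hs⟩ := toSt_surjective (topSt N k hk)
  have hrt : ∀ i ∈ (Finset.range (N - 1)) ×ˢ (Finset.univ : Finset Bool),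
      0 ≤ rt (pw ω) (qw ω) i := by
    intro i _
    unfold rt
    split_ifs
    · exact (ext_mem h0 h1 _).1
    · unfold qw
      linarith [(ext_mem h0 h1 (i.1 + 1)).2]
  have hinc : Incr (hle (N := N) (k := k)) (ind {topSt N k hk}) := by
    intro η ζ hηζ
    unfold ind
    by_cases hη : η = topSt N k hk
    · have hζ : ζ = topSt N k hk := by
        refine hle_antisymm (hle_top hk ζ) ?_
        rw [← hη]
        exact hηζ
      simp [hη, hζ]
    · rw [Set.indicator_of_notMem (by simpa using hη)]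
      exact Set.indicator_nonneg (fun _ _ => zero_le_one) _
  have hsg : ∀ η : St N k, δ ≤ sg (QA N k (pw ω) (qw ω) (Finset.range (N - 1))) T
      (ind {topSt N k hk}) η := by
    intro η
    refine h.trans ?_
    exact sg_incr hle _ _ _ hrt (fun i _ η ζ => mv_mono i η ζ) hT _ hinc _ _ (bot_hle hk η)
  have hKs : ∀ i, δ ≤ NormedSpace.exp (T • H96.Exclusion.generator (k := k) ω) i s := by
    intro i
    have e1 := exp_intertwine (H96.Exclusion.generator (k := k) ω)
      (QA N k (pw ω) (qw ω) (Finset.range (N - 1))) toSt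
      (fun f j => generator_intertwine ω f j) T (ind {topSt N k hk}) i
    have e2 : (fun j : H96.Exclusion.Config N k => ind {topSt N k hk} (toSt j))
        = Pi.single s (1 : ℝ) := by
      funext j
      unfold ind
      by_cases hj : j = s
      · subst hj
        rw [hs]
        simp
      · rw [Pi.single_eq_of_ne hj]
        refine Set.indicator_of_notMem ?_ _
        intro hm
        rw [Set.mem_singleton_iff, ← hs] at hm
        exact hj (toSt_injective hm)
    rw [e2] at e1
    have e3 : (NormedSpace.exp (T • H96.Exclusion.generator (k := k) ω) *ᵥ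
        (Pi.single s (1 : ℝ))) i
        = NormedSpace.exp (T • H96.Exclusion.generator (k := k) ω) i s := by simp
    rw [← e3, e1]
    exact hsg _
  have hjr : ∀ η ζ : H96.Exclusion.Config N k, 0 ≤ H96.Exclusion.jumpRate ω η ζ := by
    intro η ζ
    unfold H96.Exclusion.jumpRate
    refine Finset.sum_nonneg fun x _ => Finset.sum_nonneg fun y _ => ?_
    split_ifs
    · unfold H96.Exclusion.siteRate
      split_ifs
      · exact h0 _
      · linarith [h1 x]
      · exact le_rfl
    · exact le_rfl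
  have hrow : ∀ η : H96.Exclusion.Config N k, ∑ ζ, H96.Exclusion.generator (k := k) ω η ζ = 0 := by
    intro η
    have := generator_mulVec (k := k) ω (fun _ => (1 : ℝ)) η
    simpa [Matrix.mulVec, dotProduct] using this
  have hoff : ∀ η ζ : H96.Exclusion.Config N k, η ≠ ζ →
      0 ≤ H96.Exclusion.generator (k := k) ω η ζ := by
    intro η ζ hne
    simp only [H96.Exclusion.generator, Matrix.of_apply, if_neg hne, sub_zero]
    exact hjr η ζ
  obtain ⟨π, hπ0, hπ1, hπi, hπc⟩ := exists_stationary _ hrow hoff T δ hT hδ s hKs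
  -- `δ ≤ 1`
  have hδ1 : δ ≤ 1 := by
    have h2 := hKs s
    have h3 : ∑ j, NormedSpace.exp (T • H96.Exclusion.generator (k := k) ω) s j = 1 := by
      have h4 := H96.exp_mulVec_one (H96.Exclusion.generator (k := k) ω) hrow T s
      simpa [Matrix.mulVec, dotProduct] using h4
    have h5 : ∀ j, 0 ≤ NormedSpace.exp (T • H96.Exclusion.generator (k := k) ω) s j := by
      intro j
      refine H96.exp_entry_nonneg _ (fun a b hab => ?_) s j
      simp only [Matrix.smul_apply, smul_eq_mul]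
      exact mul_nonneg hT (hoff a b hab)
    have h6 := Finset.single_le_sum (fun j _ => h5 j) (Finset.mem_univ s)
    linarith
  set n : ℕ := ⌈2 / δ⌉₊ with hn
  have hn1 : 2 / δ ≤ n := Nat.le_ceil _
  have hn2 : (n : ℝ) ≤ 2 / δ + 1 := (Nat.ceil_lt_add_one (by positivity)).le
  have hsmall : (1 - δ) ^ n ≤ 1 / 4 := by
    have h2 : (1 - δ) ≤ Real.exp (-δ) := by
      have := Real.add_one_le_exp (-δ)
      linarith
    have h3 : (1 - δ) ^ n ≤ Real.exp (-δ) ^ n := pow_le_pow_left₀ (by linarith) h2 n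
    have h4 : Real.exp (-δ) ^ n = Real.exp (-(δ * n)) := by
      rw [← Real.exp_nat_mul]
      congr 1
      ring
    have h5 : 2 ≤ δ * n := by
      have := mul_le_mul_of_nonneg_left hn1 hδ.le
      rwa [mul_div_cancel₀ _ hδ.ne'] at this
    have h6 : Real.exp (-(δ * n)) ≤ Real.exp (-2) := Real.exp_le_exp.2 (by linarith)
    have h7 : Real.exp (-2) ≤ 1 / 4 := by
      have h8 : (2 : ℝ) ≤ Real.exp 1 := by
        have := Real.add_one_le_exp (1 : ℝ)
        linarith
      have h9 : Real.exp 2 = Real.exp 1 * Real.exp 1 := by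
        rw [← Real.exp_add]; norm_num
      rw [Real.exp_neg, h9, inv_eq_one_div]
      exact one_div_le_one_div_of_le (by norm_num) (by nlinarith)
    linarith
  have hnT : 0 ≤ (n : ℝ) * T := mul_nonneg (Nat.cast_nonneg n) hT
  have hex : ∃ π : H96.Exclusion.Config N k → ℝ, H96.Exclusion.IsStationary ω π ∧
      ∀ η, H96.Exclusion.tv (H96.Exclusion.law ω (((⟨n * T, hnT⟩ : ℝ≥0)) : ℝ) η) π ≤ 1 / 4 := by
    refine ⟨π, ⟨hπ0, hπ1, fun t _ ζ => hπi t ζ⟩, fun η => ?_⟩
    have h2 := hπc n η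
    unfold H96.Exclusion.tv
    have h3 : ∑ ζ, |H96.Exclusion.law ω (((⟨n * T, hnT⟩ : ℝ≥0)) : ℝ) η ζ - π ζ|
        ≤ 2 * (1 - δ) ^ n := h2
    linarith
  refine (iInf₂_le (⟨n * T, hnT⟩ : ℝ≥0) hex).trans ?_
  refine (le_of_eq (ENNReal.ofReal_eq_coe_nnreal hnT).symm).trans ?_
  refine ENNReal.ofReal_le_ofReal ?_
  rw [mul_comm]
  exact mul_le_mul_of_nonneg_left hn2 hT

end Pool.Agent.EBX
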