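import Mathlib
import Pool.Agent.EBX.States

/-!
# EBX: comparison of two environments (sg_compare; le_Up, Dn_le; ind {top} increasing; p' ≤ p, q' ≥ q; note the rates
beyond the segment do not matter: bonds of range(N-1) only), truncation of the law (ρ of min(u,1-κ') ≤ ρ(u) + κ'/(1-κ')),
existence of s (ρ^s ≤ ρ κ^(-(s-1))).
-/

set_option autoImplicit false

open scoped Matrix ENNReal NNReal
open MeasureTheory Filter Topology

namespace Pool.Agent.EBX

theorem ext_compare {N k : ℕ} (hk : k ≤ N) (ω ω' : Fin N → ℝ) (h0 : ∀ x, 0 ≤ ω' x)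
    (hle : ∀ x, ω' x ≤ ω x) (h1 : ∀ x, ω x ≤ 1) (T : ℝ) (hT : 0 ≤ T) :
    sg (QA N k (pw ω') (qw ω') (Finset.range (N - 1))) T (ind {topSt N k hk}) (botSt N k hk)
      ≤ sg (QA N k (pw ω) (qw ω) (Finset.range (N - 1))) T (ind {topSt N k hk})
        (botSt N k hk) := by
  have hp' : ∀ x, x < N → 0 ≤ pw ω' x := by
    intro x hx
    simp only [pw, ext, dif_pos hx]
    exact h0 _
  have hpp : ∀ x, x < N → pw ω' x ≤ pw ω x := by
    intro x hx
    simp only [pw, ext, dif_pos hx]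
    exact hle _
  have hq : ∀ x, x + 1 < N → 0 ≤ qw ω x := by
    intro x hx
    simp only [qw, ext, dif_pos hx]
    linarith [h1 ⟨x + 1, hx⟩]
  have hqq : ∀ x, x + 1 < N → qw ω x ≤ qw ω' x := by
    intro x hx
    simp only [qw, ext, dif_pos hx]
    linarith [hle ⟨x + 1, hx⟩]
  have hmem : ∀ i : ℕ × Bool, i ∈ (Finset.range (N - 1)) ×ˢ (Finset.univ : Finset Bool) →
      i.1 + 1 < N := by
    intro i hi
    have := Finset.mem_range.1 (Finset.mem_product.1 hi).1
    omega
  have hinc : Incr (fun η ζ : St N k => Pool.Agent.EBX.hle η ζ) (ind {topSt N k hk}) := by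
    intro η ζ h
    unfold ind
    by_cases hη : η = topSt N k hk
    · have hζ : ζ = topSt N k hk := by
        subst hη
        exact hle_antisymm (hle_top hk ζ) h
      rw [hη, hζ]
    · rw [Set.indicator_of_notMem (by simpa using hη)]
      exact Set.indicator_nonneg (fun _ _ => zero_le_one) _
  refine sg_compare (fun η ζ : St N k => Pool.Agent.EBX.hle η ζ) _ _ _ _ _ _ ?_ ?_ ?_ ?_ hT _
    hinc _
  · intro i hi
    have hi' := hmem i hi
    unfold rt
    split_ifs
    · exact (hp' _ (by omega)).trans (hpp _ (by omega))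
    · exact hq _ hi'
  · intro i hi
    have hi' := hmem i hi
    unfold rt
    split_ifs
    · exact hp' _ (by omega)
    · exact (hq _ hi').trans (hqq _ hi')
  · intro i _ η ζ h
    exact mv_mono i η ζ h
  · intro g hg η
    have e1 := QA_mulVec (pw ω') (qw ω') (Finset.range (N - 1)) g η
    have e2 := QA_mulVec (pw ω) (qw ω) (Finset.range (N - 1)) g η
    unfold QA at e1 e2
    rw [e1, e2]
    refine Finset.sum_le_sum fun x hx => ?_
    have hx' : x + 1 < N := by
      have := Finset.mem_range.1 hx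
      omega
    have a1 : 0 ≤ g (Up N k x η) - g η := by
      have := hg _ _ (le_Up x η)
      linarith
    have a2 : g (Dn N k x η) - g η ≤ 0 := by
      have := hg _ _ (Dn_le x η)
      linarith
    have b1 := mul_le_mul_of_nonneg_right (hpp x (by omega)) a1
    have b2 := mul_le_mul_of_nonpos_right (hqq x hx') a2
    linarith

theorem trunc_law (ν : Measure ℝ) [IsProbabilityMeasure ν] (κ : ℝ) (hκ : 0 < κ)
    (hν : ν (Set.Icc κ 1)ᶜ = 0) (hm1 : ∫⁻ u, ENNReal.ofReal ((1 - u) / u) ∂ν < 1) (s : ℝ)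
    (hs : 1 < s) (hms : ∫⁻ u, ENNReal.ofReal (((1 - u) / u) ^ s) ∂ν < 1) :
    ∃ κ' : ℝ, 0 < κ' ∧ κ' ≤ κ ∧ κ' ≤ 1 / 2 ∧
      (ν.map (fun u => min u (1 - κ'))) (Set.Icc κ' (1 - κ'))ᶜ = 0 ∧
      ∫⁻ u, ENNReal.ofReal ((1 - u) / u) ∂(ν.map (fun u => min u (1 - κ'))) < 1 ∧
      ∫⁻ u, ENNReal.ofReal (((1 - u) / u) ^ s) ∂(ν.map (fun u => min u (1 - κ'))) < 1 := by
  set I₁ := ∫⁻ u, ENNReal.ofReal ((1 - u) / u) ∂ν with hI₁
  set I₂ := ∫⁻ u, ENNReal.ofReal (((1 - u) / u) ^ s) ∂ν with hI₂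
  have t1 : I₁.toReal < 1 := by
    have := (ENNReal.toReal_lt_toReal hm1.ne_top ENNReal.one_ne_top).2 hm1
    simpa using this
  have t2 : I₂.toReal < 1 := by
    have := (ENNReal.toReal_lt_toReal hms.ne_top ENNReal.one_ne_top).2 hms
    simpa using this
  set ε : ℝ := min (1 - I₁.toReal) (1 - I₂.toReal) / 2 with hε
  have hε0 : 0 < ε := by
    rw [hε]
    have : 0 < min (1 - I₁.toReal) (1 - I₂.toReal) := lt_min (by linarith) (by linarith)
    linarith
  have hε1 : I₁.toReal + ε < 1 := by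
    have : min (1 - I₁.toReal) (1 - I₂.toReal) ≤ 1 - I₁.toReal := min_le_left _ _
    linarith
  have hε2 : I₂.toReal + ε < 1 := by
    have : min (1 - I₁.toReal) (1 - I₂.toReal) ≤ 1 - I₂.toReal := min_le_right _ _
    linarith
  have f1 : I₁ + ENNReal.ofReal ε < 1 := by
    rw [← ENNReal.ofReal_toReal hm1.ne_top, ← ENNReal.ofReal_add ENNReal.toReal_nonneg hε0.le,
      ← ENNReal.ofReal_one]
    exact (ENNReal.ofReal_lt_ofReal_iff one_pos).2 hε1
  have f2 : I₂ + ENNReal.ofReal ε < 1 := by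
    rw [← ENNReal.ofReal_toReal hms.ne_top, ← ENNReal.ofReal_add ENNReal.toReal_nonneg hε0.le,
      ← ENNReal.ofReal_one]
    exact (ENNReal.ofReal_lt_ofReal_iff one_pos).2 hε2
  set κ' : ℝ := min (min κ (1 / 2)) (ε / 2) with hκ'
  have k0 : 0 < κ' := lt_min (lt_min hκ (by norm_num)) (by linarith)
  have k1 : κ' ≤ κ := (min_le_left _ _).trans (min_le_left _ _)
  have k2 : κ' ≤ 1 / 2 := (min_le_left _ _).trans (min_le_right _ _)
  have k3 : κ' ≤ ε / 2 := min_le_right _ _
  have hmeas : Measurable (fun u : ℝ => min u (1 - κ')) := by fun_prop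
  have hae : ∀ᵐ u ∂ν, u ∈ Set.Icc κ 1 := by
    rw [ae_iff]
    exact hν
  have key : ∀ u ∈ Set.Icc κ (1 : ℝ), 0 ≤ (1 - min u (1 - κ')) / min u (1 - κ') ∧
      0 ≤ (1 - u) / u ∧
      ((1 - min u (1 - κ')) / min u (1 - κ') = (1 - u) / u ∨
        (1 - min u (1 - κ')) / min u (1 - κ') ≤ ε) ∧
      ((1 - min u (1 - κ')) / min u (1 - κ') = (1 - u) / u ∨
        (1 - min u (1 - κ')) / min u (1 - κ') ≤ 1) := by
    intro u hu
    have hu0 : 0 < u := lt_of_lt_of_le hκ hu.1
    have g1 : 0 ≤ (1 - u) / u := div_nonneg (by linarith [hu.2]) hu0.le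
    rcases le_total u (1 - κ') with h | h
    · rw [min_eq_left h]
      exact ⟨g1, g1, Or.inl rfl, Or.inl rfl⟩
    · rw [min_eq_right h]
      have g2 : (1 - (1 - κ')) / (1 - κ') ≤ 2 * κ' := by
        rw [div_le_iff₀ (by linarith)]
        nlinarith
      refine ⟨div_nonneg (by linarith) (by linarith), g1, Or.inr (by linarith),
        Or.inr (by linarith)⟩
  refine ⟨κ', k0, k1, k2, ?_, ?_, ?_⟩
  · rw [Measure.map_apply hmeas measurableSet_Icc.compl]
    refine measure_mono_null ?_ hν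
    intro u hu hu'
    apply hu
    refine ⟨le_min (k1.trans hu'.1) (by linarith), min_le_right _ _⟩
  · rw [lintegral_map (by fun_prop) hmeas]
    refine lt_of_le_of_lt ?_ f1
    have hc : ENNReal.ofReal ε = ∫⁻ _, ENNReal.ofReal ε ∂ν := by
      rw [lintegral_const, measure_univ, mul_one]
    rw [hc, hI₁, ← lintegral_add_right _ measurable_const]
    refine lintegral_mono_ae ?_
    filter_upwards [hae] with u hu
    obtain ⟨c1, c2, c3, -⟩ := key u hu
    rcases c3 with c3 | c3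
    · rw [c3]
      exact le_self_add
    · exact (ENNReal.ofReal_le_ofReal c3).trans le_add_self
  · rw [lintegral_map (by fun_prop) hmeas]
    refine lt_of_le_of_lt ?_ f2
    have hc : ENNReal.ofReal ε = ∫⁻ _, ENNReal.ofReal ε ∂ν := by
      rw [lintegral_const, measure_univ, mul_one]
    rw [hc, hI₂, ← lintegral_add_right _ measurable_const]
    refine lintegral_mono_ae ?_
    filter_upwards [hae] with u hu
    obtain ⟨c1, c2, c3, c4⟩ := key u hu
    rcases c3 with c3 | c3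
    · rw [c3]
      exact le_self_add
    · rcases c4 with c4 | c4
      · rw [c4]
        exact le_self_add
      · have h2 : ((1 - min u (1 - κ')) / min u (1 - κ')) ^ s ≤ ε := by
          refine le_trans ?_ c3
          calc ((1 - min u (1 - κ')) / min u (1 - κ')) ^ s
              ≤ ((1 - min u (1 - κ')) / min u (1 - κ')) ^ (1 : ℝ) :=
                Real.rpow_le_rpow_of_exponent_ge' c1 c4 zero_le_one hs.le
            _ = _ := Real.rpow_one _
        exact (ENNReal.ofReal_le_ofReal h2).trans le_add_self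

theorem exists_s (ν : Measure ℝ) [IsProbabilityMeasure ν] (κ : ℝ) (hκ : 0 < κ)
    (hν : ν (Set.Icc κ 1)ᶜ = 0) (hm1 : ∫⁻ u, ENNReal.ofReal ((1 - u) / u) ∂ν < 1) :
    ∃ s : ℝ, 1 < s ∧ ∫⁻ u, ENNReal.ofReal (((1 - u) / u) ^ s) ∂ν < 1 := by
  set I₁ := ∫⁻ u, ENNReal.ofReal ((1 - u) / u) ∂ν with hI₁
  have t1 : I₁.toReal < 1 := by
    have := (ENNReal.toReal_lt_toReal hm1.ne_top ENNReal.one_ne_top).2 hm1
    simpa using this
  set M : ℝ := max (1 / κ) 1 with hM
  have hM1 : 1 ≤ M := le_max_right _ _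
  have hM0 : 0 < M := by linarith
  have hcont : Tendsto (fun s : ℝ => M ^ (s - 1) * I₁.toReal) (𝓝 1) (𝓝 I₁.toReal) := by
    have h1 : ContinuousAt (fun s : ℝ => M ^ (s - 1) * I₁.toReal) 1 := by
      refine ContinuousAt.mul ?_ continuousAt_const
      exact ContinuousAt.rpow continuousAt_const (continuousAt_id.sub continuousAt_const)
        (Or.inl hM0.ne')
    have h2 := h1.tendsto
    simpa using h2
  have hev : ∀ᶠ s in 𝓝[>] (1 : ℝ), M ^ (s - 1) * I₁.toReal < 1 :=
    (hcont.eventually (gt_mem_nhds t1)).filter_mono nhdsWithin_le_nhds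
  obtain ⟨s, hs1, hs2⟩ := (hev.and self_mem_nhdsWithin).exists
  have hs2' : 1 < s := hs2
  refine ⟨s, hs2', ?_⟩
  have hae : ∀ᵐ u ∂ν, u ∈ Set.Icc κ 1 := by
    rw [ae_iff]
    exact hν
  have hle : ∫⁻ u, ENNReal.ofReal (((1 - u) / u) ^ s) ∂ν
      ≤ ENNReal.ofReal (M ^ (s - 1)) * I₁ := by
    rw [hI₁, ← lintegral_const_mul _ (by fun_prop)]
    refine lintegral_mono_ae ?_
    filter_upwards [hae] with u hu
    have hu0 : 0 < u := lt_of_lt_of_le hκ hu.1
    have g1 : 0 ≤ (1 - u) / u := div_nonneg (by linarith [hu.2]) hu0.le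
    have g2 : (1 - u) / u ≤ M := by
      refine le_trans ?_ (le_max_left _ _)
      rw [div_le_div_iff₀ hu0 hκ]
      nlinarith [hu.1, hu.2]
    rw [← ENNReal.ofReal_mul (Real.rpow_nonneg hM0.le _)]
    refine ENNReal.ofReal_le_ofReal ?_
    have e : ((1 - u) / u) ^ s = ((1 - u) / u) ^ (s - 1) * ((1 - u) / u) := by
      rcases g1.eq_or_lt with h | h
      · rw [← h, Real.zero_rpow (by linarith), mul_zero]
      · conv_lhs => rw [show s = (s - 1) + 1 by ring]
        rw [Real.rpow_add h, Real.rpow_one]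
    rw [e]
    exact mul_le_mul_of_nonneg_right (Real.rpow_le_rpow g1 g2 (by linarith)) g1
  refine lt_of_le_of_lt hle ?_
  rw [← ENNReal.ofReal_toReal hm1.ne_top, ← ENNReal.ofReal_mul (Real.rpow_nonneg hM0.le _),
    ← ENNReal.ofReal_one]
  exact (ENNReal.ofReal_lt_ofReal_iff one_pos).2 hs1

end Pool.Agent.EBX
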