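import Mathlib
import Pool.Agent.EBX.Link
import Pool.Agent.EBX.Trunc
import Pool.Agent.EBX.SortedEq

/-!
# EBX: deterministic lower bound. E = {η | ht η.1 (x+1) = k} (no particle at sites ≤ x), ind E increasing. (a) from bot:
generator bound: QA applied to η ↦ ht η.1 (x+1) is ≤ ω x, so E_bot ht_t(x+1) ≤ ht bot (x+1) + ω x t (H96.exp_mulVec_le), and
ht_t ≥ ht bot, k - ht bot (x+1) = min k (x+1): Markov P_bot(E) ≤ ω x t / min k (x+1) ≤ 1/5. (b) from top: P_top(E) ≥ the same for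
ω' (ext_compare / sg_compare with general increasing function) ≥ π'(E), π' = normalised wt (Vw ω') (reversible, QA_rev; top
dominates: sg f top ≥ ∑ π' sg f = ∑ π' f), and π'(u ∈ η, v ∉ η) ≤ exp(V v - V u) (exchange), at least H holes at sites ≥ x+w, so
π'(not E) ≤ N²e₁/H ≤ 1/10. (c) tv ≤ 1/4 for bot and top would give P_top(E) - P_bot(E) ≤ 1/2 < 9/10 - 1/5. The identification
law ↔ sg is in EBX/Link.
-/

set_option autoImplicit false

open scoped Matrix ENNReal NNReal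
open MeasureTheory Filter Topology

namespace Pool.Agent.EBX

private theorem lo_rt2 {N : ℕ} (ω : Fin N → ℝ) (h0 : ∀ x, 0 ≤ ω x) (h1 : ∀ x, ω x ≤ 1) :
    ∀ i ∈ (Finset.range (N - 1)) ×ˢ (Finset.univ : Finset Bool), 0 ≤ rt (pw ω) (qw ω) i := by
  intro i _
  unfold rt
  split_ifs
  · exact (ext_mem h0 h1 _).1
  · unfold qw
    linarith [(ext_mem h0 h1 (i.1 + 1)).2]

private theorem lo_compare2 {N k : ℕ} (ω ω' : Fin N → ℝ) (h0 : ∀ x, 0 ≤ ω' x)
    (hle : ∀ x, ω' x ≤ ω x) (h1 : ∀ x, ω x ≤ 1) (T : ℝ) (hT : 0 ≤ T) (g : St N k → ℝ)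
    (hinc : Incr (fun η ζ : St N k => Pool.Agent.EBX.hle η ζ) g) (η : St N k) :
    sg (QA N k (pw ω') (qw ω') (Finset.range (N - 1))) T g η
      ≤ sg (QA N k (pw ω) (qw ω) (Finset.range (N - 1))) T g η := by
  have hp' : ∀ x, x < N → 0 ≤ pw ω' x := by
    intro x hx
    simp only [pw, ext, dif_pos hx]
    exact h0 _
  have hpp : ∀ x, x < N → pw ω' x ≤ pw ω x := by
    intro x hx
    simp only [pw, ext, dif_pos hx]
    exact hle _
  have hq : ∀ x, x + 1 < N → 0 ≤ qw ω x := by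
    intro x hx
    simp only [qw, ext, dif_pos hx]
    linarith [h1 ⟨x + 1, hx⟩]
  have hqq : ∀ x, x + 1 < N → qw ω x ≤ qw ω' x := by
    intro x hx
    simp only [qw, ext, dif_pos hx]
    linarith [hle ⟨x + 1, hx⟩]
  have hmem : ∀ i : ℕ × Bool, i ∈ (Finset.range (N - 1)) ×ˢ (Finset.univ : Finset Bool) →
      i.1 + 1 < N := by
    intro i hi
    have := Finset.mem_range.1 (Finset.mem_product.1 hi).1
    omega
  refine sg_compare (fun η ζ : St N k => Pool.Agent.EBX.hle η ζ) _ _ _ _ _ _ ?_ ?_ ?_ ?_ hT _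
    hinc _
  · intro i hi
    have hi' := hmem i hi
    unfold rt
    split_ifs
    · exact (hp' _ (by omega)).trans (hpp _ (by omega))
    · exact hq _ hi'
  · intro i hi
    have hi' := hmem i hi
    unfold rt
    split_ifs
    · exact hp' _ (by omega)
    · exact (hq _ hi').trans (hqq _ hi')
  · intro i _ η ζ h
    exact mv_mono i η ζ h
  · intro g hg η
    have e1 := QA_mulVec (pw ω') (qw ω') (Finset.range (N - 1)) g η
    have e2 := QA_mulVec (pw ω) (qw ω) (Finset.range (N - 1)) g η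
    unfold QA at e1 e2
    rw [e1, e2]
    refine Finset.sum_le_sum fun x hx => ?_
    have hx' : x + 1 < N := by
      have := Finset.mem_range.1 hx
      omega
    have a1 : 0 ≤ g (Up N k x η) - g η := by
      have := hg _ _ (le_Up x η)
      linarith
    have a2 : g (Dn N k x η) - g η ≤ 0 := by
      have := hg _ _ (Dn_le x η)
      linarith
    have b1 := mul_le_mul_of_nonneg_right (hpp x (by omega)) a1
    have b2 := mul_le_mul_of_nonpos_right (hqq x hx') a2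
    linarith

/-- no particle at sites `≤ x` -/
private def loE2 (N k x : ℕ) : Set (St N k) := {η | ht η.1 (x + 1) = k}

private theorem lo_inc2 {N k : ℕ} (x : ℕ) :
    Incr (fun η ζ : St N k => Pool.Agent.EBX.hle η ζ) (ind (loE2 N k x)) := by
  intro η ζ h
  unfold ind
  by_cases hη : η ∈ loE2 N k x
  · have hζ : ζ ∈ loE2 N k x := by
      have h1 := h (x + 1)
      have h2 := ht_le_k ζ (x + 1)
      have h3 : ht η.1 (x + 1) = k := hη
      show ht ζ.1 (x + 1) = k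
      omega
    rw [Set.indicator_of_mem hη, Set.indicator_of_mem hζ]
  · rw [Set.indicator_of_notMem hη]
    exact Set.indicator_nonneg (fun _ _ => zero_le_one) _

private theorem lo_bot_ht2 {N k : ℕ} (hk : k ≤ N) (x : ℕ) :
    ht (botSt N k hk).1 (x + 1) = k - (x + 1) := by
  unfold ht botSt
  have h : (Finset.range k).filter (fun z => x + 1 ≤ z) = Finset.Ico (x + 1) k := by
    ext z
    rw [Finset.mem_filter, Finset.mem_range, Finset.mem_Ico]
    tauto
  show ((Finset.range k).filter (fun z => x + 1 ≤ z)).card = k - (x + 1)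
  rw [h, Nat.card_Ico]

private theorem lo_gen2 {N k : ℕ} (ω : Fin N → ℝ) (h0 : ∀ x, 0 ≤ ω x) (h1 : ∀ x, ω x ≤ 1)
    (x : ℕ) (η : St N k) :
    (QA N k (pw ω) (qw ω) (Finset.range (N - 1)) *ᵥ
      (fun η : St N k => (ht η.1 (x + 1) : ℝ))) η ≤ pw ω x := by
  rw [QA_mulVec]
  have hp : ∀ z, 0 ≤ pw ω z := fun z => (ext_mem h0 h1 z).1
  have hq : ∀ z, 0 ≤ qw ω z := fun z => by
    unfold qw
    linarith [(ext_mem h0 h1 (z + 1)).2]
  have hterm : ∀ z ∈ Finset.range (N - 1),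
      pw ω z * ((ht (Up N k z η).1 (x + 1) : ℝ) - (ht η.1 (x + 1) : ℝ))
        + qw ω z * ((ht (Dn N k z η).1 (x + 1) : ℝ) - (ht η.1 (x + 1) : ℝ))
      ≤ if z = x then pw ω x else 0 := by
    intro z _
    have eU : Up N k z η = mv N k (z, true) η := by simp [mv]
    have eD : Dn N k z η = mv N k (z, false) η := by simp [mv]
    split_ifs with hz
    · subst hz
      have a1 : ((ht (Up N k z η).1 (z + 1) : ℝ)) ≤ (ht η.1 (z + 1) : ℝ) + 1 := by
        have h2 : ht (Up N k z η).1 (z + 1) ≤ ht η.1 (z + 1) + 1 := by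
          rw [eU, ht_mv_succ]
          have h3 := ht_succ η.1 z
          have h5 : (if z ∈ η.1 then 1 else 0) ≤ 1 := by split_ifs <;> omega
          simp only [↓reduceIte]
          split_ifs
          · exact (min_le_left _ _).trans (by omega)
          · omega
        exact_mod_cast h2
      have a2 : ((ht (Dn N k z η).1 (z + 1) : ℝ)) ≤ (ht η.1 (z + 1) : ℝ) := by
        exact_mod_cast Dn_le z η (z + 1)
      have b1 := mul_le_mul_of_nonneg_left
        (show (ht (Up N k z η).1 (z + 1) : ℝ) - (ht η.1 (z + 1) : ℝ) ≤ 1 by linarith) (hp z)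
      have b2 := mul_nonpos_of_nonneg_of_nonpos (hq z)
        (show (ht (Dn N k z η).1 (z + 1) : ℝ) - (ht η.1 (z + 1) : ℝ) ≤ 0 by linarith)
      linarith
    · have hne : x + 1 ≠ z + 1 := fun h => hz (by omega)
      rw [eU, eD, ht_mv (z, true) hne, ht_mv (z, false) hne]
      simp
  refine (Finset.sum_le_sum hterm).trans ?_
  rw [Finset.sum_ite_eq']
  split_ifs
  · exact le_rfl
  · exact hp x

private theorem lo_bot2 {N k : ℕ} (hk : k ≤ N) (ω : Fin N → ℝ) (h0 : ∀ x, 0 ≤ ω x)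
    (h1 : ∀ x, ω x ≤ 1) (x : ℕ) (t : ℝ) (ht0 : 0 ≤ t) :
    ((min k (x + 1) : ℕ) : ℝ) * sg (QA N k (pw ω) (qw ω) (Finset.range (N - 1))) t
      (ind (loE2 N k x)) (botSt N k hk) ≤ pw ω x * t := by
  set Q := QA N k (pw ω) (qw ω) (Finset.range (N - 1)) with hQ
  set m : ℝ := ((min k (x + 1) : ℕ) : ℝ) with hm
  set b : ℝ := ((k - (x + 1) : ℕ) : ℝ) with hb
  have hrt := lo_rt2 ω h0 h1
  have hk' : m + b = (k : ℝ) := by
    rw [hm, hb, ← Nat.cast_add]
    congr 1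
    omega
  have hA := H96.exp_mulVec_le Q
    (fun i j hij => gen_off _ _ _ hrt i j hij) (fun i => gen_row _ _ _ i)
    (fun η : St N k => (ht η.1 (x + 1) : ℝ)) (pw ω x) (fun i => lo_gen2 ω h0 h1 x i) t ht0
    (botSt N k hk)
  have hpt : ∀ η : St N k, (m • ind (loE2 N k x) + (fun _ : St N k => b) : St N k → ℝ) η
      ≤ (fun η : St N k => (ht η.1 (x + 1) : ℝ)) η := by
    intro η
    simp only [Pi.add_apply, Pi.smul_apply, smul_eq_mul]
    unfold ind
    by_cases hη : η ∈ loE2 N k x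
    · rw [Set.indicator_of_mem hη]
      have h3 : ht η.1 (x + 1) = k := hη
      rw [h3, mul_one, hk']
    · rw [Set.indicator_of_notMem hη, mul_zero, zero_add]
      have h4 := bot_hle hk η (x + 1)
      rw [lo_bot_ht2] at h4
      rw [hb]
      exact_mod_cast h4
  have hB : sg Q t (m • ind (loE2 N k x) + (fun _ : St N k => b)) (botSt N k hk)
      ≤ sg Q t (fun η : St N k => (ht η.1 (x + 1) : ℝ)) (botSt N k hk) :=
    sg_mono _ _ _ hrt ht0 _ _ hpt _
  rw [sg_fadd, sg_fsmul] at hB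
  have hC : sg Q t (fun _ => b) = fun _ => b := sg_const _ _ _ t b
  rw [hC] at hB
  simp only [Pi.add_apply, Pi.smul_apply, smul_eq_mul] at hB
  have hD : sg Q t (fun η : St N k => (ht η.1 (x + 1) : ℝ)) (botSt N k hk)
      ≤ b + pw ω x * t := by
    refine hA.trans (le_of_eq ?_)
    simp only [lo_bot_ht2]
    rfl
  linarith

/-! ### The reversible measure -/

private theorem lo_ex_mem2 {N k x y : ℕ} {ζ : Finset ℕ}
    (hζ : ζ ∈ (Finset.range N).powersetCard k) (hy : y < N) (hx : x ∈ ζ) (hyn : y ∉ ζ) :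
    insert y (ζ.erase x) ∈ (Finset.range N).powersetCard k := by
  rw [Finset.mem_powersetCard] at hζ ⊢
  refine ⟨?_, ?_⟩
  · intro z hz
    rw [Finset.mem_insert, Finset.mem_erase] at hz
    rcases hz with rfl | hz
    · exact Finset.mem_range.2 hy
    · exact hζ.1 hz.2
  · rw [Finset.card_insert_of_notMem (fun hc => hyn (Finset.mem_of_mem_erase hc)),
      Finset.card_erase_of_mem hx]
    have : 0 < ζ.card := Finset.card_pos.2 ⟨x, hx⟩
    omega

private def loX2 {N k : ℕ} (x y : ℕ) (ζ : St N k) : St N k :=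
  if h : y < N ∧ x ∈ ζ.1 ∧ y ∉ ζ.1 then ⟨insert y (ζ.1.erase x), lo_ex_mem2 ζ.2 h.1 h.2.1 h.2.2⟩
  else ζ

private theorem lo_X_val2 {N k : ℕ} {x y : ℕ} {ζ : St N k} (hy : y < N) (hx : x ∈ ζ.1)
    (hyn : y ∉ ζ.1) : (loX2 x y ζ).1 = insert y (ζ.1.erase x) := by
  unfold loX2
  rw [dif_pos ⟨hy, hx, hyn⟩]

private theorem lo_X_wt2 {N k : ℕ} (V : ℕ → ℝ) {x y : ℕ} {ζ : St N k} (hy : y < N)
    (hx : x ∈ ζ.1) (hyn : y ∉ ζ.1) :
    wt V ζ.1 = wt V (loX2 x y ζ).1 * Real.exp (V y - V x) := by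
  rw [lo_X_val2 hy hx hyn]
  unfold wt
  rw [← Real.exp_add, Finset.sum_insert (fun hc => hyn (Finset.mem_of_mem_erase hc))]
  congr 1
  have h := Finset.sum_erase_add ζ.1 V hx
  linarith

private theorem lo_X_inj2 {N k : ℕ} {x y : ℕ} {ζ ζ' : St N k} (hy : y < N) (hx : x ∈ ζ.1)
    (hyn : y ∉ ζ.1) (hx' : x ∈ ζ'.1) (hyn' : y ∉ ζ'.1) (h : loX2 x y ζ = loX2 x y ζ') :
    ζ = ζ' := by
  have h1 := congrArg Subtype.val h
  rw [lo_X_val2 hy hx hyn, lo_X_val2 hy hx' hyn'] at h1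
  have h2 : (insert y (ζ.1.erase x)).erase y = (insert y (ζ'.1.erase x)).erase y := by rw [h1]
  rw [Finset.erase_insert (fun hc => hyn (Finset.mem_of_mem_erase hc)),
    Finset.erase_insert (fun hc => hyn' (Finset.mem_of_mem_erase hc))] at h2
  apply Subtype.ext
  rw [← Finset.insert_erase hx, ← Finset.insert_erase hx', h2]

/-- the weight of the configurations with a particle at `u` and a hole at `v` -/
private theorem lo_pair2 {N k : ℕ} (V : ℕ → ℝ) (u v : ℕ) (e₁ : ℝ) (he : 0 ≤ e₁)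
    (hV : Real.exp (V v - V u) ≤ e₁) (hv : v < N) :
    ∑ ζ : St N k, (if u ∈ ζ.1 ∧ v ∉ ζ.1 then wt V ζ.1 else 0) ≤ e₁ * ∑ ζ : St N k, wt V ζ.1 := by
  classical
  rw [← Finset.sum_filter]
  have h1 : ∑ ζ ∈ Finset.univ.filter (fun ζ : St N k => u ∈ ζ.1 ∧ v ∉ ζ.1), wt V ζ.1
      ≤ ∑ ζ ∈ Finset.univ.filter (fun ζ : St N k => u ∈ ζ.1 ∧ v ∉ ζ.1),
        e₁ * wt V (loX2 u v ζ).1 := by
    apply Finset.sum_le_sum
    intro ζ hζ
    rw [Finset.mem_filter] at hζ
    rw [lo_X_wt2 V hv hζ.2.1 hζ.2.2, mul_comm e₁]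
    exact mul_le_mul_of_nonneg_left hV (Real.exp_pos _).le
  refine h1.trans ?_
  rw [← Finset.mul_sum]
  apply mul_le_mul_of_nonneg_left _ he
  have h2 : ∑ ζ ∈ Finset.univ.filter (fun ζ : St N k => u ∈ ζ.1 ∧ v ∉ ζ.1),
      wt V (loX2 u v ζ).1 = ∑ ξ ∈ (Finset.univ.filter
        (fun ζ : St N k => u ∈ ζ.1 ∧ v ∉ ζ.1)).image (loX2 u v), wt V ξ.1 := by
    rw [Finset.sum_image]
    intro ζ hζ ζ' hζ' h
    have hζ1 := (Finset.mem_filter.1 hζ).2
    have hζ2 := (Finset.mem_filter.1 hζ').2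
    exact lo_X_inj2 hv hζ1.1 hζ1.2 hζ2.1 hζ2.2 h
  rw [h2]
  exact Finset.sum_le_sum_of_subset_of_nonneg (Finset.subset_univ _)
    fun ξ _ _ => (Real.exp_pos _).le

/-- the number of pairs (particle at `u ≤ x`, hole at `v ≥ x + w`) -/
private theorem lo_count2 {N k : ℕ} (hk : k ≤ N) (x w H : ℕ) (hholes : x + w + H ≤ N - k)
    (η : St N k) (hη : η ∉ loE2 N k x) :
    (H : ℝ) ≤ ∑ u ∈ Finset.range (x + 1), ∑ v ∈ Finset.Ico (x + w) N,
      (if u ∈ η.1 ∧ v ∉ η.1 then (1 : ℝ) else 0) := by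
  classical
  have hη' : ht η.1 (x + 1) ≠ k := hη
  obtain ⟨u, hu, hux⟩ : ∃ u ∈ η.1, u < x + 1 := by
    by_contra hcon
    push Not at hcon
    apply hη'
    have h1 : η.1.filter (fun z => x + 1 ≤ z) = η.1 := Finset.filter_true_of_mem hcon
    unfold ht
    rw [h1]
    exact (Finset.mem_powersetCard.1 η.2).2
  have hc : H ≤ ((Finset.Ico (x + w) N).filter (fun v => v ∉ η.1)).card := by
    have h1 : ((Finset.Ico (x + w) N).filter (fun v => v ∉ η.1))
        = (Finset.Ico (x + w) N) \ η.1 := by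
      ext v
      rw [Finset.mem_filter, Finset.mem_sdiff]
    rw [h1]
    have h2 := Finset.le_card_sdiff η.1 (Finset.Ico (x + w) N)
    rw [Nat.card_Ico, (Finset.mem_powersetCard.1 η.2).2] at h2
    omega
  have hnn : ∀ u' ∈ Finset.range (x + 1), (0 : ℝ) ≤ ∑ v ∈ Finset.Ico (x + w) N,
      (if u' ∈ η.1 ∧ v ∉ η.1 then (1 : ℝ) else 0) := by
    intro u' _
    refine Finset.sum_nonneg fun v _ => ?_
    split_ifs <;> norm_num
  refine le_trans ?_ (Finset.single_le_sum (f := fun u' => ∑ v ∈ Finset.Ico (x + w) N,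
      (if u' ∈ η.1 ∧ v ∉ η.1 then (1 : ℝ) else 0)) hnn (Finset.mem_range.2 hux))
  have h3 : ∑ v ∈ Finset.Ico (x + w) N, (if u ∈ η.1 ∧ v ∉ η.1 then (1 : ℝ) else 0)
      = (((Finset.Ico (x + w) N).filter (fun v => v ∉ η.1)).card : ℝ) := by
    rw [Finset.card_filter, Nat.cast_sum]
    refine Finset.sum_congr rfl fun v _ => ?_
    by_cases hv : v ∈ η.1
    · simp [hv]
    · simp [hu, hv]
  show (H : ℝ) ≤ ∑ v ∈ Finset.Ico (x + w) N, (if u ∈ η.1 ∧ v ∉ η.1 then (1 : ℝ) else 0)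
  rw [h3]
  exact_mod_cast hc

private theorem lo_notE2 {N k : ℕ} (hk : k ≤ N) (V : ℕ → ℝ) (x w H : ℕ) (hx : x + 1 < N)
    (hH : 1 ≤ H) (hholes : x + w + H ≤ N - k) (e₁ : ℝ) (he0 : 0 ≤ e₁)
    (he : ∀ u v, u + w ≤ v → v < N → Real.exp (V v - V u) ≤ e₁)
    (hsmall : (N : ℝ) ^ 2 * e₁ / H ≤ 1 / 10) :
    ∑ η : St N k, wt V η.1 * (1 - ind (loE2 N k x) η) ≤ 1 / 10 * ∑ η : St N k, wt V η.1 := by
  classical
  set W : ℝ := ∑ η : St N k, wt V η.1 with hW
  have hW0 : 0 ≤ W := Finset.sum_nonneg fun η _ => (Real.exp_pos _).le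
  have hH0 : (0 : ℝ) < H := by exact_mod_cast hH
  have h1 : (H : ℝ) * ∑ η : St N k, wt V η.1 * (1 - ind (loE2 N k x) η)
      ≤ ∑ η : St N k, ∑ u ∈ Finset.range (x + 1), ∑ v ∈ Finset.Ico (x + w) N,
        (if u ∈ η.1 ∧ v ∉ η.1 then wt V η.1 else 0) := by
    rw [Finset.mul_sum]
    refine Finset.sum_le_sum fun η _ => ?_
    have hwt : 0 < wt V η.1 := Real.exp_pos _
    have e1 : ∑ u ∈ Finset.range (x + 1), ∑ v ∈ Finset.Ico (x + w) N,
        (if u ∈ η.1 ∧ v ∉ η.1 then wt V η.1 else 0)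
        = wt V η.1 * ∑ u ∈ Finset.range (x + 1), ∑ v ∈ Finset.Ico (x + w) N,
          (if u ∈ η.1 ∧ v ∉ η.1 then (1 : ℝ) else 0) := by
      rw [Finset.mul_sum]
      refine Finset.sum_congr rfl fun u _ => ?_
      rw [Finset.mul_sum]
      refine Finset.sum_congr rfl fun v _ => ?_
      split_ifs <;> ring
    rw [e1]
    by_cases hη : η ∈ loE2 N k x
    · have e2 : ind (loE2 N k x) η = 1 := by
        unfold ind
        rw [Set.indicator_of_mem hη]
      rw [e2, sub_self, mul_zero, mul_zero]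
      refine mul_nonneg hwt.le (Finset.sum_nonneg fun u _ => Finset.sum_nonneg fun v _ => ?_)
      split_ifs <;> norm_num
    · have e2 : ind (loE2 N k x) η = 0 := by
        unfold ind
        rw [Set.indicator_of_notMem hη]
      rw [e2, sub_zero, mul_one, mul_comm (H : ℝ)]
      exact mul_le_mul_of_nonneg_left (lo_count2 hk x w H hholes η hη) hwt.le
  have h2 : ∑ η : St N k, ∑ u ∈ Finset.range (x + 1), ∑ v ∈ Finset.Ico (x + w) N,
        (if u ∈ η.1 ∧ v ∉ η.1 then wt V η.1 else 0)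
      ≤ (N : ℝ) ^ 2 * (e₁ * W) := by
    rw [Finset.sum_comm]
    have h3 : ∀ u ∈ Finset.range (x + 1), ∑ η : St N k, ∑ v ∈ Finset.Ico (x + w) N,
        (if u ∈ η.1 ∧ v ∉ η.1 then wt V η.1 else 0) ≤ (N : ℝ) * (e₁ * W) := by
      intro u hu
      have hu' := Finset.mem_range.1 hu
      rw [Finset.sum_comm]
      have h4 : ∀ v ∈ Finset.Ico (x + w) N,
          ∑ η : St N k, (if u ∈ η.1 ∧ v ∉ η.1 then wt V η.1 else 0) ≤ e₁ * W := by
        intro v hv
        have hv' := Finset.mem_Ico.1 hv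
        exact lo_pair2 V u v e₁ he0 (he u v (by omega) hv'.2) hv'.2
      refine (Finset.sum_le_sum h4).trans ?_
      rw [Finset.sum_const, Nat.card_Ico, nsmul_eq_mul]
      refine mul_le_mul_of_nonneg_right ?_ (mul_nonneg he0 hW0)
      have : N - (x + w) ≤ N := Nat.sub_le _ _
      exact_mod_cast this
    refine (Finset.sum_le_sum h3).trans ?_
    rw [Finset.sum_const, Finset.card_range, nsmul_eq_mul, pow_two, mul_assoc]
    refine mul_le_mul_of_nonneg_right ?_ (mul_nonneg (Nat.cast_nonneg _) (mul_nonneg he0 hW0))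
    exact_mod_cast hx.le
  have h5 : (N : ℝ) ^ 2 * (e₁ * W) ≤ (H : ℝ) * (1 / 10 * W) := by
    rw [div_le_iff₀ hH0] at hsmall
    have := mul_le_mul_of_nonneg_right hsmall hW0
    linarith
  exact le_of_mul_le_mul_left ((h1.trans h2).trans h5) hH0

private theorem lo_good2 {N : ℕ} (ω' : Fin N → ℝ) (h0 : ∀ x, 0 < ω' x) (h1' : ∀ x, ω' x < 1) :
    ∃ κ : ℝ, Good κ (pw ω') (qw ω') (Vw ω') := by
  classical
  have hex : ∃ κ : ℝ, 0 < κ ∧ κ ≤ 1 / 2 ∧ ∀ z : Fin N, κ ≤ ω' z ∧ κ ≤ 1 - ω' z := by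
    rcases isEmpty_or_nonempty (Fin N) with hE | hE
    · exact ⟨1 / 2, by norm_num, le_rfl, fun z => (hE.false z).elim⟩
    · obtain ⟨z₀, hz₀⟩ := Finite.exists_min (fun z : Fin N => min (ω' z) (1 - ω' z))
      refine ⟨min (min (ω' z₀) (1 - ω' z₀)) (1 / 2), ?_, min_le_right _ _, fun z => ?_⟩
      · refine lt_min (lt_min (h0 _) ?_) (by norm_num)
        linarith [h1' z₀]
      · have h2 := (min_le_left (min (ω' z₀) (1 - ω' z₀)) (1 / 2)).trans (hz₀ z)
        exact ⟨h2.trans (min_le_left _ _), h2.trans (min_le_right _ _)⟩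
  obtain ⟨κ, hκ0, hκ2, hκ⟩ := hex
  have hext : ∀ z, κ ≤ ext ω' z ∧ κ ≤ 1 - ext ω' z := by
    intro z
    unfold ext
    split_ifs with h
    · exact hκ _
    · exact ⟨hκ2, by linarith⟩
  have hp : ∀ z, κ ≤ pw ω' z := fun z => (hext z).1
  have hq : ∀ z, κ ≤ qw ω' z := fun z => (hext (z + 1)).2
  refine ⟨κ, hκ0, hp, hq, fun z => ?_, fun z => ?_, fun z => ?_⟩
  · have := (hext z).2
    show ext ω' z ≤ 1
    linarith
  · have := (hext (z + 1)).1
    show 1 - ext ω' (z + 1) ≤ 1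
    linarith
  · have hp0 : 0 < pw ω' z := lt_of_lt_of_le hκ0 (hp z)
    have hq0 : 0 < qw ω' z := lt_of_lt_of_le hκ0 (hq z)
    have e1 : Vw ω' (z + 1) = Vw ω' z + Real.log (qw ω' z / pw ω' z) := by
      unfold Vw
      rw [Finset.sum_range_succ]
    rw [e1, neg_add, Real.exp_add, ← Real.log_inv, Real.exp_log (by positivity), inv_div]
    field_simp

private theorem lo_top2 {N k : ℕ} (hk : k ≤ N) (ω' : Fin N → ℝ) (h0 : ∀ x, 0 < ω' x)
    (h1' : ∀ x, ω' x < 1) (x w H : ℕ) (hx : x + 1 < N)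
    (hH : 1 ≤ H) (hholes : x + w + H ≤ N - k) (e₁ : ℝ) (he0 : 0 ≤ e₁)
    (he : ∀ u v, u + w ≤ v → v < N → Real.exp (Vw ω' v - Vw ω' u) ≤ e₁)
    (hsmall : (N : ℝ) ^ 2 * e₁ / H ≤ 1 / 10) (t : ℝ) (ht0 : 0 ≤ t) :
    9 / 10 ≤ sg (QA N k (pw ω') (qw ω') (Finset.range (N - 1))) t (ind (loE2 N k x))
      (topSt N k hk) := by
  classical
  obtain ⟨κ, hG⟩ := lo_good2 ω' h0 h1'
  set Q := QA N k (pw ω') (qw ω') (Finset.range (N - 1)) with hQ
  set W : ℝ := ∑ η : St N k, wt (Vw ω') η.1 with hW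
  have hW0 : 0 < W := Finset.sum_pos (fun η _ => Real.exp_pos _) ⟨topSt N k hk, Finset.mem_univ _⟩
  have hrt := lo_rt2 ω' (fun z => (h0 z).le) (fun z => (h1' z).le)
  set P : ℝ := sg Q t (ind (loE2 N k x)) (topSt N k hk) with hP
  have hA : ∀ η : St N k, sg Q t (ind (loE2 N k x)) η ≤ P := by
    intro η
    exact sg_incr (fun η ζ : St N k => Pool.Agent.EBX.hle η ζ) _ _ _ hrt
      (fun i _ η ζ => mv_mono i η ζ) ht0 _ (lo_inc2 x) _ _ (hle_top hk η)
  have hB := pair_sg (fun η : St N k => wt (Vw ω') η.1) Q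
    (QA_rev hG (Finset.range (N - 1))) t (fun _ => (1 : ℝ)) (ind (loE2 N k x))
  have hC : sg Q t (fun _ => (1 : ℝ)) = fun _ => 1 := sg_one _ _ _ t
  rw [hC] at hB
  unfold pair at hB
  simp only [one_mul] at hB
  have hD : ∑ η : St N k, wt (Vw ω') η.1 * sg Q t (ind (loE2 N k x)) η ≤ W * P := by
    rw [hW, Finset.sum_mul]
    exact Finset.sum_le_sum fun η _ => mul_le_mul_of_nonneg_left (hA η) (Real.exp_pos _).le
  rw [hB] at hD
  have hE := lo_notE2 (k := k) hk (Vw ω') x w H hx hH hholes e₁ he0 he hsmall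
  have hF : ∑ η : St N k, wt (Vw ω') η.1 * (1 - ind (loE2 N k x) η)
      = W - ∑ η : St N k, wt (Vw ω') η.1 * ind (loE2 N k x) η := by
    rw [hW, ← Finset.sum_sub_distrib]
    exact Finset.sum_congr rfl fun η _ => by ring
  rw [hF] at hE
  have hI : W * (9 / 10) ≤ W * P := by linarith
  exact le_of_mul_le_mul_left hI hW0

/-! ### Total variation -/

private theorem lo_tv2 {S : Type*} [Fintype S] (p q : S → ℝ) (hp : ∑ i, p i = 1)
    (hq : ∑ i, q i = 1) (g : S → ℝ) (hg0 : ∀ i, 0 ≤ g i) (hg1 : ∀ i, g i ≤ 1) :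
    |∑ i, p i * g i - ∑ i, q i * g i| ≤ (∑ i, |p i - q i|) / 2 := by
  have h1 : ∑ i, p i * g i - ∑ i, q i * g i = ∑ i, (p i - q i) * (g i - 1 / 2) := by
    have h2 : ∀ i, (p i - q i) * (g i - 1 / 2) = p i * g i - q i * g i - (p i - q i) / 2 :=
      fun i => by ring
    simp_rw [h2, Finset.sum_sub_distrib, ← Finset.sum_div, Finset.sum_sub_distrib, hp, hq]
    ring
  rw [h1, Finset.sum_div]
  refine (Finset.abs_sum_le_sum_abs _ _).trans (Finset.sum_le_sum fun i _ => ?_)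
  rw [abs_mul, div_eq_mul_one_div]
  refine mul_le_mul_of_nonneg_left ?_ (abs_nonneg _)
  rw [abs_le]
  constructor
  · linarith [hg0 i]
  · linarith [hg1 i]

private theorem lo_law2 {N k : ℕ} (ω : Fin N → ℝ) (t : ℝ) (f : St N k → ℝ)
    (η : H96.Exclusion.Config N k) :
    ∑ ζ, H96.Exclusion.law ω t η ζ * f (toSt ζ)
      = sg (QA N k (pw ω) (qw ω) (Finset.range (N - 1))) t f (toSt η) := by
  have e1 := exp_intertwine (H96.Exclusion.generator (k := k) ω)
    (QA N k (pw ω) (qw ω) (Finset.range (N - 1))) toSt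
    (fun f j => generator_intertwine ω f j) t f η
  unfold sg
  rw [← e1]
  rfl

/-- Lower bound from one slow site `x`: `V` is the potential of the truncated environment `ω'`. -/
theorem mixing_lower {N k : ℕ} (hk : k ≤ N) (ω ω' : Fin N → ℝ) (h0 : ∀ x, 0 < ω' x)
    (h1' : ∀ x, ω' x < 1) (hle : ∀ x, ω' x ≤ ω x) (h1 : ∀ x, ω x ≤ 1)
    (x w H : ℕ) (hx : x + 1 < N) (hk0 : 1 ≤ k) (hH : 1 ≤ H) (hholes : x + w + H ≤ N - k)
    (e₁ : ℝ) (he0 : 0 ≤ e₁)
    (he : ∀ u v, u + w ≤ v → v < N → Real.exp (Vw ω' v - Vw ω' u) ≤ e₁)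
    (hsmall : (N : ℝ) ^ 2 * e₁ / H ≤ 1 / 10) :
    ENNReal.ofReal ((min k (x + 1) : ℕ) / (5 * ω ⟨x, by omega⟩))
      ≤ H96.Exclusion.mixingTime k ω := by
  classical
  have hω0 : ∀ z, 0 ≤ ω z := fun z => (h0 z).le.trans (hle z)
  have hx' : x < N := by omega
  have hωx : 0 < ω ⟨x, hx'⟩ := lt_of_lt_of_le (h0 _) (hle _)
  have hpx : pw ω x = ω ⟨x, hx'⟩ := by
    unfold pw ext
    rw [dif_pos hx']
  have hm0 : (0 : ℝ) < ((min k (x + 1) : ℕ) : ℝ) := by
    have : 0 < min k (x + 1) := by omega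
    exact_mod_cast this
  refine le_iInf₂ fun t hex => ?_
  obtain ⟨π, ⟨-, hπ1, -⟩, hπt⟩ := hex
  by_contra hcon
  rw [not_le] at hcon
  have ht0 : (0 : ℝ) ≤ t := t.2
  have hlt : (t : ℝ) < ((min k (x + 1) : ℕ) : ℝ) / (5 * ω ⟨x, hx'⟩) := by
    rw [← ENNReal.ofReal_coe_nnreal] at hcon
    exact (ENNReal.ofReal_lt_ofReal_iff_of_nonneg ht0).1 hcon
  rw [lt_div_iff₀ (by positivity)] at hlt
  have hbot := lo_bot2 hk ω hω0 h1 x t ht0
  rw [hpx] at hbot
  have hbot' : sg (QA N k (pw ω) (qw ω) (Finset.range (N - 1))) t (ind (loE2 N k x))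
      (botSt N k hk) ≤ 1 / 5 := by
    by_contra hc
    rw [not_le] at hc
    have := mul_lt_mul_of_pos_left hc hm0
    linarith
  have htop := lo_top2 hk ω' h0 h1' x w H hx hH hholes e₁ he0 he hsmall t ht0
  have hcmp := lo_compare2 ω ω' (fun z => (h0 z).le) hle h1 t ht0 (ind (loE2 N k x)) (lo_inc2 x)
    (topSt N k hk)
  have hrow : ∀ η : H96.Exclusion.Config N k, ∑ ζ, H96.Exclusion.law ω t η ζ = 1 := by
    intro η
    have h2 := lo_law2 ω t (fun _ : St N k => (1 : ℝ)) η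
    simp only [mul_one] at h2
    rw [h2]
    have h3 : sg (QA N k (pw ω) (qw ω) (Finset.range (N - 1))) t (fun _ => (1 : ℝ))
        = fun _ => 1 := sg_one _ _ _ (t : ℝ)
    rw [h3]
  have hind0 : ∀ η : St N k, 0 ≤ ind (loE2 N k x) η := fun η =>
    Set.indicator_nonneg (fun _ _ => zero_le_one) _
  have hind1 : ∀ η : St N k, ind (loE2 N k x) η ≤ 1 := by
    intro η
    unfold ind
    by_cases hη : η ∈ loE2 N k x
    · rw [Set.indicator_of_mem hη]
    · rw [Set.indicator_of_notMem hη]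
      norm_num
  have htv : ∀ η : H96.Exclusion.Config N k,
      |sg (QA N k (pw ω) (qw ω) (Finset.range (N - 1))) t (ind (loE2 N k x)) (toSt η)
        - ∑ ζ, π ζ * ind (loE2 N k x) (toSt ζ)| ≤ 1 / 4 := by
    intro η
    rw [← lo_law2]
    refine (lo_tv2 _ _ (hrow η) hπ1 _ (fun ζ => hind0 _) (fun ζ => hind1 _)).trans ?_
    exact hπt η
  obtain ⟨sb, hsb⟩ := toSt_surjective (botSt N k hk)
  obtain ⟨st, hst⟩ := toSt_surjective (topSt N k hk)
  have hb := htv sb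
  have ht := htv st
  rw [hsb, abs_le] at hb
  rw [hst, abs_le] at ht
  linarith [hb.1, hb.2, ht.1, ht.2]

end Pool.Agent.EBX
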