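import Mathlib
import Pool.Agent.EBX.EnvMoments2

/-!
# EBX: prob_slow: independence (Measure.pi of a box). env_drop: rise_one2 with θ = 1 and geometric series, union over
N² pairs, C large. slow_seq: otherwise ν(Iic τ) < τ^r' for all τ < t and the dyadic layer cake gives a finite moment.
-/

set_option autoImplicit false

open scoped Matrix ENNReal NNReal
open MeasureTheory Filter Topology

namespace Pool.Agent.EBX

/-- some site of a window is slow -/
theorem prob_slow {N : ℕ} (ν : Measure ℝ) [IsProbabilityMeasure ν] (a b : ℕ) (hb : b ≤ N)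
    (τ f : ℝ) (hf0 : 0 ≤ f) (hf : ENNReal.ofReal f ≤ ν (Set.Iic τ)) :
    (Measure.pi fun _ : Fin N => ν) {ω | ∀ x : Fin N, a ≤ (x : ℕ) → (x : ℕ) < b → τ < ω x}
      ≤ ENNReal.ofReal ((1 - f) ^ (b - a)) := by
  classical
  have hf1 : f ≤ 1 := by
    have h1 : ENNReal.ofReal f ≤ ENNReal.ofReal 1 := by
      rw [ENNReal.ofReal_one]
      exact hf.trans prob_le_one
    exact (ENNReal.ofReal_le_ofReal_iff zero_le_one).1 h1
  have hset : {ω : Fin N → ℝ | ∀ x : Fin N, a ≤ (x : ℕ) → (x : ℕ) < b → τ < ω x}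
      = Set.pi Set.univ
        (fun x : Fin N => if a ≤ (x : ℕ) ∧ (x : ℕ) < b then Set.Ioi τ else Set.univ) := by
    ext ω
    simp only [Set.mem_ofPred_eq, Set.mem_pi, Set.mem_univ, forall_const]
    constructor
    · intro h x
      split_ifs with hx
      · exact h x hx.1 hx.2
      · exact Set.mem_univ _
    · intro h x h1 h2
      have := h x
      rw [if_pos ⟨h1, h2⟩] at this
      exact this
  have hIoi : ν (Set.Ioi τ) ≤ ENNReal.ofReal (1 - f) := by
    have h1 : Set.Ioi τ = (Set.Iic τ)ᶜ := (Set.compl_Iic).symm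
    rw [h1, prob_compl_eq_one_sub measurableSet_Iic, ENNReal.ofReal_sub _ hf0, ENNReal.ofReal_one]
    exact tsub_le_tsub_left hf 1
  rw [hset, Measure.pi_pi]
  calc ∏ x : Fin N, ν (if a ≤ (x : ℕ) ∧ (x : ℕ) < b then Set.Ioi τ else Set.univ)
      ≤ ∏ x : Fin N, (if a ≤ (x : ℕ) ∧ (x : ℕ) < b then ENNReal.ofReal (1 - f) else 1) := by
        refine Finset.prod_le_prod' fun x _ => ?_
        split_ifs
        · exact hIoi
        · exact prob_le_one
    _ = ENNReal.ofReal (1 - f) ^ (Finset.univ.filter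
          (fun x : Fin N => a ≤ (x : ℕ) ∧ (x : ℕ) < b)).card := by
        rw [Finset.prod_ite, Finset.prod_const, Finset.prod_const_one, mul_one]
    _ = ENNReal.ofReal ((1 - f) ^ (b - a)) := by
        have hc : (Finset.univ.filter (fun x : Fin N => a ≤ (x : ℕ) ∧ (x : ℕ) < b)).card
            = b - a := by
          have hm : (Finset.univ.filter (fun x : Fin N => a ≤ (x : ℕ) ∧ (x : ℕ) < b)).map
              Fin.valEmbedding = Finset.Ico a b := by
            ext z
            simp only [Finset.mem_map, Finset.mem_filter, Finset.mem_univ, true_and,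
              Fin.valEmbedding_apply, Finset.mem_Ico]
            constructor
            · rintro ⟨w, hw, rfl⟩; exact hw
            · intro hz; exact ⟨⟨z, by omega⟩, hz, rfl⟩
          rw [← Finset.card_map Fin.valEmbedding, hm, Nat.card_Ico]
        rw [hc, ENNReal.ofReal_pow (by linarith)]

namespace LowerEnvAux

theorem meas_ext {N : ℕ} (x : ℕ) : Measurable fun ω : Fin N → ℝ => ext ω x := by
  by_cases h : x < N
  · simp only [ext, h, dif_pos]
    exact measurable_pi_apply _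
  · simp only [ext, h, dif_neg, not_false_iff]
    exact measurable_const

theorem meas_Vw {N : ℕ} (x : ℕ) : Measurable fun ω : Fin N → ℝ => Vw ω x := by
  unfold Vw
  refine Finset.measurable_sum _ fun i _ => ?_
  refine Real.measurable_log.comp ?_
  unfold qw pw
  exact (measurable_const.sub (meas_ext (i + 1))).div (meas_ext i)

theorem mark {Ω : Type*} [MeasurableSpace Ω] (μ : Measure Ω) (g : Ω → ℝ) (hg : Measurable g)
    (c B : ℝ) (hc : 0 < c) (hB : ∫⁻ ω, ENNReal.ofReal (g ω) ∂μ ≤ ENNReal.ofReal B) :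
    μ {ω | c < g ω} ≤ ENNReal.ofReal (c⁻¹ * B) := by
  have h1 : ENNReal.ofReal c * μ {ω | ENNReal.ofReal c ≤ ENNReal.ofReal (g ω)}
      ≤ ∫⁻ ω, ENNReal.ofReal (g ω) ∂μ :=
    mul_meas_ge_le_lintegral (ENNReal.measurable_ofReal.comp hg) _
  have h2 : μ {ω | c < g ω} ≤ μ {ω | ENNReal.ofReal c ≤ ENNReal.ofReal (g ω)} := by
    apply measure_mono
    intro ω hω
    exact ENNReal.ofReal_le_ofReal (le_of_lt hω)
  calc μ {ω | c < g ω} = ENNReal.ofReal c⁻¹ * (ENNReal.ofReal c * μ {ω | c < g ω}) := by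
        rw [← mul_assoc, ← ENNReal.ofReal_mul (by positivity), inv_mul_cancel₀ hc.ne']
        simp
    _ ≤ ENNReal.ofReal c⁻¹ * ENNReal.ofReal B := by
        gcongr
        exact le_trans (by gcongr) (h1.trans hB)
    _ = ENNReal.ofReal (c⁻¹ * B) := (ENNReal.ofReal_mul (by positivity)).symm

theorem union_bd {ι Ω : Type*} [MeasurableSpace Ω] (μ : Measure Ω) (s : Finset ι)
    (S : ι → Set Ω) (b : ℝ) (h : ∀ i ∈ s, μ (S i) ≤ ENNReal.ofReal b) (E : Set Ω)
    (hE : ∀ ω ∈ E, ∃ i ∈ s, ω ∈ S i) : μ E ≤ ENNReal.ofReal ((s.card : ℝ) * b) := by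
  calc μ E ≤ μ (⋃ i ∈ s, S i) := by
        apply measure_mono
        intro ω hω
        obtain ⟨i, hi, h'⟩ := hE ω hω
        exact Set.mem_biUnion hi h'
    _ ≤ ∑ i ∈ s, μ (S i) := measure_biUnion_finset_le _ _
    _ ≤ ∑ i ∈ s, ENNReal.ofReal b := Finset.sum_le_sum h
    _ = ENNReal.ofReal ((s.card : ℝ) * b) := by
        rw [Finset.sum_const, nsmul_eq_mul, ENNReal.ofReal_mul (by positivity),
          ENNReal.ofReal_natCast]

theorem p_drop {N : ℕ} (ν : Measure ℝ) [IsProbabilityMeasure ν]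
    (hν : ν (Set.Ioo 0 1)ᶜ = 0) (m : ℝ) (hm : 0 < m) (hm1 : m < 1)
    (hmν : ∫⁻ u, ENNReal.ofReal ((1 - u) / u) ∂ν ≤ ENNReal.ofReal m) (w : ℕ) (hw : 1 ≤ w)
    (c : ℝ) (hc : 0 < c) :
    (Measure.pi fun _ : Fin N => ν)
        {ω | ¬ ∀ u v : ℕ, u + w ≤ v → v < N → Real.exp (Vw ω v - Vw ω u) ≤ c}
      ≤ ENNReal.ofReal ((N : ℝ) * N * (c⁻¹ * (2 * m ^ (w - 1)))) := by
  have hM : ∫⁻ u, ENNReal.ofReal (u ^ (-(1 : ℝ))) ∂ν ≤ ENNReal.ofReal 2 := by
    have hae : ∀ᵐ u ∂ν, u ∈ Set.Ioo (0 : ℝ) 1 := by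
      rw [ae_iff]
      exact hν
    have h2 : ∫⁻ u, ENNReal.ofReal (u ^ (-(1 : ℝ))) ∂ν
        ≤ ∫⁻ u, (ENNReal.ofReal ((1 - u) / u) + 1) ∂ν := by
      refine lintegral_mono_ae ?_
      filter_upwards [hae] with u hu
      have h3 : u ^ (-(1 : ℝ)) = (1 - u) / u + 1 := by
        rw [Real.rpow_neg_one, sub_div, div_self hu.1.ne']
        ring
      rw [h3, ENNReal.ofReal_add (div_nonneg (by linarith [hu.2]) hu.1.le) zero_le_one,
        ENNReal.ofReal_one]
    refine h2.trans ?_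
    rw [lintegral_add_right _ measurable_const, lintegral_const, measure_univ, mul_one]
    calc ∫⁻ u, ENNReal.ofReal ((1 - u) / u) ∂ν + 1 ≤ ENNReal.ofReal m + ENNReal.ofReal 1 := by
          rw [ENNReal.ofReal_one]
          gcongr
      _ = ENNReal.ofReal (m + 1) := (ENNReal.ofReal_add hm.le zero_le_one).symm
      _ ≤ ENNReal.ofReal 2 := ENNReal.ofReal_le_ofReal (by linarith)
  have h := union_bd (Measure.pi fun _ : Fin N => ν)
    ((Finset.range N) ×ˢ (Finset.range N))
    (fun t => {ω : Fin N → ℝ | t.1 + w ≤ t.2 ∧ c < Real.exp (Vw ω t.2 - Vw ω t.1)})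
    (c⁻¹ * (2 * m ^ (w - 1))) ?_
    {ω | ¬ ∀ u v : ℕ, u + w ≤ v → v < N → Real.exp (Vw ω v - Vw ω u) ≤ c} ?_
  · simpa using h
  · rintro ⟨x, y⟩ hxy
    simp only [Finset.mem_product, Finset.mem_range] at hxy
    by_cases hxw : x + w ≤ y
    · have h1 := mark (Measure.pi fun _ : Fin N => ν)
        (fun ω => Real.exp (1 * (Vw ω y - Vw ω x)))
        (Real.measurable_exp.comp (measurable_const.mul ((meas_Vw y).sub (meas_Vw x))))
        c (2 * m ^ (y - x - 1)) hc
        (rise_one2 ν hν 1 m 2 one_pos hm.le (by norm_num) (by simpa using hmν) hM x y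
          (by omega) hxy.2)
      have h2 : {ω : Fin N → ℝ | x + w ≤ y ∧ c < Real.exp (Vw ω y - Vw ω x)}
          ⊆ {ω | c < Real.exp (1 * (Vw ω y - Vw ω x))} := by
        intro ω hω
        have := hω.2
        simpa using this
      refine (measure_mono h2).trans (h1.trans ?_)
      apply ENNReal.ofReal_le_ofReal
      gcongr ?_ * (?_ * ?_)
      exact pow_le_pow_of_le_one hm.le hm1.le (by omega)
    · have : {ω : Fin N → ℝ | x + w ≤ y ∧ c < Real.exp (Vw ω y - Vw ω x)} = ∅ := by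
        ext ω
        simp [hxw]
      rw [this]
      simp
  · intro ω hω
    simp only [Set.mem_ofPred_eq] at hω
    push Not at hω
    obtain ⟨x, y, h1, h2, h3⟩ := hω
    exact ⟨(x, y), by simp only [Finset.mem_product, Finset.mem_range]; omega, h1, h3⟩

theorem tendsto_log_nat : Tendsto (fun N : ℕ => Real.log N) atTop atTop :=
  Real.tendsto_log_atTop.comp tendsto_natCast_atTop_atTop

theorem tendsto_exp_neg (a c : ℝ) (ha : 0 < a) :
    Tendsto (fun N : ℕ => c * Real.exp (-(a * Real.log N))) atTop (𝓝 0) := by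
  have h := (Real.tendsto_exp_neg_atTop_nhds_zero.comp
    (tendsto_log_nat.const_mul_atTop ha)).const_mul c
  simpa [Function.comp_def] using h

end LowerEnvAux

open LowerEnvAux in
/-- the drop event alone, for every ballistic law on `(0,1)` -/
theorem env_drop (ν : Measure ℝ) [IsProbabilityMeasure ν]
    (hν : ν (Set.Ioo 0 1)ᶜ = 0) (hm1 : ∫⁻ u, ENNReal.ofReal ((1 - u) / u) ∂ν < 1)
    (K : ℝ) (hK : 0 < K) :
    ∃ C : ℝ, 0 < C ∧ Tendsto (fun N : ℕ => (Measure.pi fun _ : Fin N => ν)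
        {ω | ¬ ∀ u v : ℕ, u + ⌈C * Real.log N⌉₊ ≤ v → v < N →
          Real.exp (Vw ω v - Vw ω u) ≤ (N : ℝ) ^ (-K)}) atTop (𝓝 0) := by
  set I₁ := ∫⁻ u, ENNReal.ofReal ((1 - u) / u) ∂ν with hI₁
  have t1 : I₁.toReal < 1 := by
    have := (ENNReal.toReal_lt_toReal hm1.ne_top ENNReal.one_ne_top).2 hm1
    simpa using this
  set m : ℝ := max I₁.toReal (1 / 2) with hm
  have hm0 : 0 < m := lt_of_lt_of_le (by norm_num) (le_max_right _ _)
  have hm1' : m < 1 := max_lt t1 (by norm_num)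
  have hmI : I₁ ≤ ENNReal.ofReal m := by
    rw [← ENNReal.ofReal_toReal hm1.ne_top]
    exact ENNReal.ofReal_le_ofReal (le_max_left _ _)
  have hlm : 0 < -Real.log m := by
    have := Real.log_neg hm0 hm1'
    linarith
  set C : ℝ := (K + 3) / (-Real.log m) with hC
  have hC0 : 0 < C := div_pos (by linarith) hlm
  have hCm : C * Real.log m = -(K + 3) := by
    have hne : Real.log m ≠ 0 := by
      intro h0
      rw [h0] at hlm
      simp at hlm
    rw [hC, div_neg, neg_mul, div_mul_cancel₀ _ hne]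
  refine ⟨C, hC0, ?_⟩
  have hb : Tendsto (fun N : ℕ => ENNReal.ofReal ((2 / m) * Real.exp (-(1 * Real.log N)))) atTop
      (𝓝 0) := by
    have h := ENNReal.tendsto_ofReal (tendsto_exp_neg 1 (2 / m) one_pos)
    simpa using h
  refine tendsto_of_tendsto_of_tendsto_of_le_of_le' tendsto_const_nhds hb
    (Eventually.of_forall fun _ => zero_le) ?_
  filter_upwards [eventually_ge_atTop 3] with N hN
  have hN0 : (0 : ℝ) < N := by
    have : (0 : ℕ) < N := by omega
    exact_mod_cast this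
  have hN1 : (1 : ℝ) < N := by
    have : (1 : ℕ) < N := by omega
    exact_mod_cast this
  have hL : 0 < Real.log N := Real.log_pos hN1
  have hw : 1 ≤ ⌈C * Real.log N⌉₊ := Nat.one_le_iff_ne_zero.2 (Nat.ceil_pos.2 (mul_pos hC0 hL)).ne'
  refine (p_drop ν hν m hm0 hm1' hmI _ hw ((N : ℝ) ^ (-K)) (Real.rpow_pos_of_pos hN0 _)).trans ?_
  apply ENNReal.ofReal_le_ofReal
  have e1 : m ^ (⌈C * Real.log N⌉₊ - 1) = m⁻¹ * m ^ (⌈C * Real.log N⌉₊) := by
    conv_rhs => rw [show ⌈C * Real.log N⌉₊ = (⌈C * Real.log N⌉₊ - 1) + 1 by omega]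
    rw [pow_succ]
    field_simp
  have e2 : m ^ (⌈C * Real.log N⌉₊) ≤ Real.exp (-(K + 3) * Real.log N) := by
    rw [← Real.rpow_natCast, Real.rpow_def_of_pos hm0, Real.exp_le_exp]
    have h1 : C * Real.log N ≤ (⌈C * Real.log N⌉₊ : ℝ) := Nat.le_ceil _
    have h2 := mul_le_mul_of_nonneg_left h1 hlm.le
    have h3 : (-Real.log m) * (C * Real.log N) = (K + 3) * Real.log N := by
      have : (-Real.log m) * (C * Real.log N) = -(C * Real.log m) * Real.log N := by ring
      rw [this, hCm]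
      ring
    rw [h3] at h2
    linarith
  have e3 : ((N : ℝ) ^ (-K))⁻¹ = Real.exp (K * Real.log N) := by
    rw [Real.rpow_neg hN0.le, inv_inv, Real.rpow_def_of_pos hN0]
    ring_nf
  have e4 : (N : ℝ) * N = Real.exp (2 * Real.log N) := by
    rw [two_mul, Real.exp_add, Real.exp_log hN0]
  rw [e1, e3, e4]
  have e5 : Real.exp (2 * Real.log N) * (Real.exp (K * Real.log N) * (2 * (m⁻¹ *
      Real.exp (-(K + 3) * Real.log N)))) = 2 / m * Real.exp (-(1 * Real.log N)) := by
    have : Real.exp (-(1 * Real.log N)) = Real.exp (2 * Real.log N) * Real.exp (K * Real.log N)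
        * Real.exp (-(K + 3) * Real.log N) := by
      rw [← Real.exp_add, ← Real.exp_add]
      ring_nf
    rw [this]
    field_simp
  rw [← e5]
  gcongr

/-- infinite inverse moment gives slow sites along a sequence -/
theorem slow_seq (ν : Measure ℝ) [IsProbabilityMeasure ν] (hν : ν (Set.Ioc 0 1)ᶜ = 0)
    (r r' : ℝ) (hr : 0 < r) (hr' : r < r') (hMr : ∫⁻ u, ENNReal.ofReal (u ^ (-r)) ∂ν = ∞) :
    ∀ t : ℝ, 0 < t → ∃ τ : ℝ, 0 < τ ∧ τ < t ∧ ENNReal.ofReal (τ ^ r') ≤ ν (Set.Iic τ) := by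
  intro t ht
  by_contra hcon
  push Not at hcon
  set t₀ : ℝ := t / 2 with ht₀
  have h0 : 0 < t₀ := by rw [ht₀]; linarith
  have hae : ∀ᵐ u ∂ν, u ∈ Set.Ioc (0 : ℝ) 1 := by
    rw [ae_iff]
    exact hν
  set τ : ℕ → ℝ := fun k => t₀ * (1 / 2) ^ k with hτ
  have hτ0 : ∀ k, 0 < τ k := fun k => by positivity
  have hτt : ∀ k, τ k < t := by
    intro k
    have h1 : τ k ≤ t₀ := by
      have : ((1 : ℝ) / 2) ^ k ≤ 1 := pow_le_one₀ (by norm_num) (by norm_num)
      calc τ k ≤ t₀ * 1 := by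
            simp only [hτ]
            gcongr
        _ = t₀ := mul_one _
    have h2 : t₀ < t := by rw [ht₀]; linarith
    linarith
  set a : ℕ → ℝ≥0∞ := fun k => ENNReal.ofReal ((τ (k + 1)) ^ (-r)) with ha
  have hpt : ∀ᵐ u ∂ν, ENNReal.ofReal (u ^ (-r)) ≤ ENNReal.ofReal (t₀ ^ (-r))
      + ∑' k, a k * (Set.Iic (τ k)).indicator (fun _ => (1 : ℝ≥0∞)) u := by
    filter_upwards [hae] with u hu
    rcases le_total t₀ u with h | h
    · refine le_add_right ?_
      apply ENNReal.ofReal_le_ofReal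
      exact Real.rpow_le_rpow_of_nonpos h0 h (by linarith)
    · obtain ⟨k, hk1, hk2⟩ := exists_nat_pow_near_of_lt_one (x := u / t₀) (y := 1 / 2)
        (div_pos hu.1 h0) ((div_le_one h0).2 h) (by norm_num) (by norm_num)
      have hk1' : τ (k + 1) < u := by
        rw [lt_div_iff₀ h0] at hk1
        simp only [hτ]
        linarith
      have hk2' : u ≤ τ k := by
        rw [div_le_iff₀ h0] at hk2
        simp only [hτ]
        linarith
      refine le_add_left ?_
      refine le_trans ?_ (ENNReal.le_tsum k)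
      rw [Set.indicator_of_mem (show u ∈ Set.Iic (τ k) from hk2'), mul_one]
      apply ENNReal.ofReal_le_ofReal
      exact Real.rpow_le_rpow_of_nonpos (hτ0 _) hk1'.le (by linarith)
  have hfin : ∫⁻ u, ENNReal.ofReal (u ^ (-r)) ∂ν < ∞ := by
    refine lt_of_le_of_lt (lintegral_mono_ae hpt) ?_
    have hmeas : ∀ k, Measurable fun u : ℝ =>
        a k * (Set.Iic (τ k)).indicator (fun _ => (1 : ℝ≥0∞)) u := fun k =>
      measurable_const.mul (measurable_const.indicator measurableSet_Iic)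
    rw [lintegral_add_left measurable_const, lintegral_const, measure_univ, mul_one,
      lintegral_tsum fun k => (hmeas k).aemeasurable]
    refine ENNReal.add_lt_top.2 ⟨ENNReal.ofReal_lt_top, ?_⟩
    set q : ℝ := (1 / 2 : ℝ) ^ (r' - r) with hq
    have hq0 : 0 ≤ q := Real.rpow_nonneg (by norm_num) _
    have hq1 : q < 1 := Real.rpow_lt_one (by norm_num) (by norm_num) (by linarith)
    set c : ℝ := t₀ ^ (r' - r) * (1 / 2 : ℝ) ^ (-r) with hc
    have hc0 : 0 ≤ c := by positivity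
    have hterm : ∀ k, ∫⁻ u, a k * (Set.Iic (τ k)).indicator (fun _ => (1 : ℝ≥0∞)) u ∂ν
        ≤ ENNReal.ofReal c * ENNReal.ofReal q ^ k := by
      intro k
      rw [lintegral_const_mul _ (measurable_const.indicator measurableSet_Iic),
        lintegral_indicator_const measurableSet_Iic, one_mul, ← ENNReal.ofReal_pow hq0,
        ← ENNReal.ofReal_mul hc0]
      calc a k * ν (Set.Iic (τ k))
          ≤ ENNReal.ofReal ((τ (k + 1)) ^ (-r)) * ENNReal.ofReal ((τ k) ^ r') := by
            simp only [ha]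
            gcongr
            exact (hcon (τ k) (hτ0 k) (hτt k)).le
        _ = ENNReal.ofReal ((τ (k + 1)) ^ (-r) * (τ k) ^ r') :=
            (ENNReal.ofReal_mul (Real.rpow_nonneg (hτ0 _).le _)).symm
        _ = ENNReal.ofReal (c * q ^ k) := by
            congr 1
            have e1 : τ (k + 1) = τ k * (1 / 2) := by
              simp only [hτ, pow_succ]
              ring
            rw [e1, Real.mul_rpow (hτ0 k).le (by norm_num), hc, hq,
              Real.rpow_pow_comm (by norm_num)]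
            have e2 : τ k ^ (-r) * τ k ^ r' = t₀ ^ (r' - r) * ((1 / 2 : ℝ) ^ k) ^ (r' - r) := by
              rw [← Real.rpow_add (hτ0 k), ← Real.mul_rpow h0.le (by positivity)]
              congr 1
              ring
            linear_combination (1 / 2 : ℝ) ^ (-r) * e2
    refine lt_of_le_of_lt (ENNReal.tsum_le_tsum hterm) ?_
    rw [ENNReal.tsum_mul_left, ENNReal.tsum_geometric]
    refine ENNReal.mul_lt_top ENNReal.ofReal_lt_top ?_
    rw [ENNReal.inv_lt_top, tsub_pos_iff_lt, ← ENNReal.ofReal_one]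
    exact (ENNReal.ofReal_lt_ofReal_iff one_pos).2 hq1
  rw [hMr] at hfin
  exact lt_irrefl _ hfin

end Pool.Agent.EBX
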