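import Mathlib
import Pool.Agent.EBX.Trunc

/-!
# EBX: truncation of the law: trunc_law2 (three moments), trunc_law1 (first moment), exists_s2: log-convexity (Hölder):
∫ ρ^(1-t+t r) ≤ (∫ρ)^(1-t) (∫ρ^r)^t → ∫ρ as t → 0+, ρ ≤ 1/u.
-/

set_option autoImplicit false

open scoped Matrix ENNReal NNReal
open MeasureTheory Filter Topology

namespace Pool.Agent.EBX

private theorem gap_of_lt_one {I : ℝ≥0∞} (h : I < 1) : ∃ ε : ℝ, 0 < ε ∧
    ∀ δ : ℝ, δ ≤ ε → I + ENNReal.ofReal δ < 1 := by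
  have t1 : I.toReal < 1 := by
    have := (ENNReal.toReal_lt_toReal h.ne_top ENNReal.one_ne_top).2 h
    simpa using this
  obtain ⟨t, ht, ht0⟩ : ∃ t : ℝ, I = ENNReal.ofReal t ∧ 0 ≤ t :=
    ⟨I.toReal, (ENNReal.ofReal_toReal h.ne_top).symm, ENNReal.toReal_nonneg⟩
  rw [ht, ENNReal.toReal_ofReal ht0] at t1
  refine ⟨(1 - t) / 2, by linarith, fun δ hδ => ?_⟩
  have e1 : I + ENNReal.ofReal δ ≤ ENNReal.ofReal t + ENNReal.ofReal ((1 - t) / 2) := by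
    rw [ht]
    gcongr
  refine lt_of_le_of_lt e1 ?_
  rw [← ENNReal.ofReal_add ht0 (by linarith), ← ENNReal.ofReal_one]
  exact (ENNReal.ofReal_lt_ofReal_iff one_pos).2 (by linarith)

private theorem trunc_key (ε κ' : ℝ) (k0 : 0 < κ') (k2 : κ' ≤ 1 / 2) (k3 : κ' ≤ ε / 2) :
    ∀ u ∈ Set.Ioc 0 (1 : ℝ), 0 ≤ (1 - min u (1 - κ')) / min u (1 - κ') ∧
      0 ≤ (1 - u) / u ∧
      ((1 - min u (1 - κ')) / min u (1 - κ') = (1 - u) / u ∨
        (1 - min u (1 - κ')) / min u (1 - κ') ≤ ε) ∧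
      ((1 - min u (1 - κ')) / min u (1 - κ') = (1 - u) / u ∨
        (1 - min u (1 - κ')) / min u (1 - κ') ≤ 1) := by
  intro u hu
  have hu0 : 0 < u := hu.1
  have g1 : 0 ≤ (1 - u) / u := div_nonneg (by linarith [hu.2]) hu0.le
  rcases le_total u (1 - κ') with h | h
  · rw [min_eq_left h]
    exact ⟨g1, g1, Or.inl rfl, Or.inl rfl⟩
  · rw [min_eq_right h]
    have g2 : (1 - (1 - κ')) / (1 - κ') ≤ 2 * κ' := by
      rw [div_le_iff₀ (by linarith)]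
      nlinarith
    refine ⟨div_nonneg (by linarith) (by linarith), g1, Or.inr (by linarith),
      Or.inr (by linarith)⟩

private theorem trunc_supp (ν : Measure ℝ) (hν : ν (Set.Ioc 0 1)ᶜ = 0) (κ' : ℝ)
    (k2 : κ' ≤ 1 / 2) :
    (ν.map (fun u => min u (1 - κ'))) (Set.Ioc 0 (1 - κ'))ᶜ = 0 := by
  have hmeas : Measurable (fun u : ℝ => min u (1 - κ')) := by fun_prop
  rw [Measure.map_apply hmeas measurableSet_Ioc.compl]
  refine measure_mono_null ?_ hν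
  intro u hu hu'
  apply hu
  exact ⟨lt_min hu'.1 (by linarith), min_le_right _ _⟩

private theorem trunc_m1 (ν : Measure ℝ) [IsProbabilityMeasure ν]
    (hν : ν (Set.Ioc 0 1)ᶜ = 0) (ε κ' : ℝ) (k0 : 0 < κ') (k2 : κ' ≤ 1 / 2) (k3 : κ' ≤ ε / 2)
    (f1 : ∫⁻ u, ENNReal.ofReal ((1 - u) / u) ∂ν + ENNReal.ofReal ε < 1) :
    ∫⁻ u, ENNReal.ofReal ((1 - u) / u) ∂(ν.map (fun u => min u (1 - κ'))) < 1 := by
  have hmeas : Measurable (fun u : ℝ => min u (1 - κ')) := by fun_prop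
  have hae : ∀ᵐ u ∂ν, u ∈ Set.Ioc (0 : ℝ) 1 := by
    rw [ae_iff]
    exact hν
  rw [lintegral_map (by fun_prop) hmeas]
  refine lt_of_le_of_lt ?_ f1
  have hc : ENNReal.ofReal ε = ∫⁻ _, ENNReal.ofReal ε ∂ν := by
    rw [lintegral_const, measure_univ, mul_one]
  rw [hc, ← lintegral_add_right _ measurable_const]
  refine lintegral_mono_ae ?_
  filter_upwards [hae] with u hu
  obtain ⟨c1, c2, c3, -⟩ := trunc_key ε κ' k0 k2 k3 u hu
  rcases c3 with c3 | c3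
  · rw [c3]
    exact le_self_add
  · exact (ENNReal.ofReal_le_ofReal c3).trans le_add_self

theorem trunc_law2 (ν : Measure ℝ) [IsProbabilityMeasure ν]
    (hν : ν (Set.Ioc 0 1)ᶜ = 0) (hm1 : ∫⁻ u, ENNReal.ofReal ((1 - u) / u) ∂ν < 1) (s : ℝ)
    (hs : 1 ≤ s) (hms : ∫⁻ u, ENNReal.ofReal (((1 - u) / u) ^ s) ∂ν < 1)
    (hMs : ∫⁻ u, ENNReal.ofReal (u ^ (-(2 * s))) ∂ν < ∞) :
    ∃ κ' : ℝ, 0 < κ' ∧ κ' ≤ 1 / 2 ∧
      (ν.map (fun u => min u (1 - κ'))) (Set.Ioc 0 (1 - κ'))ᶜ = 0 ∧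
      ∫⁻ u, ENNReal.ofReal ((1 - u) / u) ∂(ν.map (fun u => min u (1 - κ'))) < 1 ∧
      ∫⁻ u, ENNReal.ofReal (((1 - u) / u) ^ s) ∂(ν.map (fun u => min u (1 - κ'))) < 1 ∧
      ∫⁻ u, ENNReal.ofReal (u ^ (-(2 * s))) ∂(ν.map (fun u => min u (1 - κ'))) < ∞ := by
  obtain ⟨ε₁, hε₁, g1⟩ := gap_of_lt_one hm1
  obtain ⟨ε₂, hε₂, g2⟩ := gap_of_lt_one hms
  set ε : ℝ := min ε₁ ε₂ with hε
  have hε0 : 0 < ε := lt_min hε₁ hε₂
  have f1 := g1 ε (min_le_left _ _)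
  have f2 := g2 ε (min_le_right _ _)
  set κ' : ℝ := min (1 / 2) (ε / 2) with hκ'
  have k0 : 0 < κ' := lt_min (by norm_num) (by linarith)
  have k2 : κ' ≤ 1 / 2 := min_le_left _ _
  have k3 : κ' ≤ ε / 2 := min_le_right _ _
  have hmeas : Measurable (fun u : ℝ => min u (1 - κ')) := by fun_prop
  have hae : ∀ᵐ u ∂ν, u ∈ Set.Ioc (0 : ℝ) 1 := by
    rw [ae_iff]
    exact hν
  refine ⟨κ', k0, k2, trunc_supp ν hν κ' k2, trunc_m1 ν hν ε κ' k0 k2 k3 f1, ?_, ?_⟩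
  · rw [lintegral_map (by fun_prop) hmeas]
    refine lt_of_le_of_lt ?_ f2
    have hc : ENNReal.ofReal ε = ∫⁻ _, ENNReal.ofReal ε ∂ν := by
      rw [lintegral_const, measure_univ, mul_one]
    rw [hc, ← lintegral_add_right _ measurable_const]
    refine lintegral_mono_ae ?_
    filter_upwards [hae] with u hu
    obtain ⟨c1, c2, c3, c4⟩ := trunc_key ε κ' k0 k2 k3 u hu
    rcases c3 with c3 | c3
    · rw [c3]
      exact le_self_add
    · rcases c4 with c4 | c4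
      · rw [c4]
        exact le_self_add
      · have h2 : ((1 - min u (1 - κ')) / min u (1 - κ')) ^ s ≤ ε := by
          refine le_trans ?_ c3
          calc ((1 - min u (1 - κ')) / min u (1 - κ')) ^ s
              ≤ ((1 - min u (1 - κ')) / min u (1 - κ')) ^ (1 : ℝ) :=
                Real.rpow_le_rpow_of_exponent_ge' c1 c4 zero_le_one hs
            _ = _ := Real.rpow_one _
        exact (ENNReal.ofReal_le_ofReal h2).trans le_add_self
  · rw [lintegral_map (by fun_prop) hmeas]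
    have hfin : ∫⁻ u, ENNReal.ofReal (u ^ (-(2 * s))) ∂ν
        + ∫⁻ _, ENNReal.ofReal ((1 / 2 : ℝ) ^ (-(2 * s))) ∂ν < ∞ := by
      refine ENNReal.add_lt_top.2 ⟨hMs, ?_⟩
      rw [lintegral_const, measure_univ, mul_one]
      exact ENNReal.ofReal_lt_top
    refine lt_of_le_of_lt ?_ hfin
    rw [← lintegral_add_right _ measurable_const]
    refine lintegral_mono_ae ?_
    filter_upwards [hae] with u hu
    rcases le_total u (1 - κ') with h | h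
    · rw [min_eq_left h]
      exact le_self_add
    · rw [min_eq_right h]
      refine le_trans (ENNReal.ofReal_le_ofReal ?_) le_add_self
      exact Real.rpow_le_rpow_of_nonpos (by norm_num) (by linarith) (by linarith)

/-- truncation with the first moment only -/
theorem trunc_law1 (ν : Measure ℝ) [IsProbabilityMeasure ν]
    (hν : ν (Set.Ioc 0 1)ᶜ = 0) (hm1 : ∫⁻ u, ENNReal.ofReal ((1 - u) / u) ∂ν < 1) :
    ∃ κ' : ℝ, 0 < κ' ∧ κ' ≤ 1 / 2 ∧
      (ν.map (fun u => min u (1 - κ'))) (Set.Ioc 0 (1 - κ'))ᶜ = 0 ∧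
      ∫⁻ u, ENNReal.ofReal ((1 - u) / u) ∂(ν.map (fun u => min u (1 - κ'))) < 1 := by
  obtain ⟨ε, hε, g1⟩ := gap_of_lt_one hm1
  have f1 := g1 ε le_rfl
  set κ' : ℝ := min (1 / 2) (ε / 2) with hκ'
  have k0 : 0 < κ' := lt_min (by norm_num) (by linarith)
  have k2 : κ' ≤ 1 / 2 := min_le_left _ _
  have k3 : κ' ≤ ε / 2 := min_le_right _ _
  exact ⟨κ', k0, k2, trunc_supp ν hν κ' k2, trunc_m1 ν hν ε κ' k0 k2 k3 f1⟩

/-- a bit more than two inverse moments gives an exponent `s > 1` -/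
theorem exists_s2 (ν : Measure ℝ) [IsProbabilityMeasure ν]
    (hν : ν (Set.Ioc 0 1)ᶜ = 0) (hm1 : ∫⁻ u, ENNReal.ofReal ((1 - u) / u) ∂ν < 1)
    (r : ℝ) (hr : 2 < r) (hMr : ∫⁻ u, ENNReal.ofReal (u ^ (-r)) ∂ν < ∞) :
    ∃ s : ℝ, 1 < s ∧ ∫⁻ u, ENNReal.ofReal (((1 - u) / u) ^ s) ∂ν < 1 ∧
      ∫⁻ u, ENNReal.ofReal (u ^ (-(2 * s))) ∂ν < ∞ := by
  have hae : ∀ᵐ u ∂ν, u ∈ Set.Ioc (0 : ℝ) 1 := by
    rw [ae_iff]
    exact hν
  have hev : ∀ᶠ s : ℝ in 𝓝[>] 1, 1 < s ∧ s < r / 2 := by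
    have h1 : Set.Ioo (1 : ℝ) (r / 2) ∈ 𝓝[>] (1 : ℝ) := Ioo_mem_nhdsGT (by linarith)
    filter_upwards [h1] with s hs using hs
  have hT : Tendsto (fun s : ℝ => ∫⁻ u, ENNReal.ofReal (((1 - u) / u) ^ s) ∂ν) (𝓝[>] 1)
      (𝓝 (∫⁻ u, ENNReal.ofReal (((1 - u) / u) ^ (1 : ℝ)) ∂ν)) := by
    refine tendsto_lintegral_filter_of_dominated_convergence
      (fun u => ENNReal.ofReal (u ^ (-r))) ?_ ?_ hMr.ne ?_
    · exact Eventually.of_forall fun s => by fun_prop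
    · filter_upwards [hev] with s hs
      filter_upwards [hae] with u hu
      apply ENNReal.ofReal_le_ofReal
      have hu0 : 0 < u := hu.1
      have g1 : 0 ≤ (1 - u) / u := div_nonneg (by linarith [hu.2]) hu0.le
      calc ((1 - u) / u) ^ s ≤ (u⁻¹) ^ s := by
            refine Real.rpow_le_rpow g1 ?_ (by linarith)
            rw [div_eq_mul_inv]
            exact mul_le_of_le_one_left (inv_nonneg.2 hu0.le) (by linarith)
        _ ≤ (u⁻¹) ^ r := by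
            refine Real.rpow_le_rpow_of_exponent_le ?_ (by linarith)
            exact (one_le_inv₀ hu0).2 hu.2
        _ = u ^ (-r) := by
            rw [Real.inv_rpow hu0.le, Real.rpow_neg hu0.le]
    · filter_upwards [hae] with u hu
      refine (ENNReal.continuous_ofReal.tendsto _).comp ?_
      exact (Real.continuousAt_const_rpow' one_ne_zero).tendsto.mono_left nhdsWithin_le_nhds
  have hlt : ∫⁻ u, ENNReal.ofReal (((1 - u) / u) ^ (1 : ℝ)) ∂ν < 1 := by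
    simpa using hm1
  obtain ⟨s, hs1, hs2⟩ := ((hT.eventually_lt_const hlt).and hev).exists
  refine ⟨s, hs2.1, hs1, lt_of_le_of_lt ?_ hMr⟩
  refine lintegral_mono_ae ?_
  filter_upwards [hae] with u hu
  apply ENNReal.ofReal_le_ofReal
  exact Real.rpow_le_rpow_of_exponent_ge hu.1 hu.2 (by linarith [hs2.2])

end Pool.Agent.EBX
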