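import Mathlib
import Pool.Agent.EBX.Main
import Pool.Agent.EBX.Assemble2
import Pool.Agent.EBX.EnvGood2
import Pool.Agent.EBX.Asymp2
import Pool.Agent.EBX.Trunc2

/-!
# EBX: as EBX/Main: map of Measure.pi under min(·,1-κ'), Good κ₀ with κ₀ = min over the finitely many sites (and κ', 1/2),
ext_compare, mixing_le, assemble2, asymp2.
-/

set_option autoImplicit false

open scoped Matrix ENNReal NNReal
open MeasureTheory Filter Topology

namespace Pool.Agent.EBX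

/-- The deterministic part, second version. -/
private theorem det_part2 {N k w : ℕ} (hk : k ≤ N) (hk1 : 1 ≤ k) (hw : 1 ≤ w)
    (hN : 24 * w + 2 ≤ N) (κ : ℝ) (hκ : 0 < κ) (hκ1 : κ ≤ 1 / 2) (ω ω' : Fin N → ℝ)
    (hω' : ∀ x, ω' x ∈ Set.Ioc 0 (1 - κ)) (hle : ∀ x, ω' x ≤ ω x) (h1 : ∀ x, ω x ≤ 1)
    {h e₁ Sl S Bd Λ δ U : ℝ} (hh : 0 ≤ h) (he₁ : 0 ≤ e₁) (hΛ : 0 ≤ Λ) (hS : S ≤ Λ)
    (hE : EnvOK2 N k w (Vw ω') h e₁ Sl S Bd) (L τ : ℝ) (hL : L = 24 * w)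
    (hτ : τ = L ^ 5 / κ * (L * (Bd + 1) + Λ))
    (hδ : δ = (1 - 12 * (N : ℝ) ^ 2 * (L ^ 2 * e₁ + Real.exp (-Λ)))
      * (Real.exp (-S) - Real.exp (-Λ))) (hδ0 : 0 < δ)
    (hU : τ * (6 * N * Real.exp (h / 2) + 3 * Sl) * (2 / δ + 1) ≤ U) :
    H96.Exclusion.mixingTime k ω ≤ ENNReal.ofReal U := by
  have hne : Nonempty (Fin N) := ⟨⟨0, by omega⟩⟩
  obtain ⟨x0, hx0⟩ := Finite.exists_min ω'
  set κ₀ : ℝ := min κ (ω' x0) with hκ₀
  have hκ₀0 : 0 < κ₀ := lt_min hκ (hω' x0).1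
  have hκ₀κ : κ₀ ≤ κ := min_le_left _ _
  have hG : Good κ₀ (pw ω') (qw ω') (Vw ω') :=
    good_env κ₀ hκ₀0 (hκ₀κ.trans hκ1) ω' fun x =>
      ⟨(min_le_right _ _).trans (hx0 x), (hω' x).2.trans (by linarith)⟩
  have hq : ∀ x, κ ≤ qw ω' x := by
    intro x
    unfold qw ext
    split_ifs with hx
    · linarith [(hω' ⟨x + 1, hx⟩).2]
    · linarith
  obtain ⟨T, hT0, hT1, hT2⟩ := assemble2 (N := N) (k := k) (w := w) hk hk1 hw hN hG κ hκ
    (by linarith) hq hh he₁ hΛ hS hE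
  have h0' : ∀ x, 0 ≤ ω' x := fun x => (hω' x).1.le
  have h2 := ext_compare hk ω ω' h0' hle h1 T hT0
  have h3 : δ ≤ sg (QA N k (pw ω) (qw ω) (Finset.range (N - 1))) T (ind {topSt N k hk})
      (botSt N k hk) := by
    rw [hδ, hL]
    exact le_trans hT2 h2
  have h0 : ∀ x, 0 ≤ ω x := fun x => le_trans (h0' x) (hle x)
  refine le_trans (mixing_le hk ω h0 h1 T δ hT0 hδ0 h3) (ENNReal.ofReal_le_ofReal ?_)
  refine le_trans (mul_le_mul_of_nonneg_right ?_ (by positivity)) hU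
  rw [hτ, hL]
  exact hT1

theorem main2 (ν : Measure ℝ) [IsProbabilityMeasure ν]
    (hν : ν (Set.Ioc 0 1)ᶜ = 0) (hm1 : ∫⁻ u, ENNReal.ofReal ((1 - u) / u) ∂ν < 1) (s : ℝ)
    (hs : 1 ≤ s) (hms : ∫⁻ u, ENNReal.ofReal (((1 - u) / u) ^ s) ∂ν < 1)
    (hMs : ∫⁻ u, ENNReal.ofReal (u ^ (-(2 * s))) ∂ν < ∞)
    (a : ℝ) (ha : 1 + 1 / (2 * s) < a) (k : ℕ → ℕ) (hk : ∀ᶠ N in atTop, 1 ≤ k N ∧ k N ≤ N) :
    Tendsto (fun N : ℕ => (Measure.pi fun _ : Fin N => ν)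
      {ω | H96.Exclusion.mixingTime (k N) ω ≤ ENNReal.ofReal ((N : ℝ) ^ a)}) atTop (𝓝 1) := by
  obtain ⟨κ', hκ'0, hκ'2, hν', hm1', hms', hMs'⟩ := trunc_law2 ν hν hm1 s hs hms hMs
  set g : ℝ → ℝ := fun u => min u (1 - κ') with hg
  have hgm : Measurable g := measurable_id.min measurable_const
  set ν' : Measure ℝ := ν.map g with hν'def
  have : IsProbabilityMeasure ν' := Measure.isProbabilityMeasure_map hgm.aemeasurable
  -- the choice of ε
  obtain ⟨ε, hε, hε1, hεa⟩ : ∃ ε : ℝ, 0 < ε ∧ ε ≤ 1 ∧ 1 + (1 + ε) / (2 * s) + 3 * ε < a := by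
    refine ⟨min 1 ((a - (1 + 1 / (2 * s))) / 8), lt_min one_pos (by linarith), min_le_left _ _, ?_⟩
    set ε := min 1 ((a - (1 + 1 / (2 * s))) / 8) with hεd
    have h1 : ε ≤ (a - (1 + 1 / (2 * s))) / 8 := min_le_right _ _
    have h0 : 0 < ε := lt_min one_pos (by linarith)
    have h2 : (1 + ε) / (2 * s) = 1 / (2 * s) + ε / (2 * s) := by rw [add_div]
    have h3 : ε / (2 * s) ≤ ε := by
      apply div_le_self h0.le
      linarith
    rw [h2]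
    linarith
  obtain ⟨C, hC, hCk⟩ := env_good2 ν' κ' hκ'0 hκ'2 hν' s hs hm1' hms' hMs' ε 5 hε (by norm_num)
  have hbad := hCk k hk
  have has := asymp2 κ' hκ'0 (by linarith) C hC s hs ε a hε hε1 hεa
  -- the complement of the good event has small probability
  have hcompl : ∀ᶠ N : ℕ in atTop, (Measure.pi fun _ : Fin N => ν)
      {ω | H96.Exclusion.mixingTime (k N) ω ≤ ENNReal.ofReal ((N : ℝ) ^ a)}ᶜ
      ≤ (Measure.pi fun _ : Fin N => ν')
        {ω | ¬ ((∀ x, ω x ∈ Set.Ioc 0 (1 - κ')) ∧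
          EnvOK2 N (k N) ⌈C * Real.log N⌉₊ (Vw ω) ((1 + ε) / s * Real.log N) ((N : ℝ) ^ (-(5:ℝ)))
            ((N : ℝ) ^ (1 + ε)) (ε * Real.log N)
            (24 * (⌈C * Real.log N⌉₊ : ℕ) * (Real.log N + Real.log (1 / κ'))))} := by
    filter_upwards [hk, has, eventually_ge_atTop 1] with N hkN hN hN1
    obtain ⟨hw, hwN, hδ, hεΛ, hT⟩ := hN
    have hlog : 0 ≤ Real.log (N : ℝ) := Real.log_natCast_nonneg N
    set μ := (Measure.pi fun _ : Fin N => ν) with hμ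
    set Bad : Set (Fin N → ℝ) := {ω | ¬ ((∀ x, ω x ∈ Set.Ioc 0 (1 - κ')) ∧
          EnvOK2 N (k N) ⌈C * Real.log N⌉₊ (Vw ω) ((1 + ε) / s * Real.log N) ((N : ℝ) ^ (-(5:ℝ)))
            ((N : ℝ) ^ (1 + ε)) (ε * Real.log N)
            (24 * (⌈C * Real.log N⌉₊ : ℕ) * (Real.log N + Real.log (1 / κ'))))} with hBad
    set G : (Fin N → ℝ) → (Fin N → ℝ) := fun ω i => g (ω i) with hG
    have hGm : Measurable G := measurable_pi_lambda _ fun i => hgm.comp (measurable_pi_apply i)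
    have hmap : μ.map G = Measure.pi fun _ : Fin N => ν' := by
      rw [hμ, hG]
      exact Measure.pi_map_pi (fun _ => hgm.aemeasurable)
    set Out : Set (Fin N → ℝ) := {ω | ¬ ∀ x, ω x ∈ Set.Ioc 0 1} with hOut
    have hOut0 : μ Out = 0 := by
      have h1 : ∀ᵐ ω ∂μ, ∀ x, ω x ∈ Set.Ioc 0 1 := by
        rw [ae_all_iff]
        intro x
        have h2 : ∀ᵐ u ∂ν, u ∈ Set.Ioc 0 1 := by
          rw [ae_iff]
          exact hν
        exact (Measure.tendsto_eval_ae_ae (μ := fun _ : Fin N => ν) (i := x)).eventually h2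
      rw [ae_iff] at h1
      exact h1
    have hsub : {ω | H96.Exclusion.mixingTime (k N) ω ≤ ENNReal.ofReal ((N : ℝ) ^ a)}ᶜ
        ⊆ Out ∪ G ⁻¹' Bad := by
      intro ω hω
      by_contra hcon
      rw [Set.mem_union, not_or] at hcon
      obtain ⟨hc1, hc2⟩ := hcon
      have hc1' : ∀ x, ω x ∈ Set.Ioc 0 1 := by
        by_contra hx
        exact hc1 hx
      have hc2' : (∀ x, G ω x ∈ Set.Ioc 0 (1 - κ')) ∧
          EnvOK2 N (k N) ⌈C * Real.log N⌉₊ (Vw (G ω)) ((1 + ε) / s * Real.log N)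
            ((N : ℝ) ^ (-(5:ℝ))) ((N : ℝ) ^ (1 + ε)) (ε * Real.log N)
            (24 * (⌈C * Real.log N⌉₊ : ℕ) * (Real.log N + Real.log (1 / κ'))) := by
        by_contra hx
        exact hc2 hx
      apply hω
      have hspos : 0 < s := by linarith
      refine det_part2 hkN.2 hkN.1 hw hwN κ' hκ'0 hκ'2 ω (G ω) hc2'.1
        (fun x => min_le_left _ _) (fun x => (hc1' x).2) ?_ ?_ ?_ hεΛ hc2'.2 _ _ rfl rfl rfl hδ hT
      · positivity
      · positivity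
      · positivity
    calc μ {ω | H96.Exclusion.mixingTime (k N) ω ≤ ENNReal.ofReal ((N : ℝ) ^ a)}ᶜ
        ≤ μ (Out ∪ G ⁻¹' Bad) := measure_mono hsub
      _ ≤ μ Out + μ (G ⁻¹' Bad) := measure_union_le _ _
      _ = μ (G ⁻¹' Bad) := by rw [hOut0, zero_add]
      _ ≤ μ.map G Bad := Measure.le_map_apply hGm.aemeasurable Bad
      _ = (Measure.pi fun _ : Fin N => ν') Bad := by rw [hmap]
  have hc0 : Tendsto (fun N : ℕ => (Measure.pi fun _ : Fin N => ν)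
      {ω | H96.Exclusion.mixingTime (k N) ω ≤ ENNReal.ofReal ((N : ℝ) ^ a)}ᶜ) atTop (𝓝 0) :=
    tendsto_of_tendsto_of_tendsto_of_le_of_le' tendsto_const_nhds hbad
      (Eventually.of_forall fun _ => zero_le) hcompl
  have hc1 : Tendsto (fun N : ℕ => 1 - (Measure.pi fun _ : Fin N => ν)
      {ω | H96.Exclusion.mixingTime (k N) ω ≤ ENNReal.ofReal ((N : ℝ) ^ a)}ᶜ) atTop (𝓝 1) := by
    have := ENNReal.Tendsto.sub (tendsto_const_nhds (x := (1 : ℝ≥0∞)) (f := atTop (α := ℕ))) hc0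
      (Or.inl ENNReal.one_ne_top)
    simpa using this
  refine tendsto_of_tendsto_of_tendsto_of_le_of_le hc1 tendsto_const_nhds ?_ ?_
  · intro N
    have h1 : (1 : ℝ≥0∞) ≤ (Measure.pi fun _ : Fin N => ν)
        {ω | H96.Exclusion.mixingTime (k N) ω ≤ ENNReal.ofReal ((N : ℝ) ^ a)}
        + (Measure.pi fun _ : Fin N => ν)
        {ω | H96.Exclusion.mixingTime (k N) ω ≤ ENNReal.ofReal ((N : ℝ) ^ a)}ᶜ := by
      rw [← measure_univ (μ := (Measure.pi fun _ : Fin N => ν)),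
        ← Set.union_compl_self {ω : Fin N → ℝ | H96.Exclusion.mixingTime (k N) ω
          ≤ ENNReal.ofReal ((N : ℝ) ^ a)}]
      exact measure_union_le _ _
    exact tsub_le_iff_right.2 h1
  · intro N
    exact prob_le_one

end Pool.Agent.EBX
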