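import Mathlib
import Pool.Agent.EBX.Lower
import Pool.Agent.EBX.LowerEnv
import Pool.Agent.EBX.Trunc2

/-!
# EBX: negative half, critical form (limsup of ν(0,τ]/τ² positive). We may take C > 0. Put A = (δ/(100 C))² or smaller,
τ from hslow (small), N = ceil(A τ^(-2)): with probability ≥ 1 - exp(-c A δ/16) - o(1) some site x of the window
[δN/8, δN/4) has ω x ≤ τ (prob_slow, (1-f)^m ≤ exp(-f m)), and then mixing_lower (ω' = min ω (1-κ'), trunc_law1, env_drop with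
K = 4, transfer by Measure.pi map as in EBX/Main) gives t_mix ≥ (δN/8)/(5τ) > C N^(3/2) because N^(1/2) ≤ 2 A^(1/2)/τ. So along a
sequence N → ∞ the probability is ≤ exp(-c A δ/16) + o(1) < 1.
-/

set_option autoImplicit false

open scoped Matrix ENNReal NNReal
open MeasureTheory Filter Topology

namespace Pool.Agent.EBX

/-- The deterministic part: a slow site in the window and the drop condition. -/
private theorem det_neg2 {N k w a b : ℕ} (ω ω' : Fin N → ℝ) (h0 : ∀ x, 0 < ω' x)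
    (h1' : ∀ x, ω' x < 1) (hle : ∀ x, ω' x ≤ ω x) (h1 : ∀ x, ω x ≤ 1)
    (δ τ : ℝ) (hδ : 0 < δ) (hδ1 : δ ≤ 1) (hN4 : 4 ≤ N) (hkl : δ * N ≤ k)
    (hku : (k : ℝ) ≤ (1 - δ) * N) (hk1 : 1 ≤ k)
    (ha : δ * N / 8 ≤ a) (hb : (b : ℝ) ≤ δ * N / 4) (hw : (w : ℝ) ≤ δ * N / 2)
    (hwin : ∃ x : Fin N, a ≤ (x : ℕ) ∧ (x : ℕ) < b ∧ ω x ≤ τ)
    (he : ∀ u v, u + w ≤ v → v < N → Real.exp (Vw ω' v - Vw ω' u) ≤ (N : ℝ) ^ (-(4 : ℝ))) :
    ENNReal.ofReal (δ * N / (40 * τ)) ≤ H96.Exclusion.mixingTime k ω := by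
  obtain ⟨x, hax, hxb, hxτ⟩ := hwin
  have hN0 : (0 : ℝ) < N := by
    have : (4 : ℝ) ≤ N := by exact_mod_cast hN4
    linarith
  have hN4' : (4 : ℝ) ≤ N := by exact_mod_cast hN4
  have hδN : 0 < δ * N := by positivity
  have hkN : k ≤ N := by
    have : (k : ℝ) ≤ N := by nlinarith
    exact_mod_cast this
  have hxb' : ((x : ℕ) : ℝ) + 1 ≤ b := by exact_mod_cast hxb
  have hxN : (x : ℕ) + 1 < N := by
    have h2 : ((x : ℕ) : ℝ) + 1 < N := by nlinarith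
    exact_mod_cast h2
  have hholes : (x : ℕ) + w + 1 ≤ N - k := by
    have h2 : ((x : ℕ) : ℝ) + w + 1 + k ≤ N := by nlinarith
    have h3 : (x : ℕ) + w + 1 + k ≤ N := by exact_mod_cast h2
    omega
  have hsmall : (N : ℝ) ^ 2 * (N : ℝ) ^ (-(4 : ℝ)) / ((1 : ℕ) : ℝ) ≤ 1 / 10 := by
    have h3 : (N : ℝ) ^ 2 * (N : ℝ) ^ (-(4 : ℝ)) = (N : ℝ) ^ (-(2 : ℝ)) := by
      rw [← Real.rpow_natCast, ← Real.rpow_add hN0]
      norm_num
    rw [h3, Real.rpow_neg hN0.le, Nat.cast_one, div_one, one_div]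
    apply inv_anti₀ (by norm_num)
    have h4 : (N : ℝ) ^ (2 : ℝ) = (N : ℝ) ^ (2 : ℕ) := by
      rw [← Real.rpow_natCast]
      norm_num
    rw [h4]
    nlinarith
  have hωx : 0 < ω x := lt_of_lt_of_le (h0 x) (hle x)
  have hτ0 : 0 < τ := lt_of_lt_of_le hωx hxτ
  have h5 := mixing_lower hkN ω ω' h0 h1' hle h1 (x : ℕ) w 1 hxN hk1 le_rfl hholes
    ((N : ℝ) ^ (-(4 : ℝ))) (by positivity) he hsmall
  refine le_trans (ENNReal.ofReal_le_ofReal ?_) h5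
  have h6 : (δ * N / 8) ≤ ((min k ((x : ℕ) + 1) : ℕ) : ℝ) := by
    rw [Nat.cast_min]
    apply le_min
    · linarith
    · push_cast
      have h7 : (a : ℝ) ≤ ((x : ℕ) : ℝ) := by exact_mod_cast hax
      linarith
  have h8 : δ * N / (40 * τ) = (δ * N / 8) / (5 * τ) := by
    field_simp
    norm_num
  rw [h8]
  have h9 : ω ⟨(x : ℕ), by omega⟩ = ω x := rfl
  rw [h9]
  gcongr

theorem neg_main (ν : Measure ℝ) [IsProbabilityMeasure ν]
    (hν : ν (Set.Ioc 0 1)ᶜ = 0) (hm1 : ∫⁻ u, ENNReal.ofReal ((1 - u) / u) ∂ν < 1)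
    (c : ℝ) (hc : 0 < c)
    (hslow : ∀ t : ℝ, 0 < t → ∃ τ : ℝ, 0 < τ ∧ τ < t ∧ ENNReal.ofReal (c * τ ^ 2) ≤ ν (Set.Iic τ))
    (k : ℕ → ℕ) (δ : ℝ) (hδ : 0 < δ)
    (hk : ∀ᶠ N : ℕ in atTop, δ * N ≤ k N ∧ (k N : ℝ) ≤ (1 - δ) * N) (C : ℝ) :
    ¬ Tendsto (fun N : ℕ => (Measure.pi fun _ : Fin N => ν)
      {ω | H96.Exclusion.mixingTime (k N) ω ≤ ENNReal.ofReal (C * (N : ℝ) ^ (3 / 2 : ℝ))})
      atTop (𝓝 1) := by
  intro hT
  obtain ⟨κ', hκ'0, hκ'2, hν', hm1'⟩ := trunc_law1 ν hν hm1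
  set g : ℝ → ℝ := fun u => min u (1 - κ') with hg
  have hgm : Measurable g := measurable_id.min measurable_const
  set ν' : Measure ℝ := ν.map g with hν'def
  have : IsProbabilityMeasure ν' := Measure.isProbabilityMeasure_map hgm.aemeasurable
  have hν'' : ν' (Set.Ioo 0 1)ᶜ = 0 := by
    refine measure_mono_null ?_ hν'
    intro u hu hu'
    exact hu ⟨hu'.1, lt_of_le_of_lt hu'.2 (by linarith)⟩
  obtain ⟨C₀, hC₀, hdrop⟩ := env_drop ν' hν'' hm1' 4 (by norm_num)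
  have hC1 : 0 < |C| + 1 := by
    have := abs_nonneg C
    linarith
  set B : ℝ := δ / (40 * (|C| + 1)) with hB0
  have hBpos : 0 < B := by positivity
  set A : ℝ := B ^ 2 / 4 with hA0
  have hApos : 0 < A := by positivity
  set ρ : ℝ := Real.exp (-(δ * (c * A) / 16)) with hρ
  have hρ0 : 0 < ρ := Real.exp_pos _
  have hρ1 : ρ < 1 := by
    rw [hρ, Real.exp_lt_one_iff]
    have : 0 < δ * (c * A) / 16 := by positivity
    linarith
  -- the window condition for `w`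
  have hwev : ∀ᶠ N : ℕ in atTop, ((⌈C₀ * Real.log N⌉₊ : ℕ) : ℝ) ≤ δ * N / 2 := by
    have h1 : Tendsto (fun N : ℕ => (C₀ * Real.log N + 1) / N) atTop (𝓝 0) := by
      have h2 : Tendsto (fun x : ℝ => Real.log x / x) atTop (𝓝 0) :=
        Real.isLittleO_log_id_atTop.tendsto_div_nhds_zero
      have h3 : Tendsto (fun N : ℕ => Real.log (N : ℝ) / (N : ℝ)) atTop (𝓝 0) :=
        h2.comp tendsto_natCast_atTop_atTop
      have h4 : Tendsto (fun N : ℕ => (1 : ℝ) / (N : ℝ)) atTop (𝓝 0) :=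
        tendsto_const_div_atTop_nhds_zero_nat 1
      have h5 := (h3.const_mul C₀).add h4
      simp only [mul_zero, add_zero] at h5
      refine h5.congr fun N => ?_
      ring
    filter_upwards [h1.eventually (gt_mem_nhds (show (0 : ℝ) < δ / 2 by linarith)),
      eventually_ge_atTop 1] with N hN hN1
    have hN0 : (0 : ℝ) < N := by exact_mod_cast hN1
    have hlog : 0 ≤ Real.log (N : ℝ) := Real.log_natCast_nonneg N
    have h6 : ((⌈C₀ * Real.log N⌉₊ : ℕ) : ℝ) < C₀ * Real.log N + 1 :=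
      Nat.ceil_lt_add_one (by positivity)
    rw [div_lt_iff₀ hN0] at hN
    linarith
  have hbig : ∀ᶠ N : ℕ in atTop, (32 : ℝ) ≤ δ * N := by
    have h1 : Tendsto (fun N : ℕ => δ * (N : ℝ)) atTop atTop :=
      tendsto_natCast_atTop_atTop.const_mul_atTop hδ
    exact h1.eventually_ge_atTop 32
  have hA := hT.eventually (lt_mem_nhds (show ENNReal.ofReal ((1 + ρ) / 2) < 1 by
    rw [← ENNReal.ofReal_one]
    exact (ENNReal.ofReal_lt_ofReal_iff one_pos).2 (by linarith)))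
  have hB := hdrop.eventually (gt_mem_nhds (show (0 : ℝ≥0∞) < ENNReal.ofReal ((1 - ρ) / 2) from
    ENNReal.ofReal_pos.2 (by linarith)))
  obtain ⟨N₀, hN₀⟩ := eventually_atTop.1
    (hk.and (hwev.and (hbig.and (hA.and (hB.and (eventually_ge_atTop 4))))))
  -- the choice of `τ`
  have hτev : ∀ᶠ τ in 𝓝[>] (0 : ℝ), (N₀ : ℝ) ≤ A * τ ^ (-2 : ℝ) ∧ 1 ≤ A * τ ^ (-2 : ℝ) := by
    have h1 : Tendsto (fun τ : ℝ => A * τ ^ (-2 : ℝ)) (𝓝[>] 0) atTop :=
      (tendsto_rpow_neg_nhdsGT_zero (by norm_num)).const_mul_atTop hApos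
    filter_upwards [h1.eventually_ge_atTop (N₀ : ℝ), h1.eventually_ge_atTop 1] with τ a1 a2
    exact ⟨a1, a2⟩
  obtain ⟨t, ht0, ht⟩ := mem_nhdsGT_iff_exists_Ioo_subset.1 hτev
  have ht0' : (0 : ℝ) < t := ht0
  obtain ⟨τ, hτ0, hτt, hτν⟩ := hslow t ht0'
  obtain ⟨hτ1, hτ2⟩ := ht ⟨hτ0, hτt⟩
  have hτm2 : τ ^ (-2 : ℝ) = (τ ^ 2)⁻¹ := by
    rw [Real.rpow_neg hτ0.le]
    norm_num
  rw [hτm2] at hτ1 hτ2
  set f : ℝ := c * τ ^ 2 with hf
  have hf0 : 0 < f := by positivity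
  set N : ℕ := ⌈A * (τ ^ 2)⁻¹⌉₊ with hNdef
  have hNge : A * (τ ^ 2)⁻¹ ≤ N := Nat.le_ceil _
  have hNle : (N : ℝ) ≤ 2 * (A * (τ ^ 2)⁻¹) := by
    have : (N : ℝ) < A * (τ ^ 2)⁻¹ + 1 := Nat.ceil_lt_add_one (by positivity)
    linarith
  have hNN₀ : N₀ ≤ N := by
    have : (N₀ : ℝ) ≤ N := hτ1.trans hNge
    exact_mod_cast this
  obtain ⟨⟨hkl, hku⟩, hw, h32, hAN, hBN, hN4⟩ := hN₀ N hNN₀
  have hN0 : (0 : ℝ) < N := by
    have : (4 : ℝ) ≤ N := by exact_mod_cast hN4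
    linarith
  have hδ1 : δ ≤ 1 := by
    by_contra hcon
    push Not at hcon
    nlinarith
  have hfN : c * A ≤ f * N := by
    have h1 : f * (A * (τ ^ 2)⁻¹) = c * A := by
      rw [hf]
      field_simp
    calc c * A = f * (A * (τ ^ 2)⁻¹) := h1.symm
      _ ≤ f * N := mul_le_mul_of_nonneg_left hNge hf0.le
  have hf1 : f ≤ 1 := by
    have h1 : ENNReal.ofReal f ≤ 1 := hτν.trans prob_le_one
    rwa [ENNReal.ofReal_le_one] at h1
  set a : ℕ := ⌈δ * N / 8⌉₊ with ha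
  set b : ℕ := ⌊δ * N / 4⌋₊ with hb
  have ha1 : δ * N / 8 ≤ a := Nat.le_ceil _
  have ha2 : (a : ℝ) < δ * N / 8 + 1 := Nat.ceil_lt_add_one (by positivity)
  have hb1 : (b : ℝ) ≤ δ * N / 4 := Nat.floor_le (by positivity)
  have hb2 : δ * N / 4 < (b : ℝ) + 1 := Nat.lt_floor_add_one _
  have hab : a ≤ b := by
    have : (a : ℝ) ≤ b := by linarith
    exact_mod_cast this
  have hbN : b ≤ N := by
    have : (b : ℝ) ≤ N := by nlinarith
    exact_mod_cast this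
  have hba : δ * N / 16 ≤ ((b - a : ℕ) : ℝ) := by
    rw [Nat.cast_sub hab]
    linarith
  have hk1 : 1 ≤ k N := by
    have : (1 : ℝ) ≤ k N := by linarith
    exact_mod_cast this
  have hCN : C * (N : ℝ) ^ (3 / 2 : ℝ) < δ * N / (40 * τ) := by
    have h1 : (N : ℝ) ^ (3 / 2 : ℝ) = N * (N : ℝ) ^ (1 / 2 : ℝ) := by
      nth_rewrite 2 [← Real.rpow_one (N : ℝ)]
      rw [← Real.rpow_add hN0]
      norm_num
    have h2 : (N : ℝ) ^ (1 / 2 : ℝ) ≤ B / τ := by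
      rw [← Real.sqrt_eq_rpow]
      apply Real.sqrt_le_iff.2
      refine ⟨by positivity, hNle.trans ?_⟩
      have e1 : (B / τ) ^ 2 = 4 * (A * (τ ^ 2)⁻¹) := by
        rw [hA0]
        field_simp
      have : 0 < A * (τ ^ 2)⁻¹ := by positivity
      rw [e1]
      linarith
    have h3 : C * (N : ℝ) ^ (3 / 2 : ℝ) ≤ |C| * (N * (B / τ)) := by
      rw [h1]
      calc C * (N * (N : ℝ) ^ (1 / 2 : ℝ)) ≤ |C| * (N * (N : ℝ) ^ (1 / 2 : ℝ)) :=
            mul_le_mul_of_nonneg_right (le_abs_self C) (by positivity)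
        _ ≤ _ := by gcongr
    refine lt_of_le_of_lt h3 ?_
    rw [lt_div_iff₀ (by positivity)]
    have h4 : 40 * |C| * B < δ := by
      have h5 : 40 * (|C| + 1) * B = δ := by
        rw [hB0]
        field_simp
      nlinarith
    calc |C| * (N * (B / τ)) * (40 * τ) = (40 * |C| * B) * N := by
          field_simp
      _ < δ * N := mul_lt_mul_of_pos_right h4 hN0
  set μ := (Measure.pi fun _ : Fin N => ν) with hμ
  set Bad : Set (Fin N → ℝ) := {ω | ¬ ∀ u v : ℕ, u + ⌈C₀ * Real.log N⌉₊ ≤ v → v < N →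
          Real.exp (Vw ω v - Vw ω u) ≤ (N : ℝ) ^ (-(4 : ℝ))} with hBad
  set G : (Fin N → ℝ) → (Fin N → ℝ) := fun ω i => g (ω i) with hG
  have hGm : Measurable G := measurable_pi_lambda _ fun i => hgm.comp (measurable_pi_apply i)
  have hmap : μ.map G = Measure.pi fun _ : Fin N => ν' := by
    rw [hμ, hG]
    exact Measure.pi_map_pi (fun _ => hgm.aemeasurable)
  set Out : Set (Fin N → ℝ) := {ω | ¬ ∀ x, ω x ∈ Set.Ioc (0 : ℝ) 1} with hOut
  have hOut0 : μ Out = 0 := by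
    have h1 : ∀ᵐ ω ∂μ, ∀ x, ω x ∈ Set.Ioc (0 : ℝ) 1 := by
      rw [ae_all_iff]
      intro x
      have h2 : ∀ᵐ u ∂ν, u ∈ Set.Ioc (0 : ℝ) 1 := by
        rw [ae_iff]
        exact hν
      exact (Measure.tendsto_eval_ae_ae (μ := fun _ : Fin N => ν) (i := x)).eventually h2
    rw [ae_iff] at h1
    exact h1
  set Fast : Set (Fin N → ℝ) := {ω | ∀ x : Fin N, a ≤ (x : ℕ) → (x : ℕ) < b → τ < ω x} with hFast
  have hFast1 : μ Fast ≤ ENNReal.ofReal ρ := by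
    refine (prob_slow ν a b hbN τ f hf0.le hτν).trans (ENNReal.ofReal_le_ofReal ?_)
    have h1 : (1 - f) ^ (b - a) ≤ Real.exp (-f) ^ (b - a) := by
      apply pow_le_pow_left₀ (by linarith)
      have := Real.add_one_le_exp (-f)
      linarith
    refine h1.trans ?_
    rw [← Real.exp_nat_mul, hρ]
    apply Real.exp_le_exp.2
    have h3 : δ * (c * A) / 16 ≤ δ * (f * N) / 16 := by
      have := mul_le_mul_of_nonneg_left hfN hδ.le
      linarith
    have h2 : δ * (f * N) / 16 ≤ ((b - a : ℕ) : ℝ) * f := by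
      calc δ * (f * N) / 16 = (δ * N / 16) * f := by ring
        _ ≤ ((b - a : ℕ) : ℝ) * f := mul_le_mul_of_nonneg_right hba hf0.le
    linarith
  have hsub : {ω | H96.Exclusion.mixingTime (k N) ω ≤ ENNReal.ofReal (C * (N : ℝ) ^ (3 / 2 : ℝ))}
      ⊆ Fast ∪ (Out ∪ G ⁻¹' Bad) := by
    intro ω hω
    by_contra hcon
    rw [Set.mem_union, Set.mem_union, not_or, not_or] at hcon
    obtain ⟨hc0, hc1, hc2⟩ := hcon
    have hc1' : ∀ x, ω x ∈ Set.Ioc (0 : ℝ) 1 := by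
      by_contra hx
      exact hc1 hx
    have hc2' : ∀ u v : ℕ, u + ⌈C₀ * Real.log N⌉₊ ≤ v → v < N →
          Real.exp (Vw (G ω) v - Vw (G ω) u) ≤ (N : ℝ) ^ (-(4 : ℝ)) := by
      by_contra hx
      exact hc2 hx
    have hc0' : ∃ x : Fin N, a ≤ (x : ℕ) ∧ (x : ℕ) < b ∧ ω x ≤ τ := by
      by_contra hx
      push Not at hx
      exact hc0 hx
    have hdet := det_neg2 ω (G ω) (fun x => lt_min (hc1' x).1 (by linarith))
      (fun x => lt_of_le_of_lt (min_le_right _ _) (by linarith)) (fun x => min_le_left _ _)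
      (fun x => (hc1' x).2) δ τ hδ hδ1 hN4 hkl hku hk1 ha1 hb1 hw hc0' hc2'
    have h1 : ENNReal.ofReal (C * (N : ℝ) ^ (3 / 2 : ℝ)) < ENNReal.ofReal (δ * N / (40 * τ)) :=
      (ENNReal.ofReal_lt_ofReal_iff (by positivity)).2 hCN
    exact absurd (hdet.trans hω) (not_le.2 h1)
  have hfin : μ {ω | H96.Exclusion.mixingTime (k N) ω ≤ ENNReal.ofReal (C * (N : ℝ) ^ (3 / 2 : ℝ))}
      ≤ ENNReal.ofReal ((1 + ρ) / 2) := by
    calc μ {ω | H96.Exclusion.mixingTime (k N) ω ≤ ENNReal.ofReal (C * (N : ℝ) ^ (3 / 2 : ℝ))}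
        ≤ μ (Fast ∪ (Out ∪ G ⁻¹' Bad)) := measure_mono hsub
      _ ≤ μ Fast + (μ Out + μ (G ⁻¹' Bad)) :=
          (measure_union_le _ _).trans (add_le_add le_rfl (measure_union_le _ _))
      _ = μ Fast + μ (G ⁻¹' Bad) := by rw [hOut0, zero_add]
      _ ≤ ENNReal.ofReal ρ + μ.map G Bad :=
          add_le_add hFast1 (Measure.le_map_apply hGm.aemeasurable Bad)
      _ = ENNReal.ofReal ρ + (Measure.pi fun _ : Fin N => ν') Bad := by rw [hmap]
      _ ≤ ENNReal.ofReal ρ + ENNReal.ofReal ((1 - ρ) / 2) := add_le_add le_rfl hBN.le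
      _ = ENNReal.ofReal ((1 + ρ) / 2) := by
          rw [← ENNReal.ofReal_add hρ0.le (by linarith)]
          congr 1
          ring
  exact absurd hAN (not_lt.2 hfin)

end Pool.Agent.EBX
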